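import Pool.Agent.P.MP_52ab5a_al.B.Iface
import Pool.Agent.P.MP_52ab5a_al.A.Iface

/-! Step ACY of the open orbit project. -/

namespace Pool.Agent.P.MP_52ab5a_al

open MvPolynomial WM

namespace AcyAux

section Abstract

variable {Ω Ω' : Type} [AddCommGroup Ω] [Module ℂ Ω] [AddCommGroup Ω'] [Module ℂ Ω']

/-- The homogenised differential. -/
noncomputable def DD (d₀ d₁ : Module.End ℂ Ω) : Module.End ℂ (ℕ →₀ Ω) :=
  Finsupp.mapRange.linearMap d₀ - Finsupp.lmapDomain _ ℂ (· + 1) * Finsupp.mapRange.linearMap d₁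

omit [Module ℂ Ω] in
theorem md_add (e : ℕ) (u : ℕ →₀ Ω) (j : ℕ) : Finsupp.mapDomain (· + e) u (j + e) = u j :=
  Finsupp.mapDomain_apply (f := (· + e)) (add_left_injective e) u j

omit [Module ℂ Ω] in
theorem md_lt (e : ℕ) (u : ℕ →₀ Ω) (j : ℕ) (h : j < e) : Finsupp.mapDomain (· + e) u j = 0 :=
  Finsupp.mapDomain_of_notMem_range u j (by rintro ⟨i, hi⟩; simp only at hi; omega)

theorem DD_zero (d₀ d₁ : Module.End ℂ Ω) (u : ℕ →₀ Ω) : DD d₀ d₁ u 0 = d₀ (u 0) := by
  simp [DD, md_lt 1 _ 0 Nat.one_pos]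

theorem DD_succ (d₀ d₁ : Module.End ℂ Ω) (u : ℕ →₀ Ω) (j : ℕ) :
    DD d₀ d₁ u (j + 1) = d₀ (u (j + 1)) - d₁ (u j) := by
  simp [DD, md_add 1 _ j]

/-- The sum of the coefficients. -/
noncomputable def ev (α Ω : Type) [AddCommGroup Ω] [Module ℂ Ω] : (α →₀ Ω) →ₗ[ℂ] Ω :=
  Finsupp.lsum ℂ fun _ => LinearMap.id

theorem ev_eq {α : Type} (u : α →₀ Ω) : ev α Ω u = u.sum fun _ x => x := rfl

theorem ev_md {α β : Type} (g : α → β) (u : α →₀ Ω) :
    ev β Ω (Finsupp.mapDomain g u) = ev α Ω u := by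
  induction u using Finsupp.induction_linear with
  | zero => simp
  | add u v hu hv => rw [Finsupp.mapDomain_add, map_add, map_add, hu, hv]
  | single a x => simp [ev]

theorem ev_mr {α : Type} (T : Ω →ₗ[ℂ] Ω') (u : α →₀ Ω) :
    ev α Ω' (Finsupp.mapRange.linearMap T u) = T (ev α Ω u) := by
  induction u using Finsupp.induction_linear with
  | zero => simp
  | add u v hu hv => rw [map_add, map_add, map_add, map_add, hu, hv]
  | single a x => simp [ev]

theorem ev_DD (d₀ d₁ : Module.End ℂ Ω) (u : ℕ →₀ Ω) :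
    ev ℕ Ω (DD d₀ d₁ u) = (d₀ - d₁) (ev ℕ Ω u) := by
  rw [DD, LinearMap.sub_apply, map_sub, Module.End.mul_apply, Finsupp.lmapDomain_apply, ev_md,
    ev_mr, ev_mr, LinearMap.sub_apply]

theorem DD_DD {d₀ d₁ : Module.End ℂ Ω} (h00 : ∀ x, d₀ (d₀ x) = 0)
    (h01 : ∀ x, d₀ (d₁ x) + d₁ (d₀ x) = 0) (h11 : ∀ x, d₁ (d₁ x) = 0) (u : ℕ →₀ Ω) :
    DD d₀ d₁ (DD d₀ d₁ u) = 0 := by
  ext j
  rcases j with _ | _ | j
  · rw [DD_zero, DD_zero, h00]; rfl
  · rw [DD_succ, DD_succ, DD_zero, map_sub, h00, zero_sub, ← neg_add', h01, neg_zero]; rfl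
  · rw [DD_succ, DD_succ, DD_succ, map_sub, map_sub, h00, h11, zero_sub, sub_zero, ← neg_add', h01,
      neg_zero]; rfl

theorem DD_md (d₀ d₁ : Module.End ℂ Ω) (e : ℕ) (u : ℕ →₀ Ω) (h : DD d₀ d₁ u = 0) :
    DD d₀ d₁ (Finsupp.mapDomain (· + e) u) = 0 := by
  ext j
  rcases lt_or_ge j e with hj | hj
  · rcases j with _ | j
    · rw [DD_zero, md_lt e u 0 hj, map_zero]; rfl
    · rw [DD_succ, md_lt e u _ hj, md_lt e u j (by omega), map_zero, map_zero, sub_zero]; rfl
  · obtain ⟨i, rfl⟩ : ∃ i, j = i + e := ⟨j - e, by omega⟩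
    rcases i with _ | i
    · have h0 : d₀ (u 0) = 0 := by rw [← DD_zero d₀ d₁, h]; rfl
      rcases e with _ | e
      · rw [DD_zero]
        have := md_add 0 u 0
        rw [show 0 + 0 = 0 from rfl] at this
        rw [this, h0]; rfl
      · have h1 := md_add (e + 1) u 0
        rw [show 0 + (e + 1) = e + 1 by omega] at h1 ⊢
        rw [DD_succ, h1, md_lt (e + 1) u e (by omega), h0, map_zero, sub_zero]; rfl
    · have h0 : d₀ (u (i + 1)) - d₁ (u i) = 0 := by rw [← DD_succ d₀ d₁, h]; rfl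
      have h1 := md_add e u (i + 1)
      rw [show i + 1 + e = i + e + 1 by omega] at h1 ⊢
      rw [DD_succ, h1, md_add, h0]; rfl

/-- The data of the abstract argument. -/
structure Data (d₀ d₁ : Module.End ℂ Ω) (d₀' d₁' : Module.End ℂ Ω') (G : ℤ → Submodule ℂ Ω)
    (W : ℂ → Submodule ℂ Ω) (sy : ℤ → Ω →ₗ[ℂ] Ω') (H : ℤ → ℂ → Ω' → Prop) (e : ℕ) (r : ℝ) :
    Prop where
  h00 : ∀ x, d₀ (d₀ x) = 0
  h01 : ∀ x, d₀ (d₁ x) + d₁ (d₀ x) = 0
  h11 : ∀ x, d₁ (d₁ x) = 0
  G0 : ∀ k, ∀ x ∈ G k, d₀ x ∈ G k ∧ d₁ x ∈ G (k - 1)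
  W0 : ∀ a, ∀ x ∈ W a, d₀ x ∈ W a ∧ d₁ x ∈ W (a + 1)
  sy0 : ∀ k, ∀ x ∈ G k, sy k (d₀ x) = d₀' (sy k x) ∧ sy (k - 1) (d₁ x) = d₁' (sy k x)
  ker : ∀ k, ∀ x ∈ G k, sy k x = 0 → x ∈ G (k - 1)
  hom : ∀ k a, ∀ x ∈ G k, x ∈ W a → H k a (sy k x)
  surj : ∀ k a y, H k a y → ∃ x ∈ G k, x ∈ W a ∧ sy k x = y
  bot : ∃ k₀, ∀ k < k₀, G k = ⊥
  exh : ∀ x, ∃ k, x ∈ G k
  mono : Monotone G
  grk : ∀ (k : ℤ) (a : ℂ) (u : ℕ →₀ Ω'), (∀ j : ℕ, H (k - j) (a + j) (u j)) → DD d₀' d₁' u = 0 →
    (∃ u' : ℕ →₀ Ω', (∀ j : ℕ, H (k + e - j) (a - e + j) (u' j)) ∧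
      DD d₀' d₁' u' = Finsupp.mapDomain (· + e) u) ∧
    (((k : ℂ) + a).re < r → ∃ u' : ℕ →₀ Ω', (∀ j : ℕ, H (k - j) (a + j) (u' j)) ∧
      DD d₀' d₁' u' = u)
  dec : ∀ x, ∃ c : ℂ →₀ Ω, (∀ a, c a ∈ W a) ∧ (c.sum fun _ u => u) = x
  ind : ∀ c : ℂ →₀ Ω, (∀ a, c a ∈ W a) → (c.sum fun _ u => u) = 0 → ∀ a, c a = 0

variable {d₀ d₁ : Module.End ℂ Ω} {d₀' d₁' : Module.End ℂ Ω'} {G : ℤ → Submodule ℂ Ω}
  {W : ℂ → Submodule ℂ Ω} {sy : ℤ → Ω →ₗ[ℂ] Ω'} {H : ℤ → ℂ → Ω' → Prop} {e : ℕ} {r : ℝ}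

theorem exists_sig (sy : ℤ → Ω →ₗ[ℂ] Ω') (k : ℤ) (u : ℕ →₀ Ω) :
    ∃ u' : ℕ →₀ Ω', ∀ j : ℕ, u' j = sy (k - j) (u j) :=
  ⟨Finsupp.onFinset u.support (fun j => sy (k - j) (u j)) (fun j hj => by
    rw [Finsupp.mem_support_iff]
    intro h0
    exact hj (by rw [h0, map_zero])), fun _ => rfl⟩

theorem Data.lift (h : Data d₀ d₁ d₀' d₁' G W sy H e r) (k : ℤ) (a : ℂ) (u' : ℕ →₀ Ω')
    (hu : ∀ j : ℕ, H (k - j) (a + j) (u' j)) :
    ∃ t : ℕ →₀ Ω, ∀ j : ℕ, t j ∈ G (k - j) ∧ t j ∈ W (a + j) ∧ u' j = sy (k - j) (t j) := by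
  have h1 : ∀ j : ℕ, ∃ x, (x ∈ G (k - j) ∧ x ∈ W (a + j) ∧ u' j = sy (k - j) x) ∧
      (u' j = 0 → x = 0) := by
    intro j
    by_cases h0 : u' j = 0
    · exact ⟨0, ⟨zero_mem _, zero_mem _, by rw [h0, map_zero]⟩, fun _ => rfl⟩
    · obtain ⟨x, h1, h2, h3⟩ := h.surj _ _ _ (hu j)
      exact ⟨x, ⟨h1, h2, h3.symm⟩, fun h4 => absurd h4 h0⟩
  choose t ht ht' using h1
  exact ⟨Finsupp.onFinset u'.support t (fun j hj => by
    rw [Finsupp.mem_support_iff]
    exact fun h0 => hj (ht' j h0)), ht⟩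

theorem Data.DD_mem (h : Data d₀ d₁ d₀' d₁' G W sy H e r) (k : ℤ) (a : ℂ) (t : ℕ →₀ Ω)
    (t' : ℕ →₀ Ω') (ht : ∀ j : ℕ, t j ∈ G (k - j) ∧ t j ∈ W (a + j) ∧ t' j = sy (k - j) (t j))
    (j : ℕ) : DD d₀ d₁ t j ∈ G (k - j) ∧ DD d₀ d₁ t j ∈ W (a + j) ∧
      DD d₀' d₁' t' j = sy (k - j) (DD d₀ d₁ t j) := by
  rcases j with _ | j
  · rw [DD_zero, DD_zero]
    obtain ⟨h1, h2, h3⟩ := ht 0
    exact ⟨(h.G0 _ _ h1).1, (h.W0 _ _ h2).1, by rw [h3, (h.sy0 _ _ h1).1]⟩
  · rw [DD_succ, DD_succ]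
    obtain ⟨h1, h2, h3⟩ := ht (j + 1)
    obtain ⟨h4, h5, h6⟩ := ht j
    have e1 : k - ((j + 1 : ℕ) : ℤ) = k - j - 1 := by push_cast; ring
    have e2 : a + ((j + 1 : ℕ) : ℂ) = a + j + 1 := by push_cast; ring
    refine ⟨sub_mem (h.G0 _ _ h1).1 ?_, sub_mem (h.W0 _ _ h2).1 ?_, ?_⟩
    · rw [e1]; exact (h.G0 _ _ h4).2
    · rw [e2]; exact (h.W0 _ _ h5).2
    · rw [map_sub, h3, (h.sy0 _ _ h1).1, h6, e1, (h.sy0 _ _ h4).2]

/-- One step: subtract a boundary and lower the filtration index. -/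
theorem Data.step (h : Data d₀ d₁ d₀' d₁' G W sy H e r) (k : ℤ) (a : ℂ) (v : ℕ →₀ Ω)
    (t' : ℕ →₀ Ω') (hv : ∀ j : ℕ, v j ∈ G (k - j) ∧ v j ∈ W (a + j)) (hD : DD d₀ d₁ v = 0)
    (ht : ∀ j : ℕ, H (k - j) (a + j) (t' j))
    (hs : ∀ j : ℕ, DD d₀' d₁' t' j = sy (k - j) (v j))
    (ih : ∀ v' : ℕ →₀ Ω, (∀ j : ℕ, v' j ∈ G (k - 1 - j) ∧ v' j ∈ W (a + j)) → DD d₀ d₁ v' = 0 →
      ev ℕ Ω v' ∈ LinearMap.range (d₀ - d₁)) : ev ℕ Ω v ∈ LinearMap.range (d₀ - d₁) := by
  obtain ⟨t, htt⟩ := h.lift k a t' ht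
  have h1 := h.DD_mem k a t t' htt
  have h2 := ih (v - DD d₀ d₁ t) (fun j => by
    rw [Finsupp.sub_apply]
    refine ⟨?_, sub_mem (hv j).2 (h1 j).2.1⟩
    rw [show k - 1 - j = k - j - 1 by ring]
    refine h.ker _ _ (sub_mem (hv j).1 (h1 j).1) ?_
    rw [map_sub, ← hs j, (h1 j).2.2, sub_self]) (by
    rw [map_sub, hD, DD_DD h.h00 h.h01 h.h11, sub_zero])
  rw [map_sub, ev_DD] at h2
  have h3 := add_mem h2 (LinearMap.mem_range_self (d₀ - d₁) (ev ℕ Ω t))
  rwa [sub_add_cancel] at h3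

theorem Data.sig (h : Data d₀ d₁ d₀' d₁' G W sy H e r) (k : ℤ) (a : ℂ) (u : ℕ →₀ Ω)
    (hu : ∀ j : ℕ, u j ∈ G (k - j) ∧ u j ∈ W (a + j)) (hD : DD d₀ d₁ u = 0) :
    ∃ u' : ℕ →₀ Ω', (∀ j : ℕ, u' j = sy (k - j) (u j)) ∧ (∀ j : ℕ, H (k - j) (a + j) (u' j)) ∧
      DD d₀' d₁' u' = 0 := by
  obtain ⟨u', hu'⟩ := exists_sig sy k u
  refine ⟨u', hu', fun j => ?_, ?_⟩
  · rw [hu']; exact h.hom _ _ _ (hu j).1 (hu j).2
  · ext j
    rw [(h.DD_mem k a u u' (fun j => ⟨(hu j).1, (hu j).2, hu' j⟩) j).2.2, hD]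
    exact map_zero _

theorem Data.low (h : Data d₀ d₁ d₀' d₁' G W sy H e r) (a : ℂ) (k : ℤ) (hk : ((k : ℂ) + a).re < r)
    (u : ℕ →₀ Ω) (hu : ∀ j : ℕ, u j ∈ G (k - j) ∧ u j ∈ W (a + j)) (hD : DD d₀ d₁ u = 0) :
    ev ℕ Ω u ∈ LinearMap.range (d₀ - d₁) := by
  obtain ⟨k₀, hk₀⟩ := h.bot
  obtain ⟨n, hn⟩ : ∃ n : ℕ, k < k₀ + n := ⟨(k - k₀).toNat + 1, by omega⟩
  induction n generalizing k u with
  | zero =>
    have h0 : u = 0 := by
      ext j
      have := (hu j).1
      rw [hk₀ _ (by omega), Submodule.mem_bot] at this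
      exact this
    rw [h0, map_zero]
    exact zero_mem _
  | succ n ih =>
    obtain ⟨u', h1, h2, h3⟩ := h.sig k a u hu hD
    obtain ⟨t', h4, h5⟩ := (h.grk k a u' h2 h3).2 hk
    refine h.step k a u t' hu hD h4 (fun j => by rw [h5, h1]) fun v' hv' hD' =>
      ih (k - 1) ?_ v' hv' hD' (by omega)
    simp only [Complex.add_re, Complex.intCast_re, Int.cast_sub, Int.cast_one, Complex.sub_re,
      Complex.one_re] at hk ⊢
    linarith

theorem Data.gen (h : Data d₀ d₁ d₀' d₁' G W sy H e r) (a : ℂ) (k : ℤ)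
    (u : ℕ →₀ Ω) (hu : ∀ j : ℕ, u j ∈ G (k - j) ∧ u j ∈ W (a + j)) (hD : DD d₀ d₁ u = 0) :
    ev ℕ Ω u ∈ LinearMap.range (d₀ - d₁) := by
  obtain ⟨n, hn⟩ : ∃ n : ℕ, ((k : ℂ) + a).re < r + n := by
    obtain ⟨n, hn⟩ := exists_nat_gt (((k : ℂ) + a).re - r)
    exact ⟨n, by linarith⟩
  induction n generalizing k a u with
  | zero => exact h.low a k (by simpa using hn) u hu hD
  | succ n ih =>
    obtain ⟨u', h1, h2, h3⟩ := h.sig k a u hu hD
    obtain ⟨t', h4, h5⟩ := (h.grk k a u' h2 h3).1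
    rw [← ev_md (· + e) u]
    have key : ∀ j : ℕ, (Finsupp.mapDomain (· + e) u j ∈ G (k + e - j) ∧
        Finsupp.mapDomain (· + e) u j ∈ W (a - e + j)) ∧
        Finsupp.mapDomain (· + e) u' j = sy (k + e - j) (Finsupp.mapDomain (· + e) u j) := by
      intro j
      rcases lt_or_ge j e with hj | hj
      · rw [md_lt e u j hj, md_lt e u' j hj, map_zero]
        exact ⟨⟨zero_mem _, zero_mem _⟩, rfl⟩
      · obtain ⟨i, rfl⟩ : ∃ i, j = i + e := ⟨j - e, by omega⟩
        have e1 : k + e - ((i + e : ℕ) : ℤ) = k - i := by push_cast; ring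
        have e2 : a - e + ((i + e : ℕ) : ℂ) = a + i := by push_cast; ring
        rw [md_add, md_add, e1, e2]
        exact ⟨hu i, h1 i⟩
    refine h.step (k + e) (a - e) _ t' (fun j => (key j).1) (DD_md d₀ d₁ e u hD) h4
      (fun j => by rw [h5, (key j).2]) fun v' hv' hD' => ih (a - e) (k + e - 1) v' hv' hD' ?_
    simp only [Complex.add_re, Complex.intCast_re, Int.cast_sub, Int.cast_one, Complex.sub_re,
      Complex.one_re, Int.cast_add, Int.cast_natCast, Complex.natCast_re, Nat.cast_add,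
      Nat.cast_one] at hn ⊢
    linarith

theorem Data.wt (h : Data d₀ d₁ d₀' d₁' G W sy H e r) (a : ℂ) (u : ℕ →₀ Ω)
    (hu : ∀ j : ℕ, u j ∈ W (a + j)) (hD : DD d₀ d₁ u = 0) :
    ev ℕ Ω u ∈ LinearMap.range (d₀ - d₁) := by
  choose κ hκ using h.exh
  obtain ⟨k, hk⟩ := Finset.exists_le (u.support.image fun j : ℕ => κ (u j) + j)
  refine h.gen a k u (fun j => ⟨?_, hu j⟩) hD
  by_cases hj : j ∈ u.support
  · have := hk _ (Finset.mem_image_of_mem _ hj)
    exact h.mono (by omega) (hκ (u j))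
  · rw [Finsupp.notMem_support_iff.1 hj]
    exact zero_mem _

theorem Data.coset (h : Data d₀ d₁ d₀' d₁' G W sy H e r) (c : ℂ →₀ Ω) (hc : ∀ a, c a ∈ W a)
    (hd : ∀ a, d₀ (c (a + 1)) = d₁ (c a)) : ev ℂ Ω c ∈ LinearMap.range (d₀ - d₁) := by
  classical
  induction hn : c.support.card using Nat.strong_induction_on generalizing c with
  | _ n ih =>
  rcases c.support.eq_empty_or_nonempty with h0 | h0
  · rw [Finsupp.support_eq_empty.1 h0, map_zero]
    exact zero_mem _
  obtain ⟨a, ha, hmin⟩ := Finset.exists_min_image c.support (fun a => a.re) h0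
  have hinj : Function.Injective fun j : ℕ => a + j := fun i j hij => by
    exact_mod_cast add_left_cancel hij
  have h1 : c (a - 1) = 0 := by
    by_contra h1
    have := hmin _ (Finsupp.mem_support_iff.2 h1)
    simp only [Complex.sub_re, Complex.one_re] at this
    linarith
  let u : ℕ →₀ Ω := Finsupp.comapDomain (fun j : ℕ => a + j) c hinj.injOn
  have hu : ∀ j : ℕ, u j = c (a + j) := fun _ => rfl
  let c' : ℂ →₀ Ω := c.filter fun b => ¬ ∃ j : ℕ, a + j = b
  have hc' : ∀ b, c' b = if ¬ ∃ j : ℕ, a + j = b then c b else 0 := fun b =>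
    Finsupp.filter_apply _ _ _
  have hsum : c = Finsupp.mapDomain (fun j : ℕ => a + j) u + c' := by
    ext b
    rw [Finsupp.add_apply, hc']
    by_cases hb : ∃ j : ℕ, a + j = b
    · rw [if_neg (not_not.2 hb), add_zero]
      obtain ⟨j, rfl⟩ := hb
      exact (Finsupp.mapDomain_apply hinj u j).symm
    · rw [if_pos hb, Finsupp.mapDomain_of_notMem_range u b hb, zero_add]
  have hA : ev ℕ Ω u ∈ LinearMap.range (d₀ - d₁) := by
    refine h.wt a u (fun j => hc _) ?_
    ext j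
    rcases j with _ | j
    · have := hd (a - 1)
      rw [sub_add_cancel, h1, map_zero] at this
      rw [DD_zero, hu, Nat.cast_zero, add_zero, this]; rfl
    · rw [DD_succ, hu, hu, Nat.cast_succ, ← add_assoc, hd, sub_self]; rfl
  have hB : ev ℂ Ω c' ∈ LinearMap.range (d₀ - d₁) := by
    refine ih c'.support.card ?_ c' (fun b => ?_) (fun b => ?_) rfl
    · rw [← hn]
      refine Finset.card_lt_card ⟨fun b hb => ?_, fun hs => ?_⟩
      · rw [Finsupp.mem_support_iff] at hb ⊢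
        intro h2
        rw [hc', h2, ite_self] at hb
        exact hb rfl
      · have := Finsupp.mem_support_iff.1 (hs ha)
        rw [hc', if_neg (not_not.2 ⟨0, by simp⟩)] at this
        exact this rfl
    · rw [hc']
      split_ifs
      exacts [zero_mem _, hc b]
    · rw [hc', hc']
      by_cases hb : ∃ j : ℕ, a + j = b
      · obtain ⟨j, rfl⟩ := hb
        rw [if_neg (not_not.2 ⟨j + 1, by push_cast; ring⟩), if_neg (not_not.2 ⟨j, rfl⟩), map_zero,
          map_zero]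
      · rw [if_pos hb]
        by_cases hb' : ∃ j : ℕ, a + j = b + 1
        · rw [if_neg (not_not.2 hb')]
          obtain ⟨j, hj⟩ := hb'
          rcases j with _ | j
          · have : b = a - 1 := by
              rw [Nat.cast_zero, add_zero] at hj
              rw [hj]; ring
            rw [this, h1, map_zero, map_zero]
          · exact absurd ⟨j, by push_cast at hj; linear_combination hj⟩ hb
        · rw [if_pos hb', hd]
  rw [hsum, map_add, ev_md]
  exact add_mem hA hB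

theorem Data.main (h : Data d₀ d₁ d₀' d₁' G W sy H e r) :
    LinearMap.ker (d₀ - d₁) ≤ LinearMap.range (d₀ - d₁) := by
  intro x hx
  obtain ⟨c, hc, hs⟩ := h.dec x
  rw [← ev_eq] at hs
  rw [← hs]
  refine h.coset c hc fun a => ?_
  have hap : ∀ b : ℂ, (Finsupp.mapRange.linearMap d₀ c -
      Finsupp.mapDomain (· + 1) (Finsupp.mapRange.linearMap d₁ c) : ℂ →₀ Ω) (b + 1) =
      d₀ (c (b + 1)) - d₁ (c b) := by
    intro b
    rw [Finsupp.sub_apply, Finsupp.mapDomain_apply (f := (· + 1)) (add_left_injective 1)]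
    rfl
  have h1 := h.ind (Finsupp.mapRange.linearMap d₀ c -
      Finsupp.mapDomain (· + 1) (Finsupp.mapRange.linearMap d₁ c)) (fun b => by
    obtain ⟨b, rfl⟩ : ∃ b', b = b' + 1 := ⟨b - 1, by ring⟩
    rw [hap]
    exact sub_mem (h.W0 _ _ (hc _)).1 (h.W0 _ _ (hc _)).2) (by
    rw [← ev_eq, map_sub, ev_md, ev_mr, ev_mr, hs]
    exact hx) (a + 1)
  rw [hap] at h1
  exact sub_eq_zero.1 h1

end Abstract

section Forms

variable {σ : Type} [Fintype σ] [LinearOrder σ] {M M' : Type} [AddCommGroup M] [Module ℂ M]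
  [AddCommGroup M'] [Module ℂ M']

/-- The Koszul differential of a family of operators. -/
noncomputable def kz (A : σ → Module.End ℂ M) : Module.End ℂ (Finset σ → M) :=
  ∑ s, act M (eps s) * pw (Finset σ) (A s)

theorem act_eps (s : σ) (x : Finset σ → M) (I : Finset σ) :
    act M (eps s) x I =
      if s ∈ I then ((-1 : ℂ) ^ (I.filter (· < s)).card) • x (I.erase s) else 0 := by
  rw [act_apply, Finset.sum_eq_single (I.erase s)]
  · by_cases h : s ∈ I <;> simp [eps, h]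
  · intro J _ hJ
    simp [eps, hJ]
  · intro h
    exact absurd (Finset.mem_univ _) h

theorem kz_apply (A : σ → Module.End ℂ M) (x : Finset σ → M) (I : Finset σ) :
    kz A x I = ∑ s, if s ∈ I then ((-1 : ℂ) ^ (I.filter (· < s)).card) • A s (x (I.erase s))
      else 0 := by
  rw [kz, LinearMap.sum_apply, Finset.sum_apply]
  refine Finset.sum_congr rfl fun s _ => ?_
  rw [Module.End.mul_apply, act_eps, pw_apply]

theorem kz_mem (A : σ → Module.End ℂ M) (x : Finset σ → M) (I : Finset σ) (P : Submodule ℂ M)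
    (h : ∀ s ∈ I, A s (x (I.erase s)) ∈ P) : kz A x I ∈ P := by
  rw [kz_apply]
  refine Submodule.sum_mem _ fun s _ => ?_
  split_ifs with hs
  exacts [P.smul_mem _ (h s hs), zero_mem _]

theorem kz_map (A : σ → Module.End ℂ M) (A' : σ → Module.End ℂ M') (x : Finset σ → M)
    (x' : Finset σ → M') (I : Finset σ) (φ : M →ₗ[ℂ] M')
    (h : ∀ s ∈ I, φ (A s (x (I.erase s))) = A' s (x' (I.erase s))) : φ (kz A x I) = kz A' x' I := by
  rw [kz_apply, kz_apply, map_sum]
  refine Finset.sum_congr rfl fun s _ => ?_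
  split_ifs with hs
  · rw [map_smul, h s hs]
  · exact map_zero _

theorem kz_const (c : σ → ℂ) :
    kz (fun s => c s • (1 : Module.End ℂ M)) = ∑ s, c s • act M (eps s) := by
  refine Finset.sum_congr rfl fun s _ => ?_
  rw [map_smul, map_one, mul_smul_comm, mul_one]

theorem kz_sub (A B : σ → Module.End ℂ M) : kz (fun s => A s - B s) = kz A - kz B := by
  rw [kz, kz, kz, ← Finset.sum_sub_distrib]
  refine Finset.sum_congr rfl fun s _ => ?_
  rw [map_sub, mul_sub]

theorem kz_anti (hC : S_CLIF) (A B : σ → Module.End ℂ M) (h : ∀ s t, A s * B t = B t * A s) :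
    kz A * kz B + kz B * kz A = 0 := by
  rw [kz, kz, Finset.sum_mul_sum, Finset.sum_mul_sum,
    Finset.sum_comm (f := fun t s => act M (eps t) * pw (Finset σ) (B t) *
      (act M (eps s) * pw (Finset σ) (A s))), ← Finset.sum_add_distrib]
  refine Finset.sum_eq_zero fun s _ => ?_
  rw [← Finset.sum_add_distrib]
  refine Finset.sum_eq_zero fun t _ => ?_
  have e : ∀ (a b : σ) (S T : Module.End ℂ M), act M (eps a) * pw (Finset σ) S *
      (act M (eps b) * pw (Finset σ) T) = act M (eps a * eps b) * pw (Finset σ) (S * T) := by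
    intro a b S T
    rw [map_mul, map_mul, mul_assoc, ← mul_assoc (pw (Finset σ) S), ← act_mul_pw, mul_assoc,
      mul_assoc]
  rw [e, e, ← h, ← add_mul, ← map_add, ((hC σ).1 s t).1, map_zero, zero_mul]

theorem kz_sq (hC : S_CLIF) (A : σ → Module.End ℂ M) (h : ∀ s t, A s * A t = A t * A s)
    (x : Finset σ → M) : kz A (kz A x) = 0 := by
  have h1 := LinearMap.congr_fun (kz_anti hC A A h) x
  rw [LinearMap.add_apply, Module.End.mul_apply, LinearMap.zero_apply, ← two_smul ℂ] at h1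
  exact (smul_eq_zero.1 h1).resolve_left two_ne_zero

/-- Number of positive weights. -/
def pp (w : σ → ℤ) (I : Finset σ) : ℤ := ((I.filter fun s => 0 < w s).card : ℤ)

/-- Total absolute weight. -/
def qq (w : σ → ℤ) (I : Finset σ) : ℤ := ∑ s ∈ I, |w s|

omit [Fintype σ] in
theorem pp_erase (w : σ → ℤ) {I : Finset σ} {s : σ} (hs : s ∈ I) :
    pp w I = pp w (I.erase s) + if w s ≤ 0 then 0 else 1 := by
  unfold pp
  rw [Finset.filter_erase]
  split_ifs with h
  · have h1 : s ∉ I.filter fun s => 0 < w s := fun h' =>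
      absurd (Finset.mem_filter.1 h').2 (not_lt.2 h)
    rw [Finset.erase_eq_of_notMem h1, add_zero]
  · have := Finset.card_erase_add_one (s := I.filter fun s => 0 < w s) (a := s)
      (Finset.mem_filter.2 ⟨hs, not_le.1 h⟩)
    omega

omit [Fintype σ] in
theorem qq_erase (w : σ → ℤ) {I : Finset σ} {s : σ} (hs : s ∈ I) :
    qq w I = qq w (I.erase s) + |w s| := (Finset.sum_erase_add _ _ hs).symm

/-- An operator plus a scalar depending on the entry is diagonalisable. -/
theorem diag_forms (T : Module.End ℂ M) (hT : Diag T) (q : Finset σ → ℂ) :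
    Diag (pw (Finset σ) T + act M (Matrix.diagonal q)) := by
  have hap : ∀ (x : Finset σ → M) I, (pw (Finset σ) T + act M (Matrix.diagonal q)) x I =
      T (x I) + q I • x I := by
    intro x I
    rw [LinearMap.add_apply, Pi.add_apply, pw_apply, act_apply, Finset.sum_eq_single I]
    · rw [Matrix.diagonal_apply_eq]
    · intro J _ hJ
      rw [Matrix.diagonal_apply_ne _ (Ne.symm hJ), zero_smul]
    · intro h
      exact absurd (Finset.mem_univ _) h
  unfold Diag
  rw [eq_top_iff]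
  intro x _
  rw [← Finset.univ_sum_single x]
  refine Submodule.sum_mem _ fun I _ => ?_
  have hx : x I ∈ ⨆ a : ℂ, T.eigenspace a := by rw [hT]; trivial
  generalize x I = v at hx
  induction hx using Submodule.iSup_induction' with
  | mem a v hv =>
    refine Submodule.mem_iSup_of_mem (a + q I) (Module.End.mem_eigenspace_iff.2 ?_)
    funext J
    rw [hap, Pi.smul_apply]
    by_cases hJ : J = I
    · subst hJ
      rw [Pi.single_eq_same, Module.End.mem_eigenspace_iff.1 hv, add_smul]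
    · rw [Pi.single_eq_of_ne hJ, map_zero, smul_zero, smul_zero, add_zero]
  | zero => rw [Pi.single_zero]; exact zero_mem _
  | add u v _ _ hu hv => rw [Pi.single_add]; exact add_mem hu hv

theorem forms_apply (T : Module.End ℂ M) (q : Finset σ → ℂ) (x : Finset σ → M) (I : Finset σ) :
    (pw (Finset σ) T + act M (Matrix.diagonal q)) x I = T (x I) + q I • x I := by
  rw [LinearMap.add_apply, Pi.add_apply, pw_apply, act_apply, Finset.sum_eq_single I]
  · rw [Matrix.diagonal_apply_eq]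
  · intro J _ hJ
    rw [Matrix.diagonal_apply_ne _ (Ne.symm hJ), zero_smul]
  · intro h
    exact absurd (Finset.mem_univ _) h

end Forms

end AcyAux

open AcyAux in
theorem p_ACY (hDIAG : S_DIAG) (hREES : S_REES) (hVF : S_VF) (hCLIF : S_CLIF) (hGRK : S_GRK) (hGRM : S_GRM) :
    S_ACY := by
  intro σ _ _ N F w Y hW hG hdiag hF hYX hYD hfib
  obtain ⟨V, _, _, f, z, O, -, hsurj, hsing, hz, hzz, hfg, hO, hOe, hOz, hdesc, hrad⟩ :=
    hGRM σ N F hW hG
  obtain ⟨E, hE, hOE, hEd⟩ := hdesc (N.eu w) hF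
  have hEd := hEd hdiag
  obtain ⟨-, hsh, hrx, -, -, -, hlat⟩ := hREES σ N
  obtain ⟨hmem, hrxl, -, hrz⟩ := hlat F
  have hrz := (hrz hG.mono hG.stX hG.stD).1
  have hf : ∀ x : V, ∃ u ∈ lat F, f u = x := fun x => by
    have : x ∈ (lat F).map f := by rw [hsurj]; trivial
    exact this
  -- commutation with the Euler operator
  have hX : ∀ s, N.eu w * N.X s = N.X s * N.eu w + (w s : ℂ) • N.X s := by
    intro s
    have h1 := ((hVF σ N).2.2.2.2.1 hW).1 (dg w) s
    rw [(hVF σ N).2.1, Finset.sum_eq_single s (fun t _ ht => by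
      rw [dg, Matrix.diagonal_apply_ne _ (Ne.symm ht), zero_smul])
      (fun h => absurd (Finset.mem_univ _) h), dg, Matrix.diagonal_apply_eq] at h1
    rw [← h1]; abel
  have hD : ∀ s, N.eu w * N.D s = N.D s * N.eu w - (w s : ℂ) • N.D s := by
    intro s
    have h1 := ((hVF σ N).2.2.2.2.1 hW).2.1 (dg w) s
    rw [(hVF σ N).2.1, Finset.sum_eq_single s (fun t _ ht => by
      rw [dg, Matrix.diagonal_apply_ne _ ht, zero_smul])
      (fun h => absurd (Finset.mem_univ _) h), dg, Matrix.diagonal_apply_eq] at h1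
    rw [sub_eq_add_neg, ← h1]; abel
  have hEz : ∀ (v : σ ⊕ σ) (c : ℂ), rx (N.eu w) * N.rz v = N.rz v * rx (N.eu w) + c • N.rz v →
      E * z v = z v * E + c • z v := by
    intro v c h
    refine LinearMap.ext fun x => ?_
    obtain ⟨u, hu, rfl⟩ := hf x
    rw [LinearMap.add_apply, Module.End.mul_apply, Module.End.mul_apply, LinearMap.smul_apply,
      hz v u hu, hE _ ((hrz u hu).2 v), hE u hu, hz v _ (hrxl _ hF u hu), ← map_smul, ← map_add]
    exact congrArg f (LinearMap.congr_fun h u)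
  have hEX : ∀ s, E * z (Sum.inl s) = z (Sum.inl s) * E + (w s : ℂ) • z (Sum.inl s) := by
    intro s
    refine hEz _ _ ?_
    show rx (N.eu w) * rx (N.X s) = rx (N.X s) * rx (N.eu w) + (w s : ℂ) • rx (N.X s)
    rw [← (hrx _ _).1, hX, (hrx _ _).2.1, (hrx _ _).1, (hrx (N.X s) 0).2.2]
  have hED : ∀ s, E * z (Sum.inr s) = z (Sum.inr s) * E - (w s : ℂ) • z (Sum.inr s) := by
    intro s
    rw [sub_eq_add_neg, ← neg_smul]
    refine hEz _ _ ?_
    show rx (N.eu w) * (sh N.V * rx (N.D s)) =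
      sh N.V * rx (N.D s) * rx (N.eu w) + (-(w s : ℂ)) • (sh N.V * rx (N.D s))
    rw [← mul_assoc, ← hsh, mul_assoc, ← (hrx _ _).1, hD, sub_eq_add_neg, ← neg_smul,
      (hrx _ _).2.1, (hrx _ _).1, (hrx (N.D s) 0).2.2, mul_add, mul_assoc, mul_smul_comm]
  have hradz : radz z Y ⊤ = ⊤ := by
    rw [eq_top_iff]
    intro x _
    obtain ⟨u, hu, rfl⟩ := hf x
    exact hrad Y u (hfib hu)
  obtain ⟨e, r, hgrk⟩ := hGRK σ V z O E w Y hzz hfg hO hEd hOE
    (fun s => ⟨(hOz s).1, (hOz s).2, hEX s, hED s⟩) hYX hYD hradz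
  -- symbols
  have hsl : ∀ k, ∀ v ∈ F k, Finsupp.single k v ∈ lat F := by
    intro k v hv
    refine (hmem _).2 fun l => ?_
    by_cases h : k = l
    · subst h; rw [Finsupp.single_eq_same]; exact hv
    · rw [Finsupp.single_eq_of_ne (Ne.symm h)]; exact zero_mem _
  have hrxs : ∀ (T : Module.End ℂ N.V) (k : ℤ) v,
      rx T (Finsupp.single k v) = Finsupp.single k (T v) := by
    intro T k v
    simp [rx]
  have hzX : ∀ k, ∀ v ∈ F k, ∀ s,
      z (Sum.inl s) (f (Finsupp.single k v)) = f (Finsupp.single k (N.X s v)) := by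
    intro k v hv s
    rw [hz _ _ (hsl k v hv), ← hrxs]; rfl
  have hzD : ∀ k, ∀ v ∈ F k, ∀ s,
      z (Sum.inr s) (f (Finsupp.single k v)) = f (Finsupp.single (k + 1) (N.D s v)) := by
    intro k v hv s
    rw [hz _ _ (hsl k v hv)]
    show f (sh N.V (rx (N.D s) (Finsupp.single k v))) = _
    rw [hrxs, sh, Finsupp.lmapDomain_apply, Finsupp.mapDomain_single]
  have hEs : ∀ k, ∀ v ∈ F k, E (f (Finsupp.single k v)) = f (Finsupp.single k (N.eu w v)) := by
    intro k v hv
    rw [hE _ (hsl k v hv), hrxs]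
  have hlift : ∀ (k : ℤ) (a : ℂ) (y : V), O y = (k : ℂ) • y → E y = a • y →
      ∃ v ∈ F k, N.eu w v = a • v ∧ f (Finsupp.single k v) = y := by
    intro k a y h1 h2
    obtain ⟨v, hv, rfl⟩ := hOe k y h1
    obtain ⟨c, hc, hs⟩ := (hDIAG _ _ hdiag).1 v
    have hcF := (hDIAG _ _ hdiag).2.1 (F k) (hF k) c
      (fun b => by rw [hc, sub_self]; exact zero_mem _) (by rw [hs]; exact hv)
    refine ⟨c a, hcF a, hc a, ?_⟩
    have hap : ∀ b, (Finsupp.mapRange.linearMap (f ∘ₗ Finsupp.lsingle k) c -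
        Finsupp.single a (f (Finsupp.single k v)) : ℂ →₀ V) b =
        f (Finsupp.single k (c b)) - Finsupp.single a (f (Finsupp.single k v)) b := fun _ => rfl
    have h3 := (hDIAG _ _ hEd).2.1 ⊥ (fun u hu => by rw [Submodule.mem_bot] at hu ⊢; rw [hu, map_zero])
      (Finsupp.mapRange.linearMap (f ∘ₗ Finsupp.lsingle k) c -
        Finsupp.single a (f (Finsupp.single k v))) (fun b => by
        rw [Submodule.mem_bot, hap, map_sub, smul_sub, hEs k _ (hcF b), hc, ← Finsupp.smul_single,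
          map_smul]
        by_cases hb : a = b
        · subst hb
          rw [Finsupp.single_eq_same, h2, sub_self]
        · rw [Finsupp.single_eq_of_ne (Ne.symm hb), map_zero, smul_zero, sub_self]) (by
        rw [Submodule.mem_bot, ← ev_eq, map_sub, ev_mr, ev_eq c, hs, ev_eq,
          Finsupp.sum_single_index rfl]
        exact sub_self _) a
    rw [Submodule.mem_bot, hap, Finsupp.single_eq_same] at h3
    exact sub_eq_zero.1 h3
  -- the operators
  let A : σ → Module.End ℂ N.V := fun s =>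
    if w s ≤ 0 then N.X s - Y (Sum.inl s) • (1 : Module.End ℂ N.V) else N.D s
  let A' : σ → Module.End ℂ V := fun s =>
    if w s ≤ 0 then z (Sum.inl s) - Y (Sum.inl s) • (1 : Module.End ℂ V) else z (Sum.inr s)
  let c : σ → ℂ := fun s => if w s ≤ 0 then 0 else Y (Sum.inr s)
  have hAA : ∀ s t, A s * A t = A t * A s := by
    intro s t
    by_cases hst : s = t
    · rw [hst]
    have h1 := hW.1 s t
    have h2 := hW.2.1 s t
    have h3 := hW.2.2.2 s t hst
    have h4 := hW.2.2.2 t s (Ne.symm hst)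
    simp only [A]
    split_ifs
    · simp only [mul_sub, sub_mul, mul_smul_comm, smul_mul_assoc, mul_one, one_mul, h1, smul_sub,
        smul_smul, mul_comm (Y (Sum.inl s))]
      abel
    · simp only [mul_sub, sub_mul, mul_smul_comm, smul_mul_assoc, mul_one, one_mul, h4]
    · simp only [mul_sub, sub_mul, mul_smul_comm, smul_mul_assoc, mul_one, one_mul, h3]
    · exact h2
  have hAw : ∀ s (b : ℂ) v, N.eu w v = b • v →
      N.eu w (A s v) = (b - ((|w s| : ℤ) : ℂ)) • A s v := by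
    intro s b v hv
    have h1 := LinearMap.congr_fun (hX s) v
    have h2 := LinearMap.congr_fun (hD s) v
    simp only [Module.End.mul_apply, LinearMap.add_apply, LinearMap.sub_apply,
      LinearMap.smul_apply, hv, map_smul] at h1 h2
    simp only [A]
    split_ifs with h
    · rw [abs_of_nonpos h, LinearMap.sub_apply, LinearMap.smul_apply, Module.End.one_apply, map_sub,
        map_smul, h1, hv]
      by_cases hY : Y (Sum.inl s) = 0
      · rw [hY]; push_cast; module
      · rw [hYX s hY]; push_cast; module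
    · rw [abs_of_pos (not_le.1 h), h2, sub_smul]
  let E0 : Module.End ℂ (Finset σ → N.V) :=
    pw (Finset σ) (N.eu w) + act N.V (Matrix.diagonal fun I => (qq w I : ℂ))
  have hE0 : Diag E0 := diag_forms _ hdiag _
  have hWm : ∀ (a : ℂ) (x : Finset σ → N.V), x ∈ E0.eigenspace a ↔
      ∀ I, N.eu w (x I) = (a - (qq w I : ℂ)) • x I := by
    intro a x
    rw [Module.End.mem_eigenspace_iff, funext_iff]
    refine forall_congr' fun I => ?_
    rw [forms_apply, Pi.smul_apply, sub_smul, eq_sub_iff_add_eq]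
  let sy : ℤ → (Finset σ → N.V) →ₗ[ℂ] (Finset σ → V) := fun k =>
    LinearMap.pi fun I => (f ∘ₗ Finsupp.lsingle (k + pp w I)) ∘ₗ LinearMap.proj I
  have hsy : ∀ k x I, sy k x I = f (Finsupp.single (k + pp w I) (x I)) := fun _ _ _ => rfl
  have data : Data (kz A) (kz fun s => c s • (1 : Module.End ℂ N.V)) (kz A')
      (kz fun s => c s • (1 : Module.End ℂ V))
      (fun k => Submodule.pi Set.univ fun I => F (k + pp w I)) (fun a => E0.eigenspace a) sy
      (fun k a y => ∀ I, O (y I) = ((k : ℂ) + (pp w I : ℂ)) • y I ∧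
        E (y I) = (a - (qq w I : ℂ)) • y I) e r := by
    refine ⟨kz_sq hCLIF A hAA, fun x => ?_, kz_sq hCLIF _ fun s t => ?_, fun k x hx => ⟨?_, ?_⟩,
      fun a x hx => ⟨?_, ?_⟩, fun k x hx => ⟨?_, ?_⟩, fun k x hx h0 => ?_,
      fun k a x hx hx' I => ⟨?_, ?_⟩, fun k a y hy => ?_, ?_, fun x => ?_, fun k l hkl => ?_,
      fun k a u hu hDu => ?_, fun x => ?_, fun c hc hs a => ?_⟩
    · exact LinearMap.congr_fun (kz_anti hCLIF A (fun s => c s • (1 : Module.End ℂ N.V))
        fun s t => by rw [mul_smul_comm, smul_mul_assoc, mul_one, one_mul]) x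
    · rw [smul_mul_smul_comm, smul_mul_smul_comm, mul_comm (c s)]
    · refine fun I _ => kz_mem A x I (F (k + pp w I)) fun s hs => ?_
      have h1 : x (I.erase s) ∈ F (k + pp w (I.erase s)) := hx (I.erase s) trivial
      rw [pp_erase w hs]
      simp only [A]
      split_ifs
      · rw [add_zero]
        exact sub_mem (hG.stX _ s _ h1) (Submodule.smul_mem _ _ h1)
      · rw [← add_assoc]
        exact hG.stD _ s _ h1
    · refine fun I _ => kz_mem _ x I (F (k - 1 + pp w I)) fun s hs => ?_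
      have h1 : x (I.erase s) ∈ F (k + pp w (I.erase s)) := hx (I.erase s) trivial
      rw [pp_erase w hs]
      simp only [c]
      split_ifs
      · rw [zero_smul]
        exact zero_mem _
      · rw [show k - 1 + (pp w (I.erase s) + 1) = k + pp w (I.erase s) by ring]
        exact Submodule.smul_mem _ _ h1
    · rw [hWm] at hx ⊢
      intro I
      refine Module.End.mem_eigenspace_iff.1 (kz_mem A x I _ fun s hs => ?_)
      rw [Module.End.mem_eigenspace_iff, hAw s _ _ (hx (I.erase s)), qq_erase w hs]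
      push_cast
      rw [sub_sub]
    · rw [hWm] at hx ⊢
      intro I
      refine Module.End.mem_eigenspace_iff.1 (kz_mem _ x I _ fun s hs => ?_)
      show c s • x (I.erase s) ∈ _
      by_cases hc : c s = 0
      · rw [hc, zero_smul]
        exact zero_mem _
      · refine Submodule.smul_mem _ _ ?_
        have h1 : w s = 1 := by
          refine hYD s fun h0 => hc ?_
          simp only [c, h0, ite_self]
        rw [Module.End.mem_eigenspace_iff, hx (I.erase s), qq_erase w hs, h1, abs_one]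
        push_cast
        rw [add_sub_add_right_eq_sub]
    · funext I
      rw [hsy]
      refine kz_map A A' x _ I (f ∘ₗ Finsupp.lsingle (k + pp w I)) fun s hs => ?_
      have h1 := hx (I.erase s) trivial
      show f (Finsupp.single (k + pp w I) (A s (x (I.erase s)))) = _
      rw [hsy, pp_erase w hs]
      simp only [A, A']
      split_ifs
      · rw [add_zero, LinearMap.sub_apply, LinearMap.sub_apply, hzX _ _ h1, Finsupp.single_sub,
          map_sub, LinearMap.smul_apply, LinearMap.smul_apply, Module.End.one_apply,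
          Module.End.one_apply, ← Finsupp.smul_single, map_smul]
      · rw [hzD _ _ h1, add_assoc]
    · funext I
      rw [hsy]
      refine kz_map _ _ x _ I (f ∘ₗ Finsupp.lsingle (k - 1 + pp w I)) fun s hs => ?_
      show f (Finsupp.single (k - 1 + pp w I) (c s • x (I.erase s))) = c s • sy k x (I.erase s)
      rw [hsy, pp_erase w hs, ← Finsupp.smul_single, map_smul]
      simp only [c]
      split_ifs
      · rw [zero_smul, zero_smul]
      · rw [show k - 1 + (pp w (I.erase s) + 1) = k + pp w (I.erase s) by ring]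
    · intro I _
      have h1 := ((hsing _ _ (hx I trivial)).1).1 (congrFun h0 I)
      show x I ∈ F (k - 1 + pp w I)
      rw [show k - 1 + pp w I = k + pp w I - 1 by ring]
      exact h1
    · rw [hsy, (hsing _ _ (hx I trivial)).2, Int.cast_add]
    · rw [hsy, hEs _ _ (hx I trivial), (hWm a x).1 hx' I, ← Finsupp.smul_single, map_smul]
    · choose v hv using fun I => hlift (k + pp w I) (a - (qq w I : ℂ)) (y I)
        (by rw [Int.cast_add]; exact (hy I).1) (hy I).2
      exact ⟨v, fun I _ => (hv I).1, (hWm a v).2 fun I => (hv I).2.1, funext fun I => (hv I).2.2⟩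
    · obtain ⟨k₀, hk₀⟩ := hG.bot
      refine ⟨k₀ - Fintype.card σ, fun k hk => ?_⟩
      rw [eq_bot_iff]
      intro x hx
      rw [Submodule.mem_bot]
      funext I
      have h1 := hx I trivial
      have h2 : (I.filter fun s => 0 < w s).card ≤ Fintype.card σ := Finset.card_le_univ _
      have h3 : k + pp w I < k₀ := by unfold pp; omega
      simp only [hk₀ _ h3] at h1
      exact h1
    · choose κ hκ using hG.exh
      obtain ⟨k, hk⟩ := Finset.exists_le (Finset.univ.image fun I => κ (x I) - pp w I)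
      refine ⟨k, fun I _ => hG.mono ?_ (hκ (x I))⟩
      have := hk _ (Finset.mem_image_of_mem _ (Finset.mem_univ I))
      omega
    · exact fun x hx I _ => hG.mono (by omega) (hx I trivial)
    · have hD' : DD (kz A') (kz fun s => c s • (1 : Module.End ℂ V)) =
          Finsupp.mapRange.linearMap (kz A') - Finsupp.lmapDomain _ ℂ (· + 1) *
            Finsupp.mapRange.linearMap (∑ s, c s • act V (eps s)) := by
        rw [DD, kz_const]
      rw [hD'] at hDu ⊢
      obtain ⟨h1, h2⟩ := hgrk k a u (fun j I => by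
        have := hu j I
        unfold pp qq at this
        push_cast at this ⊢
        exact this) hDu
      refine ⟨?_, fun hk => ?_⟩
      · obtain ⟨u', h3, h4⟩ := h1
        refine ⟨u', fun j I => ?_, h4⟩
        have := h3 j I
        unfold pp qq
        push_cast at this ⊢
        exact this
      · obtain ⟨u', h3, h4⟩ := h2 hk
        refine ⟨u', fun j I => ?_, h4⟩
        have := h3 j I
        unfold pp qq
        push_cast at this ⊢
        exact this
    · obtain ⟨c, hc, hs⟩ := (hDIAG _ _ hE0).1 x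
      exact ⟨c, fun a => Module.End.mem_eigenspace_iff.2 (hc a), hs⟩
    · exact (Submodule.mem_bot ℂ).1 ((hDIAG _ _ hE0).2.1 ⊥
        (fun u hu => by rw [Submodule.mem_bot] at hu ⊢; rw [hu, map_zero]) c
        (fun b => by rw [Module.End.mem_eigenspace_iff.1 (hc b), sub_self]; exact zero_mem _)
        (by rw [hs]; exact zero_mem _) a)
  have hd : (∑ s, act N.V (eps s) * pw (Finset σ) ((N.kt w Y).D s)) =
      kz A - kz fun s => c s • (1 : Module.End ℂ N.V) := by
    rw [← kz_sub, kz]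
    refine Finset.sum_congr rfl fun s _ => ?_
    have : (N.kt w Y).D s = A s - c s • (1 : Module.End ℂ N.V) := by
      show (if w s ≤ 0 then N.X s - Y (Sum.inl s) • (1 : Module.End ℂ N.V)
        else N.D s - Y (Sum.inr s) • (1 : Module.End ℂ N.V)) = _
      simp only [A, c]
      split_ifs
      · rw [zero_smul, sub_zero]
      · rfl
    rw [this]
  rw [hd]
  exact data.main

end Pool.Agent.P.MP_52ab5a_al
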