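import Pool.Agent.P.MP_52ab5a_al.B.Iface
import Pool.Agent.P.MP_52ab5a_al.A.Iface

/-! Step ANN of the open orbit project. -/

namespace Pool.Agent.P.MP_52ab5a_al

open MvPolynomial WM

namespace AnnAux

variable {ι V : Type} [AddCommGroup V] [Module ℂ V]

/-- Nakayama's lemma. -/
theorem naka0 [Module (MvPolynomial ι ℂ) V] [IsScalarTower ℂ (MvPolynomial ι ℂ) V]
    (z : ι → Module.End ℂ V) (e : ∀ s v, (X s : MvPolynomial ι ℂ) • v = z s v) (Y : ι → ℂ)
    (hG : ∃ G : Finset V, gen (Set.range z) (G : Set V) = ⊤) (hr : radz z Y ⊤ = ⊤) :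
    ∃ f : MvPolynomial ι ℂ, (∀ v : V, f • v = 0) ∧ eval Y f = 1 := by
  obtain ⟨G, hG⟩ := hG
  have fg : (⊤ : Submodule (MvPolynomial ι ℂ) V).FG := by
    refine ⟨G, top_unique fun v _ => ?_⟩
    have : gen (Set.range z) (G : Set V) ≤
        (Submodule.span (MvPolynomial ι ℂ) (G : Set V)).restrictScalars ℂ := by
      refine gen_le Submodule.subset_span ?_
      rintro _ ⟨s, rfl⟩ u hu
      rw [← e]
      exact (Submodule.span (MvPolynomial ι ℂ) (G : Set V)).smul_mem _ hu
    exact this (hG ▸ Submodule.mem_top)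
  have le : (⊤ : Submodule (MvPolynomial ι ℂ) V) ≤ RingHom.ker (eval Y) • ⊤ := fun v _ => by
    have : radz z Y ⊤ ≤ (RingHom.ker (eval Y) •
        (⊤ : Submodule (MvPolynomial ι ℂ) V)).restrictScalars ℂ := by
      refine iSup_le fun s => ?_
      rintro _ ⟨u, -, rfl⟩
      have : (z s - Y s • (1 : Module.End ℂ V)) u = (X s - C (Y s) : MvPolynomial ι ℂ) • u := by
        rw [sub_smul, e, ← algebraMap_eq, algebraMap_smul]; rfl
      rw [this, Submodule.restrictScalars_mem]
      exact Submodule.smul_mem_smul (by simp [RingHom.mem_ker]) Submodule.mem_top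
    exact this (hr.ge Submodule.mem_top)
  obtain ⟨f, h1, h2⟩ := Submodule.exists_sub_one_mem_and_smul_eq_zero_of_fg_of_le_smul _ _ fg le
  refine ⟨f, fun v => h2 v Submodule.mem_top, ?_⟩
  rwa [RingHom.mem_ker, map_sub, map_one, sub_eq_zero] at h1

theorem naka (z : ι → Module.End ℂ V) (hz : ∀ s t, z s * z t = z t * z s) (Y : ι → ℂ)
    (hG : ∃ G : Finset V, gen (Set.range z) (G : Set V) = ⊤) (hr : radz z Y ⊤ = ⊤) :
    ∃ f : MvPolynomial ι ℂ, evOp z hz f = 0 ∧ eval Y f = 1 := by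
  let _ := commModule z hz
  have e : ∀ (f : MvPolynomial ι ℂ) (v : V), f • v = evOp z hz f v := fun _ _ => rfl
  have _ : IsScalarTower ℂ (MvPolynomial ι ℂ) V := ⟨fun c f v => by rw [e, e, map_smul]; rfl⟩
  obtain ⟨f, h1, h2⟩ := naka0 z (fun s v => by rw [e, evOp_X]) Y hG hr
  exact ⟨f, LinearMap.ext fun v => (e f v).symm.trans (h1 v), h2⟩

theorem mul_eig {T A B : Module.End ℂ V} {a b : ℂ} (hA : T * A = A * T + a • A)
    (hB : T * B = B * T + b • B) : T * (A * B) = A * B * T + (a + b) • (A * B) := by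
  rw [← mul_assoc, hA, add_mul, mul_assoc, hB, mul_add, add_smul, smul_mul_assoc, mul_smul_comm,
    mul_assoc]
  abel

variable {M : Type} [AddCommMonoid M] (z : ι → Module.End ℂ V) (hz : ∀ s t, z s * z t = z t * z s)
  {T : Module.End ℂ V} (c : ι → M) (φ : M →+ ℂ) (hT : ∀ s, T * z s = z s * T + φ (c s) • z s)
include hT

theorem mono_eig (α : ι →₀ ℕ) : T * evOp z hz (monomial α 1) =
    evOp z hz (monomial α 1) * T + φ (Finsupp.weight c α) • evOp z hz (monomial α 1) := by
  induction α using Finsupp.induction_linear with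
  | zero => simp
  | add α β h1 h2 =>
    have e : (monomial (α + β) 1 : MvPolynomial ι ℂ) = monomial α 1 * monomial β 1 := by
      rw [monomial_mul, one_mul]
    rw [e, map_mul, map_add, map_add]
    exact mul_eig h1 h2
  | single s n =>
    rw [← X_pow_eq_monomial, map_pow, evOp_X, Finsupp.weight_single, map_nsmul]
    induction n with
    | zero => simp
    | succ n ih => rw [pow_succ, succ_nsmul]; exact mul_eig ih (hT s)

theorem hom_eig {f : MvPolynomial ι ℂ} {d : M} (hf : f.IsWeightedHomogeneous c d) :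
    evOp z hz f ∈ Module.End.eigenspace (LinearMap.mulLeft ℂ T - LinearMap.mulRight ℂ T) (φ d) := by
  rw [f.as_sum, map_sum]
  refine Submodule.sum_mem _ fun α hα => ?_
  have e : (monomial α (coeff α f) : MvPolynomial ι ℂ) = coeff α f • monomial α 1 := by
    rw [smul_monomial, smul_eq_mul, mul_one]
  rw [e, map_smul]
  refine Submodule.smul_mem _ _ (Module.End.mem_eigenspace_iff.2 ?_)
  rw [LinearMap.sub_apply, LinearMap.mulLeft_apply, LinearMap.mulRight_apply,
    mono_eig z hz c φ hT, hf (mem_support_iff.1 hα), add_sub_cancel_left]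

theorem comp (hφ : Function.Injective φ) {f : MvPolynomial ι ℂ} (h0 : evOp z hz f = 0) {Y : ι → ℂ}
    (h1 : eval Y f = 1) : ∃ (d : M) (g : MvPolynomial ι ℂ), evOp z hz g = 0 ∧
      g.IsWeightedHomogeneous c d ∧ eval Y g ≠ 0 := by
  classical
  have e := sum_weightedHomogeneousComponent c f
  rw [finsum_eq_sum _ (weightedHomogeneousComponent_finsupp f)] at e
  have ind := (Module.End.eigenspaces_iSupIndep
    (LinearMap.mulLeft ℂ T - LinearMap.mulRight ℂ T)).comp hφ
  rw [← e, map_sum] at h0 h1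
  obtain ⟨d, hd, h2⟩ := Finset.exists_ne_zero_of_sum_ne_zero (h1.trans_ne one_ne_zero)
  exact ⟨d, _, (iSupIndep_iff_finsetSum_eq_zero_imp_eq_zero _).1 ind _ _
    (fun i _ => hom_eig z hz c φ hT (weightedHomogeneousComponent_isWeightedHomogeneous i f)) h0 d hd,
    weightedHomogeneousComponent_isWeightedHomogeneous d f, h2⟩

omit hT in
theorem deg {g : MvPolynomial ι ℂ} {d : M} (hg : g.IsWeightedHomogeneous c d) {Y : ι → ℂ}
    (h : eval Y g ≠ 0) (S : AddSubmonoid M) (hS : ∀ s, Y s ≠ 0 → c s ∈ S) : d ∈ S := by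
  rw [eval_eq] at h
  obtain ⟨α, hα, h2⟩ := Finset.exists_ne_zero_of_sum_ne_zero h
  rw [← hg (mem_support_iff.1 hα), Finsupp.weight_apply, Finsupp.sum]
  refine S.sum_mem fun s hs => S.nsmul_mem (hS s fun h3 => ?_) _
  exact Finset.prod_ne_zero_iff.1 (right_ne_zero_of_mul h2) s hs
    (by rw [h3, zero_pow (Finsupp.mem_support_iff.1 hs)])

end AnnAux

open AnnAux in
theorem p_ANN (hDIAG : S_DIAG) :
    S_ANN := by
  intro σ V _ _ _ z hz O E w Y hG _ _ _ hc h0 h1 hr
  obtain ⟨f, f0, f1⟩ := naka z hz Y hG hr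
  let φ : ℤ × ℤ →+ ℂ :=
    { toFun := fun d => d.1 + d.2 * Complex.I
      map_zero' := by simp
      map_add' := fun a b => by simp only [Prod.fst_add, Prod.snd_add]; push_cast; ring }
  have hφ : Function.Injective φ := fun a b h => by
    have e1 := congrArg Complex.re h
    have e2 := congrArg Complex.im h
    simp [φ] at e1 e2
    exact Prod.ext e1 e2
  obtain ⟨d, g, g0, g1, g2⟩ := comp z hz (T := O + Complex.I • E)
    (Sum.elim (fun s => ((0 : ℤ), w s)) fun s => ((1 : ℤ), -w s)) φ (by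
      rintro (s | s)
      · rw [add_mul, mul_add, smul_mul_assoc, mul_smul_comm, (hc s).1, (hc s).2.2.1]
        simp only [φ, AddMonoidHom.coe_mk, ZeroHom.coe_mk, Sum.elim_inl]
        push_cast
        module
      · rw [add_mul, mul_add, smul_mul_assoc, mul_smul_comm, (hc s).2.1, (hc s).2.2.2]
        simp only [φ, AddMonoidHom.coe_mk, ZeroHom.coe_mk, Sum.elim_inr]
        push_cast
        module) hφ f0 f1
  obtain ⟨k, hk⟩ := deg _ g1 g2 (AddSubmonoid.multiples ((1 : ℤ), (-1 : ℤ))) (by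
    rintro (s | s) hs
    · rw [Sum.elim_inl, h0 s hs]; exact zero_mem _
    · rw [Sum.elim_inr, h1 s hs]; exact AddSubmonoid.mem_multiples _)
  refine ⟨k, C (eval Y g)⁻¹ * g, by rw [map_mul, g0, mul_zero], ?_, ?_⟩
  · have e : ((k : ℤ), -(k : ℤ)) = d := by rw [← hk]; simp
    rw [e]
    exact g1.C_mul _
  · rw [map_mul, eval_C, inv_mul_cancel₀ g2]

end Pool.Agent.P.MP_52ab5a_al
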