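import Pool.Agent.P.MP_52ab5a_al.B.Iface
import Pool.Agent.P.MP_52ab5a_al.A.Iface

/-! Step CART of the open orbit project. -/

namespace Pool.Agent.P.MP_52ab5a_al

open MvPolynomial WM

namespace CartAux

section Abs

variable {R : Type} [Ring R] [Algebra ℂ R]

theorem half {a : R} (h : a + a = 0) : a = 0 := by
  have h2 : (2 : ℂ) • a = 0 := by rw [two_smul]; exact h
  have h3 : (2 : ℂ)⁻¹ • ((2 : ℂ) • a) = 0 := by rw [h2, smul_zero]
  rwa [smul_smul, inv_mul_cancel₀ (by norm_num), one_smul] at h3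

omit [Algebra ℂ R] in
theorem ac_sum {α β : Type} [Fintype α] [Fintype β] (f : α → R) (g : β → R) :
    (∑ a, f a) * (∑ b, g b) + (∑ b, g b) * (∑ a, f a) = ∑ a, ∑ b, (f a * g b + g b * f a) := by
  simp only [Finset.sum_add_distrib]
  rw [Finset.sum_mul_sum, Finset.sum_mul_sum, Finset.sum_comm (f := fun b a => g b * f a)]

end Abs

variable {ν σ V : Type} [Fintype ν] [LinearOrder ν] [AddCommGroup V] [Module ℂ V]

theorem tm_mul (A B : Matrix (Finset ν) (Finset ν) ℂ) (T S : Module.End ℂ V) :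
    act V A * pw (Finset ν) T * (act V B * pw (Finset ν) S) =
      act V (A * B) * pw (Finset ν) (T * S) := by
  rw [map_mul, map_mul, mul_assoc, ← mul_assoc (pw (Finset ν) T), ← act_mul_pw]
  simp only [mul_assoc]

theorem tm_pw (A : Matrix (Finset ν) (Finset ν) ℂ) (T S : Module.End ℂ V) :
    act V A * pw (Finset ν) T * pw (Finset ν) S = act V A * pw (Finset ν) (T * S) := by
  rw [map_mul, mul_assoc]

theorem pw_tm (A : Matrix (Finset ν) (Finset ν) ℂ) (T S : Module.End ℂ V) :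
    pw (Finset ν) S * (act V A * pw (Finset ν) T) = act V A * pw (Finset ν) (S * T) := by
  rw [map_mul, ← mul_assoc, ← act_mul_pw, mul_assoc]

theorem tm_act (A B : Matrix (Finset ν) (Finset ν) ℂ) (T : Module.End ℂ V) :
    act V A * pw (Finset ν) T * act V B = act V (A * B) * pw (Finset ν) T := by
  rw [map_mul, mul_assoc, ← act_mul_pw, mul_assoc]

theorem act_tm (A B : Matrix (Finset ν) (Finset ν) ℂ) (T : Module.End ℂ V) :
    act V B * (act V A * pw (Finset ν) T) = act V (B * A) * pw (Finset ν) T := by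
  rw [map_mul, mul_assoc]

theorem tm_mem (A : Matrix (Finset ν) (Finset ν) ℂ) (T : Module.End ℂ V) {S S' : Set (Finset ν)}
    (h : ∀ I ∈ S', ∀ J, A I J ≠ 0 → J ∈ S) {v : Finset ν → V}
    (hv : v ∈ Submodule.pi S fun _ => (⊥ : Submodule ℂ V)) :
    (act V A * pw (Finset ν) T) v ∈ Submodule.pi S' fun _ => (⊥ : Submodule ℂ V) := by
  intro I hI
  rw [Module.End.mul_apply]
  simp only [SetLike.mem_coe, Submodule.mem_bot]
  rw [act_apply]
  refine Finset.sum_eq_zero fun J _ => ?_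
  by_cases hA : A I J = 0
  · rw [hA, zero_smul]
  · have h1 : v J = 0 := hv J (h I hI J hA)
    rw [pw_apply, h1, map_zero, smul_zero]

theorem lam_deg (hC : S_CLIF) (ξ : Matrix ν ν ℂ) {I J : Finset ν} (h : lam ξ I J ≠ 0) :
    I.card = J.card := by
  by_contra hne
  apply h
  simp only [lam, Matrix.sum_apply, Matrix.smul_apply, Matrix.mul_apply, smul_eq_mul]
  refine Finset.sum_eq_zero fun j _ => Finset.sum_eq_zero fun k _ => ?_
  rw [Finset.sum_eq_zero, mul_zero]
  intro K _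
  by_contra h0
  have h1 := ((hC ν).2.1 k I K).1 (left_ne_zero_of_mul h0)
  have h2 := ((hC ν).2.1 j K J).2 (right_ne_zero_of_mul h0)
  omega

theorem lam_iot (hC : S_CLIF) (ξ : Matrix ν ν ℂ) (l : ν) :
    lam ξ * iot l - iot l * lam ξ = -∑ j, ξ j l • iot j := by
  have h : ∀ j k : ν, eps k * iot j * iot l - iot l * (eps k * iot j) =
      -(if k = l then iot j else 0) := by
    intro j k
    have h1 := ((hC ν).1 j l).2.1
    have h2 := ((hC ν).1 k l).2.2
    have h3 : iot j * iot l = -(iot l * iot j) := eq_neg_of_add_eq_zero_left h1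
    rw [mul_assoc, h3, mul_neg, ← mul_assoc, ← mul_assoc, ← neg_add', ← add_mul, h2]
    split_ifs <;> simp
  simp only [lam, Finset.sum_mul, Finset.mul_sum, ← Finset.sum_sub_distrib, smul_mul_assoc,
    mul_smul_comm, ← smul_sub, h, ← Finset.sum_neg_distrib]
  refine Finset.sum_congr rfl fun j _ => ?_
  simp

/-- The components of a linear vector field. -/
noncomputable def Y (M : WM (ν ⊕ σ)) (ξ : Matrix ν ν ℂ) (j : ν) : Module.End ℂ M.V :=
  ∑ k, ξ j k • M.X (Sum.inl k)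

theorem io_eq (M : WM (ν ⊕ σ)) (ξ : Matrix ν ν ℂ) :
    io M ξ = ∑ j, act M.V (iot j) * pw (Finset ν) (Y M ξ j) := by
  simp only [io, Y, map_sum, map_smul, Finset.mul_sum, mul_smul_comm]

omit [LinearOrder ν] in
theorem Y_comm {M : WM (ν ⊕ σ)} (ξ : Matrix ν ν ℂ) (j : ν) {T : Module.End ℂ M.V}
    (h : ∀ k, M.X (Sum.inl k) * T = T * M.X (Sum.inl k)) : Y M ξ j * T = T * Y M ξ j := by
  simp only [Y, Finset.sum_mul, Finset.mul_sum, smul_mul_assoc, mul_smul_comm, h]

omit [LinearOrder ν] in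
theorem D_Y {M : WM (ν ⊕ σ)} (hM : M.IsW) (ξ : Matrix ν ν ℂ) (j l : ν) :
    M.D (Sum.inl l) * Y M ξ j = Y M ξ j * M.D (Sum.inl l) + ξ j l • (1 : Module.End ℂ M.V) := by
  classical
  have h : ∀ k, M.D (Sum.inl l) * M.X (Sum.inl k) =
      M.X (Sum.inl k) * M.D (Sum.inl l) + if k = l then 1 else 0 := by
    intro k
    split_ifs with hk
    · subst hk; rw [← hM.2.2.1 (Sum.inl k)]; abel
    · rw [add_zero]; exact hM.2.2.2 _ _ fun h => hk (Sum.inl_injective h).symm
  simp only [Y, Finset.sum_mul, Finset.mul_sum, smul_mul_assoc, mul_smul_comm, h, smul_add,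
    Finset.sum_add_distrib]
  simp

omit [LinearOrder ν] in
theorem Y_mul (M : WM (ν ⊕ σ)) (ξ η : Matrix ν ν ℂ) (j : ν) :
    Y M (ξ * η) j = ∑ l, ξ j l • Y M η l := by
  simp only [Y, Matrix.mul_apply, Finset.sum_smul, Finset.smul_sum, mul_smul]
  exact Finset.sum_comm

variable [Fintype σ]

omit [Fintype ν] [LinearOrder ν] in
theorem vf_forms (M : WM (ν ⊕ σ)) (ξ₀ : Matrix σ σ ℂ) : (forms M).vf ξ₀ =
    pw (Finset ν) (∑ s, ∑ t, ξ₀ s t • (M.X (Sum.inr t) * M.D (Sum.inr s))) := by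
  simp only [WM.vf, map_sum, map_smul, map_mul]
  rfl

omit [LinearOrder ν] in
theorem vf_blocks (M : WM (ν ⊕ σ)) (ξ : Matrix ν ν ℂ) (ξ₀ : Matrix σ σ ℂ) :
    M.vf (Matrix.fromBlocks ξ 0 0 ξ₀) = ∑ j, Y M ξ j * M.D (Sum.inl j) +
      ∑ s, ∑ t, ξ₀ s t • (M.X (Sum.inr t) * M.D (Sum.inr s)) := by
  simp [WM.vf, Fintype.sum_sum_type, Y, Finset.sum_mul]

theorem lieD_eq (M : WM (ν ⊕ σ)) (ξ : Matrix ν ν ℂ) (ξ₀ : Matrix σ σ ℂ) :
    lieD M ξ ξ₀ = act M.V 1 * pw (Finset ν) (M.vf (Matrix.fromBlocks ξ 0 0 ξ₀)) +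
      act M.V (lam ξ) * pw (Finset ν) 1 := by
  simp [lieD]

omit [Fintype σ] in
theorem io_dg (M : WM (ν ⊕ σ)) (w : ν → ℤ) : io M (dg w) =
    ∑ j, (w j : ℂ) • (act M.V (iot j) * pw (Finset ν) (M.X (Sum.inl j))) := by
  simp [io, dg, Matrix.diagonal_apply]

theorem diag_pw (S : Module.End ℂ V) (c : Finset ν → ℂ) (h : Diag S) :
    Diag (pw (Finset ν) S + act V (Matrix.diagonal c)) := by
  refine eq_top_iff.2 fun v _ => ?_
  rw [← Finset.univ_sum_single v]
  refine Submodule.sum_mem _ fun I _ => ?_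
  have hv : v I ∈ ⨆ a : ℂ, S.eigenspace a := by rw [h]; trivial
  refine Submodule.iSup_induction _ (motive := fun u => (Pi.single I u : Finset ν → V) ∈
    ⨆ a : ℂ, (pw (Finset ν) S + act V (Matrix.diagonal c)).eigenspace a) hv ?_ ?_ ?_
  · intro a u hu
    refine Submodule.mem_iSup_of_mem (a + c I) ?_
    rw [Module.End.mem_eigenspace_iff] at hu ⊢
    funext J
    by_cases hJ : J = I
    · subst hJ
      simp [act_apply, pw_apply, Matrix.diagonal_apply, hu, add_smul]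
    · simp [act_apply, pw_apply, Matrix.diagonal_apply, hJ]
  · simp
  · intro x y hx hy
    rw [Pi.single_add]
    exact Submodule.add_mem _ hx hy

end CartAux

open CartAux

set_option linter.unusedVariables false in
theorem p_CART (hCLIF : S_CLIF) (hVF : S_VF) (hDIAG : S_DIAG) :
    S_CART := by
  intro ν σ _ _ _ _ M hM
  obtain ⟨c1, c2, c3, c4, c5⟩ := hCLIF ν
  have hd : dR M = ∑ j, act M.V (eps j) * pw (Finset ν) (M.D (Sum.inl j)) := c5 σ M
  have hX : ∀ s, (forms M).X s = pw (Finset ν) (M.X (Sum.inr s)) := fun s => rfl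
  have hD : ∀ s, (forms M).D s = pw (Finset ν) (M.D (Sum.inr s)) := fun s => rfl
  have h2 : dR M * dR M = 0 := by
    apply half
    rw [hd, ac_sum]
    refine Finset.sum_eq_zero fun j _ => Finset.sum_eq_zero fun k _ => ?_
    rw [tm_mul, tm_mul, hM.2.1 (Sum.inl k), ← add_mul, ← map_add, (c1 j k).1, map_zero, zero_mul]
  have h3 : ∀ ξ η, io M ξ * io M η + io M η * io M ξ = 0 := by
    intro ξ η
    rw [io_eq, io_eq, ac_sum]
    refine Finset.sum_eq_zero fun j _ => Finset.sum_eq_zero fun k _ => ?_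
    have h : Y M η k * Y M ξ j = Y M ξ j * Y M η k :=
      Y_comm η k fun l => (Y_comm ξ j fun m => hM.1 _ _).symm
    rw [tm_mul, tm_mul, h, ← add_mul, ← map_add, (c1 j k).2.1, map_zero, zero_mul]
  have h4 : ∀ ξ ξ₀, dR M * io M ξ + io M ξ * dR M = lieD M ξ ξ₀ - (forms M).vf ξ₀ := by
    intro ξ ξ₀
    have h : ∀ l j : ν, act M.V (eps l) * pw (Finset ν) (M.D (Sum.inl l)) *
        (act M.V (iot j) * pw (Finset ν) (Y M ξ j)) + act M.V (iot j) * pw (Finset ν) (Y M ξ j) *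
        (act M.V (eps l) * pw (Finset ν) (M.D (Sum.inl l))) =
        (if l = j then pw (Finset ν) (Y M ξ j * M.D (Sum.inl l)) else 0) +
          ξ j l • act M.V (eps l * iot j) := by
      intro l j
      rw [tm_mul, tm_mul, D_Y hM, map_add, mul_add, add_right_comm, ← add_mul, ← map_add,
        (c1 l j).2.2]
      split_ifs <;> simp
    rw [hd, io_eq, ac_sum, vf_forms, lieD, vf_blocks]
    simp only [h, Finset.sum_add_distrib, Finset.sum_ite_eq, Finset.mem_univ, if_true, lam,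
      map_add, map_sum, map_smul]
    rw [Finset.sum_comm (f := fun l j => ξ j l • act M.V (eps l * iot j))]
    abel
  have h7 : ∀ s, (dR M * (forms M).X s = (forms M).X s * dR M ∧
      dR M * (forms M).D s = (forms M).D s * dR M) ∧
      ∀ ξ, io M ξ * (forms M).X s = (forms M).X s * io M ξ ∧
        io M ξ * (forms M).D s = (forms M).D s * io M ξ := by
    intro s
    refine ⟨⟨?_, ?_⟩, fun ξ => ⟨?_, ?_⟩⟩
    · rw [hd, hX, Finset.sum_mul, Finset.mul_sum]
      refine Finset.sum_congr rfl fun j _ => ?_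
      rw [tm_pw, pw_tm, hM.2.2.2 _ _ Sum.inl_ne_inr]
    · rw [hd, hD, Finset.sum_mul, Finset.mul_sum]
      refine Finset.sum_congr rfl fun j _ => ?_
      rw [tm_pw, pw_tm, hM.2.1]
    · rw [io_eq, hX, Finset.sum_mul, Finset.mul_sum]
      refine Finset.sum_congr rfl fun j _ => ?_
      rw [tm_pw, pw_tm, Y_comm ξ j fun k => hM.1 _ _]
    · rw [io_eq, hD, Finset.sum_mul, Finset.mul_sum]
      refine Finset.sum_congr rfl fun j _ => ?_
      rw [tm_pw, pw_tm, Y_comm ξ j fun k => (hM.2.2.2 _ _ Sum.inr_ne_inl).symm]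
  have hde : ∀ {S S' : Set (Finset ν)}, (∀ I ∈ S', ∀ J : Finset ν, I.card = J.card + 1 → J ∈ S) →
      ∀ v ∈ Submodule.pi S fun _ => (⊥ : Submodule ℂ M.V),
        dR M v ∈ Submodule.pi S' fun _ => (⊥ : Submodule ℂ M.V) := by
    intro S S' h v hv
    rw [hd, LinearMap.sum_apply]
    exact Submodule.sum_mem _ fun j _ => tm_mem _ _ (fun I hI J hA => h I hI J ((c2 j I J).1 hA)) hv
  have hio : ∀ ξ {S S' : Set (Finset ν)},
      (∀ I ∈ S', ∀ J : Finset ν, I.card + 1 = J.card → J ∈ S) →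
      ∀ v ∈ Submodule.pi S fun _ => (⊥ : Submodule ℂ M.V),
        io M ξ v ∈ Submodule.pi S' fun _ => (⊥ : Submodule ℂ M.V) := by
    intro ξ S S' h v hv
    rw [io_eq, LinearMap.sum_apply]
    exact Submodule.sum_mem _ fun j _ => tm_mem _ _ (fun I hI J hA => h I hI J ((c2 j I J).2 hA)) hv
  have hli : ∀ ξ ξ₀ {S : Set (Finset ν)}, (∀ I ∈ S, ∀ J : Finset ν, I.card = J.card → J ∈ S) →
      ∀ v ∈ Submodule.pi S fun _ => (⊥ : Submodule ℂ M.V),
        lieD M ξ ξ₀ v ∈ Submodule.pi S fun _ => (⊥ : Submodule ℂ M.V) := by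
    intro ξ ξ₀ S h v hv
    rw [lieD_eq, LinearMap.add_apply]
    refine Submodule.add_mem _ (tm_mem _ _ (fun I hI J hA => ?_) hv)
      (tm_mem _ _ (fun I hI J hA => h I hI J (lam_deg hCLIF ξ hA)) hv)
    by_cases hIJ : I = J
    · exact hIJ ▸ hI
    · exact absurd (Matrix.one_apply_ne hIJ) hA
  refine ⟨⟨fun s t => ?_, fun s t => ?_, fun s => ?_, fun s t hst => ?_⟩, h2, h3, h4,
    fun ξ ξ₀ => ?_, fun ξ ξ₀ η hc => ?_, h7, fun w => ?_, fun a b hab => ?_,
    fun k v hv => ⟨?_, fun ξ ξ₀ => ?_, fun ξ hk => ?_⟩, fun k ξ v hv => ?_,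
    fun p ξ v hv => ⟨?_, ?_, fun ξ₀ => ?_⟩,
    fun w bar τ U W hw hW hU => ⟨?_, fun s => ⟨?_, ?_⟩, fun p v hv => ⟨?_, fun hUU => ?_⟩⟩⟩
  · rw [hX, hX, ← map_mul, ← map_mul, hM.1]
  · rw [hD, hD, ← map_mul, ← map_mul, hM.2.1]
  · rw [hX, hD, ← map_mul, ← map_mul, ← map_sub, hM.2.2.1, map_one]
  · rw [hX, hD, ← map_mul, ← map_mul, hM.2.2.2 _ _ fun h => hst (Sum.inr_injective h)]
  · have h5 : (forms M).vf ξ₀ * dR M = dR M * (forms M).vf ξ₀ := by
      simp only [WM.vf, Finset.sum_mul, Finset.mul_sum, smul_mul_assoc, mul_smul_comm]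
      refine Finset.sum_congr rfl fun s _ => Finset.sum_congr rfl fun t _ => ?_
      rw [mul_assoc, ← (h7 s).1.2, ← mul_assoc, ← (h7 t).1.1, mul_assoc]
    have h6 : lieD M ξ ξ₀ = dR M * io M ξ + io M ξ * dR M + (forms M).vf ξ₀ := by
      rw [h4 ξ ξ₀]; abel
    rw [h6, add_mul, mul_add, h5, add_mul, mul_add, mul_assoc (io M ξ), ← mul_assoc (dR M) (dR M),
      h2, mul_zero, zero_mul, add_zero, zero_add, mul_assoc]
  · have hv : ∀ l, M.vf (Matrix.fromBlocks ξ 0 0 ξ₀) * Y M η l -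
        Y M η l * M.vf (Matrix.fromBlocks ξ 0 0 ξ₀) = Y M (η * ξ) l := by
      intro l
      have h := (((hVF (ν ⊕ σ) M).2.2.2.2.1) hM).1 (Matrix.fromBlocks ξ 0 0 ξ₀)
      rw [Y_mul]
      conv_lhs => simp only [Y, Finset.sum_mul, Finset.mul_sum, smul_mul_assoc, mul_smul_comm,
        ← Finset.sum_sub_distrib, ← smul_sub, h]
      simp [Fintype.sum_sum_type, Y]
    rw [← sub_eq_zero]
    have h : ∀ l, lieD M ξ ξ₀ * (act M.V (iot l) * pw (Finset ν) (Y M η l)) -
        act M.V (iot l) * pw (Finset ν) (Y M η l) * lieD M ξ ξ₀ =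
        act M.V (iot l) * pw (Finset ν) (Y M (η * ξ) l) -
          ∑ j, ξ j l • (act M.V (iot j) * pw (Finset ν) (Y M η l)) := by
      intro l
      have h1 : act M.V (-∑ j, ξ j l • iot j) * pw (Finset ν) (Y M η l) =
          -∑ j, ξ j l • (act M.V (iot j) * pw (Finset ν) (Y M η l)) := by
        refine LinearMap.ext fun v => ?_
        simp [Module.End.mul_apply]
      rw [lieD, add_mul, mul_add, pw_tm, tm_pw, act_tm, tm_act, ← hv, add_sub_add_comm,
        ← mul_sub, ← map_sub, ← sub_mul, ← map_sub, lam_iot hCLIF, h1, ← sub_eq_add_neg]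
    rw [io_eq, Finset.sum_mul, Finset.mul_sum, ← Finset.sum_sub_distrib]
    simp only [h]
    rw [Finset.sum_sub_distrib, Finset.sum_comm, ← hc, sub_eq_zero]
    refine Finset.sum_congr rfl fun j _ => ?_
    simp only [Y_mul, map_sum, map_smul, Finset.mul_sum, mul_smul_comm]
  · have h8 : io M (dg w) * io M (dg w) = 0 := half (h3 _ _)
    have h9 := h4 (dg w) 0
    have h0 : (forms M).vf 0 = 0 := by simp [WM.vf]
    rw [h0, sub_zero] at h9
    rw [dir, add_mul, mul_add, mul_add, h2, h8, zero_add, add_zero, h9]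
  · have h1 : Matrix.fromBlocks (dg a) 0 0 (dg b) = dg (Sum.elim a b) := by
      simp only [dg, Matrix.fromBlocks_diagonal]
      congr 1
      funext s
      rcases s with s | s <;> rfl
    have h5 : lam (dg a) = Matrix.diagonal fun I : Finset ν => ∑ j ∈ I, (a j : ℂ) := by
      rw [← c4]
      simp [lam, dg, Matrix.diagonal_apply]
    rw [lieD, h1, (hVF (ν ⊕ σ) M).2.1, h5]
    exact diag_pw _ _ hab
  · exact hde (S := {I | I.card ≠ k}) (S' := {I | I.card ≠ k + 1})
      (fun I hI J h hJ => hI (by omega)) v hv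
  · exact hli ξ ξ₀ (S := {I | I.card ≠ k}) (fun I hI J h hJ => hI (by omega)) v hv
  · have h := hio ξ (S := {I | I.card ≠ k}) (S' := Set.univ)
      (fun I _ J h (hJ : J.card = k) => by omega) v hv
    exact funext fun I => h I trivial
  · exact hio ξ (S := {I | I.card ≠ k + 1}) (S' := {I | I.card ≠ k})
      (fun I hI J h hJ => hI (by omega)) v hv
  · exact hde (S := {I | I.card % 2 ≠ p % 2}) (S' := {I | I.card % 2 ≠ (p + 1) % 2})
      (fun I hI J h hJ => hI (by omega)) v hv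
  · exact hio ξ (S := {I | I.card % 2 ≠ p % 2}) (S' := {I | I.card % 2 ≠ (p + 1) % 2})
      (fun I hI J h hJ => hI (by omega)) v hv
  · exact hli ξ ξ₀ (S := {I | I.card % 2 ≠ p % 2}) (fun I hI J h hJ => hI (by omega)) v hv
  · rw [dir, hd, io_dg, mul_add, add_mul, smul_add, Finset.mul_sum, Finset.mul_sum, Finset.sum_mul,
      Finset.sum_mul, Finset.smul_sum, Finset.smul_sum]
    congr 1
    · refine Fintype.sum_equiv bar _ _ fun j => ?_
      rw [tm_mul, tm_mul, hW.eps, (hU (Sum.inl j)).2, map_smul, smul_mul_assoc]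
      rfl
    · refine Fintype.sum_equiv bar _ _ fun j => ?_
      rw [mul_smul_comm, smul_mul_assoc, tm_mul, tm_mul, hW.iot, (hU (Sum.inl j)).1, map_smul,
        smul_mul_assoc, smul_smul, smul_smul, hw]
      congr 1
      push_cast
      ring
  · rw [hX, hX, tm_pw, pw_tm, (hU (Sum.inr s)).1]
    rfl
  · rw [hD, hD, tm_pw, pw_tm, (hU (Sum.inr s)).2]
    rfl
  · exact tm_mem _ _ (S := {I | I.card % 2 ≠ p % 2}) (S' := {I | I.card % 2 ≠ p % 2})
      (fun I hI J h hJ => hI (by rw [hW.deg I J h]; exact hJ)) hv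
  · rw [← Module.End.mul_apply, tm_mul, hW.sq, hUU, map_one, mul_one]
    funext I
    by_cases hI : I.card % 2 = p % 2
    · have h : (-1 : ℂ) ^ I.card = (-1) ^ p := by
        rw [neg_one_pow_eq_pow_mod_two, hI, ← neg_one_pow_eq_pow_mod_two]
      simp [act_apply, parM, Matrix.diagonal_apply, h]
    · have h : v I = 0 := hv I hI
      simp [act_apply, parM, Matrix.diagonal_apply, h]

end Pool.Agent.P.MP_52ab5a_al
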