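import Pool.Agent.P.MP_52ab5a_al.B.Iface
import Pool.Agent.P.MP_52ab5a_al.A.Iface

/-! Step CLIF of the open orbit project. -/

namespace Pool.Agent.P.MP_52ab5a_al

open MvPolynomial WM

namespace ClifAux

variable {ν : Type} [LinearOrder ν]

/-- The sign of `j` in `I`. -/
noncomputable def sg (j : ν) (I : Finset ν) : ℂ := (-1) ^ (I.filter (· < j)).card

theorem sg_sq (j : ν) (I : Finset ν) : sg j I * sg j I = 1 := by
  rw [sg, ← mul_pow]; simp

theorem sg_insert (j : ν) {k : ν} {I : Finset ν} (h : k ∉ I) :
    sg j (insert k I) = (if k < j then -1 else 1) * sg j I := by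
  rw [sg, sg, Finset.filter_insert]
  split_ifs with hk
  · rw [Finset.card_insert_of_notMem (fun h' => h (Finset.mem_filter.1 h').1), pow_succ]; ring
  · rw [one_mul]

theorem sg_erase (j : ν) {k : ν} {I : Finset ν} (h : k ∈ I) :
    sg j (I.erase k) = (if k < j then -1 else 1) * sg j I := by
  have h1 := sg_insert j (Finset.notMem_erase k I)
  rw [Finset.insert_erase h] at h1
  rw [h1]
  split_ifs <;> ring

theorem eps_apply (j : ν) (I J : Finset ν) :
    eps j I J = if j ∈ I ∧ J = I.erase j then sg j I else 0 := rfl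

theorem iot_apply (j : ν) (J I : Finset ν) :
    iot j J I = if j ∉ J ∧ I = insert j J then sg j J else 0 := by
  show eps j I J = _
  rw [eps_apply]
  by_cases h : j ∈ I ∧ J = I.erase j
  · obtain ⟨h1, rfl⟩ := h
    rw [if_pos ⟨h1, rfl⟩, if_pos ⟨Finset.notMem_erase _ _, (Finset.insert_erase h1).symm⟩,
      sg_erase j h1]
    simp
  · rw [if_neg h, if_neg]
    rintro ⟨h1, rfl⟩
    exact h ⟨Finset.mem_insert_self _ _, (Finset.erase_insert h1).symm⟩

variable [Fintype ν]

theorem eps_mul (j : ν) (A : Matrix (Finset ν) (Finset ν) ℂ) (I K : Finset ν) :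
    (eps j * A) I K = if j ∈ I then sg j I * A (I.erase j) K else 0 := by
  rw [Matrix.mul_apply]
  by_cases h : j ∈ I <;> simp [eps_apply, h]

theorem iot_mul (j : ν) (A : Matrix (Finset ν) (Finset ν) ℂ) (J K : Finset ν) :
    (iot j * A) J K = if j ∈ J then 0 else sg j J * A (insert j J) K := by
  rw [Matrix.mul_apply]
  by_cases h : j ∈ J <;> simp [iot_apply, h]

theorem ee (j k : ν) : eps j * eps k + eps k * eps j = 0 := by
  ext I K
  rw [← mul_one (eps j * eps k), ← mul_one (eps k * eps j), mul_assoc, mul_assoc]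
  simp only [Matrix.add_apply, eps_mul, Matrix.zero_apply, Finset.mem_erase]
  by_cases hjk : j = k
  · simp [hjk]
  by_cases hj : j ∈ I
  · by_cases hk : k ∈ I
    · rw [Finset.erase_right_comm (a := j)]
      simp only [hj, hk, hjk, Ne.symm hjk, ne_eq, not_false_eq_true, and_self, if_true,
        sg_erase k hj, sg_erase j hk]
      rcases lt_or_gt_of_ne hjk with h | h <;> simp [h, h.not_gt] <;> ring
    · simp [hk]
  · simp [hj]

theorem ei (j k : ν) : eps j * iot k + iot k * eps j = if j = k then 1 else 0 := by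
  ext I K
  rw [← mul_one (eps j * iot k), ← mul_one (iot k * eps j), mul_assoc, mul_assoc]
  simp only [Matrix.add_apply, eps_mul, iot_mul, Finset.mem_erase, Finset.mem_insert]
  by_cases hjk : j = k
  · subst hjk
    by_cases hj : j ∈ I
    · rw [Finset.insert_erase hj]
      simp [hj, sg_erase j hj, ← mul_assoc, sg_sq]
    · rw [Finset.erase_insert hj]
      simp [hj, sg_insert j hj, ← mul_assoc, sg_sq]
  by_cases hj : j ∈ I
  · by_cases hk : k ∈ I
    · simp [hj, hk, hjk, Ne.symm hjk]
    · rw [Finset.erase_insert_of_ne (Ne.symm hjk)]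
      simp only [hj, hk, hjk, and_false, if_true, if_false, or_true, sg_erase k hj, sg_insert j hk,
        Matrix.zero_apply]
      rcases lt_or_gt_of_ne hjk with h | h <;> simp [h, h.not_gt] <;> ring
  · simp [hj, hjk]

theorem ei_self (j : ν) :
    eps j * iot j = Matrix.diagonal fun I : Finset ν => if j ∈ I then (1 : ℂ) else 0 := by
  ext I K
  rw [← mul_one (eps j * iot j), mul_assoc, eps_mul, iot_mul]
  by_cases hj : j ∈ I
  · simp [hj, sg_erase j hj, ← mul_assoc, sg_sq, Matrix.one_apply, Matrix.diagonal_apply]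
  · simp [hj, Matrix.diagonal_apply]

omit [Fintype ν] in
theorem eps_deg {j : ν} {I J : Finset ν} (h : eps j I J ≠ 0) : I.card = J.card + 1 := by
  rw [eps_apply] at h
  have h1 : j ∈ I ∧ J = I.erase j := by
    by_contra h2
    exact h (if_neg h2)
  rw [h1.2, Finset.card_erase_add_one h1.1]

theorem par_eps (j : ν) : parM ν * eps j = -(eps j * parM ν) := by
  ext I J
  simp only [parM, Matrix.diagonal_mul, Matrix.mul_diagonal, Matrix.neg_apply]
  by_cases h : eps j I J = 0
  · simp [h]
  · rw [eps_deg h, pow_succ]; ring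

end ClifAux

open ClifAux

theorem p_CLIF :
    S_CLIF := by
  intro ν _ _
  refine ⟨fun j k => ⟨ee j k, ?_, ei j k⟩, fun j I J => ⟨eps_deg, fun h => (eps_deg h).symm⟩,
    fun j => ⟨par_eps j, ?_⟩, fun a => ?_, fun σ N => ?_⟩
  · have h := congrArg Matrix.transpose (ee k j)
    rwa [Matrix.transpose_add, Matrix.transpose_mul, Matrix.transpose_mul] at h
  · have h := congrArg Matrix.transpose (par_eps j)
    rw [Matrix.transpose_neg, Matrix.transpose_mul, Matrix.transpose_mul, parM,
      Matrix.diagonal_transpose] at h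
    exact (neg_eq_iff_eq_neg.1 h.symm)
  · ext I K
    by_cases h : I = K
    · subst h
      simp [ei_self, Matrix.sum_apply]
    · simp [ei_self, Matrix.sum_apply, h]
  · refine LinearMap.ext fun v => funext fun I => ?_
    have h : ∀ j, (act N.V (eps j) * pw (Finset ν) (N.D (Sum.inl j))) v I =
        if j ∈ I then sg j I • N.D (Sum.inl j) (v (I.erase j)) else 0 := by
      intro j
      rw [Module.End.mul_apply, act_apply]
      by_cases hj : j ∈ I <;> simp [eps_apply, pw_apply, hj]
    rw [LinearMap.sum_apply, Finset.sum_apply]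
    simp only [h, Finset.sum_ite_mem, Finset.univ_inter]
    simp [dR, sg]

end Pool.Agent.P.MP_52ab5a_al
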