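import Pool.Agent.P.MP_52ab5a_al.B.Iface

/-! Step CP of the open orbit project. -/

namespace Pool.Agent.P.MP_52ab5a_al

open MvPolynomial WM

namespace CpAux

section Poly

variable {M : Type} [AddCommGroup M] [Module ℂ M]

theorem pow_mem {T : Module.End ℂ M} {Y : Submodule ℂ M} (hY : ∀ x ∈ Y, T x ∈ Y) (k : ℕ) :
    ∀ x ∈ Y, (T ^ k) x ∈ Y := by
  induction k with
  | zero => simp
  | succ k ih => intro x hx; rw [pow_succ, Module.End.mul_apply]; exact ih _ (hY x hx)

theorem aeval_mem {T : Module.End ℂ M} {Y : Submodule ℂ M} (hY : ∀ x ∈ Y, T x ∈ Y)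
    (q : Polynomial ℂ) {x : M} (hx : x ∈ Y) : Polynomial.aeval T q x ∈ Y := by
  rw [Polynomial.aeval_eq_sum_range, LinearMap.sum_apply]
  exact Y.sum_mem fun k _ => Y.smul_mem _ (pow_mem hY k x hx)

theorem aeval_congr {T T' : Module.End ℂ M} {Y A : Submodule ℂ M} (hY : ∀ x ∈ Y, T x ∈ Y)
    (hA : ∀ x ∈ A, T' x ∈ A ∧ T x - T' x ∈ Y) (q : Polynomial ℂ) {x : M} (hx : x ∈ A) :
    Polynomial.aeval T q x - Polynomial.aeval T' q x ∈ Y := by
  have key : ∀ k : ℕ, ∀ x ∈ A, (T ^ k) x - (T' ^ k) x ∈ Y := by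
    intro k
    induction k with
    | zero => simp
    | succ k ih =>
      intro x hx
      have h := Y.add_mem (ih _ (hA x hx).1) (pow_mem hY k _ (hA x hx).2)
      rw [map_sub] at h
      rw [pow_succ, pow_succ, Module.End.mul_apply, Module.End.mul_apply]
      convert h using 1
      abel
  rw [Polynomial.aeval_eq_sum_range, Polynomial.aeval_eq_sum_range, LinearMap.sum_apply,
    LinearMap.sum_apply, ← Finset.sum_sub_distrib]
  refine Y.sum_mem fun k _ => ?_
  rw [LinearMap.smul_apply, LinearMap.smul_apply, ← smul_sub]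
  exact Y.smul_mem _ (key k x hx)

/-- The polynomial with roots `a, …, a + n`. -/
noncomputable def Q (n a : ℕ) : Polynomial ℂ :=
  ∏ r ∈ Finset.range (n + 1), (Polynomial.X - Polynomial.C ((a : ℂ) + r))

theorem Q_eval (n a : ℕ) : (Q n (a + 1)).eval 0 ≠ 0 := by
  unfold Q
  rw [Polynomial.eval_prod]
  refine Finset.prod_ne_zero_iff.2 fun r _ => ?_
  simp only [Polynomial.eval_sub, Polynomial.eval_X, Polynomial.eval_C, zero_sub, ne_eq,
    neg_eq_zero]
  exact_mod_cast (by omega : a + 1 + r ≠ 0)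

theorem X_mul_Q (n : ℕ) :
    Polynomial.X * Q n 1 = Q n 0 * (Polynomial.X - Polynomial.C ((n + 1 : ℕ) : ℂ)) := by
  have h1 := Finset.prod_range_succ' (fun r : ℕ => (Polynomial.X - Polynomial.C (r : ℂ))) (n + 1)
  have h2 := Finset.prod_range_succ (fun r : ℕ => (Polynomial.X - Polynomial.C (r : ℂ))) (n + 1)
  unfold Q
  simp only [Nat.cast_zero, zero_add, Nat.cast_one]
  rw [← h2, h1, mul_comm]
  simp [add_comm]

theorem aeval_Q {α : Type} [Fintype α] [DecidableEq α] (N : Matrix α α ℂ) (n a : ℕ)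
    (h : ((List.range (n + 1)).map fun r : ℕ => N - (r : ℂ) • (1 : Matrix α α ℂ)).prod = 0) :
    Polynomial.aeval (N + (a : ℂ) • (1 : Matrix α α ℂ)) (Q n a) = 0 := by
  have key : ∀ k : ℕ, Polynomial.aeval (N + (a : ℂ) • (1 : Matrix α α ℂ))
      (∏ r ∈ Finset.range k, (Polynomial.X - Polynomial.C ((a : ℂ) + r))) =
      ((List.range k).map fun r : ℕ => N - (r : ℂ) • (1 : Matrix α α ℂ)).prod := by
    intro k
    induction k with
    | zero => simp
    | succ k ih =>
      rw [Finset.prod_range_succ, map_mul, ih, List.range_succ, List.map_append, List.prod_append]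
      congr 1
      simp only [map_sub, Polynomial.aeval_X, Polynomial.aeval_C, Algebra.algebraMap_eq_smul_one,
        add_smul, List.map_cons, List.map_nil, List.prod_cons, List.prod_nil, mul_one]
      abel
  unfold Q
  rw [key, h]

end Poly

section Mod

variable {ι : Type} {M : Type} [AddCommGroup M] [Module ℂ M] [Module (MvPolynomial ι ℂ) M]
  [IsScalarTower ℂ (MvPolynomial ι ℂ) M]

theorem C_smul' (a : ℂ) (x : M) : (C a : MvPolynomial ι ℂ) • x = a • x := by
  rw [← algebraMap_eq, algebraMap_smul]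

theorem smul_le (y : ι → ℂ) (N : Submodule (MvPolynomial ι ℂ) M) (Y : Submodule ℂ M)
    (h : ∀ s, ∀ x ∈ N, (X s : MvPolynomial ι ℂ) • x - y s • x ∈ Y) :
    ∀ x ∈ RingHom.ker (eval y) • N, x ∈ Y := by
  have key : ∀ f : MvPolynomial ι ℂ, ∀ x ∈ N, f • x - eval y f • x ∈ Y := by
    intro f
    induction f using MvPolynomial.induction_on with
    | C a => intro x _; simp [C_smul']
    | add p q hp hq =>
      intro x hx
      have := Y.add_mem (hp x hx) (hq x hx)
      rw [map_add, add_smul, add_smul]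
      convert this using 1
      abel
    | mul_X p s hp =>
      intro x hx
      have := Y.add_mem (h s _ (N.smul_mem p hx)) (Y.smul_mem (y s) (hp x hx))
      rw [map_mul, eval_X, mul_comm p, mul_smul, mul_comm, mul_smul]
      convert this using 1
      rw [smul_sub]
      abel
  intro x hx
  refine Submodule.smul_induction_on hx (fun f hf x hx => ?_) fun a b => Y.add_mem
  have := key f x hx
  rwa [RingHom.mem_ker.1 hf, zero_smul, sub_zero] at this

theorem sub_mem_smul (y : ι → ℂ) (s : ι) (x : M) :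
    (X s : MvPolynomial ι ℂ) • x - y s • x ∈
      RingHom.ker (eval y) • (⊤ : Submodule (MvPolynomial ι ℂ) M) := by
  rw [← C_smul' (ι := ι), ← sub_smul]
  exact Submodule.smul_mem_smul (by simp [RingHom.mem_ker]) Submodule.mem_top

variable (ι M) in
/-- A scalar matrix is linear over the polynomial ring. -/
noncomputable def actR {α : Type} [Fintype α] [DecidableEq α] (A : Matrix α α ℂ) :
    (α → M) →ₗ[MvPolynomial ι ℂ] (α → M) where
  toFun := act M A
  map_add' := map_add _
  map_smul' r x := by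
    funext I
    simp only [act_apply, Pi.smul_apply, RingHom.id_apply, Finset.smul_sum]
    exact Finset.sum_congr rfl fun J _ => smul_comm _ _ _

theorem actR_mem {α : Type} [Fintype α] [DecidableEq α] (A : Matrix α α ℂ)
    (I : Ideal (MvPolynomial ι ℂ)) (K : Submodule (MvPolynomial ι ℂ) (α → M))
    (h : ∀ x, act M A x ∈ K) {x : α → M}
    (hx : x ∈ I • (⊤ : Submodule (MvPolynomial ι ℂ) (α → M))) : act M A x ∈ I • K := by
  have h1 := Submodule.mem_map_of_mem (f := actR ι M A) hx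
  rw [Submodule.map_smul''] at h1
  refine Submodule.smul_mono le_rfl ?_ h1
  rintro _ ⟨u, -, rfl⟩
  exact h u

variable (ι M) in
/-- The product of a scalar vector and an element. -/
noncomputable def vec {α : Type} (v : α → ℂ) : M →ₗ[MvPolynomial ι ℂ] (α → M) where
  toFun e I := v I • e
  map_add' _ _ := funext fun _ => smul_add _ _ _
  map_smul' _ _ := funext fun _ => smul_comm _ _ _

theorem vec_apply {α : Type} (v : α → ℂ) (e : M) (I : α) : vec ι M v e I = v I • e := rfl

theorem act_vec {α : Type} [Fintype α] [DecidableEq α] (A : Matrix α α ℂ) (v : α → ℂ) (e : M) :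
    act M A (vec ι M v e) = vec ι M (A.mulVec v) e := by
  funext I
  simp [act_apply, vec_apply, Matrix.mulVec, dotProduct, Finset.sum_smul, mul_smul]

end Mod

section Cl

variable {ν σ V : Type} [Fintype ν] [LinearOrder ν] [AddCommGroup V] [Module ℂ V]

theorem anti {P A : Matrix (Finset ν) (Finset ν) ℂ} (h : P * A = -(A * P)) (T : Module.End ℂ V) :
    act V P * (act V A * pw (Finset ν) T) = -(act V A * pw (Finset ν) T * act V P) := by
  rw [← mul_assoc, ← map_mul, h, map_neg, map_mul]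
  rw [mul_assoc (act V A), ← act_mul_pw, ← mul_assoc]
  rfl

theorem par_clm (hCLIF : S_CLIF) (w : ν → ℤ) (v : (ν ⊕ σ) ⊕ ν ⊕ σ → ℂ) :
    parM ν * clm w v = -(clm w v * parM ν) := by
  have h := (hCLIF ν).2.2.1
  unfold clm
  rw [Finset.mul_sum, Finset.sum_mul, ← Finset.sum_neg_distrib]
  refine Finset.sum_congr rfl fun j _ => ?_
  rw [mul_add, add_mul, mul_smul_comm, mul_smul_comm, smul_mul_assoc, smul_mul_assoc, (h j).1,
    (h j).2, smul_neg, smul_neg, neg_add]

theorem parM_sq : parM ν * parM ν = 1 := by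
  unfold parM
  rw [Matrix.diagonal_mul_diagonal, ← Matrix.diagonal_one]
  congr 1
  funext I
  rw [← mul_pow]
  simp

theorem clm_swap {w : ν → ℤ} {bar : ν ≃ ν} {W : Matrix (Finset ν) (Finset ν) ℂ}
    (hW : IsSpin bar W) (hw : ∀ j, w (bar j) = -w j) (τ : σ → σ) (v : (ν ⊕ σ) ⊕ ν ⊕ σ → ℂ) :
    W * clm w (v ∘ Sum.map (Sum.map bar τ) (Sum.map bar τ)) = Complex.I • (clm w v * W) := by
  unfold clm
  rw [Finset.mul_sum, Finset.sum_mul, Finset.smul_sum, ← Equiv.sum_comp bar fun j =>
    Complex.I • ((v (Sum.inr (Sum.inl j)) • eps j +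
      ((w j : ℂ) * v (Sum.inl (Sum.inl j))) • iot j) * W)]
  refine Finset.sum_congr rfl fun j _ => ?_
  simp only [Function.comp_apply, Sum.map_inr, Sum.map_inl, mul_add, add_mul, mul_smul_comm,
    smul_mul_assoc, hW.eps, hW.iot, hw, smul_add, smul_smul]
  congr 2
  · ring
  · push_cast; ring

theorem clm_span (w : ν → ℤ) (v₀ : Finset ν → ℂ) (G : Set ((ν ⊕ σ) ⊕ ν ⊕ σ → ℂ))
    (h : ∀ v ∈ G, (clm w v).mulVec v₀ = 0) :
    ∀ v ∈ Submodule.span ℂ G, (clm w v).mulVec v₀ = 0 := by
  intro v hv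
  induction hv using Submodule.span_induction with
  | mem v hv => exact h v hv
  | zero => simp [clm]
  | add a b _ _ ha hb =>
    have : clm w (a + b) = clm w a + clm w b := by
      unfold clm
      rw [← Finset.sum_add_distrib]
      refine Finset.sum_congr rfl fun j _ => ?_
      simp only [Pi.add_apply, mul_add, add_smul]
      abel
    rw [this, Matrix.add_mulVec, ha, hb, add_zero]
  | smul r a _ ha =>
    have : clm w (r • a) = r • clm w a := by
      unfold clm
      rw [Finset.smul_sum]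
      refine Finset.sum_congr rfl fun j _ => ?_
      simp only [Pi.smul_apply, smul_eq_mul, smul_add, smul_smul, mul_left_comm]
    rw [this, Matrix.smul_mulVec, ha, smul_zero]

theorem tw_dir {w : ν → ℤ} {bar : ν ≃ ν} {W : Matrix (Finset ν) (Finset ν) ℂ}
    (hW : IsSpin bar W) (hw : ∀ j, w (bar j) = -w j) (τ : σ → σ)
    (z : (ν ⊕ σ) ⊕ ν ⊕ σ → Module.End ℂ V) (U : Module.End ℂ V)
    (hU : ∀ v, U * z v = z (Sum.map (Sum.map bar τ) (Sum.map bar τ) v) * U) :
    act V W * pw (Finset ν) U * dir0 z w = Complex.I • (dir0 z w * (act V W * pw (Finset ν) U)) := by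
  have key : ∀ (A B : Matrix (Finset ν) (Finset ν) ℂ) (T T' : Module.End ℂ V),
      act V A * pw (Finset ν) T * (act V B * pw (Finset ν) T') =
        act V (A * B) * pw (Finset ν) (T * T') := by
    intro A B T T'
    rw [map_mul, map_mul, mul_assoc, ← mul_assoc (pw (Finset ν) T), ← act_mul_pw, mul_assoc,
      mul_assoc]
  unfold dir0
  rw [Finset.mul_sum, Finset.sum_mul, Finset.smul_sum, ← Equiv.sum_comp bar fun j =>
    Complex.I • ((act V (eps j) * pw (Finset ν) (z (Sum.inr (Sum.inl j))) +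
      (w j : ℂ) • (act V (iot j) * pw (Finset ν) (z (Sum.inl (Sum.inl j))))) *
        (act V W * pw (Finset ν) U))]
  refine Finset.sum_congr rfl fun j _ => ?_
  simp only [mul_add, add_mul, mul_smul_comm, smul_mul_assoc, key, hU, hW.eps, hW.iot, hw,
    map_smul, smul_add, smul_smul, Sum.map_inr, Sum.map_inl]
  congr 2
  push_cast; ring

end Cl

end CpAux

open CpAux in
theorem p_CP (hCLIF : S_CLIF) (hVF : S_VF) (hFRAME : S_FRAME) (hPURE : S_PURE) (hCPA : S_CPA) (hCPB : S_CPB) (hKFG : S_KFG) :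
    S_CP := by
  intro ν σ V _ _ _ _ _ _ S z γ U W c hE hW hU hc hUc
  have hcomm : ∀ s t, z s * z t = z t * z s := fun s t => LinearMap.ext fun v =>
    sub_eq_zero.1 ((Submodule.mem_bot ℂ).1 (hE.comm s t v trivial))
  have hfg : ∃ G : Finset V, gen (Set.range z) (G : Set V) = ⊤ := by
    obtain ⟨G, -, hG⟩ := hE.fg
    exact ⟨G, by simpa using hG⟩
  obtain ⟨inst, inst2, hX⟩ := exists_commModule z hcomm
  have hfin : Module.Finite (MvPolynomial ((ν ⊕ σ) ⊕ ν ⊕ σ) ℂ) V := by
    obtain ⟨G, hG⟩ := hfg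
    refine ⟨⟨G, eq_top_iff.2 fun v _ => ?_⟩⟩
    have : gen (Set.range z) (G : Set V) ≤
        (Submodule.span (MvPolynomial ((ν ⊕ σ) ⊕ ν ⊕ σ) ℂ) (G : Set V)).restrictScalars ℂ := by
      refine gen_le Submodule.subset_span ?_
      rintro _ ⟨s, rfl⟩ u hu
      rw [← hX]
      exact Submodule.smul_mem (Submodule.span (MvPolynomial ((ν ⊕ σ) ⊕ ν ⊕ σ) ℂ) (G : Set V)) _ hu
    exact this (hG ▸ Submodule.mem_top)
  have hpw : ∀ s (x : Finset ν → V),
      pw (Finset ν) (z s) x = (X s : MvPolynomial ((ν ⊕ σ) ⊕ ν ⊕ σ) ℂ) • x :=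
    fun s x => funext fun I => (hX s (x I)).symm
  obtain ⟨ξ, θ', hFr⟩ := hFRAME ν σ S
  obtain ⟨b1, b2, b3⟩ := hCPB ν σ V S z γ ξ θ' hX hE hFr
  obtain ⟨v₀, s, hv0, hs, hpar, hcv, huniq, hprod, hker⟩ := hPURE ν
    (fun j => clm S.w (hv (ξ j) (ext0 ν S.Y))) (fun j => clm S.w (θ' j))
    (fun i j => by rw [b1, hFr.iso, zero_smul])
    (fun i j => by rw [b1, hFr.dual]; split_ifs <;> simp) fun j => par_clm hCLIF _ _
  set N := ∑ j, clm S.w (θ' j) * clm S.w (hv (ξ j) (ext0 ν S.Y)) with hN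
  set κ : Module.End ℂ (Finset ν → V) := ∑ j, act V (clm S.w (θ' j)) * pw (Finset ν) (γ (ξ j))
    with hκ
  set Δ := dir0 z S.w * κ + κ * dir0 z S.w with hΔ
  set 𝔪 : Ideal (MvPolynomial ((ν ⊕ σ) ⊕ ν ⊕ σ) ℂ) := RingHom.ker (eval (ext0 ν S.Y)) with h𝔪
  beta_reduce at b3
  have hss : s * s = 1 := by rcases hs with h | h <;> simp [h]
  let d : (Finset ν → V) →ₗ[MvPolynomial ((ν ⊕ σ) ⊕ ν ⊕ σ) ℂ] (Finset ν → V) :=
    ∑ j, ((X (Sum.inr (Sum.inl j)) : MvPolynomial ((ν ⊕ σ) ⊕ ν ⊕ σ) ℂ) • actR _ V (eps j) +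
      (X (Sum.inl (Sum.inl j)) : MvPolynomial ((ν ⊕ σ) ⊕ ν ⊕ σ) ℂ) •
        actR _ V ((S.w j : ℂ) • iot j))
  have hd : ∀ x, d x = dir0 z S.w x := by
    intro x
    simp only [d, dir0, LinearMap.sum_apply, LinearMap.add_apply, LinearMap.smul_apply,
      act_mul_pw, Module.End.mul_apply, hpw]
    refine Finset.sum_congr rfl fun j _ => ?_
    congr 1
    show _ • act V _ x = _
    rw [map_smul, LinearMap.smul_apply, smul_comm]
  have hPa : ∀ A : Matrix (Finset ν) (Finset ν) ℂ, parM ν * A = -(A * parM ν) →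
      (s • parM ν) * A = -(A * (s • parM ν)) := by
    intro A h
    rw [smul_mul_assoc, h, mul_smul_comm, smul_neg]
  have hPd : act V (s • parM ν) * dir0 z S.w = -(dir0 z S.w * act V (s • parM ν)) := by
    unfold dir0
    rw [Finset.mul_sum, Finset.sum_mul, ← Finset.sum_neg_distrib]
    refine Finset.sum_congr rfl fun j _ => ?_
    rw [mul_add, add_mul, mul_smul_comm, smul_mul_assoc, anti (hPa _ ((hCLIF ν).2.2.1 j).1),
      anti (hPa _ ((hCLIF ν).2.2.1 j).2), smul_neg, neg_add]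
  have hPκ : act V (s • parM ν) * κ = -(κ * act V (s • parM ν)) := by
    rw [hκ, Finset.mul_sum, Finset.sum_mul, ← Finset.sum_neg_distrib]
    exact Finset.sum_congr rfl fun j _ => anti (hPa _ (par_clm hCLIF _ _)) _
  have hNv : N.mulVec v₀ = 0 := by
    rw [hN, Matrix.sum_mulVec]
    exact Finset.sum_eq_zero fun j _ => by rw [← Matrix.mulVec_mulVec, hcv j, Matrix.mulVec_zero]
  obtain ⟨h1, h2⟩ := hCPA _ (Finset ν → V) 𝔪 d (actR _ V (s • parM ν)) κ Δ
    (LinearMap.range (vec _ V v₀))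
    (fun j => ∏ i ∈ Finset.range (j + 1), Q (Fintype.card ν) (i + 1))
    (fun x => by
      refine ⟨?_, ?_, ?_, LinearMap.congr_fun hPκ x, ?_, ?_⟩
      · rw [hd, hd]; exact LinearMap.congr_fun b2 x
      · show (act V (s • parM ν) * act V (s • parM ν)) x = x
        rw [← map_mul, smul_mul_assoc, mul_smul_comm, parM_sq, smul_smul, hss, one_smul, map_one]
        rfl
      · rw [hd, hd]; exact LinearMap.congr_fun hPd x
      · rw [hd, hd]; rfl
      · simp only [d, LinearMap.sum_apply, LinearMap.add_apply, LinearMap.smul_apply]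
        refine Submodule.sum_mem _ fun j _ => Submodule.add_mem _ ?_ ?_ <;>
          exact Submodule.smul_mem_smul (by simp [h𝔪, RingHom.mem_ker, ext0]) Submodule.mem_top)
    (by
      rintro _ ⟨e, rfl⟩
      refine ⟨?_, ?_⟩
      · show act V (s • parM ν) _ = _
        rw [act_vec, Matrix.smul_mulVec, hpar, smul_smul, hss, one_smul]
      · obtain ⟨-, A, hA1, hA2⟩ := b3 0
        obtain ⟨y, hy, hxy⟩ := hA1 (vec ((ν ⊕ σ) ⊕ ν ⊕ σ) V v₀ e) (by simp)
        have hy0 : y ∈ A 0 := by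
          refine (iSup₂_le fun i hi => ?_ : (⨆ i, ⨆ _ : i ≤ 0, A i) ≤ A 0) hy
          rw [Nat.le_zero.1 hi]
        have e1 := (hA2 0 le_rfl y hy0).2.2
        have e2 := (b3 (0 + 1)).1 _ hxy
        have e3 := actR_mem N _ ⊤ (fun _ => trivial) hxy
        have e4 : act V N (vec (((ν ⊕ σ) ⊕ ν ⊕ σ)) V v₀ e) = 0 := by
          rw [act_vec, hNv]; funext I; simp [vec_apply]
        have := Submodule.sub_mem _ (Submodule.add_mem _ e1 e2) e3
        rw [zero_add, pow_one, map_sub, map_sub, e4] at this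
        convert this using 1
        simp)
    (fun j => by
      rw [Polynomial.eval_prod]
      exact Finset.prod_ne_zero_iff.2 fun i _ => Q_eval _ _)
    (fun j x hx => by
      obtain ⟨hΔj, A, hA1, hA2⟩ := b3 j
      refine ⟨hΔj x hx, ?_⟩
      obtain ⟨y, hy, hxy⟩ := hA1 x hx
      have hst : ∀ x ∈ (𝔪 ^ (j + 1) • (⊤ : Submodule (MvPolynomial ((ν ⊕ σ) ⊕ ν ⊕ σ) ℂ)
          (Finset ν → V))).restrictScalars ℂ, Δ x ∈ (𝔪 ^ (j + 1) •
            (⊤ : Submodule (MvPolynomial ((ν ⊕ σ) ⊕ ν ⊕ σ) ℂ) (Finset ν → V))).restrictScalars ℂ :=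
        (b3 (j + 1)).1
      rw [← sub_add_cancel x y, map_add]
      refine Submodule.add_mem _ (Submodule.mem_sup_right (aeval_mem hst _ hxy)) ?_
      refine (iSup₂_le fun i hi u hu => ?_ : (⨆ i, ⨆ _ : i ≤ j, A i) ≤
        ((𝔪 ^ j • LinearMap.range (vec ((ν ⊕ σ) ⊕ ν ⊕ σ) V v₀) ⊔ 𝔪 ^ (j + 1) • ⊤).restrictScalars
          ℂ).comap (Polynomial.aeval Δ
            (∏ i ∈ Finset.range (j + 1), Q (Fintype.card ν) (i + 1)))) hy
      have e1 := aeval_congr (T' := act V (N + (i : ℂ) • 1)) (A := A i) hst (fun u hu => by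
        rw [map_add, map_smul, map_one, LinearMap.add_apply, LinearMap.smul_apply,
          Module.End.one_apply, ← sub_sub]
        exact ⟨(A i).add_mem (hA2 i hi u hu).2.1 ((A i).smul_mem _ hu), (hA2 i hi u hu).2.2⟩)
        (∏ i ∈ Finset.range (j + 1), Q (Fintype.card ν) (i + 1)) hu
      rw [Polynomial.aeval_algHom_apply] at e1
      rw [Submodule.mem_comap, Submodule.restrictScalars_mem, ← sub_add_cancel (Polynomial.aeval Δ
        _ u) (act V (Polynomial.aeval (N + (i : ℂ) • 1)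
          (∏ i ∈ Finset.range (j + 1), Q (Fintype.card ν) (i + 1))) u)]
      refine Submodule.add_mem _ (Submodule.mem_sup_right e1) (Submodule.mem_sup_left ?_)
      refine actR_mem _ _ _ (fun x => ?_) (hA2 i hi u hu).1
      rcases i with _ | i
      · obtain ⟨q, hq⟩ := Finset.dvd_prod_of_mem (fun i => Q (Fintype.card ν) (i + 1))
          (Finset.mem_range.2 (Nat.succ_pos j))
        have h0 := aeval_Q N _ 0 hprod
        rw [hq]
        simp only [Nat.cast_zero, zero_smul, add_zero, zero_add] at h0 ⊢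
        set B := Polynomial.aeval N (Q (Fintype.card ν) 1 * q) with hB
        have hNB : N * B = 0 := by
          have : N * B = Polynomial.aeval N (Polynomial.X * Q (Fintype.card ν) 1 * q) := by
            rw [mul_assoc, map_mul, Polynomial.aeval_X]
          rw [this, X_mul_Q, map_mul, map_mul, h0, zero_mul, zero_mul]
        choose a ha using fun J => huniq (fun I => B I J) (hker _ (by
          funext I
          have := congrFun (congrFun hNB I) J
          simpa [Matrix.mul_apply, Matrix.mulVec, dotProduct] using this))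
        refine ⟨∑ J, a J • x J, funext fun I => ?_⟩
        rw [vec_apply, act_apply, Finset.smul_sum]
        refine Finset.sum_congr rfl fun J _ => ?_
        rw [congrFun (ha J) I, smul_smul, Pi.smul_apply, smul_eq_mul, mul_comm]
      · obtain ⟨q, hq⟩ := Finset.dvd_prod_of_mem (fun i => Q (Fintype.card ν) (i + 1))
          (Finset.mem_range.2 (by omega : i < j + 1))
        rw [hq, map_mul, aeval_Q N _ (i + 1) hprod, zero_mul, map_zero]
        exact Submodule.zero_mem _)
  obtain ⟨a, ha⟩ := huniq (W.mulVec v₀) fun j => by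
    have e1 := congrArg (fun A => Matrix.mulVec A v₀)
      (clm_swap hW S.w_bar S.τ (hv (ξ j) (ext0 ν S.Y)))
    simp only [Matrix.smul_mulVec, ← Matrix.mulVec_mulVec] at e1
    rw [clm_span S.w v₀ _ (by rintro _ ⟨i, rfl⟩; exact hcv i) _ (hFr.swap j),
      Matrix.mulVec_zero] at e1
    exact (smul_eq_zero.1 e1.symm).resolve_left Complex.I_ne_zero
  have ha0 : a ≠ 0 := by
    rintro rfl
    have e1 := congrArg (fun A => Matrix.mulVec A v₀) hW.sq
    simp only [← Matrix.mulVec_mulVec, ha, zero_smul, Matrix.mulVec_zero, hpar] at e1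
    rcases smul_eq_zero.1 e1.symm with h | h
    · simp [h] at hss
    · exact hv0 h
  refine ⟨a * c, mul_ne_zero ha0 hc, fun u hu => ?_⟩
  have hu' : dir0 z S.w u = 0 := hu
  have hsw : ∀ t, ext0 ν S.Y (Sum.map (Sum.map S.bar S.τ) (Sum.map S.bar S.τ) t) =
      ext0 ν S.Y t := by
    rintro ((j | t) | (j | t))
    · rfl
    · exact congrFun S.Y_τ (Sum.inl t)
    · rfl
    · exact congrFun S.Y_τ (Sum.inr t)
  have hTm : ∀ x ∈ 𝔪 • (⊤ : Submodule (MvPolynomial ((ν ⊕ σ) ⊕ ν ⊕ σ) ℂ) (Finset ν → V)),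
      x ∈ ((𝔪 • (⊤ : Submodule (MvPolynomial ((ν ⊕ σ) ⊕ ν ⊕ σ) ℂ) (Finset ν → V))).restrictScalars
        ℂ).comap (act V W * pw (Finset ν) U) := by
    refine smul_le _ _ _ fun t x _ => ?_
    have e1 : (act V W * pw (Finset ν) U) (pw (Finset ν) (z t) x) =
        pw (Finset ν) (z (Sum.map (Sum.map S.bar S.τ) (Sum.map S.bar S.τ) t))
          ((act V W * pw (Finset ν) U) x) := by
      rw [← Module.End.mul_apply, mul_assoc, ← map_mul, hU, map_mul, ← mul_assoc, act_mul_pw,
        mul_assoc, Module.End.mul_apply]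
    rw [Submodule.mem_comap, Submodule.restrictScalars_mem, ← hpw, map_sub, e1, hpw,
      LinearMap.map_smul, ← hsw t]
    exact sub_mem_smul _ _ _
  have hrad : radz z (ext0 ν S.Y) ⊤ ≤
      ((𝔪 • (⊤ : Submodule (MvPolynomial ((ν ⊕ σ) ⊕ ν ⊕ σ) ℂ) (Finset ν → V))).comap
        (vec ((ν ⊕ σ) ⊕ ν ⊕ σ) V v₀)).restrictScalars ℂ := by
    refine iSup_le fun t => ?_
    rintro _ ⟨e, -, rfl⟩
    rw [Submodule.restrictScalars_mem, Submodule.mem_comap, LinearMap.sub_apply,
      LinearMap.smul_apply, Module.End.one_apply, ← hX, map_sub, map_smul,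
      LinearMap.map_smul_of_tower]
    exact sub_mem_smul _ _ _
  have hmem : (act V W * pw (Finset ν) U) u - (a * c) • u ∈ LinearMap.ker d ⊓ 𝔪 • ⊤ := by
    refine ⟨?_, ?_⟩
    · have e1 := LinearMap.congr_fun (tw_dir hW S.w_bar S.τ z U hU) u
      rw [Module.End.mul_apply, hu', map_zero, LinearMap.smul_apply, Module.End.mul_apply] at e1
      have e2 := (smul_eq_zero.1 e1.symm).resolve_left Complex.I_ne_zero
      show d _ = 0
      rw [hd, map_sub, map_smul, hu', e2, smul_zero, sub_zero]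
    · obtain ⟨_, ⟨e, rfl⟩, r, hr, rfl⟩ := Submodule.mem_sup.1 (h1 (show d u = 0 by rw [hd, hu']))
      have e1 : (act V W * pw (Finset ν) U) (vec ((ν ⊕ σ) ⊕ ν ⊕ σ) V v₀ e) =
          a • vec ((ν ⊕ σ) ⊕ ν ⊕ σ) V v₀ (U e) := by
        rw [act_mul_pw, Module.End.mul_apply, act_vec, ha]
        funext I
        simp [pw_apply, vec_apply, mul_smul]
      have e2 := hrad (hUc e)
      rw [Submodule.restrictScalars_mem, Submodule.mem_comap, map_sub,
        LinearMap.map_smul_of_tower] at e2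
      have e3 := Submodule.add_mem _ (Submodule.smul_of_tower_mem _ a e2)
        (Submodule.sub_mem _ (hTm r hr) (Submodule.smul_of_tower_mem _ (a * c) hr))
      show _ ∈ 𝔪 • (⊤ : Submodule (MvPolynomial ((ν ⊕ σ) ⊕ ν ⊕ σ) ℂ) (Finset ν → V))
      rw [map_add, e1]
      convert e3 using 1
      rw [smul_sub, smul_add, mul_smul]
      abel
  obtain ⟨_, ⟨x, rfl⟩, r, hr, hxr⟩ := Submodule.mem_sup.1 (h2 hmem)
  rw [← hxr]
  refine Submodule.add_mem _ (Submodule.mem_sup_left ⟨x, (hd x).symm⟩) ?_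
  refine smul_le _ _ _ (fun t x hx => ?_) r hr
  have hx' : x ∈ LinearMap.ker (dir0 z S.w) := by
    rw [LinearMap.mem_ker, ← hd]; exact hx
  have k1 := (hKFG ν σ V z S.w hcomm hfg fun j => by rcases S.w_pm j with h | h <;> simp [h]).1
  rw [← hpw]
  rcases t with (j | t) | (j | t)
  · exact Submodule.mem_sup_left (by simpa [ext0] using k1 (Sum.inl j) x hx')
  · exact Submodule.mem_sup_right (Submodule.mem_iSup_of_mem (Sum.inl t) ⟨x, hx', rfl⟩)
  · exact Submodule.mem_sup_left (by simpa [ext0] using k1 (Sum.inr j) x hx')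
  · exact Submodule.mem_sup_right (Submodule.mem_iSup_of_mem (Sum.inr t) ⟨x, hx', rfl⟩)

end Pool.Agent.P.MP_52ab5a_al
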