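import Pool.Agent.P.MP_52ab5a_al.B.Iface

/-! Step CPA of the open orbit project. -/

namespace Pool.Agent.P.MP_52ab5a_al

open MvPolynomial WM

namespace CpaAux

variable {R M : Type} [CommRing R] [Algebra ℂ R] [AddCommGroup M] [Module ℂ M] [Module R M]
  [IsScalarTower ℂ R M]

lemma aev_mem (Δ : Module.End ℂ M) (N : Submodule R M) (h : ∀ x ∈ N, Δ x ∈ N)
    (q : Polynomial ℂ) : ∀ x ∈ N, Polynomial.aeval Δ q x ∈ N := by
  induction q using Polynomial.induction_on with
  | C a =>
    intro x hx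
    rw [Polynomial.aeval_C, Module.algebraMap_end_apply]
    exact N.smul_of_tower_mem a hx
  | add p q hp hq =>
    intro x hx
    rw [map_add, LinearMap.add_apply]
    exact N.add_mem (hp x hx) (hq x hx)
  | monomial n a ih =>
    intro x hx
    rw [pow_succ, ← mul_assoc, map_mul, Polynomial.aeval_X, Module.End.mul_apply]
    exact ih _ (h x hx)

lemma aev_comm (Δ : Module.End ℂ M) (f : M →ₗ[R] M) (h : ∀ x, f (Δ x) = Δ (f x))
    (q : Polynomial ℂ) : ∀ x, f (Polynomial.aeval Δ q x) = Polynomial.aeval Δ q (f x) := by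
  induction q using Polynomial.induction_on with
  | C a =>
    intro x
    rw [Polynomial.aeval_C, Module.algebraMap_end_apply, Module.algebraMap_end_apply,
      LinearMap.map_smul_of_tower]
  | add p q hp hq =>
    intro x
    rw [map_add, LinearMap.add_apply, LinearMap.add_apply, map_add, hp, hq]
  | monomial n a ih =>
    intro x
    rw [pow_succ, ← mul_assoc, map_mul, Polynomial.aeval_X, Module.End.mul_apply,
      Module.End.mul_apply, ih, h]

omit [CommRing R] [Algebra ℂ R] [Module R M] [IsScalarTower ℂ R M] in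
lemma aev_split (Δ : Module.End ℂ M) (q : Polynomial ℂ) (x : M) :
    Polynomial.aeval Δ q x = Polynomial.aeval Δ q.divX (Δ x) + q.eval 0 • x := by
  conv_lhs => rw [← Polynomial.divX_mul_X_add q]
  rw [map_add, map_mul, Polynomial.aeval_X, Polynomial.aeval_C, LinearMap.add_apply,
    Module.End.mul_apply, Module.algebraMap_end_apply, Polynomial.coeff_zero_eq_eval_zero]

lemma unsmul (N : Submodule R M) {c : ℂ} (hc : c ≠ 0) {x : M} (h : c • x ∈ N) : x ∈ N := by
  have := N.smul_of_tower_mem c⁻¹ h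
  rwa [smul_smul, inv_mul_cancel₀ hc, one_smul] at this

omit [Algebra ℂ R] [Module ℂ M] [IsScalarTower ℂ R M] in
lemma ar [IsNoetherianRing R] [Module.Finite R M] (m : Ideal R) (N : Submodule R M) :
    ∃ k : ℕ, m ^ (k + 1) • (⊤ : Submodule R M) ⊓ N ≤ m • N := by
  obtain ⟨k, hk⟩ := Ideal.exists_pow_inf_eq_pow_smul m N
  refine ⟨k, ?_⟩
  rw [hk (k + 1) (by omega), Nat.add_sub_cancel_left, pow_one]
  exact smul_mono_right _ inf_le_right

omit [Algebra ℂ R] [Module ℂ M] [IsScalarTower ℂ R M] in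
lemma map_mem (I : Ideal R) (f : M →ₗ[R] M) {x : M} (h : x ∈ I • (⊤ : Submodule R M)) :
    f x ∈ I • (⊤ : Submodule R M) := by
  have : f x ∈ (I • (⊤ : Submodule R M)).map f := Submodule.mem_map_of_mem h
  rw [Submodule.map_smul''] at this
  have h2 : I • (⊤ : Submodule R M).map f ≤ I • (⊤ : Submodule R M) := smul_mono_right I le_top
  exact h2 this

omit [Algebra ℂ R] [Module ℂ M] [IsScalarTower ℂ R M] in
lemma fix_smul (I : Ideal R) (f : M →ₗ[R] M) (K : Submodule R M) (h : ∀ x ∈ K, f x = x) {x : M}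
    (hx : x ∈ I • K) : f x = x := by
  refine Submodule.smul_induction_on hx (fun r _ n hn => ?_) fun a b ha hb => ?_
  · rw [map_smul, h n hn]
  · rw [map_add, ha, hb]

end CpaAux

open CpaAux in
theorem p_CPA :
    S_CPA := by
  intro R M _ _ _ _ _ _ _ _ m d P κ Δ K p h1 hK hp hF
  have hdΔ : ∀ x, d (Δ x) = Δ (d x) := by
    intro x
    rw [(h1 x).2.2.2.2.1, (h1 (d x)).2.2.2.2.1, map_add, (h1 _).1, (h1 _).1, map_zero, zero_add,
      add_zero]
  have hPΔ : ∀ x, P (Δ x) = Δ (P x) := by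
    intro x
    rw [(h1 x).2.2.2.2.1, (h1 (P x)).2.2.2.2.1, map_add, (h1 _).2.2.1, (h1 _).2.2.2.1,
      (h1 _).2.2.2.1, (h1 _).2.2.1, map_neg, map_neg, neg_neg, neg_neg]
  have hBd : ∀ x ∈ LinearMap.range d, Δ x ∈ LinearMap.range d := by
    rintro _ ⟨y, rfl⟩
    exact ⟨Δ y, hdΔ y⟩
  have hZ : ∀ x ∈ LinearMap.ker d, Δ x ∈ LinearMap.ker d := by
    intro x hx
    rw [LinearMap.mem_ker] at hx ⊢
    rw [hdΔ, hx, map_zero]
  have hZB : ∀ (q : Polynomial ℂ), ∀ u ∈ LinearMap.ker d,
      Polynomial.aeval Δ q u - q.eval 0 • u ∈ LinearMap.range d := by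
    intro q u hu
    rw [aev_split, add_sub_cancel_right]
    refine aev_mem Δ _ hBd _ _ ⟨κ u, ?_⟩
    rw [(h1 u).2.2.2.2.1, LinearMap.mem_ker.1 hu, map_zero, add_zero]
  have hBm : LinearMap.range d ≤ m • (⊤ : Submodule R M) := by
    rintro _ ⟨y, rfl⟩
    exact (h1 y).2.2.2.2.2
  have hm1 : ∀ x ∈ m • (⊤ : Submodule R M), Δ x ∈ m • (⊤ : Submodule R M) := by
    intro x hx
    have := (hF 1 x (by rwa [pow_one])).1
    rwa [pow_one] at this
  -- opposite parity
  have hodd : ∀ j, ∀ x ∈ m ^ j • (⊤ : Submodule R M), P x = -x →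
      Polynomial.aeval Δ (p j) x ∈ m ^ (j + 1) • (⊤ : Submodule R M) := by
    intro j x hx hPx
    obtain ⟨k, hk, r, hr, e⟩ := Submodule.mem_sup.1 (hF j x hx).2
    have e1 : P (Polynomial.aeval Δ (p j) x) = -Polynomial.aeval Δ (p j) x := by
      rw [aev_comm Δ P hPΔ, hPx, map_neg]
    rw [← e, map_add, fix_smul _ P K (fun y hy => (hK y hy).1) hk] at e1
    have e2 : (2 : ℂ) • k = -(r + P r) := by
      rw [two_smul, eq_neg_iff_add_eq_zero]
      rw [eq_neg_iff_add_eq_zero] at e1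
      rw [← e1]
      abel
    have hk' : k ∈ m ^ (j + 1) • (⊤ : Submodule R M) := by
      refine unsmul _ two_ne_zero ?_
      rw [e2]
      exact Submodule.neg_mem _ (Submodule.add_mem _ hr (map_mem _ P hr))
    rw [← e]
    exact Submodule.add_mem _ hk' hr
  have hit : ∀ x, P x = -x → ∀ k : ℕ, ∃ q : Polynomial ℂ, q.eval 0 ≠ 0 ∧
      Polynomial.aeval Δ q x ∈ m ^ k • (⊤ : Submodule R M) := by
    intro x hx k
    induction k with
    | zero => exact ⟨1, by simp, by simp⟩
    | succ k ih =>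
      obtain ⟨q, hq, hq'⟩ := ih
      refine ⟨p k * q, by rw [Polynomial.eval_mul]; exact mul_ne_zero (hp k) hq, ?_⟩
      rw [map_mul, Module.End.mul_apply]
      refine hodd k _ hq' ?_
      rw [aev_comm Δ P hPΔ, hx, map_neg]
  -- lifting
  have hlift : K ≤ LinearMap.ker d ⊔ m • (⊤ : Submodule R M) := by
    intro x hx
    obtain ⟨k, hk⟩ := ar m (LinearMap.range d)
    obtain ⟨q, hq, hq'⟩ := hit (d x) (by rw [(h1 x).2.2.1, (hK x hx).1]) (k + 1)
    rw [← aev_comm Δ d hdΔ] at hq'
    have h3 := hk ⟨hq', LinearMap.mem_range_self d _⟩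
    rw [LinearMap.range_eq_map, ← Submodule.map_smul''] at h3
    obtain ⟨w, hw, e⟩ := h3
    refine unsmul _ hq ?_
    have e2 : q.eval 0 • x = (Polynomial.aeval Δ q x - w) +
        (w - Polynomial.aeval Δ q.divX (Δ x)) := by
      rw [aev_split Δ q x]
      abel
    rw [e2]
    refine Submodule.add_mem_sup ?_ (Submodule.sub_mem _ hw (aev_mem Δ _ hm1 _ _ (hK x hx).2))
    rw [LinearMap.mem_ker, map_sub, e, sub_self]
  have hlift' : ∀ j, m ^ (j + 1) • K ≤ m • LinearMap.ker d ⊔ m ^ (j + 1 + 1) • (⊤ : Submodule R M) := by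
    intro j
    refine (smul_mono_right _ hlift).trans ?_
    rw [Submodule.smul_sup, ← Submodule.mul_smul, ← pow_succ]
    exact sup_le_sup_right (Submodule.smul_mono_left (Ideal.pow_le_self (by omega))) _
  refine ⟨fun u hu => ?_, ?_⟩
  · have h2 := (hF 0 u (by simp)).2
    rw [pow_zero, zero_add, pow_one, Ideal.one_eq_top, Submodule.top_smul] at h2
    refine unsmul _ (hp 0) ?_
    have := Submodule.sub_mem _ h2 (Submodule.mem_sup_right (hBm (hZB (p 0) u hu)))
    rwa [sub_sub_cancel] at this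
  · have step : ∀ j, LinearMap.ker d ⊓ m ^ (j + 1) • (⊤ : Submodule R M) ≤
        (LinearMap.range d ⊔ m • LinearMap.ker d) ⊔
          LinearMap.ker d ⊓ m ^ (j + 1 + 1) • (⊤ : Submodule R M) := by
      rintro j u ⟨hu, hu'⟩
      have h2 : Polynomial.aeval Δ (p (j + 1)) u ∈
          m • LinearMap.ker d ⊔ m ^ (j + 1 + 1) • (⊤ : Submodule R M) :=
        (sup_le (hlift' j) le_sup_right) (hF (j + 1) u hu').2
      obtain ⟨a, ha, r, hr, e⟩ := Submodule.mem_sup.1 h2
      have hr' : r ∈ LinearMap.ker d := by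
        have := Submodule.sub_mem _ (aev_mem Δ _ hZ (p (j + 1)) u hu) (Submodule.smul_le_right ha)
        rwa [← e, add_sub_cancel_left] at this
      refine unsmul _ (hp (j + 1)) ?_
      have e2 : (p (j + 1)).eval 0 • u =
          (-(Polynomial.aeval Δ (p (j + 1)) u - (p (j + 1)).eval 0 • u) + a) + r := by
        rw [← e]
        abel
      rw [e2]
      exact Submodule.add_mem_sup
        (Submodule.add_mem_sup (Submodule.neg_mem _ (hZB _ u hu)) ha) ⟨hr', hr⟩
    have all : ∀ n, LinearMap.ker d ⊓ m • (⊤ : Submodule R M) ≤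
        (LinearMap.range d ⊔ m • LinearMap.ker d) ⊔
          LinearMap.ker d ⊓ m ^ (n + 1) • (⊤ : Submodule R M) := by
      intro n
      induction n with
      | zero => rw [zero_add, pow_one]; exact le_sup_right
      | succ n ih => exact ih.trans (sup_le le_sup_left (step n))
    obtain ⟨k, hk⟩ := ar m (LinearMap.ker d)
    refine (all k).trans (sup_le le_rfl ?_)
    rw [inf_comm]
    exact hk.trans le_sup_right

end Pool.Agent.P.MP_52ab5a_al
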