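import Pool.Agent.P.MP_52ab5a_al.B.Iface

/-! Step CPB of the open orbit project. -/

namespace Pool.Agent.P.MP_52ab5a_al

open MvPolynomial WM

namespace CpbAux

theorem cliff {ν A R : Type} [Fintype ν] [DecidableEq ν] [Ring A] [Algebra ℂ A] [CommRing R]
    [Algebra ℂ R] (φ : R →ₐ[ℂ] A) (e i : ν → A)
    (h : ∀ j k, e j * e k + e k * e j = 0 ∧ i j * i k + i k * i j = 0 ∧
      e j * i k + i k * e j = if j = k then 1 else 0)
    (he : ∀ j r, e j * φ r = φ r * e j) (hi : ∀ j r, i j * φ r = φ r * i j) (a b a' b' : ν → R) :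
    (∑ j, (φ (a j) * e j + φ (b j) * i j)) * (∑ j, (φ (a' j) * e j + φ (b' j) * i j)) +
      (∑ j, (φ (a' j) * e j + φ (b' j) * i j)) * (∑ j, (φ (a j) * e j + φ (b j) * i j)) =
      φ (∑ j, (a j * b' j + b j * a' j)) := by
  have k : ∀ (x y : R) (u v : A), (∀ r, u * φ r = φ r * u) →
      φ x * u * (φ y * v) = φ (x * y) * (u * v) := by
    intro x y u v hu
    rw [map_mul, mul_assoc, ← mul_assoc u, hu, mul_assoc, mul_assoc]
  rw [Finset.sum_mul_sum, Finset.sum_mul_sum,
    Finset.sum_comm (f := fun j l => (φ (a' j) * e j + φ (b' j) * i j) * _),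
    ← Finset.sum_add_distrib, map_sum]
  refine Finset.sum_congr rfl fun j _ => ?_
  rw [← Finset.sum_add_distrib]
  have : ∀ l, (φ (a j) * e j + φ (b j) * i j) * (φ (a' l) * e l + φ (b' l) * i l) +
      (φ (a' l) * e l + φ (b' l) * i l) * (φ (a j) * e j + φ (b j) * i j) =
      if j = l then φ (a j * b' j + b j * a' j) else 0 := by
    intro l
    have e1 : (φ (a j) * e j + φ (b j) * i j) * (φ (a' l) * e l + φ (b' l) * i l) +
        (φ (a' l) * e l + φ (b' l) * i l) * (φ (a j) * e j + φ (b j) * i j) =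
        φ (a j * a' l) * (e j * e l + e l * e j) + φ (b j * b' l) * (i j * i l + i l * i j) +
        φ (a j * b' l) * (e j * i l + i l * e j) + φ (b j * a' l) * (e l * i j + i j * e l) := by
      simp only [add_mul, mul_add, k _ _ _ _ (he _), k _ _ _ _ (hi _), mul_comm (a' l),
        mul_comm (b' l)]
      abel
    rw [e1, (h j l).1, (h j l).2.1, (h j l).2.2, (h l j).2.2]
    by_cases hjl : j = l
    · subst hjl; simp
    · simp [hjl, Ne.symm hjl]
  simp [this]

section Filt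

variable {R : Type} [CommRing R] [Algebra ℂ R]

theorem pow_le {m T N : Ideal R} (h : m ≤ T ⊔ m ^ 2 ⊔ N) (hT : T ≤ m) (j : ℕ) :
    m ^ j ≤ T ^ j ⊔ m ^ (j + 1) ⊔ N := by
  induction j with
  | zero => simp
  | succ j ih =>
    rw [pow_succ]
    refine (Ideal.mul_mono_left ih).trans ?_
    rw [Ideal.sup_mul, Ideal.sup_mul]
    refine sup_le (sup_le ((Ideal.mul_mono_right h).trans ?_) ?_)
      (Ideal.mul_le_left.trans le_sup_right)
    · rw [Ideal.mul_sup, Ideal.mul_sup, ← pow_succ]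
      refine sup_le_sup (sup_le_sup_left ?_ _) Ideal.mul_le_right
      rw [add_assoc, pow_add m j]
      exact Ideal.mul_mono_left (Ideal.pow_right_mono hT j)
    · rw [← pow_succ]; exact le_sup_of_le_left le_sup_right

theorem filt {M : Type} [AddCommGroup M] [Module ℂ M] [Module R M] [IsScalarTower ℂ R M]
    {m T B : Ideal R} (h : m ≤ T ⊔ B ⊔ m ^ 2 ⊔ Module.annihilator R M) (hT : T ≤ m) (hB : B ≤ m)
    (j : ℕ) : ∀ x ∈ m ^ j • (⊤ : Submodule R M), ∃ y ∈ ⨆ i, ⨆ _ : i ≤ j,
      ((T ^ i * B ^ (j - i)) • (⊤ : Submodule R M)).restrictScalars ℂ,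
      x - y ∈ m ^ (j + 1) • (⊤ : Submodule R M) := by
  obtain ⟨Q, hQ⟩ : ∃ Q, Q = (⨆ i, ⨆ _ : i ≤ j,
    ((T ^ i * B ^ (j - i)) • (⊤ : Submodule R M)).restrictScalars ℂ) ⊔
    (m ^ (j + 1) • (⊤ : Submodule R M)).restrictScalars ℂ := ⟨_, rfl⟩
  let J : Ideal R :=
    { carrier := {f | ∀ y : M, f • y ∈ Q}
      add_mem' := fun ha hb y => by rw [add_smul]; exact Q.add_mem (ha y) (hb y)
      zero_mem' := fun y => by rw [zero_smul]; exact Q.zero_mem
      smul_mem' := fun c f hf y => by rw [smul_eq_mul, mul_comm, mul_smul]; exact hf _ }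
  have hJ : m ^ j ≤ J := by
    refine (pow_le h (sup_le hT hB) j).trans (sup_le (sup_le ?_ fun f hf y => ?_) fun f hf y => ?_)
    · rw [← Ideal.add_eq_sup, add_pow, Ideal.sum_eq_sup]
      refine Finset.sup_le fun i hi => Ideal.mul_le_left.trans fun f hf y => ?_
      rw [hQ]
      refine Submodule.mem_sup_left (Submodule.mem_iSup_of_mem i (Submodule.mem_iSup_of_mem
        (Nat.lt_succ_iff.1 (Finset.mem_range.1 hi)) ?_))
      rw [Submodule.restrictScalars_mem]
      exact Submodule.smul_mem_smul hf trivial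
    · rw [hQ]
      refine Submodule.mem_sup_right ?_
      rw [Submodule.restrictScalars_mem]
      exact Submodule.smul_mem_smul hf trivial
    · rw [Module.mem_annihilator.1 hf]; exact Q.zero_mem
  intro x hx
  have : x ∈ Q := Submodule.smul_induction_on hx (fun f hf y _ => hJ hf y)
    fun _ _ => Q.add_mem
  rw [hQ] at this
  obtain ⟨y, hy, u, hu, rfl⟩ := Submodule.mem_sup.1 this
  exact ⟨y, hy, by rwa [add_sub_cancel_left]⟩

/-- The ideal `J` has degree `j` and weight `i`. -/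
def Wt (m : Ideal R) (E : Derivation ℂ R R) (J : Ideal R) (i j : ℕ) : Prop :=
  J ≤ m ^ j ∧ ∀ f ∈ J, E f - (i : R) * f ∈ m ^ (j + 1)

variable {m : Ideal R} {E : Derivation ℂ R R}

theorem Wt.mul {J J' : Ideal R} {i j i' j' : ℕ} (h : Wt m E J i j) (h' : Wt m E J' i' j') :
    Wt m E (J * J') (i + i') (j + j') := by
  refine ⟨by rw [pow_add]; exact Ideal.mul_mono h.1 h'.1, fun f hf => ?_⟩
  refine Submodule.mul_induction_on hf (fun a ha b hb => ?_) fun a b ha hb => ?_
  · have : E (a * b) - ((i + i' : ℕ) : R) * (a * b) =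
        a * (E b - (i' : R) * b) + (E a - (i : R) * a) * b := by
      rw [Derivation.leibniz]; simp only [smul_eq_mul, Nat.cast_add]; ring
    rw [this]
    refine Ideal.add_mem _ ?_ ?_
    · rw [add_assoc, pow_add]; exact Ideal.mul_mem_mul (h.1 ha) (h'.2 b hb)
    · rw [add_right_comm, pow_add]; exact Ideal.mul_mem_mul (h.2 a ha) (h'.1 hb)
  · rw [map_add, mul_add, add_sub_add_comm]; exact Ideal.add_mem _ ha hb

theorem Wt.pow (hE : ∀ f, E f ∈ m) {J : Ideal R} {i : ℕ} (h : Wt m E J i 1) (k : ℕ) :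
    Wt m E (J ^ k) (k * i) k := by
  induction k with
  | zero => exact ⟨by simp, fun f _ => by simpa using hE f⟩
  | succ k ih => rw [pow_succ, add_mul, one_mul]; exact ih.mul h

theorem Wt.span (hE : ∀ f, E f ∈ m) {s : Set R} {i : ℕ} (h : ∀ f ∈ s, f ∈ m)
    (h' : ∀ f ∈ s, E f - (i : R) * f ∈ m ^ 2) : Wt m E (Ideal.span s) i 1 := by
  have h1 : Ideal.span s ≤ m := Ideal.span_le.2 h
  refine ⟨by rwa [pow_one], fun f hf => ?_⟩
  induction hf using Submodule.span_induction with
  | mem f hf => exact h' f hf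
  | zero => simp
  | add a b _ _ ha hb => rw [map_add, mul_add, add_sub_add_comm]; exact Ideal.add_mem _ ha hb
  | smul a f hf ih =>
    have : E (a • f) - (i : R) * (a • f) = a * (E f - (i : R) * f) + f * E a := by
      rw [smul_eq_mul, Derivation.leibniz]; simp only [smul_eq_mul]; ring
    rw [this]
    refine Ideal.add_mem _ (Ideal.mul_mem_left _ _ ih) ?_
    rw [pow_add, pow_one]; exact Ideal.mul_mem_mul (h1 hf) (hE a)

theorem der_pow (hE : ∀ f, E f ∈ m) (j : ℕ) : ∀ f ∈ m ^ j, E f ∈ m ^ j := by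
  induction j with
  | zero => simp
  | succ j ih =>
    intro f hf
    rw [pow_succ] at hf ⊢
    refine Submodule.mul_induction_on hf (fun a ha b hb => ?_) fun a b ha hb => ?_
    · rw [Derivation.leibniz, smul_eq_mul, smul_eq_mul, mul_comm b]
      exact Ideal.add_mem _ (Ideal.mul_mem_mul ha (hE b)) (Ideal.mul_mem_mul (ih a ha) hb)
    · rw [map_add]; exact Ideal.add_mem _ ha hb

end Filt

theorem taylor {ι : Type} [Fintype ι] (Y : ι → ℂ) (f : MvPolynomial ι ℂ) :
    f - C (eval Y f) - ∑ v, C (eval Y (pderiv v f)) * (X v - C (Y v)) ∈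
      RingHom.ker (eval Y) ^ 2 := by
  classical
  induction f using MvPolynomial.induction_on with
  | C a => simp
  | add p q hp hq =>
    convert Ideal.add_mem _ hp hq using 1
    simp only [map_add, add_mul, Finset.sum_add_distrib]; ring
  | mul_X p s hp =>
    have h1 : (p - C (eval Y p)) * (X s - C (Y s)) ∈ RingHom.ker (eval Y) ^ 2 := by
      rw [sq]; exact Ideal.mul_mem_mul (by simp [RingHom.mem_ker]) (by simp [RingHom.mem_ker])
    convert Ideal.add_mem _ h1 (Ideal.mul_mem_left _ (C (Y s)) hp) using 1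
    have : ∀ v, (C (eval Y (pderiv v (p * X s))) * (X v - C (Y v)) : MvPolynomial ι ℂ) =
        C (Y s) * (C (eval Y (pderiv v p)) * (X v - C (Y v))) +
          if s = v then C (eval Y p) * (X s - C (Y s)) else 0 := by
      intro v
      by_cases h : s = v
      · subst h; simp; ring
      · simp [h, pderiv_X_of_ne h]; ring
    simp only [this, Finset.sum_add_distrib, ← Finset.mul_sum, Finset.sum_ite_eq, Finset.mem_univ,
      if_true, map_mul, eval_X]
    ring

/-- The coordinate ring. -/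
abbrev RR (ν σ : Type) : Type := MvPolynomial ((ν ⊕ σ) ⊕ ν ⊕ σ) ℂ

variable {ν σ : Type} [Fintype ν]

/-- The symmetric form with polynomial entries. -/
noncomputable def BB (w : ν → ℤ) (F G : (ν ⊕ σ) ⊕ ν ⊕ σ → RR ν σ) : RR ν σ :=
  ∑ j, (F (Sum.inr (Sum.inl j)) * ((w j : ℂ) • G (Sum.inl (Sum.inl j))) +
    ((w j : ℂ) • F (Sum.inl (Sum.inl j))) * G (Sum.inr (Sum.inl j)))

theorem eval_BB (w : ν → ℤ) (F G : (ν ⊕ σ) ⊕ ν ⊕ σ → RR ν σ) (y : (ν ⊕ σ) ⊕ ν ⊕ σ → ℂ) :
    eval y (BB w F G) = bf w (fun v => eval y (F v)) fun v => eval y (G v) := by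
  simp only [BB, bf, map_sum, map_add, map_mul, smul_eval]
  exact Finset.sum_congr rfl fun j _ => by ring

theorem der_BB (w : ν → ℤ) (D : Derivation ℂ (RR ν σ) (RR ν σ)) (F : (ν ⊕ σ) ⊕ ν ⊕ σ → RR ν σ)
    (θ : (ν ⊕ σ) ⊕ ν ⊕ σ → ℂ) :
    D (BB w F fun v => C (θ v)) = BB w (fun v => D (F v)) fun v => C (θ v) := by
  simp only [BB, map_sum, map_add, Derivation.leibniz, Derivation.map_smul, derivation_C,
    smul_eq_mul, smul_zero, mul_zero, zero_add]
  exact Finset.sum_congr rfl fun j _ => by ring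

variable [LinearOrder ν] (V : Type) [AddCommGroup V] [Module ℂ V] [Module (RR ν σ) V]
  [IsScalarTower ℂ (RR ν σ) V]

/-- Multiplication by a polynomial. -/
noncomputable def sm : RR ν σ →ₐ[ℂ] Module.End ℂ (Finset ν → V) := Algebra.lsmul ℂ ℂ _

/-- Clifford multiplication with polynomial entries. -/
noncomputable def DD (w : ν → ℤ) (F : (ν ⊕ σ) ⊕ ν ⊕ σ → RR ν σ) : Module.End ℂ (Finset ν → V) :=
  ∑ j, (sm V (F (Sum.inr (Sum.inl j))) * act V (eps j) +
    sm V ((w j : ℂ) • F (Sum.inl (Sum.inl j))) * act V (iot j))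

variable {V}

theorem sm_apply (f : RR ν σ) (x : Finset ν → V) : sm V f x = f • x := rfl

theorem act_sm (A : Matrix (Finset ν) (Finset ν) ℂ) (f : RR ν σ) :
    act V A * sm V f = sm V f * act V A := by
  refine LinearMap.ext fun x => funext fun I => ?_
  simp only [Module.End.mul_apply, sm_apply, act_apply, Pi.smul_apply, Finset.smul_sum]
  exact Finset.sum_congr rfl fun J _ => smul_comm _ _ _

theorem DD_sm (w : ν → ℤ) (F : (ν ⊕ σ) ⊕ ν ⊕ σ → RR ν σ) (f : RR ν σ) :
    DD V w F * sm V f = sm V f * DD V w F := by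
  simp only [DD, Finset.sum_mul, Finset.mul_sum, add_mul, mul_add, mul_assoc, act_sm]
  simp only [← mul_assoc, ← map_mul, mul_comm f]

theorem DD_C (w : ν → ℤ) (θ : (ν ⊕ σ) ⊕ ν ⊕ σ → ℂ) :
    act V (clm w θ) = DD V w fun v => C (θ v) := by
  simp only [DD, clm, map_sum, map_add, map_smul, ← algebraMap_eq, AlgHom.commutes,
    ← Algebra.smul_def, smul_mul_assoc, mul_smul]

theorem DD_anti (h : S_CLIF) (w : ν → ℤ) (F G : (ν ⊕ σ) ⊕ ν ⊕ σ → RR ν σ) :
    DD V w F * DD V w G + DD V w G * DD V w F = sm V (BB w F G) := by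
  refine cliff (sm V) (fun j => act V (eps j)) (fun j => act V (iot j)) (fun j k => ?_)
    (fun j r => act_sm _ _) (fun j r => act_sm _ _) _ _ _ _
  obtain ⟨h1, h2, h3⟩ := (h ν).1 j k
  simp only [← map_mul, ← map_add, h1, h2, h3, map_zero, true_and]
  split_ifs <;> simp

theorem DD_der (w : ν → ℤ) (F : (ν ⊕ σ) ⊕ ν ⊕ σ → RR ν σ) (T : Module.End ℂ V)
    (D : Derivation ℂ (RR ν σ) (RR ν σ))
    (h : ∀ f, pw (Finset ν) T * sm V f = sm V f * pw (Finset ν) T + sm V (D f)) :
    pw (Finset ν) T * DD V w F = DD V w F * pw (Finset ν) T + DD V w fun v => D (F v) := by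
  simp only [DD, Finset.sum_mul, Finset.mul_sum, add_mul, mul_add, mul_assoc, act_mul_pw,
    ← Finset.sum_add_distrib]
  refine Finset.sum_congr rfl fun j _ => ?_
  simp only [← mul_assoc, h, add_mul, Derivation.map_smul]
  abel

theorem DD_mem (w : ν → ℤ) {F G : (ν ⊕ σ) ⊕ ν ⊕ σ → RR ν σ} {m : Ideal (RR ν σ)}
    (h : ∀ v, F v - G v ∈ m) (x : Finset ν → V) :
    DD V w F x - DD V w G x ∈ m • (⊤ : Submodule (RR ν σ) (Finset ν → V)) := by
  simp only [DD, LinearMap.sum_apply, LinearMap.add_apply, Module.End.mul_apply, sm_apply,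
    ← Finset.sum_sub_distrib, add_sub_add_comm, ← sub_smul, ← smul_sub]
  refine Submodule.sum_mem _ fun j _ => Submodule.add_mem _ (Submodule.smul_mem_smul (h _) trivial)
    (Submodule.smul_mem_smul (Submodule.smul_of_tower_mem _ _ (h _)) trivial)

theorem stab {T : Module.End ℂ (Finset ν → V)} (h : ∀ f : RR ν σ, T * sm V f = sm V f * T)
    {m : Ideal (RR ν σ)} {x : Finset ν → V}
    (hx : x ∈ m • (⊤ : Submodule (RR ν σ) (Finset ν → V))) :
    T x ∈ m • (⊤ : Submodule (RR ν σ) (Finset ν → V)) := by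
  refine Submodule.smul_induction_on hx (fun f hf y _ => ?_) fun a b ha hb => ?_
  · have := LinearMap.congr_fun (h f) y
    simp only [Module.End.mul_apply, sm_apply] at this
    rw [this]; exact Submodule.smul_mem_smul hf trivial
  · rw [map_add]; exact Submodule.add_mem _ ha hb

variable [Fintype σ] {z : (ν ⊕ σ) ⊕ ν ⊕ σ → Module.End ℂ V}
  {γ : Matrix (ν ⊕ σ) (ν ⊕ σ) ℂ → Module.End ℂ V} {g : Submodule ℂ (Matrix (ν ⊕ σ) (ν ⊕ σ) ℂ)}

theorem leib (hz : ∀ s v, (X s : RR ν σ) • v = z s v) (h : Eqv g z γ ⊥ ⊤) {ξ} (hξ : ξ ∈ g)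
    (f : RR ν σ) :
    pw (Finset ν) (γ ξ) * sm V f = sm V f * pw (Finset ν) (γ ξ) + sm V (der ξ f) := by
  have hX : ∀ s v, γ ξ ((X s : RR ν σ) • v) = (X s : RR ν σ) • γ ξ v + der ξ (X s) • v := by
    rintro (s | s) v
    · have := h.leibX ξ hξ s v trivial
      rw [Submodule.mem_bot, sub_sub, sub_eq_zero] at this
      simp only [hz, this, der, mkDerivation_X, Sum.elim_inl, Finset.sum_smul, smul_assoc]
    · have := h.leibD ξ hξ s v trivial
      rw [Submodule.mem_bot, sub_add, sub_eq_zero] at this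
      simp only [hz, this, der, mkDerivation_X, Sum.elim_inr, Finset.sum_smul, smul_assoc,
        neg_smul, sub_eq_add_neg]
  have key : ∀ v, γ ξ (f • v) = f • γ ξ v + der ξ f • v := by
    induction f using MvPolynomial.induction_on with
    | C a => intro v; rw [derivation_C, zero_smul, add_zero, ← algebraMap_eq, algebraMap_smul,
        algebraMap_smul, map_smul]
    | add p q hp hq => intro v; simp only [add_smul, map_add, hp, hq]; abel
    | mul_X p s hp =>
      intro v
      simp only [mul_smul, hp, hX, Derivation.leibniz, smul_eq_mul, add_smul, smul_add, add_assoc]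
      rw [smul_comm (X s : RR ν σ)]
  exact LinearMap.ext fun x => funext fun I => key (x I)

theorem sm_mu (hz : ∀ s v, (X s : RR ν σ) • v = z s v) (h : Eqv g z γ ⊥ ⊤) {ξ} (hξ : ξ ∈ g) :
    sm V (mu ξ : RR ν σ) = 0 := by
  refine LinearMap.ext fun x => funext fun I => ?_
  have := h.mu ξ hξ (x I) trivial
  simpa only [sm_apply, Pi.smul_apply, mu, Finset.sum_smul, smul_assoc, mul_smul, hz,
    Submodule.mem_bot, LinearMap.zero_apply, Pi.zero_apply] using this

end CpbAux

open CpbAux in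
theorem p_CPB (hCLIF : S_CLIF) (hVF : S_VF) :
    S_CPB := by
  intro ν σ V _ _ _ _ _ _ _ _ S z γ ξ θ' hz hE hF m κ Δ n
  classical
  obtain ⟨-, -, -, -, -, hV⟩ := hVF (ν ⊕ σ) (reg 1)
  obtain ⟨Y, hY⟩ : ∃ Y, Y = ext0 ν S.Y := ⟨_, rfl⟩
  have Yp : ∀ j, Y (Sum.inr (Sum.inl j)) = 0 := fun j => by rw [hY]; rfl
  have Yq : ∀ j, Y (Sum.inl (Sum.inl j)) = 0 := fun j => by rw [hY]; rfl
  obtain ⟨m0, hm0⟩ : ∃ m0 : Ideal (RR ν σ), m0 = RingHom.ker (eval Y) := ⟨_, rfl⟩
  have hm : ∀ j, m j = m0 ^ j • ⊤ := fun j => by rw [hm0, hY]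
  have mem : ∀ f, f ∈ m0 ↔ eval Y f = 0 := fun f => by rw [hm0, RingHom.mem_ker]
  have hD : ∀ η v, eval Y (der η (X v)) = hv η Y v := fun η v => by
    rw [(hV η η).2.1]
    simp [pderiv_X, Pi.single_apply, apply_ite]
  have d0 : dir0 z S.w = DD (σ := σ) V S.w X := by
    have : ∀ s, pw (Finset ν) (z s) = sm (σ := σ) V (X s) := fun s =>
      LinearMap.ext fun x => funext fun I => (hz s (x I)).symm
    simp only [dir0, DD, this, act_sm, map_smul, smul_mul_assoc]
  let t : ν → RR ν σ := fun i => BB S.w X fun v => C (θ' i v)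
  let s : ν → RR ν σ := fun i => BB S.w X fun v => C (hv (ξ i) Y v)
  have et : ∀ i y, eval y (t i) = bf S.w y (θ' i) := fun i y => by simp [t, eval_BB]
  have es : ∀ i y, eval y (s i) = bf S.w y (hv (ξ i) Y) := fun i y => by simp [s, eval_BB]
  have t0 : ∀ i, t i ∈ m0 := fun i => by rw [mem, et]; simp [bf, Yp, Yq]
  let Eu : Derivation ℂ (RR ν σ) (RR ν σ) := ∑ i, t i • der (ξ i)
  have hEu : ∀ f, Eu f = ∑ i, t i * der (ξ i) f := fun f => by
    have := congrFun (map_sum Derivation.coeFnAddMonoidHom (fun i => t i • der (ξ i)) Finset.univ) f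
    rw [Finset.sum_apply] at this
    exact this
  have E0 : ∀ f, Eu f ∈ m0 := fun f => by
    rw [hEu]; exact Ideal.sum_mem _ fun i _ => Ideal.mul_mem_right _ _ (t0 i)
  have hl := fun i => leib hz hE (hF.mem i)
  have hΔ : Δ = ∑ i, (sm V (t i) * pw (Finset ν) (γ (ξ i)) +
      act V (clm S.w (θ' i)) * DD V S.w fun v => der (ξ i) (X v)) := by
    simp only [Δ, κ, d0, Finset.mul_sum, Finset.sum_mul, ← Finset.sum_add_distrib]
    refine Finset.sum_congr rfl fun i _ => ?_
    rw [mul_assoc, DD_der _ _ _ _ (hl i), ← DD_anti hCLIF, ← DD_C]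
    simp only [mul_add, add_mul, mul_assoc, add_assoc]
  have hc : ∀ (f : RR ν σ) y, Δ (f • y) = f • Δ y + Eu f • y := fun f y => by
    suffices Δ * sm V f = sm V f * Δ + sm V (Eu f) from LinearMap.congr_fun this y
    rw [hΔ, hEu, map_sum, Finset.sum_mul, Finset.mul_sum, ← Finset.sum_add_distrib]
    refine Finset.sum_congr rfl fun i _ => ?_
    rw [add_mul, mul_assoc, mul_assoc, hl, DD_sm, ← mul_assoc (act V _), act_sm, mul_add, mul_add,
      ← mul_assoc, ← mul_assoc, ← map_mul, ← map_mul, ← map_mul, mul_comm f, mul_assoc (sm V f)]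
    abel
  have hn : ∀ y, Δ y - n y ∈ m0 • (⊤ : Submodule (RR ν σ) (Finset ν → V)) := fun y => by
    simp only [hΔ, n, map_sum, map_mul, LinearMap.sum_apply, LinearMap.add_apply,
      Module.End.mul_apply, ← Finset.sum_sub_distrib, add_sub_assoc, ← map_sub, ← hY]
    refine Submodule.sum_mem _ fun i _ => Submodule.add_mem _
      (Submodule.smul_mem_smul (t0 i) trivial) (stab (act_sm _) ?_)
    rw [DD_C (V := V) S.w (hv (ξ i) Y)]
    exact DD_mem _ (fun v => by rw [mem, map_sub, hD, eval_C, sub_self]) y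
  let T : Ideal (RR ν σ) := Ideal.span (Set.range t)
  let B : Ideal (RR ν σ) := Ideal.span (Set.range fun v : σ ⊕ σ =>
    X (Sum.map Sum.inr Sum.inr v) - C (Y (Sum.map Sum.inr Sum.inr v)))
  have hT : Wt m0 Eu T 1 1 := by
    refine Wt.span E0 (by rintro _ ⟨k, rfl⟩; exact t0 k) ?_
    rintro _ ⟨k, rfl⟩
    have : Eu (t k) - ((1 : ℕ) : RR ν σ) * t k =
        ∑ i, t i * (der (ξ i) (t k) - if i = k then 1 else 0) := by
      simp [hEu, mul_sub, Finset.sum_sub_distrib]
    rw [this, sq]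
    refine Ideal.sum_mem _ fun i _ => Ideal.mul_mem_mul (t0 i) ?_
    have := hF.dual i k
    rw [← hY] at this
    rw [mem, map_sub, der_BB, eval_BB]
    simp only [hD, eval_C, this]
    split_ifs <;> simp
  have hB : Wt m0 Eu B 0 1 := by
    refine Wt.span E0 (by rintro _ ⟨v, rfl⟩; simp [mem]) ?_
    rintro _ ⟨v, rfl⟩
    rw [Nat.cast_zero, zero_mul, sub_zero, hEu, sq]
    refine Ideal.sum_mem _ fun i _ => Ideal.mul_mem_mul (t0 i) ?_
    rw [mem, map_sub, derivation_C, sub_zero, hD, hY, hF.normal]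
  have hT0 : T ≤ m0 := by simpa using hT.1
  have hB0 : B ≤ m0 := by simpa using hB.1
  have hle : m0 ≤ T ⊔ B ⊔ m0 ^ 2 ⊔ Module.annihilator (RR ν σ) (Finset ν → V) := by
    set J := T ⊔ B ⊔ m0 ^ 2 ⊔ Module.annihilator (RR ν σ) (Finset ν → V)
    have j2 : m0 ^ 2 ≤ J := le_sup_of_le_left le_sup_right
    have jt : ∀ i, t i ∈ J := fun i => Ideal.mem_sup_left (Ideal.mem_sup_left (Ideal.mem_sup_left
      (Ideal.subset_span ⟨i, rfl⟩)))
    have js : ∀ i, s i ∈ J := fun i => by
      obtain ⟨c, hc0, hc⟩ := hF.omb i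
      have h1 := taylor Y (mu (ξ i))
      have h2 : eval Y (mu (ξ i)) = 0 := by rw [hY]; exact S.rigid.1 _ (hF.mem i)
      have h3 : ∑ v, C (eval Y (pderiv v (mu (ξ i)))) * (X v - C (Y v)) = C c * s i := by
        refine MvPolynomial.funext fun y => ?_
        have := (hV (ξ i) (ξ i)).2.2.2.1 Y (y - Y)
        rw [← hY] at hc
        rw [hc] at this
        simp only [map_sum, map_mul, eval_C, map_sub, eval_X, es, mul_comm _ (y _ - Y _)]
        refine Eq.trans this ?_
        simp only [bf, Pi.sub_apply, Yp, Yq, sub_zero]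
        exact congrArg _ (Finset.sum_congr rfl fun j _ => by ring)
      rw [h2, h3, map_zero, sub_zero, ← hm0] at h1
      have h4 : mu (ξ i) ∈ J := Ideal.mem_sup_right (Module.mem_annihilator.2 fun y =>
        LinearMap.congr_fun (sm_mu hz hE (hF.mem i)) y)
      have h5 := J.mul_mem_left (C c⁻¹) (J.sub_mem h4 (j2 h1))
      rwa [sub_sub_cancel, ← mul_assoc, ← map_mul, inv_mul_cancel₀ hc0, map_one, one_mul] at h5
    have jn : ∀ j : ν ⊕ ν, X (Sum.map Sum.inl Sum.inl j) ∈ J := fun j => by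
      have : (X (Sum.map Sum.inl Sum.inl j) : RR ν σ) =
          ∑ i, (t i * C (hv (ξ i) Y (Sum.map Sum.inl Sum.inl j)) +
            s i * C (θ' i (Sum.map Sum.inl Sum.inl j))) := by
        refine MvPolynomial.funext fun y => ?_
        simp only [map_sum, map_add, map_mul, eval_C, eval_X, es, et, hY]
        exact hF.expand y j
      rw [this]
      exact J.sum_mem fun i _ => J.add_mem (J.mul_mem_right _ (jt i)) (J.mul_mem_right _ (js i))
    have jb : ∀ v : σ ⊕ σ, X (Sum.map Sum.inr Sum.inr v) - C (Y (Sum.map Sum.inr Sum.inr v)) ∈ J :=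
      fun v => Ideal.mem_sup_left (Ideal.mem_sup_left (Ideal.mem_sup_right
        (Ideal.subset_span ⟨v, rfl⟩)))
    have jx : ∀ v, X v - C (Y v) ∈ J := by
      rintro ((j | a) | (j | a))
      · rw [Yq, map_zero, sub_zero]; exact jn (Sum.inl j)
      · exact jb (Sum.inl a)
      · rw [Yp, map_zero, sub_zero]; exact jn (Sum.inr j)
      · exact jb (Sum.inr a)
    intro f hf
    have h1 := taylor Y f
    rw [(mem f).1 hf, map_zero, sub_zero, ← hm0] at h1
    exact (J.sub_mem_iff_left (J.sum_mem fun v _ => J.mul_mem_left _ (jx v))).1 (j2 h1)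
  refine ⟨fun v v' => ?_, ?_, fun j => ⟨fun x hx => ?_,
    fun i => ((T ^ i * B ^ (j - i)) • (⊤ : Submodule (RR ν σ) (Finset ν → V))).restrictScalars ℂ,
    ?_, fun i hi x hx => ?_⟩⟩
  · have := cliff (Algebra.ofId ℂ (Matrix (Finset ν) (Finset ν) ℂ)) eps iot (hCLIF ν).1
      (fun j r => (Algebra.commutes r _).symm) (fun j r => (Algebra.commutes r _).symm)
      (fun j => v (Sum.inr (Sum.inl j))) (fun j => (S.w j : ℂ) * v (Sum.inl (Sum.inl j)))
      (fun j => v' (Sum.inr (Sum.inl j))) (fun j => (S.w j : ℂ) * v' (Sum.inl (Sum.inl j)))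
    simp only [Algebra.ofId_apply, ← Algebra.smul_def] at this
    rw [clm, clm, this, Algebra.algebraMap_eq_smul_one, bf]
    exact congrArg (· • _) (Finset.sum_congr rfl fun j _ => by ring)
  · have h1 := DD_anti (V := V) (σ := σ) hCLIF S.w X X
    have h2 : BB S.w X X = (2 : ℂ) • mu (Matrix.fromBlocks (dg S.w) 0 0 (0 : Matrix σ σ ℂ)) := by
      simp [BB, mu, Fintype.sum_sum_type, dg, Matrix.diagonal_apply, ite_smul, two_smul,
        Finset.sum_add_distrib, mul_comm]
    rw [h2, map_smul, sm_mu hz hE S.lam_mem, smul_zero, ← two_smul ℂ] at h1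
    rw [d0]; exact (smul_eq_zero.1 h1).resolve_left two_ne_zero
  · rw [hm] at hx ⊢
    refine Submodule.smul_induction_on hx (fun f hf y _ => ?_) fun a b ha hb => ?_
    · rw [hc]
      exact Submodule.add_mem _ (Submodule.smul_mem_smul hf trivial)
        (Submodule.smul_mem_smul (der_pow E0 j f hf) trivial)
    · rw [map_add]; exact Submodule.add_mem _ ha hb
  · rw [hm, hm]; exact filt hle hT0 hB0 j
  · have hW := (hT.pow E0 i).mul (hB.pow E0 (j - i))
    rw [mul_one, mul_zero, add_zero, Nat.add_sub_cancel' hi] at hW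
    rw [hm, hm, Submodule.restrictScalars_mem]
    rw [Submodule.restrictScalars_mem] at hx
    have hn' : ∀ f : RR ν σ, n * sm V f = sm V f * n := act_sm _
    clear_value Δ n
    refine ⟨Submodule.smul_mono_left hW.1 hx, stab hn' hx, ?_⟩
    refine Submodule.smul_induction_on (p := fun x => Δ x - n x - (i : ℂ) • x ∈ _) hx
      (fun f hf y _ => ?_) fun a b ha hb => ?_
    · have e1 : n (f • y) = f • n y := LinearMap.congr_fun (hn' f) y
      have e2 : Δ (f • y) - n (f • y) - (i : ℂ) • f • y =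
          f • (Δ y - n y) + (Eu f - (i : RR ν σ) * f) • y := by
        rw [hc, e1, smul_sub, sub_smul, mul_smul, Nat.cast_smul_eq_nsmul, Nat.cast_smul_eq_nsmul]
        abel
      rw [e2]
      refine Submodule.add_mem _ ?_ (Submodule.smul_mem_smul (hW.2 f hf) trivial)
      rw [pow_succ, Submodule.mul_smul]
      exact Submodule.smul_mem_smul (hW.1 hf) (hn y)
    · convert Submodule.add_mem _ ha hb using 1
      simp only [map_add, smul_add]; abel

end Pool.Agent.P.MP_52ab5a_al
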