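import Pool.Agent.P.MP_52ab5a_al.B.Iface

/-! Step EQV of the open orbit project. -/

namespace Pool.Agent.P.MP_52ab5a_al

open MvPolynomial WM

namespace EqvAux

variable {V : Type} [AddCommGroup V] [Module ℂ V]

theorem rx_rel {σ : Type} [Fintype σ] {A B C : Module.End ℂ V} {a : σ → ℂ}
    {T : σ → Module.End ℂ V} (h : A * B - B * A = C) (hC : C = ∑ t, a t • T t) (v : ℤ →₀ V) :
    rx A (rx B v) - rx B (rx A v) - ∑ t, a t • rx (T t) v = 0 := by
  ext k
  have := DFunLike.congr_fun (h.trans hC) (v k)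
  simpa [rx, Finsupp.finsetSum_apply, sub_eq_zero] using this

theorem ap {A B C D : Module.End ℂ V} (e : A * B = C * D) (v : V) : A (B v) = C (D v) :=
  DFunLike.congr_fun e v

theorem mem_of {B : Submodule ℂ V} {x y : V} (hy : y ∈ B) (e : x = y) : x ∈ B := e ▸ hy

end EqvAux

open EqvAux in
theorem p_EQV (hREES : S_REES) (hVF : S_VF) :
    S_EQV := by
  rintro σ _ N g Λ B hN ⟨G, hG⟩ hγ h1 h2 hz hB
  classical
  obtain ⟨-, hs, -, -, hc, hm, -⟩ := hREES σ N
  obtain ⟨hX, hD, -⟩ := (hVF σ N).2.2.2.2.1 hN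
  have c := hc hN
  have hh : ∀ v ∈ Λ, sh N.V v ∈ B := fun v hv => h1 ⟨v, hv, rfl⟩
  have hZ : ∀ s, ∀ v ∈ Λ, N.rz s v ∈ Λ := fun s v hv =>
    hG.ge (gen_stable (Set.mem_insert_of_mem _ (Set.mem_range_self s)) (hG.le hv))
  have z0 : ∀ {P Q : Module.End ℂ (ℤ →₀ N.V)}, P * Q = Q * P → ∀ v, P (Q v) - Q (P v) ∈ B :=
    fun h v => mem_of B.zero_mem (sub_eq_zero.2 (ap h v))
  have cm : ∀ s t, ∀ v ∈ Λ, N.rz (Sum.inr s) (N.rz (Sum.inl t) v) -
      N.rz (Sum.inl t) (N.rz (Sum.inr s) v) ∈ B := fun s t v hv => by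
    by_cases h : s = t
    · subst h
      exact mem_of (hh v hv) (DFunLike.congr_fun (c.ba s) v :)
    · exact z0 (c.ne s t h) v
  refine ⟨h2, hz, hZ, fun s t v hv => ?_, ⟨G, hG ▸ subset_gen _ _, ?_⟩, hB, hγ,
    fun ξ _ s v _ => ?_, fun ξ _ t v _ => ?_, fun ξ hξ v hv => ?_⟩
  · rcases s with s | s <;> rcases t with t | t
    · exact z0 (c.aa s t) v
    · exact mem_of (B.neg_mem (cm t s v hv)) (neg_sub _ _).symm
    · exact cm s t v hv
    · exact z0 (c.bb s t) v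
  · refine hG.le.trans ((gen_le (Y := Λ ⊓ (B ⊔ gen (Set.range N.rz) G)) (fun v hv =>
      ⟨hG ▸ subset_gen _ _ hv, Submodule.mem_sup_right (subset_gen _ _ hv)⟩) ?_).trans inf_le_right)
    rintro _ (rfl | ⟨s, rfl⟩) v hv
    · exact ⟨h2 (hh v hv.1), Submodule.mem_sup_left (hh v hv.1)⟩
    · refine ⟨hZ s v hv.1, ?_⟩
      obtain ⟨a, ha, b, hb, rfl⟩ := Submodule.mem_sup.1 hv.2
      rw [map_add]
      exact Submodule.add_mem_sup (hz s a ha) (gen_stable (Set.mem_range_self s) hb)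
  · exact mem_of B.zero_mem (rx_rel (hX ξ s) rfl v)
  · have := congrArg (sh N.V) (rx_rel (a := fun s => -ξ s t) (T := N.D) (hD ξ t) (by simp) v)
    simp only [map_sub, map_sum, map_smul, map_zero, neg_smul, Finset.sum_neg_distrib,
      sub_neg_eq_add, map_add] at this
    rw [ap (hs (N.vf ξ))] at this
    exact mem_of B.zero_mem this
  · have := DFunLike.congr_fun (hm ξ) v
    simp only [LinearMap.sum_apply, LinearMap.smul_apply, Module.End.mul_apply] at this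
    exact this ▸ hh _ (hγ ξ hξ v hv)

end Pool.Agent.P.MP_52ab5a_al
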