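import Pool.Agent.P.MP_52ab5a_al.B.Iface

/-! Step EU of the open orbit project. -/

namespace Pool.Agent.P.MP_52ab5a_al

open MvPolynomial WM

namespace EuAux

theorem sum_app {R ι : Type} [CommRing R] [Algebra ℂ R] (s : Finset ι)
    (D : ι → Derivation ℂ R R) (a : R) : (∑ j ∈ s, D j) a = ∑ j ∈ s, D j a := by
  classical
  induction s using Finset.induction_on with
  | empty => simp
  | insert j s hj ih => rw [Finset.sum_insert hj, Finset.sum_insert hj, Derivation.add_apply, ih]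

theorem mul_sup {R : Type} [CommRing R] {A B I : Ideal R} {x y : R} (hx : x ∈ A)
    (hy : y ∈ B ⊔ I) : x * y ∈ A * B ⊔ I := by
  obtain ⟨b, hb, i, hi, rfl⟩ := Submodule.mem_sup.1 hy
  rw [mul_add]
  exact add_mem (Ideal.mem_sup_left (Ideal.mul_mem_mul hx hb))
    (Ideal.mem_sup_right (I.mul_mem_left _ hi))

theorem key {R : Type} [CommRing R] [Algebra ℂ R] (m I : Ideal R) (E : Derivation ℂ R R)
    (h0 : ∀ x, E x ∈ m) (h1 : ∀ x ∈ m, E x - x ∈ m ^ 2 ⊔ I) (k : ℕ) :
    ∀ a ∈ m ^ k, E a - (k : R) * a ∈ m ^ (k + 1) ⊔ I := by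
  induction k with
  | zero =>
    intro a _
    simpa using Ideal.mem_sup_left (h0 a)
  | succ k ih =>
    intro a ha
    rw [pow_succ] at ha
    refine Submodule.mul_induction_on ha ?_ ?_
    · intro x hx y hy
      have e : E (x * y) - ((k + 1 : ℕ) : R) * (x * y) =
          x * (E y - y) + y * (E x - (k : R) * x) := by
        rw [Derivation.leibniz]; simp only [smul_eq_mul]; push_cast; ring
      rw [e]
      have a1 := mul_sup hx (h1 y hy)
      have a2 := mul_sup hy (ih x hx)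
      rw [← pow_add] at a1
      rw [← pow_succ'] at a2
      exact add_mem a1 a2
    · intro x y hx hy
      have e : E (x + y) - ((k + 1 : ℕ) : R) * (x + y) =
          (E x - ((k + 1 : ℕ) : R) * x) + (E y - ((k + 1 : ℕ) : R) * y) := by
        rw [map_add]; ring
      rw [e]
      exact add_mem hx hy

theorem first {ι : Type} (Y : ι → ℂ) (I : Ideal (MvPolynomial ι ℂ))
    (E : Derivation ℂ (MvPolynomial ι ℂ) (MvPolynomial ι ℂ))
    (h : ∀ v, E (X v) - (X v - C (Y v)) ∈ RingHom.ker (eval Y) ^ 2 ⊔ I) (f : MvPolynomial ι ℂ) :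
    E f - (f - C (eval Y f)) ∈ RingHom.ker (eval Y) ^ 2 ⊔ I := by
  induction f using MvPolynomial.induction_on with
  | C a => simp
  | add p q hp hq =>
    have e : E (p + q) - (p + q - C (eval Y (p + q))) =
        (E p - (p - C (eval Y p))) + (E q - (q - C (eval Y q))) := by
      simp only [map_add]; ring
    rw [e]
    exact add_mem hp hq
  | mul_X p v hp =>
    have e : E (p * X v) - (p * X v - C (eval Y (p * X v))) =
        p * (E (X v) - (X v - C (Y v))) + X v * (E p - (p - C (eval Y p))) +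
          (p - C (eval Y p)) * (X v - C (Y v)) := by
      rw [Derivation.leibniz]; simp only [smul_eq_mul, map_mul, eval_X]; ring
    rw [e]
    refine add_mem (add_mem (Ideal.mul_mem_left _ _ (h v)) (Ideal.mul_mem_left _ _ hp)) ?_
    refine Ideal.mem_sup_left ?_
    rw [pow_two]
    exact Ideal.mul_mem_mul (by simp [RingHom.mem_ker]) (by simp [RingHom.mem_ker])

end EuAux

theorem p_EU (hVF : S_VF) (hLAG : S_LAG) :
    S_EU := by
  intro σ _ g Y hL hR
  classical
  obtain ⟨-, -, -, -, -, hV⟩ := hVF σ (reg 1)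
  have p1 : ∀ ξ ∈ g, ∀ f ∈ Ideal.span (mu '' (g : Set (Matrix σ σ ℂ))),
      der ξ f ∈ Ideal.span (mu '' (g : Set (Matrix σ σ ℂ))) := by
    intro ξ hξ f hf
    induction hf using Submodule.span_induction with
    | mem x hx =>
      obtain ⟨η, hη, rfl⟩ := hx
      rw [(hV ξ η).1]
      exact Ideal.subset_span ⟨_, hL η hη ξ hξ, rfl⟩
    | zero => simp
    | add x y _ _ hx hy => rw [map_add]; exact add_mem hx hy
    | smul r x hx0 hx =>
      rw [smul_eq_mul, Derivation.leibniz, smul_eq_mul, smul_eq_mul]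
      exact add_mem (Ideal.mul_mem_left _ _ hx) (Ideal.mul_mem_right _ _ hx0)
  refine ⟨p1, ?_⟩
  obtain ⟨n, ξ, t, hξ, -, ht, -, hX⟩ := hLAG σ g Y hL hR
  set I := Ideal.span (mu '' (g : Set (Matrix σ σ ℂ))) with hI
  set m : Ideal (MvPolynomial (σ ⊕ σ) ℂ) := RingHom.ker (eval Y) with hm
  obtain ⟨E, hE⟩ : ∃ E : Derivation ℂ (MvPolynomial (σ ⊕ σ) ℂ) (MvPolynomial (σ ⊕ σ) ℂ),
      ∀ a, E a = ∑ j, t j * der (ξ j) a :=
    ⟨∑ j, t j • der (ξ j), fun a => by
      rw [EuAux.sum_app]; simp only [Derivation.smul_apply, smul_eq_mul]⟩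
  have htm : ∀ j, t j ∈ m := fun j => ht j
  have h0 : ∀ x, E x ∈ m := fun x => by
    rw [hE]; exact Ideal.sum_mem _ fun j _ => Ideal.mul_mem_right _ _ (htm j)
  have hle : Ideal.span (Set.range fun j => mu (ξ j)) ≤ I :=
    Ideal.span_mono (by rintro _ ⟨j, rfl⟩; exact ⟨_, hξ j, rfl⟩)
  have hv1 : ∀ v, E (X v) - (X v - C (Y v)) ∈ m ^ 2 ⊔ I := by
    intro v
    have e : E (X v) - (X v - C (Y v)) =
        ∑ j, t j * (der (ξ j) (X v) - C (hv (ξ j) Y v)) -
          (X v - C (Y v) - ∑ j, hv (ξ j) Y v • t j) := by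
      rw [hE]
      simp only [mul_sub, Finset.sum_sub_distrib, smul_eq_C_mul, mul_comm (t _) (C _)]
      ring
    rw [e]
    refine sub_mem (Ideal.mem_sup_left (Ideal.sum_mem _ fun j _ => ?_))
      (sup_le_sup_left hle _ (hX v))
    rw [pow_two]
    refine Ideal.mul_mem_mul (htm j) ?_
    rw [hm, RingHom.mem_ker, map_sub, (hV (ξ j) 0).2.1, eval_C, Finset.sum_eq_single v]
    · simp
    · intro u _ hu
      simp [pderiv_X_of_ne hu.symm]
    · simp
  have h1 : ∀ x ∈ m, E x - x ∈ m ^ 2 ⊔ I := by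
    intro x hx
    have := EuAux.first Y I E hv1 x
    rwa [(RingHom.mem_ker.1 hx : eval Y x = 0), map_zero, sub_zero] at this
  intro k hk a ha hd
  have hEa : E a ∈ m ^ (k + 1) ⊔ I := by
    rw [hE, pow_succ']
    exact Ideal.sum_mem _ fun j _ => EuAux.mul_sup (htm j) (hd _ (hξ j))
  obtain ⟨b, hb, i, hi, rfl⟩ := Submodule.mem_sup.1 ha
  have hEi : E i ∈ I := by
    rw [hE]; exact Ideal.sum_mem _ fun j _ => Ideal.mul_mem_left _ _ (p1 _ (hξ j) i hi)
  have hkb : (k : MvPolynomial (σ ⊕ σ) ℂ) * b ∈ m ^ (k + 1) ⊔ I := by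
    have e : (k : MvPolynomial (σ ⊕ σ) ℂ) * b = E (b + i) - E i - (E b - k * b) := by
      rw [map_add]; ring
    rw [e]
    exact sub_mem (sub_mem hEa (Ideal.mem_sup_right hEi)) (EuAux.key m I E h0 h1 k b hb)
  refine add_mem ?_ (Ideal.mem_sup_right hi)
  have hk0 : (k : ℂ) ≠ 0 := Nat.cast_ne_zero.2 (by omega)
  have e : b = C (k : ℂ)⁻¹ * ((k : MvPolynomial (σ ⊕ σ) ℂ) * b) := by
    rw [← mul_assoc, ← map_natCast (C : ℂ →+* MvPolynomial (σ ⊕ σ) ℂ), ← map_mul,
      inv_mul_cancel₀ hk0, map_one, one_mul]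
  rw [e]
  exact Ideal.mul_mem_left _ _ hkb

end Pool.Agent.P.MP_52ab5a_al
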