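import Pool.Agent.P.MP_52ab5a_al.B.Iface
import Pool.Agent.P.MP_52ab5a_al.A.Iface

/-! Step FE of the open orbit project. -/

namespace Pool.Agent.P.MP_52ab5a_al

open MvPolynomial WM

namespace FeAux

/-- The commutative algebra behind the statement. -/
theorem core {R M ι : Type} [CommRing R] [IsNoetherianRing R] [AddCommGroup M] [Module R M]
    [Module.Finite R M] (m I : Ideal R) (hm : m.IsMaximal) (N : Submodule R M)
    (γ : ι → M →+ M) (d : ι → R → R) (hI : ∀ a ∈ I, ∀ v : M, a • v = 0)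
    (hγ : ∀ ξ a v, γ ξ (a • v) = a • γ ξ v + d ξ a • v) (hN : ∀ ξ, ∀ v ∈ N, γ ξ v ∈ N)
    (hE : ∀ k, 1 ≤ k → ∀ a ∈ m ^ k ⊔ I, (∀ ξ, d ξ a ∈ m ^ k ⊔ I) → a ∈ m ^ (k + 1) ⊔ I) :
    ∀ v ∈ N, v ∈ m • (⊤ : Submodule R M) → v ∈ m • N := by
  classical
  have hex : ∃ n, ∃ s : Finset M, s.card = n ∧
      ⊤ ≤ (N ⊔ Submodule.span R (s : Set M)) ⊔ m • (⊤ : Submodule R M) := by
    obtain ⟨s, hs⟩ := Module.Finite.fg_top (R := R) (M := M)
    exact ⟨_, s, rfl, by rw [hs]; exact le_sup_of_le_left le_sup_right⟩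
  obtain ⟨s, hcard, hs⟩ := Nat.find_spec hex
  have hmin : ∀ a : M → R, ∑ x ∈ s, a x • x ∈ N → ∀ x ∈ s, a x ∈ m := by
    intro a ha y hy
    by_contra hne
    obtain ⟨b, c, hc, hbc⟩ := hm.exists_inv hne
    refine Nat.find_min hex (m := (s.erase y).card)
      (hcard ▸ Finset.card_erase_lt_of_mem hy) ⟨s.erase y, rfl, hs.trans ?_⟩
    refine sup_le (sup_le (le_sup_of_le_left le_sup_left) (Submodule.span_le.2 fun x hx => ?_))
      le_sup_right
    by_cases hxy : x = y
    · subst hxy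
      have h1 : x = (b • ∑ w ∈ s, a w • w - b • ∑ w ∈ s.erase x, a w • w) + c • x := by
        rw [← Finset.add_sum_erase s _ hy, smul_add, add_sub_cancel_right, smul_smul, ← add_smul,
          hbc, one_smul]
      have h2 : (b • ∑ w ∈ s, a w • w - b • ∑ w ∈ s.erase x, a w • w) + c • x ∈
          (N ⊔ Submodule.span R (s.erase x : Finset M)) ⊔ m • (⊤ : Submodule R M) :=
        Submodule.add_mem_sup (Submodule.sub_mem _
          (Submodule.mem_sup_left (N.smul_mem _ ha)) (Submodule.mem_sup_right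
            (Submodule.smul_mem _ _ (Submodule.sum_mem _ fun w hw => Submodule.smul_mem _ _
              (Submodule.subset_span hw))))) (Submodule.smul_mem_smul hc trivial)
      rwa [← h1] at h2
    · exact Submodule.mem_sup_left (Submodule.mem_sup_right (Submodule.subset_span
        (Finset.mem_coe.2 (Finset.mem_erase.2 ⟨hxy, hx⟩))))
  obtain ⟨u, hu, hle⟩ := Submodule.exists_sub_one_mem_and_smul_le_of_fg_of_le_sup
    (I := m) (N := N ⊔ Submodule.span R (s : Set M)) (N' := ⊤) (P := ⊤)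
    Module.Finite.fg_top le_rfl hs
  have hu' : ∀ v : M, u • v ∈ N ⊔ Submodule.span R (s : Set M) := fun v =>
    hle (Submodule.smul_mem_pointwise_smul _ _ _ trivial)
  have h1u : 1 - u ∈ m := by simpa using m.neg_mem hu
  have hcan : ∀ k (x : R), u * x ∈ m ^ k ⊔ I → x ∈ m ^ k ⊔ I := by
    intro k x hx
    obtain ⟨q, hq⟩ := sub_dvd_pow_sub_pow (1 - u) 1 k
    have : x = (1 - u) ^ k * x + q * (u * x) := by
      rw [one_pow] at hq; linear_combination (-x) * hq
    rw [this]
    exact Submodule.add_mem _ (Submodule.mem_sup_left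
      (Ideal.mul_mem_right _ _ (Ideal.pow_mem_pow h1u k))) (Ideal.mul_mem_left _ _ hx)
  have hrel : ∀ k, ∀ a : M → R, ∑ x ∈ s, a x • x ∈ N → ∀ x ∈ s, a x ∈ m ^ (k + 1) ⊔ I := by
    intro k
    induction k with
    | zero => intro a ha x hx; rw [zero_add, pow_one]; exact Submodule.mem_sup_left (hmin a ha x hx)
    | succ k ih =>
      intro a ha y hy
      refine hE (k + 1) (by omega) _ (ih a ha y hy) fun ξ => hcan _ _ ?_
      have hb : ∀ x : M, ∃ b : M → R, u • γ ξ x - ∑ w ∈ s, b w • w ∈ N := by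
        intro x
        obtain ⟨n, hn, w, hw, h⟩ := Submodule.mem_sup.1 (hu' (γ ξ x))
        obtain ⟨b, -, rfl⟩ := Submodule.mem_span_finset.1 hw
        exact ⟨b, by rw [← h, add_sub_cancel_right]; exact hn⟩
      choose b hb using hb
      have key : ∑ w ∈ s, (u * d ξ (a w) + ∑ x ∈ s, a x * b x w) • w =
          u • γ ξ (∑ x ∈ s, a x • x) - ∑ x ∈ s, a x • (u • γ ξ x - ∑ w ∈ s, b x w • w) := by
        simp only [map_sum, hγ, smul_add, smul_sub, Finset.smul_sum, Finset.sum_add_distrib,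
          Finset.sum_sub_distrib, add_smul, Finset.sum_smul, mul_smul, smul_comm u (a _)]
        rw [Finset.sum_comm (s := s) (t := s)]
        abel
      have hm1 := ih (fun w => u * d ξ (a w) + ∑ x ∈ s, a x * b x w) (by
        rw [key]
        exact N.sub_mem (N.smul_mem _ (hN ξ _ ha))
          (N.sum_mem fun x _ => N.smul_mem _ (hb x))) y hy
      have hm2 : ∑ x ∈ s, a x * b x y ∈ m ^ (k + 1) ⊔ I :=
        Submodule.sum_mem _ fun x hx => Ideal.mul_mem_right _ _ (ih a ha x hx)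
      simpa using Submodule.sub_mem _ hm1 hm2
  intro v hvN hv
  have h2 : u • v ∈ m • N ⊔ Submodule.span R (s : Set M) := by
    refine Submodule.smul_induction_on (p := fun v => u • v ∈ m • N ⊔ Submodule.span R (s : Set M))
      hv (fun x hx w _ => ?_) fun x y hx hy => ?_
    · obtain ⟨n, hn, w', hw', h⟩ := Submodule.mem_sup.1 (hu' w)
      rw [smul_comm, ← h, smul_add]
      exact Submodule.add_mem_sup (Submodule.smul_mem_smul hx hn) (Submodule.smul_mem _ _ hw')
    · rw [smul_add]; exact Submodule.add_mem _ hx hy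
  obtain ⟨n, hn, w, hw, h⟩ := Submodule.mem_sup.1 h2
  obtain ⟨a, -, rfl⟩ := Submodule.mem_span_finset.1 hw
  have hwN : ∑ x ∈ s, a x • x ∈ N := by
    rw [eq_sub_of_add_eq' h]
    exact N.sub_mem (N.smul_mem _ hvN) (Submodule.smul_le_right hn)
  have hall : ∑ x ∈ s, a x • x ∈ (⨅ k : ℕ, m ^ k • ⊤ : Submodule R M) := by
    refine (Submodule.mem_iInf _).2 fun k => Submodule.sum_mem _ fun x hx => ?_
    obtain ⟨p, hp, i, hi, hpi⟩ := Submodule.mem_sup.1 (hrel k a hwN x hx)
    rw [← hpi, add_smul, hI i hi, add_zero]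
    exact Submodule.smul_mem_smul (Ideal.pow_le_pow_right (Nat.le_succ k) hp) trivial
  obtain ⟨r, hr⟩ := (Ideal.mem_iInf_smul_pow_eq_bot_iff m _).1 hall
  have h3 : v = (1 - u) • v + (n + (r : R) • ∑ x ∈ s, a x • x) := by
    rw [hr, h, ← add_smul, sub_add_cancel, one_smul]
  rw [h3]
  exact Submodule.add_mem _ (Submodule.smul_mem_smul h1u hvN)
    (Submodule.add_mem _ hn (Submodule.smul_mem_smul r.2 hwN))

end FeAux

theorem p_FE (hDESC : S_DESC) (hEU : S_EU) :
    S_FE := by
  intro σ V _ _ _ g Y z γ B N Z hg hY hE hBN hNZ hzN hγN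
  classical
  obtain ⟨⟨V', _, _, f, hf, hfZ⟩, hD⟩ := hDESC V B Z
  have hD' := hD V' f hf hfZ
  have hB0 : ∀ b ∈ B, f b = 0 := fun b hb => (hf b (hE.le hb)).2 hb
  have hsur : ∀ v' : V', ∃ v ∈ Z, f v = v' := fun v' =>
    Submodule.mem_map.1 (hfZ ▸ Submodule.mem_top : v' ∈ Z.map f)
  choose z' hz' using fun s => hD' (z s) (hE.zZ s) fun v _ hv => hE.zB s v hv
  choose γ' hγ' using fun ξ : g => hD' (γ ξ) (hE.gZ ξ ξ.2) fun v _ hv => hE.gB ξ ξ.2 v hv
  have hcomm : ∀ s t, z' s * z' t = z' t * z' s := by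
    intro s t
    refine LinearMap.ext fun v' => ?_
    obtain ⟨v, hv, rfl⟩ := hsur v'
    have := hB0 _ (hE.comm s t v hv)
    rw [map_sub, sub_eq_zero] at this
    simp only [Module.End.mul_apply]
    rw [hz' t v hv, hz' s v hv, hz' s _ (hE.zZ t v hv), hz' t _ (hE.zZ s v hv), this]
  obtain ⟨_, _, hX⟩ := exists_commModule z' hcomm
  have hXf : ∀ s, ∀ v ∈ Z, (X s : MvPolynomial (σ ⊕ σ) ℂ) • f v = f (z s v) := fun s v hv => by
    rw [hX, hz' s v hv]
  -- images of stable subspaces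
  have hsub : ∀ W : Submodule ℂ V, W ≤ Z → (∀ s, ∀ v ∈ W, z s v ∈ W) →
      ∃ W' : Submodule (MvPolynomial (σ ⊕ σ) ℂ) V', ∀ x, x ∈ W' ↔ x ∈ W.map f := by
    intro W hW hst
    refine ⟨⟨(W.map f).toAddSubmonoid, fun p x hx => smul_mem_of_X (Y := W.map f) ?_ p x hx⟩,
      fun _ => Iff.rfl⟩
    rintro s _ ⟨v, hv, rfl⟩
    exact ⟨z s v, hst s v hv, (hXf s v (hW hv)).symm⟩
  have hback : ∀ W : Submodule ℂ V, W ≤ Z → ∀ v ∈ Z, f v ∈ W.map f → v ∈ B ⊔ W := by
    rintro W hW v hv ⟨w, hw, h⟩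
    have : v - w ∈ B := (hf _ (Z.sub_mem hv (hW hw))).1 (by rw [map_sub, h, sub_self])
    simpa using Submodule.add_mem_sup this hw
  have : Module.Finite (MvPolynomial (σ ⊕ σ) ℂ) V' := by
    obtain ⟨G, hGZ, hG⟩ := hE.fg
    refine ⟨⟨G.image f, eq_top_iff.2 fun v' _ => ?_⟩⟩
    obtain ⟨v, hv, rfl⟩ := hsur v'
    obtain ⟨b, hb, w, hw, rfl⟩ := Submodule.mem_sup.1 (hG hv)
    rw [map_add, hB0 b hb, zero_add]
    have : gen (Set.range z) (G : Set V) ≤ Z ⊓ ((Submodule.span (MvPolynomial (σ ⊕ σ) ℂ)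
        ((G.image f : Finset V') : Set V')).restrictScalars ℂ).comap f := by
      refine gen_le (fun x hx => ⟨hGZ hx, Submodule.subset_span ?_⟩) ?_
      · simpa using ⟨x, hx, rfl⟩
      · rintro _ ⟨s, rfl⟩ x ⟨hx, hx'⟩
        refine ⟨hE.zZ s x hx, ?_⟩
        show f (z s x) ∈ Submodule.span _ _
        rw [← hXf s x hx]
        exact Submodule.smul_mem _ _ hx'
    exact (this hw).2
  obtain ⟨N', hN'⟩ := hsub N hNZ hzN
  refine ⟨?_, ?_⟩
  · have hbase : ∀ (ξ : g) s (v' : V'), γ' ξ ((X s : MvPolynomial (σ ⊕ σ) ℂ) • v') =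
        (X s : MvPolynomial (σ ⊕ σ) ℂ) • γ' ξ v' + der ξ.1 (X s) • v' := by
      intro ξ s v'
      obtain ⟨v, hv, rfl⟩ := hsur v'
      rw [hXf s v hv, hγ' ξ _ (hE.zZ s v hv), hγ' ξ v hv, hXf s _ (hE.gZ ξ ξ.2 v hv), der,
        mkDerivation_X]
      rcases s with s | s
      · have := hB0 _ (hE.leibX ξ ξ.2 s v hv)
        simp only [map_sub, map_sum, map_smul] at this
        simp only [Sum.elim_inl, Finset.sum_smul, smul_assoc, hXf _ v hv]
        rw [sub_sub, sub_eq_zero] at this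
        exact this
      · have := hB0 _ (hE.leibD ξ ξ.2 s v hv)
        simp only [map_sub, map_add, map_sum, map_smul] at this
        simp only [Sum.elim_inr, neg_smul, Finset.sum_smul, smul_assoc, hXf _ v hv]
        rw [← sub_eq_zero, ← this]; abel
    have hleib : ∀ (ξ : g) (p : MvPolynomial (σ ⊕ σ) ℂ) (v' : V'),
        γ' ξ (p • v') = p • γ' ξ v' + der ξ.1 p • v' := by
      intro ξ p
      induction p using MvPolynomial.induction_on with
      | C a =>
        intro v'
        rw [derivation_C, zero_smul, add_zero, ← algebraMap_eq, algebraMap_smul, algebraMap_smul,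
          map_smul]
      | add p q hp hq => intro v'; simp only [add_smul, map_add, hp, hq]; abel
      | mul_X p s hp =>
        intro v'
        rw [mul_smul, hp, hbase, Derivation.leibniz]
        simp only [smul_eq_mul, add_smul, smul_add, mul_smul, smul_comm (der ξ.1 p) (X s)]
        abel
    have hI : ∀ a ∈ Ideal.span (mu '' (g : Set (Matrix σ σ ℂ))), ∀ v' : V', a • v' = 0 := by
      intro a ha
      induction ha using Submodule.span_induction with
      | mem x hx =>
        obtain ⟨ξ, hξ, rfl⟩ := hx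
        intro v'
        obtain ⟨v, hv, rfl⟩ := hsur v'
        have := hB0 _ (hE.mu ξ hξ v hv)
        simp only [map_sum, map_smul] at this
        simp only [mu, Finset.sum_smul, smul_assoc, mul_smul, hXf _ v hv,
          hXf _ _ (hE.zZ _ v hv)]
        exact this
      | zero => intro v'; exact zero_smul _ _
      | add x y _ _ hx hy => intro v'; rw [add_smul, hx, hy, add_zero]
      | smul a x _ hx => intro v'; rw [smul_eq_mul, mul_smul, hx, smul_zero]
    have hcore := FeAux.core (RingHom.ker (eval Y)) _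
      (RingHom.ker_isMaximal_of_surjective (eval Y) fun c => ⟨C c, eval_C c⟩) N'
      (fun ξ : g => (γ' ξ).toAddMonoidHom) (fun ξ p => der ξ.1 p) hI hleib
      (fun ξ x hx => by
        obtain ⟨v, hv, rfl⟩ := (hN' x).1 hx
        exact (hN' _).2 ⟨γ ξ v, hγN ξ ξ.2 v hv, (hγ' ξ v (hNZ hv)).symm⟩)
      fun k hk a ha h => (hEU σ g Y hg hY).2 k hk a ha fun ξ hξ => h ⟨ξ, hξ⟩
    have hrad : ∀ (p : MvPolynomial (σ ⊕ σ) ℂ), ∀ n ∈ N,
        p • f n - eval Y p • f n ∈ (radz z Y N).map f := by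
      intro p
      induction p using MvPolynomial.induction_on with
      | C a => intro n _; rw [eval_C, ← algebraMap_eq, algebraMap_smul, sub_self]; exact zero_mem _
      | add p q hp hq =>
        intro n hn
        have := add_mem (hp n hn) (hq n hn)
        rw [map_add, add_smul, add_smul]
        convert this using 1; abel
      | mul_X p s hp =>
        intro n hn
        have h1 : f ((z s - Y s • (1 : Module.End ℂ V)) n) ∈ (radz z Y N).map f :=
          Submodule.mem_map_of_mem (Submodule.mem_iSup_of_mem s (Submodule.mem_map_of_mem hn))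
        have := add_mem (hp _ (hzN s n hn)) (Submodule.smul_mem _ (eval Y p) h1)
        rw [mul_smul, hXf s n (hNZ hn), map_mul, eval_X]
        convert this using 1
        simp only [LinearMap.sub_apply, LinearMap.smul_apply, Module.End.one_apply, map_sub,
          map_smul, smul_sub, mul_smul]
        abel
    rintro v ⟨hvN, hv⟩
    have h1 : f v ∈ RingHom.ker (eval Y) • (⊤ : Submodule (MvPolynomial (σ ⊕ σ) ℂ) V') := by
      have : B ⊔ radz z Y Z ≤ ((RingHom.ker (eval Y) •
          (⊤ : Submodule (MvPolynomial (σ ⊕ σ) ℂ) V')).restrictScalars ℂ).comap f := by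
        refine sup_le (fun b hb => ?_) (iSup_le fun s => ?_)
        · rw [Submodule.mem_comap, hB0 b hb]; exact zero_mem _
        · rintro _ ⟨w, hw, rfl⟩
          show f _ ∈ RingHom.ker (eval Y) • (⊤ : Submodule (MvPolynomial (σ ⊕ σ) ℂ) V')
          have : f ((z s - Y s • (1 : Module.End ℂ V)) w) =
              (X s - C (Y s) : MvPolynomial (σ ⊕ σ) ℂ) • f w := by
            rw [sub_smul, hXf s w hw, ← algebraMap_eq, algebraMap_smul]
            simp
          rw [this]
          exact Submodule.smul_mem_smul (by simp [RingHom.mem_ker]) trivial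
      exact this hv
    have h2 := hcore _ ((hN' _).2 ⟨v, hvN, rfl⟩) h1
    refine hback _ (iSup_le fun s => ?_) v (hNZ hvN) ?_
    · rintro _ ⟨w, hw, rfl⟩
      exact Z.sub_mem (hE.zZ s w (hNZ hw)) (Z.smul_mem _ (hNZ hw))
    · refine Submodule.smul_induction_on (p := fun x => x ∈ (radz z Y N).map f) h2
        (fun p hp x hx => ?_) fun x y hx hy => add_mem hx hy
      obtain ⟨n, hn, rfl⟩ := (hN' x).1 hx
      have := hrad p n hn
      rwa [RingHom.mem_ker.1 hp, zero_smul, sub_zero] at this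
  · obtain ⟨S, hS⟩ := (IsNoetherian.noetherian N' : N'.FG)
    have hpre : ∀ x : S, ∃ n ∈ N, f n = x := fun x =>
      (hN' x).1 (hS ▸ Submodule.subset_span x.2)
    choose c hc hfc using hpre
    have hGN : ((Finset.univ.image c : Finset V) : Set V) ⊆ N := by
      intro x hx
      obtain ⟨y, -, rfl⟩ := Finset.mem_image.1 hx
      exact hc y
    have hgen : gen (Set.range z) ((Finset.univ.image c : Finset V) : Set V) ≤ N :=
      gen_le hGN (by rintro _ ⟨s, rfl⟩; exact hzN s)
    refine ⟨Finset.univ.image c, hGN, fun n hn => hback _ (hgen.trans hNZ) n (hNZ hn) ?_⟩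
    obtain ⟨W', hW'⟩ := hsub _ (hgen.trans hNZ) fun s v hv => gen_stable (Set.mem_range_self s) hv
    have : N' ≤ W' := by
      rw [← hS]
      refine Submodule.span_le.2 fun x hx => (hW' x).2 ⟨c ⟨x, hx⟩, subset_gen _ _ ?_, hfc _⟩
      exact Finset.mem_coe.2 (Finset.mem_image.2 ⟨_, Finset.mem_univ _, rfl⟩)
    exact (hW' _).1 (this ((hN' _).2 ⟨n, hn, rfl⟩))

end Pool.Agent.P.MP_52ab5a_al
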