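import Pool.Agent.P.MP_52ab5a_al.B.Iface
import Pool.Agent.P.MP_52ab5a_al.A.Iface

/-! Step FIB of the open orbit project. -/

namespace Pool.Agent.P.MP_52ab5a_al

open MvPolynomial WM

theorem p_FIB (hNORD : S_NORD) (hREES : S_REES) (hMUP : S_MUP) :
    S_FIB := by
  intro σ _ N F g Y hW hF hg hY hv' π hπ hπ0
  obtain ⟨hb, -, -, -, hc, hmu, hL⟩ := hREES σ N
  obtain ⟨-, l2, -, l4⟩ := hL F
  obtain ⟨l5, -⟩ := l4 hF.mono hF.stX hF.stD
  have hc' := hc hW
  obtain ⟨n1, n2, n3, n4, -, n6, n7, -⟩ := hNORD σ _ _ _ _ hc'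
  obtain ⟨n, ξ, u, a, hξ, hu, ha, e⟩ := hMUP σ g Y hg hY π hπ hπ0
  generalize nord (N.rz ∘ Sum.inl) (N.rz ∘ Sum.inr) = nd at n1 n2 n3 n4 n6 n7
  simp only [Function.comp_apply] at n2 n3 n4 n6 n7
  have m1 : ∀ f, ∀ v ∈ lat F, nd f v ∈ lat F :=
    n7 _ fun s v hv => ⟨(l5 v hv).2 _, (l5 v hv).2 _⟩
  have m2 : ∀ s, ∀ v ∈ lat F, N.rz s v - Y s • v ∈ N.fibK F Y := fun s v hv =>
    Submodule.mem_sup_right (Submodule.mem_iSup_of_mem s ⟨v, hv, rfl⟩)
  have m3 : ∀ f, ∀ v ∈ lat F, nd f v - eval Y f • v ∈ N.fibK F Y := by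
    intro f
    induction f using MvPolynomial.induction_on with
    | C c =>
      intro v _
      rw [C_eq_smul_one, map_smul, n1]
      simp
    | add p q hp hq =>
      intro v hv
      rw [map_add, map_add, LinearMap.add_apply, add_smul, add_sub_add_comm]
      exact add_mem (hp v hv) (hq v hv)
    | mul_X p s hp =>
      intro v hv
      rw [map_mul (eval Y), eval_X, mul_comm p]
      rcases s with s | s
      · rw [n2, Module.End.mul_apply]
        convert add_mem (m2 (Sum.inl s) _ (m1 p v hv))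
          (Submodule.smul_mem _ (Y (Sum.inl s)) (hp v hv)) using 1
        module
      · rw [n3, Module.End.mul_apply]
        convert add_mem (hp _ ((l5 v hv).2 (Sum.inr s)))
          (Submodule.smul_mem _ (eval Y p) (m2 (Sum.inr s) v hv)) using 1
        module
  have m4 : ∀ f η, ∃ c, nd (f * mu η) = sh N.V * (nd f * rx (N.vf η) - nd c) := fun f η => by
    refine ⟨∑ s, ∑ t, η s t • (X (Sum.inr s) * pderiv (Sum.inr t) f), ?_⟩
    rw [mul_sub, ← mul_assoc, n6 _ (fun s => ⟨hc'.ha s, hc'.hb s⟩), mul_assoc, hmu, mu]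
    simp only [Finset.mul_sum, map_sum, mul_smul_comm, map_smul, ← Finset.sum_sub_distrib]
    refine Finset.sum_congr rfl fun s _ => Finset.sum_congr rfl fun t _ => ?_
    rw [mul_comm f, mul_assoc, n2, n3, n3, ← mul_assoc (nd f), n4, add_mul, mul_assoc, mul_assoc]
    module
  choose c hcc using m4
  refine ⟨eval Y (c u π) - ∑ j, eval Y (c (a j) (ξ j)), fun v hv => ?_⟩
  have e1 : nd u (rx (N.vf π) v) - nd (c u π) v =
      ∑ j, (nd (a j) (rx (N.vf (ξ j)) v) - nd (c (a j) (ξ j)) v) := by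
    apply hb.1
    have e2 := congrArg (fun f => nd f v) e
    simpa only [map_sum, hcc, LinearMap.sum_apply, Module.End.mul_apply, LinearMap.sub_apply]
      using e2
  have k1 := m3 u _ (l2 _ (hv' π hπ) v hv)
  have k2 : ∑ j, (nd (a j) (rx (N.vf (ξ j)) v) -
      (nd (c (a j) (ξ j)) v - eval Y (c (a j) (ξ j)) • v)) ∈ N.fibK F Y :=
    sum_mem fun j _ => sub_mem (by simpa [ha j] using m3 (a j) _ (l2 _ (hv' _ (hξ j)) v hv))
      (m3 _ v hv)
  simp only [← sub_add, Finset.sum_add_distrib, ← e1, ← Finset.sum_smul] at k2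
  rw [hu] at k1
  convert add_mem (sub_mem k2 k1) (m3 (c u π) v hv) using 1
  module

end Pool.Agent.P.MP_52ab5a_al
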