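import Pool.Agent.P.MP_52ab5a_al.B.Iface
import Pool.Agent.P.MP_52ab5a_al.A.Iface

/-! Step FIBW of the open orbit project. -/

namespace Pool.Agent.P.MP_52ab5a_al

open MvPolynomial WM

namespace FibwAux

variable {V : Type} [AddCommGroup V] [Module ℂ V]

theorem rx_single (T : Module.End ℂ V) (k : ℤ) (x : V) :
    rx T (Finsupp.single k x) = Finsupp.single k (T x) := by
  simp [rx]

theorem mem_lat (F : ℤ → Submodule ℂ V) (v : ℤ →₀ V) : v ∈ lat F ↔ ∀ k, v k ∈ F k := by
  simp [lat, Submodule.mem_iInf]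

theorem single_mem (F : ℤ → Submodule ℂ V) (k : ℤ) (x : V) (hx : x ∈ F k) :
    Finsupp.single k x ∈ lat F := by
  rw [mem_lat]
  intro j
  by_cases h : k = j
  · subst h
    simpa using hx
  · rw [Finsupp.single_eq_of_ne (Ne.symm h)]
    exact (F j).zero_mem

/-- The statement for one coefficient that is an eigenvector. -/
theorem eig_case (F : ℤ → Submodule ℂ V) (K : Submodule ℂ (ℤ →₀ V)) (T U : Module.End ℂ V)
    (q : ℂ → ℂ) (b : ℂ) (hb : ∀ v ∈ lat F, rx T v - b • v ∈ K)
    (hU : ∀ a v, T v = a • v → U v = q a • v) (k : ℤ) (x : V) (hx : x ∈ F k) (a : ℂ)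
    (ha : T x = a • x) :
    rx U (Finsupp.single k x) - q b • Finsupp.single k x ∈ K := by
  have h1 := hb _ (single_mem F k x hx)
  rw [rx_single, ha, ← Finsupp.smul_single, ← sub_smul] at h1
  rw [rx_single, hU a x ha, ← Finsupp.smul_single, ← sub_smul]
  by_cases hab : a = b
  · subst hab
    rw [sub_self, zero_smul]
    exact K.zero_mem
  · have hne : a - b ≠ 0 := sub_ne_zero.mpr hab
    have h2 : Finsupp.single k x ∈ K := by
      have := K.smul_mem (a - b)⁻¹ h1
      rwa [smul_smul, inv_mul_cancel₀ hne, one_smul] at this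
    exact K.smul_mem _ h2

end FibwAux

theorem p_FIBW (hDIAG : S_DIAG) (hREES : S_REES) (hVF : S_VF) (hFIB : S_FIB) :
    S_FIBW := by
  intro σ _ N F g Y hW hF hg hR hst π hπ hY hD U q hq hU
  obtain ⟨b, hb⟩ := hFIB σ N F g Y hW hF hg hR hst π hπ hY
  refine ⟨q b, hq b, ?_⟩
  obtain ⟨h1, h2, -⟩ := hDIAG N.V (N.vf π) hD
  have key : ∀ k, ∀ x ∈ F k,
      (rx U - q b • (1 : Module.End ℂ (ℤ →₀ N.V))) (Finsupp.single k x) ∈ N.fibK F Y := by
    intro k x hx
    obtain ⟨c, hc, hsum⟩ := h1 x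
    have hcF : ∀ a, c a ∈ F k := by
      refine h2 (F k) (hst π hπ k) c (fun a => ?_) (by rw [hsum]; exact hx)
      rw [hc a, sub_self]
      exact (F k).zero_mem
    have hx' : Finsupp.single k x = ∑ a ∈ c.support, Finsupp.single k (c a) := by
      rw [← hsum, Finsupp.sum]
      exact map_sum (Finsupp.lsingle (R := ℂ) k) _ _
    rw [hx', map_sum]
    refine Submodule.sum_mem _ fun a _ => ?_
    exact FibwAux.eig_case F (N.fibK F Y) (N.vf π) U q b hb hU k (c a) (hcF a) a (hc a)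
  intro v hv
  have hv' : v = ∑ k ∈ v.support, Finsupp.single k (v k) := by
    conv_lhs => rw [← Finsupp.sum_single v]
    rfl
  have : (rx U - q b • (1 : Module.End ℂ (ℤ →₀ N.V))) v ∈ N.fibK F Y := by
    rw [hv', map_sum]
    exact Submodule.sum_mem _ fun k _ => key k _ ((FibwAux.mem_lat F v).1 hv k)
  simpa using this

end Pool.Agent.P.MP_52ab5a_al
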