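import Pool.Agent.P.MP_52ab5a_al.B.Iface
import Pool.Agent.P.MP_52ab5a_al.A.Iface

/-! Step GRK of the open orbit project. -/

namespace Pool.Agent.P.MP_52ab5a_al

open MvPolynomial WM

namespace GrkAux

section Gen

variable {U U' : Type} [AddCommGroup U] [Module ℂ U] [AddCommGroup U'] [Module ℂ U']

/-- `T` has degree `c` for the grading operator `P`. -/
def Dg (P : Module.End ℂ U) (c : ℂ) (T : Module.End ℂ U) : Prop := P * T = T * P + c • T

variable {P Q T T' D : Module.End ℂ U} {c d : ℂ}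

theorem Dg.mul (h : Dg P c T) (h' : Dg P d T') : Dg P (c + d) (T * T') := by
  unfold Dg at *
  rw [← mul_assoc, h, add_mul, mul_assoc, h', mul_add, smul_mul_assoc, mul_smul_comm, add_smul,
    mul_assoc]
  abel

theorem Dg.sub (h : Dg P c T) (y : ℂ) (h' : y ≠ 0 → Dg P c T') : Dg P c (T - y • T') := by
  by_cases hy : y = 0
  · simpa [hy] using h
  · have h'' := h' hy
    unfold Dg at *
    rw [mul_sub, sub_mul, mul_smul_comm, smul_mul_assoc, h, h'', smul_add, smul_sub,
      smul_comm y c]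
    abel

theorem Dg.sum {α : Type} [Fintype α] {F : α → Module.End ℂ U} (h : ∀ a, Dg P c (F a)) :
    Dg P c (∑ a, F a) := by
  unfold Dg at *
  simp only [Finset.mul_sum, Finset.sum_mul, Finset.smul_sum, h, Finset.sum_add_distrib]

theorem Dg.addL (h : Dg P c T) (h' : Dg Q d T) : Dg (P + Q) (c + d) T := by
  unfold Dg at *
  rw [add_mul, h, h', mul_add, add_smul]; abel

theorem Dg.subL (h : Dg P c T) (h' : Dg Q d T) : Dg (P - Q) (c - d) T := by
  unfold Dg at *
  rw [sub_mul, h, h', mul_sub, sub_smul]; abel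

theorem Dg.map (φ : Module.End ℂ U →ₐ[ℂ] Module.End ℂ U') (h : Dg P c T) :
    Dg (φ P) c (φ T) := by
  unfold Dg at *
  rw [← map_mul, h, map_add, map_mul, map_smul]

theorem msub (P T T' : Module.End ℂ U) : P * (T - T') = P * T - P * T' := mul_sub _ _ _

theorem sz (T : Module.End ℂ U) : T - (0 : ℂ) • (1 : Module.End ℂ U) = T := by simp

theorem Dg.zero (h : P * T = T * P) : Dg P 0 T := by simpa [Dg] using h

theorem Dg.comm (h : Dg P 0 T) : P * T = T * P := by simpa [Dg] using h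

theorem Dg.cast (h : Dg P c T) (e : c = d) : Dg P d T := e ▸ h

theorem Dg.app (h : Dg P c T) {u : U} {a : ℂ} (hu : P u = a • u) : P (T u) = (a + c) • T u := by
  have := LinearMap.congr_fun h u
  simp only [Module.End.mul_apply, LinearMap.add_apply, LinearMap.smul_apply, hu, map_smul] at this
  rw [this, add_smul]

theorem Dg.pow (h : Dg P c T) (n : ℕ) : Dg P (n * c) (T ^ n) := by
  induction n with
  | zero => simp [Dg]
  | succ n ih => rw [pow_succ]; exact (ih.mul h).cast (by push_cast; ring)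

theorem proj (hD : S_DIAG) (hP : Diag P) (hPD : P * D = D * P) (hPQ : P * Q = Q * P) {k a : ℂ}
    {u : U} (hy : P (D u) = k • D u) (hQ : Q u = a • u) :
    ∃ u', D u' = D u ∧ P u' = k • u' ∧ Q u' = a • u' := by
  classical
  obtain ⟨W, hW, hY⟩ := (hD U P hP).2.2 fun b => if b = k then 1 else 0
  have key : ∀ x, D (W x) = W (D x) ∧ P (W x) = k • W x := fun x => by
    have hx : x ∈ ⨆ b : ℂ, P.eigenspace b := by rw [hP]; trivial
    induction hx using Submodule.iSup_induction' with
    | mem b x hx =>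
      have h1 : P x = b • x := Module.End.mem_eigenspace_iff.1 hx
      have h2 := (Dg.zero hPD).app h1
      rw [add_zero] at h2
      rw [hW _ _ h1, hW _ _ h2, map_smul, map_smul, h1]
      refine ⟨rfl, ?_⟩
      split_ifs with h
      · simp [h]
      · simp
    | zero => simp
    | add x y _ _ hx hy => simp only [map_add, hx.1, hy.1, hx.2, hy.2, smul_add, and_self]
  refine ⟨W u, by rw [(key u).1, hW _ _ hy]; simp, (key u).2, ?_⟩
  refine Module.End.mem_eigenspace_iff.1 (hY (Q.eigenspace a) (fun v hv => ?_) u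
    (Module.End.mem_eigenspace_iff.2 hQ))
  have := (Dg.zero hPQ.symm).app (Module.End.mem_eigenspace_iff.1 hv)
  rw [add_zero] at this
  exact Module.End.mem_eigenspace_iff.2 this

theorem diag_add (hD : S_DIAG) (hP : Diag P) (hQ : Diag Q) (h : P * Q = Q * P) : Diag (P + Q) := by
  refine eq_top_iff.2 (hP.symm.le.trans (iSup_le fun a v hv => ?_))
  obtain ⟨c, hc, hs⟩ := (hD U Q hQ).1 v
  have h1 := (hD U Q hQ).2.1 (P.eigenspace a) (fun v hv => by
    have := (Dg.zero h).app (Module.End.mem_eigenspace_iff.1 hv)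
    rw [add_zero] at this
    exact Module.End.mem_eigenspace_iff.2 this) c (fun b => by simp [hc]) (by rwa [hs])
  rw [← hs]
  refine Submodule.sum_mem _ fun b _ => Submodule.mem_iSup_of_mem (a + b) ?_
  rw [Module.End.mem_eigenspace_iff, LinearMap.add_apply, hc,
    Module.End.mem_eigenspace_iff.1 (h1 b), add_smul]

/-- Coefficientwise action. -/
noncomputable def R (U : Type) [AddCommGroup U] [Module ℂ U] :
    Module.End ℂ U →ₐ[ℂ] Module.End ℂ (ℕ →₀ U) :=
  AlgHom.ofLinearMap
    { toFun := fun T => Finsupp.mapRange.linearMap T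
      map_add' := fun _ _ => by ext; simp
      map_smul' := fun _ _ => by ext; simp }
    (by ext; simp) fun _ _ => LinearMap.ext fun u => Finsupp.ext fun j => by simp

theorem R_apply (T : Module.End ℂ U) (u : ℕ →₀ U) (j : ℕ) : R U T u j = T (u j) := by simp [R]

theorem R_single (T : Module.End ℂ U) (j : ℕ) (v : U) :
    R U T (Finsupp.single j v) = Finsupp.single j (T v) := by simp [R]

/-- The shift. -/
noncomputable def S (U : Type) [AddCommGroup U] [Module ℂ U] : Module.End ℂ (ℕ →₀ U) :=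
  Finsupp.lmapDomain U ℂ (· + 1)

theorem S_single (j : ℕ) (v : U) : S U (Finsupp.single j v) = Finsupp.single (j + 1) v := by
  simp [S]

/-- The number operator. -/
noncomputable def N (U : Type) [AddCommGroup U] [Module ℂ U] : Module.End ℂ (ℕ →₀ U) :=
  Finsupp.lsum ℂ fun j => (j : ℂ) • Finsupp.lsingle j

theorem N_single (j : ℕ) (v : U) : N U (Finsupp.single j v) = (j : ℂ) • Finsupp.single j v := by
  simp [N]

theorem N_apply (u : ℕ →₀ U) (j : ℕ) : N U u j = (j : ℂ) • u j := by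
  induction u using Finsupp.induction_linear with
  | zero => simp
  | add u v hu hv => simp [hu, hv]
  | single i v =>
    rw [N_single, Finsupp.smul_apply]
    by_cases h : i = j
    · rw [h]
    · simp [h]

theorem R_S (T : Module.End ℂ U) : R U T * S U = S U * R U T :=
  Finsupp.lhom_ext fun j v => by simp [R_single, S_single]

theorem N_R (T : Module.End ℂ U) : N U * R U T = R U T * N U :=
  Finsupp.lhom_ext fun j v => by
    rw [Module.End.mul_apply, Module.End.mul_apply, R_single, N_single, N_single, map_smul, R_single]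

theorem N_S : Dg (N U) 1 (S U) :=
  Finsupp.lhom_ext fun j v => by
    rw [LinearMap.add_apply, Module.End.mul_apply, Module.End.mul_apply, S_single, N_single,
      N_single, map_smul, LinearMap.smul_apply, S_single, ← add_smul]
    simp

theorem S_pow (e : ℕ) (u : ℕ →₀ U) : (S U ^ e) u = Finsupp.mapDomain (· + e) u := by
  induction e with
  | zero => exact Finsupp.mapDomain_id.symm
  | succ e ih =>
    rw [pow_succ', Module.End.mul_apply, ih]
    exact (Finsupp.mapDomain_comp (f := (· + e)) (g := (· + 1))).symm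

theorem mem_all {α : Type} [Fintype α] [DecidableEq α] {Γ : Submodule ℂ (ℕ →₀ (α → U))}
    (h : ∀ j I v, Finsupp.single j (Pi.single I v) ∈ Γ) : Γ = ⊤ := by
  refine eq_top_iff.2 fun u hu => ?_
  clear hu
  induction u using Finsupp.induction_linear with
  | zero => exact Γ.zero_mem
  | add u v hu hv => exact Γ.add_mem hu hv
  | single j v =>
    rw [← Finset.univ_sum_single v, Finsupp.single_finsetSum]
    exact Γ.sum_mem fun I _ => h j I _

/-- The embedding of one coefficient. -/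
noncomputable def em (U : Type) [AddCommGroup U] [Module ℂ U] {α : Type} [DecidableEq α] (j : ℕ)
    (I : α) : U →ₗ[ℂ] (ℕ →₀ (α → U)) :=
  Finsupp.lsingle j ∘ₗ LinearMap.single ℂ (fun _ : α => U) I

theorem em_apply {α : Type} [DecidableEq α] (j : ℕ) (I : α) (v : U) :
    em U j I v = Finsupp.single j (Pi.single I v : α → U) := rfl

theorem diag_of {α : Type} [Fintype α] [DecidableEq α] {P : Module.End ℂ (ℕ →₀ (α → U))}
    (hT : Diag T) (c : ℕ → α → ℂ) (h : ∀ u j I, P u j I = T (u j I) + c j I • u j I) : Diag P := by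
  refine mem_all fun j I v => ?_
  have hv : v ∈ ⨆ a : ℂ, T.eigenspace a := by rw [hT]; trivial
  rw [← em_apply, ← Submodule.mem_comap]
  refine (iSup_le fun a x hx => ?_ : _ ≤ Submodule.comap (em U j I) _) hv
  refine Submodule.mem_iSup_of_mem (a + c j I) (Module.End.mem_eigenspace_iff.2 ?_)
  refine Finsupp.ext fun i => funext fun J => ?_
  rw [h, em_apply]
  by_cases hi : j = i
  · by_cases hJ : I = J
    · subst hi hJ
      simp [Module.End.mem_eigenspace_iff.1 hx, add_smul]
    · simp [hi, hJ]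
  · simp [hi]

end Gen

section Cl

variable {σ : Type} [Fintype σ] [LinearOrder σ]

theorem diag_eps (hC : S_CLIF) (a : σ → ℂ) (k : σ) :
    (Matrix.diagonal fun I : Finset σ => ∑ j ∈ I, a j) * eps k =
      eps k * (Matrix.diagonal fun I : Finset σ => ∑ j ∈ I, a j) + a k • eps k := by
  obtain ⟨h1, -, -, h4, -⟩ := hC σ
  rw [← h4, Finset.sum_mul, Finset.mul_sum]
  have : ∀ j, a j • (eps j * iot j) * eps k =
      eps k * a j • (eps j * iot j) + if j = k then a k • eps k else 0 := fun j => by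
    have e1 : iot j * eps k = (if k = j then 1 else 0) - eps k * iot j :=
      eq_sub_of_add_eq' (h1 k j).2.2
    have e2 : eps j * eps k = -(eps k * eps j) := eq_neg_of_add_eq_zero_left (h1 j k).1
    rw [smul_mul_assoc, mul_smul_comm, mul_assoc, e1, mul_sub, ← mul_assoc, e2, ← mul_assoc]
    by_cases h : j = k
    · subst h; simp [add_comm]
    · simp [h, Ne.symm h]
  simp only [this, Finset.sum_add_distrib, Finset.sum_ite_eq', Finset.mem_univ, if_true]

omit [LinearOrder σ] in
theorem mono (w : σ → ℤ) (Y : σ ⊕ σ → ℂ) (hX : ∀ s, Y (Sum.inl s) ≠ 0 → w s = 0)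
    (hY : ∀ s, Y (Sum.inr s) ≠ 0 → w s = 1) {A : Type} [CommRing A] [Algebra ℂ A]
    (x : σ ⊕ σ → A) (t : A) (h1 : ∀ s, w s ≤ 0 → x (Sum.inl s) = Y (Sum.inl s) • 1)
    (h2 : ∀ s, ¬w s ≤ 0 → x (Sum.inr s) = Y (Sum.inr s) • t) {k : ℕ} {f : MvPolynomial (σ ⊕ σ) ℂ}
    (hf : f.IsWeightedHomogeneous (Sum.elim (fun s => ((0 : ℤ), w s)) fun s => ((1 : ℤ), -w s))
      ((k : ℤ), -(k : ℤ))) : aeval x f = eval Y f • t ^ k := by
  rw [f.as_sum, map_sum, map_sum, Finset.sum_smul]
  refine Finset.sum_congr rfl fun d hd => ?_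
  have h := hf (mem_support_iff.1 hd)
  rw [Finsupp.weight_apply, Finsupp.sum_fintype _ _ (by simp), Fintype.sum_sum_type] at h
  have ha := congrArg Prod.fst h
  have hb := congrArg Prod.snd h
  simp only [Prod.fst_add, Prod.snd_add, Prod.fst_sum, Prod.snd_sum, Sum.elim_inl, Sum.elim_inr,
    Prod.smul_mk, smul_zero, nsmul_eq_mul, mul_one, Finset.sum_const_zero, zero_add] at ha hb
  rw [aeval_monomial, eval_monomial, Finsupp.prod_fintype _ _ (by simp),
    Finsupp.prod_fintype _ _ (by simp), mul_smul, Algebra.smul_def (coeff d f)]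
  congr 1
  by_cases hbad : ∃ v, d v ≠ 0 ∧ x v = 0 ∧ Y v = 0
  · obtain ⟨v, hv, h3, h4⟩ := hbad
    rw [Finset.prod_eq_zero (Finset.mem_univ v) (by simp [h3, hv]),
      Finset.prod_eq_zero (Finset.mem_univ v) (by simp [h4, hv]), zero_smul]
  push Not at hbad
  have p1 : ∀ s, 0 ≤ (d (Sum.inl s) : ℤ) * w s := fun s => by
    by_contra hn
    have hw : w s < 0 := by by_contra hw; exact hn (mul_nonneg (by omega) (by omega))
    have hy : Y (Sum.inl s) = 0 := by by_contra hy; have := hX s hy; omega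
    exact hbad (Sum.inl s) (fun h0 => by simp [h0] at hn) (by rw [h1 s hw.le, hy, zero_smul]) hy
  have p2 : ∀ s, 0 ≤ (d (Sum.inr s) : ℤ) * (1 - w s) := fun s => by
    by_contra hn
    have hw : 1 < w s := by by_contra hw; exact hn (mul_nonneg (by omega) (by omega))
    have hy : Y (Sum.inr s) = 0 := by by_contra hy; have := hY s hy; omega
    exact hbad (Sum.inr s) (fun h0 => by simp [h0] at hn)
      (by rw [h2 s (by omega), hy, zero_smul]) hy
  have hs : ∑ s, (d (Sum.inl s) : ℤ) * w s + ∑ s, (d (Sum.inr s) : ℤ) * (1 - w s) = 0 := by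
    simp only [mul_sub, mul_one, Finset.sum_sub_distrib, mul_neg, Finset.sum_neg_distrib] at hb ⊢
    linarith
  have q1 := Finset.sum_nonneg (s := Finset.univ) fun s _ => p1 s
  have q2 := Finset.sum_nonneg (s := Finset.univ) fun s _ => p2 s
  have r1 := (Finset.sum_eq_zero_iff_of_nonneg fun s _ => p1 s).1
    (show ∑ s, (d (Sum.inl s) : ℤ) * w s = 0 by linarith)
  have r2 := (Finset.sum_eq_zero_iff_of_nonneg fun s _ => p2 s).1
    (show ∑ s, (d (Sum.inr s) : ℤ) * (1 - w s) = 0 by linarith)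
  have e1 : ∀ s, x (Sum.inl s) ^ d (Sum.inl s) = Y (Sum.inl s) ^ d (Sum.inl s) • 1 := fun s => by
    rcases mul_eq_zero.1 (r1 s (Finset.mem_univ s)) with h0 | h0
    · simp [show d (Sum.inl s) = 0 by omega]
    · rw [h1 s h0.le, _root_.smul_pow, one_pow]
  have e2 : ∀ s, x (Sum.inr s) ^ d (Sum.inr s) =
      Y (Sum.inr s) ^ d (Sum.inr s) • t ^ d (Sum.inr s) := fun s => by
    rcases mul_eq_zero.1 (r2 s (Finset.mem_univ s)) with h0 | h0
    · simp [show d (Sum.inr s) = 0 by omega]
    · rw [h2 s (by omega), _root_.smul_pow]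
  have hk : ∑ s, d (Sum.inr s) = k := by exact_mod_cast ha
  rw [Fintype.prod_sum_type, Fintype.prod_sum_type]
  simp only [e1, e2, Finset.prod_smul, Finset.prod_const_one, Finset.prod_pow_eq_pow_sum, hk,
    smul_mul_assoc, one_mul, mul_smul]

end Cl

section Main

variable {σ V : Type} [Fintype σ] [LinearOrder σ] [AddCommGroup V] [Module ℂ V]

/-- Operators of `V` acting on the complex. -/
noncomputable def Zc (σ V : Type) [AddCommGroup V] [Module ℂ V] :
    Module.End ℂ V →ₐ[ℂ] Module.End ℂ (ℕ →₀ (Finset σ → V)) := (R _).comp (pw (Finset σ))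

/-- Matrices acting on the complex. -/
noncomputable def Ac (σ V : Type) [Fintype σ] [LinearOrder σ] [AddCommGroup V] [Module ℂ V] :
    Matrix (Finset σ) (Finset σ) ℂ →ₐ[ℂ] Module.End ℂ (ℕ →₀ (Finset σ → V)) :=
  (R _).comp (act V)

theorem Ac_Zc (A : Matrix (Finset σ) (Finset σ) ℂ) (T : Module.End ℂ V) :
    Ac σ V A * Zc σ V T = Zc σ V T * Ac σ V A := by
  simp only [Ac, Zc, AlgHom.comp_apply, ← map_mul, act_mul_pw]

/-- The grading operators. -/
noncomputable def gr (T : Module.End ℂ V) (c : ℂ) (a : σ → ℂ) :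
    Module.End ℂ (ℕ →₀ (Finset σ → V)) :=
  Zc σ V T + c • N _ + Ac σ V (Matrix.diagonal fun I : Finset σ => ∑ j ∈ I, a j)

theorem gr_apply (T : Module.End ℂ V) (c : ℂ) (a : σ → ℂ) (u : ℕ →₀ (Finset σ → V)) (j : ℕ)
    (I : Finset σ) : gr T c a u j I = T (u j I) + (c * j + ∑ s ∈ I, a s) • u j I := by
  simp [gr, Zc, Ac, R_apply, N_apply, pw_apply, act_apply, Matrix.diagonal_apply, add_smul,
    mul_smul, add_assoc]

theorem gr_iff (T : Module.End ℂ V) (c : ℂ) (a : σ → ℂ) (u : ℕ →₀ (Finset σ → V)) (k : ℂ) :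
    gr T c a u = k • u ↔ ∀ j I, T (u j I) = (k - (c * j + ∑ s ∈ I, a s)) • u j I := by
  simp only [Finsupp.ext_iff, funext_iff, gr_apply, Finsupp.smul_apply, Pi.smul_apply, sub_smul,
    eq_sub_iff_add_eq]

theorem Dg.smulL {U : Type} [AddCommGroup U] [Module ℂ U] {P T : Module.End ℂ U} {d : ℂ}
    (h : Dg P d T) (c : ℂ) : Dg (c • P) (c * d) T := by
  unfold Dg at *
  rw [smul_mul_assoc, h, mul_smul_comm, smul_add, mul_smul]

theorem gr_Z {T T' : Module.End ℂ V} {d : ℂ} (h : Dg T d T') (c : ℂ) (a : σ → ℂ) :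
    Dg (gr T c a) d (Zc σ V T') :=
  (((h.map (Zc σ V)).addL ((Dg.zero (N_R _)).smulL c)).addL (Dg.zero (Ac_Zc _ _))).cast (by simp)

theorem gr_S (T : Module.End ℂ V) (c : ℂ) (a : σ → ℂ) : Dg (gr T c a) c (S _) :=
  (((Dg.zero (R_S _)).addL (N_S.smulL c)).addL (Dg.zero (R_S _))).cast (by simp)

theorem gr_E (hC : S_CLIF) (T : Module.End ℂ V) (c : ℂ) (a : σ → ℂ) (s : σ) :
    Dg (gr T c a) (a s) (Ac σ V (eps s)) := by
  have h : Dg (Ac σ V (Matrix.diagonal fun I : Finset σ => ∑ j ∈ I, a j)) (a s)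
      (Ac σ V (eps s)) := by
    unfold Dg
    rw [← map_mul, diag_eps hC, map_add, map_mul, map_smul]
  exact (((Dg.zero (Ac_Zc _ _).symm).addL ((Dg.zero (N_R _)).smulL c)).addL h).cast (by simp)

theorem gr_gr {T T' : Module.End ℂ V} (h : T * T' = T' * T) (c c' : ℂ) (a a' : σ → ℂ) :
    gr T c a * gr T' c' a' = gr T' c' a' * gr T c a := by
  refine LinearMap.ext fun u => Finsupp.ext fun j => funext fun I => ?_
  have := LinearMap.congr_fun h (u j I)
  simp only [Module.End.mul_apply, gr_apply, map_add, map_smul, smul_add] at this ⊢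
  rw [this, smul_comm]; abel

theorem koszul (hC : S_CLIF) (l : σ → Module.End ℂ (ℕ →₀ (Finset σ → V)))
    (hl : ∀ s t, l s * l t = l t * l s) (hA : ∀ s A, Ac σ V A * l s = l s * Ac σ V A) :
    (∑ s, Ac σ V (eps s) * l s) * (∑ s, Ac σ V (eps s) * l s) = 0 ∧
    ∀ t, (∑ s, Ac σ V (eps s) * l s) * Ac σ V (iot t) +
      Ac σ V (iot t) * (∑ s, Ac σ V (eps s) * l s) = l t := by
  obtain ⟨h1, -⟩ := hC σ
  refine ⟨?_, fun t => ?_⟩
  · have e : ∀ s t, Ac σ V (eps s) * l s * (Ac σ V (eps t) * l t) =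
        Ac σ V (eps s * eps t) * (l s * l t) := fun s t => by
      rw [map_mul, mul_assoc, ← mul_assoc (l s), ← hA, mul_assoc, mul_assoc]
    have h2 : (2 : ℂ) • ((∑ s, Ac σ V (eps s) * l s) * (∑ s, Ac σ V (eps s) * l s)) = 0 := by
      rw [two_smul, Finset.sum_mul_sum]
      simp only [e]
      nth_rw 2 [Finset.sum_comm]
      rw [← Finset.sum_add_distrib]
      refine Finset.sum_eq_zero fun s _ => ?_
      rw [← Finset.sum_add_distrib]
      refine Finset.sum_eq_zero fun t _ => ?_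
      rw [hl t s, ← add_mul, ← map_add, (h1 s t).1, map_zero, zero_mul]
    simpa using h2
  · rw [Finset.sum_mul, Finset.mul_sum, ← Finset.sum_add_distrib]
    have e : ∀ s, Ac σ V (eps s) * l s * Ac σ V (iot t) + Ac σ V (iot t) * (Ac σ V (eps s) * l s) =
        if s = t then l t else 0 := fun s => by
      rw [mul_assoc, ← hA, ← mul_assoc, ← mul_assoc, ← add_mul, ← map_mul, ← map_mul, ← map_add,
        (h1 s t).2.2]
      split_ifs with h <;> simp [h]
    simp [e]

theorem gen_top (z : σ ⊕ σ → Module.End ℂ V) {G : Finset V} (hG : gen (Set.range z) (G : Set V) = ⊤) :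
    ∃ G' : Finset (ℕ →₀ (Finset σ → V)), gen (Set.range fun o : Option (σ ⊕ σ) =>
      o.elim (S _) fun v => Zc σ V (z v)) (G' : Set (ℕ →₀ (Finset σ → V))) = ⊤ := by
  classical
  refine ⟨(Finset.univ ×ˢ G).image fun p : Finset σ × V => em V 0 p.1 p.2, mem_all fun j I v => ?_⟩
  induction j with
  | zero =>
    rw [← em_apply, ← Submodule.mem_comap]
    refine (gen_le (fun g hg => ?_) ?_ : gen _ _ ≤ Submodule.comap (em V 0 I) _)
      (hG.symm ▸ Submodule.mem_top : v ∈ gen (Set.range z) (G : Set V))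
    · exact subset_gen _ _ (Finset.mem_coe.2 (Finset.mem_image.2 ⟨(I, g), by simpa using hg, rfl⟩))
    · rintro _ ⟨s, rfl⟩ x hx
      have := gen_stable (Set.mem_range_self (some s)) hx
      rw [Submodule.mem_comap]
      convert this using 1
      simp only [Option.elim, Zc, AlgHom.comp_apply, em_apply, R_single]
      congr 1
      funext J
      by_cases h : J = I
      · simp [h, pw_apply]
      · simp [h, pw_apply]
  | succ j ih =>
    rw [← S_single]
    exact gen_stable (Set.mem_range_self none) ih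

end Main

end GrkAux

open GrkAux in
theorem p_GRK (hCLIF : S_CLIF) (hDIAG : S_DIAG) (hLOW : S_LOW) (hANN : S_ANN) :
    S_GRK := by
  intro σ V _ _ _ _ z O E w Y hz hG hO hE hOE hc hX hY hr d₀ d₁ Hom D
  obtain ⟨k₀, f, hf0, hf, hf1⟩ := hANN σ V z hz O E w Y hG hO hE hOE hc hX hY hr
  obtain ⟨G, hG⟩ := hG
  set t : Option (σ ⊕ σ) → Module.End ℂ (ℕ →₀ (Finset σ → V)) :=
    fun o => o.elim (S _) fun v => Zc σ V (z v) with ht
  have tt : ∀ a b, t a * t b = t b * t a := by
    rintro (_ | a) (_ | b)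
    · rfl
    · exact (R_S _).symm
    · exact R_S _
    · simp only [ht, Option.elim, ← map_mul, hz a b]
  have tA : ∀ a A, Ac σ V A * t a = t a * Ac σ V A := by
    rintro (_ | a) A
    · exact R_S _
    · exact Ac_Zc _ _
  have pA : ∀ p A, Ac σ V A * evOp t tt p = evOp t tt p * Ac σ V A := fun p A => by
    induction p using MvPolynomial.induction_on with
    | C a => rw [← algebraMap_eq, AlgHom.commutes, Algebra.commutes]
    | add p q hp hq => rw [map_add, mul_add, add_mul, hp, hq]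
    | mul_X p s hp => rw [map_mul, evOp_X, ← mul_assoc, hp, mul_assoc, tA, mul_assoc]
  have pp : ∀ p q, evOp t tt p * evOp t tt q = evOp t tt q * evOp t tt p := fun p q => by
    rw [← map_mul, mul_comm, map_mul]
  set lp : σ → MvPolynomial (Option (σ ⊕ σ)) ℂ := fun s => if w s ≤ 0 then
    X (some (Sum.inl s)) - Y (Sum.inl s) • 1 else X (some (Sum.inr s)) - Y (Sum.inr s) • X none
    with hlp
  have hl : ∀ s, evOp t tt (lp s) = if w s ≤ 0 then Zc σ V (z (Sum.inl s)) - Y (Sum.inl s) • 1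
      else Zc σ V (z (Sum.inr s)) - Y (Sum.inr s) • S _ := fun s => by
    simp only [hlp]
    split_ifs <;> simp [evOp_X, ht]
  have hD : D = ∑ s, Ac σ V (eps s) * evOp t tt (lp s) := by
    show R _ d₀ - S _ * R _ d₁ = _
    simp only [d₀, d₁, map_sum, Finset.mul_sum, ← Finset.sum_sub_distrib, hl]
    refine Finset.sum_congr rfl fun s _ => ?_
    split_ifs
    · simp [Ac, Zc]
    · rw [msub]
      simp [Ac, Zc, R_S]
  obtain ⟨hDD, hK⟩ := koszul hCLIF (fun s => evOp t tt (lp s)) (fun _ _ => pp _ _) fun s A => pA _ A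
  rw [← hD] at hDD hK
  have pD : ∀ p, evOp t tt p * D = D * evOp t tt p := fun p => by
    rw [hD, Finset.mul_sum, Finset.sum_mul]
    exact Finset.sum_congr rfl fun s _ => by rw [← mul_assoc, ← pA, mul_assoc, pp, mul_assoc]
  let J : Ideal (MvPolynomial (Option (σ ⊕ σ)) ℂ) :=
    { carrier := {p | ∀ u, D u = 0 → evOp t tt p u ∈ LinearMap.range D}
      add_mem' := fun {p q} hp hq u hu => by
        rw [map_add]; exact Submodule.add_mem _ (hp u hu) (hq u hu)
      zero_mem' := fun u _ => by simp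
      smul_mem' := fun q p hp u hu => by
        obtain ⟨x, hx⟩ := hp u hu
        refine ⟨evOp t tt q x, ?_⟩
        rw [smul_eq_mul, map_mul, Module.End.mul_apply, ← hx]
        exact (LinearMap.congr_fun (pD q) x).symm }
  have lJ : ∀ s, Ideal.Quotient.mkₐ ℂ J (lp s) = 0 := fun s =>
    Ideal.Quotient.eq_zero_iff_mem.2 fun u hu => ⟨Ac σ V (iot s) u, by
      simpa [hu] using LinearMap.congr_fun (hK s) u⟩
  have j1 : ∀ s, w s ≤ 0 → Ideal.Quotient.mkₐ ℂ J (X (some (Sum.inl s))) = Y (Sum.inl s) • 1 :=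
    fun s hs => by
      have := lJ s
      simp only [hlp, if_pos hs, map_sub, map_smul, map_one] at this
      exact sub_eq_zero.1 this
  have j2 : ∀ s, ¬w s ≤ 0 → Ideal.Quotient.mkₐ ℂ J (X (some (Sum.inr s))) =
      Y (Sum.inr s) • Ideal.Quotient.mkₐ ℂ J (X none) := fun s hs => by
    have := lJ s
    simp only [hlp, if_neg hs, map_sub, map_smul] at this
    exact sub_eq_zero.1 this
  have j3 : Ideal.Quotient.mkₐ ℂ J (X none) ^ k₀ = 0 := by
    have h1 := mono w Y hX hY (fun v => Ideal.Quotient.mkₐ ℂ J (X (some v))) _ j1 j2 hf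
    have h2 : (evOp t tt).comp (rename some) = (Zc σ V).comp (evOp z hz) :=
      algHom_ext fun v => by simp [evOp_X, ht]
    have h3 : aeval (fun v => Ideal.Quotient.mkₐ ℂ J (X (some v))) =
        (Ideal.Quotient.mkₐ ℂ J).comp (rename some) := algHom_ext fun v => by simp
    have h4 : evOp t tt (rename some f) = 0 := by simpa [hf0] using AlgHom.congr_fun h2 f
    rw [hf1, one_smul, h3] at h1
    rw [← h1]
    exact Ideal.Quotient.eq_zero_iff_mem.2 fun u _ => by simp [h4]
  have jn : ∀ o (c : ℂ) (n : ℕ), (Ideal.Quotient.mkₐ ℂ J (X o) - c • 1) ^ n = 0 →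
      ∀ u ∈ LinearMap.ker D, ((t o - c • 1) ^ n) u ∈ LinearMap.range D := fun o c n h u hu => by
    have h1 : (X o - c • 1) ^ n ∈ J := Ideal.Quotient.eq_zero_iff_mem.1 (by
      rw [← h, ← Ideal.Quotient.mkₐ_eq_mk ℂ, map_pow, map_sub, map_smul, map_one])
    simpa [evOp_X] using h1 u hu
  set P := gr O 1 fun s => if w s ≤ 0 then (0 : ℂ) else -1 with hP
  set Q := gr E (-1) fun s => ((|w s| : ℤ) : ℂ) with hQ
  have hH : ∀ k a u, Hom k a u ↔ P u = k • u ∧ Q u = a • u := fun k a u => by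
    have e1 : ∀ (j : ℕ) (I : Finset σ), k - (1 * j + ∑ s ∈ I, if w s ≤ 0 then (0 : ℂ) else -1) =
        k - j + ((I.filter fun s => 0 < w s).card : ℂ) := fun j I => by
      rw [Finset.sum_ite, Finset.filter_congr (q := fun s => 0 < w s) fun s _ => not_le]
      simp; ring
    have e2 : ∀ (j : ℕ) (I : Finset σ), a - (-1 * j + ∑ s ∈ I, ((|w s| : ℤ) : ℂ)) =
        a + j - ∑ s ∈ I, (|w s| : ℤ) := fun j I => by push_cast; ring
    simp only [hP, hQ, gr_iff, e1, e2, Hom, forall_and]
  have o1 : ∀ s, Dg P 0 (Zc σ V (z (Sum.inl s))) := fun s => gr_Z (Dg.zero (hc s).1) _ _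
  have o2 : ∀ s, Dg P 1 (Zc σ V (z (Sum.inr s))) := fun s =>
    gr_Z (by simpa [Dg] using (hc s).2.1) _ _
  have o3 : ∀ s, Dg Q (w s) (Zc σ V (z (Sum.inl s))) := fun s => gr_Z (hc s).2.2.1 _ _
  have o4 : ∀ s, Dg Q (-w s) (Zc σ V (z (Sum.inr s))) := fun s =>
    gr_Z (by simpa [Dg, sub_eq_add_neg] using (hc s).2.2.2) _ _
  have PD : P * D = D * P := by
    rw [hD]
    refine (Dg.sum fun s => ?_).comm
    rw [hl]
    split_ifs with h
    · exact ((gr_E hCLIF _ _ _ s).mul ((o1 s).sub _ fun _ => Dg.zero (by simp))).cast (by simp [h])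
    · exact ((gr_E hCLIF _ _ _ s).mul ((o2 s).sub _ fun _ => gr_S _ _ _)).cast (by simp [h])
  have QD : Q * D = D * Q := by
    rw [hD]
    refine (Dg.sum fun s => ?_).comm
    rw [hl]
    split_ifs with h
    · exact ((gr_E hCLIF _ _ _ s).mul ((o3 s).sub _ fun hy =>
        (Dg.zero (by simp)).cast (by simp [hX s hy]))).cast (by simp [abs_of_nonpos h])
    · exact ((gr_E hCLIF _ _ _ s).mul ((o4 s).sub _ fun hy =>
        (gr_S _ _ _).cast (by simp [hY s hy]))).cast (by simp [abs_of_pos (not_le.1 h)])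
  have PQ : P * Q = Q * P := gr_gr hOE _ _ _ _
  have dP : Diag P := diag_of hO _ (gr_apply _ _ _)
  have dQ : Diag Q := diag_of hE _ (gr_apply _ _ _)
  have pr : ∀ k a y, y ∈ LinearMap.range D → P y = k • y → Q y = a • y →
      ∃ u', Hom k a u' ∧ D u' = y := by
    rintro k a _ ⟨x, rfl⟩ h1 h2
    obtain ⟨x', e1, e2, -⟩ := proj (Q := 0) (a := 0) hDIAG dQ QD (by simp) h2 (by simp)
    obtain ⟨x'', e3, e4, e5⟩ := proj hDIAG dP PD PQ (e1.symm ▸ h1) e2
    exact ⟨x'', (hH _ _ _).2 ⟨e4, e5⟩, e3.trans e1⟩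
  have st : ∀ T : Module.End ℂ (ℕ →₀ (Finset σ → V)), T * D = D * T →
      (∀ v ∈ LinearMap.range D, T v ∈ LinearMap.range D) ∧
        ∀ v ∈ LinearMap.ker D, T v ∈ LinearMap.ker D := fun T h =>
    ⟨by rintro _ ⟨x, rfl⟩; exact ⟨T x, (LinearMap.congr_fun h x).symm⟩, fun v hv => by
      have := LinearMap.congr_fun h v
      simp only [Module.End.mul_apply, LinearMap.mem_ker.1 hv, map_zero] at this
      exact this.symm⟩
  have tD : ∀ o, t o * D = D * t o := fun o => by simpa [evOp_X] using pD (X o)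
  have sD : (P + Q) * D = D * (P + Q) := by rw [add_mul, mul_add, PD, QD]
  obtain ⟨r, hr⟩ := hLOW (Option (σ ⊕ σ)) _ t (P + Q)
    (fun o => o.elim 0 (Sum.elim w fun s => 1 - w s)) (LinearMap.range D) (LinearMap.ker D) tt
    (gen_top z hG) (diag_add hDIAG dP dQ PQ)
    (by
      rintro (_ | s | s)
      · exact ((gr_S _ _ _).addL (gr_S _ _ _)).cast (by simp)
      · exact ((o1 s).addL (o3 s)).cast (by simp)
      · exact ((o2 s).addL (o4 s)).cast (by simp [sub_eq_add_neg]))
    (by rintro _ ⟨x, rfl⟩; exact LinearMap.congr_fun hDD x)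
    (fun o => (st _ (tD o)).1) (fun o => (st _ (tD o)).2) (st _ sD).1 (st _ sD).2
    (by
      rintro (_ | s | s)
      · exact Or.inr ⟨0, k₀, jn _ _ _ (by simpa using j3)⟩
      · by_cases h : w s ≤ 0
        · exact Or.inr ⟨Y (Sum.inl s), 1, jn _ _ _ (by rw [j1 s h, sub_self, pow_one])⟩
        · exact Or.inl (not_le.1 h)
      · by_cases h : w s ≤ 0
        · exact Or.inl (show 0 < 1 - w s by omega)
        · exact Or.inr ⟨0, k₀, jn _ _ _ (by
            rw [j2 s h, zero_smul, sub_zero, _root_.smul_pow, j3, smul_zero])⟩)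
  refine ⟨k₀, r, fun k a u hu hu0 => ?_⟩
  obtain ⟨h1, h2⟩ := (hH _ _ _).1 hu
  refine ⟨?_, fun h => pr k a u (hr _ h u hu0 (by simp [h1, h2, add_smul])) h1 h2⟩
  rw [← S_pow]
  have h3 := jn none 0 k₀ (by simpa using j3) u hu0
  rw [sz] at h3
  refine pr _ _ _ h3 ?_ ?_
  · simpa using ((gr_S O 1 _).pow k₀).app h1
  · simpa [sub_eq_add_neg] using ((gr_S E (-1) _).pow k₀).app h2

end Pool.Agent.P.MP_52ab5a_al
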