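import Pool.Agent.P.MP_52ab5a_al.B.Iface
import Pool.Agent.P.MP_52ab5a_al.A.Iface

/-! Step GRM of the open orbit project. -/

namespace Pool.Agent.P.MP_52ab5a_al

open MvPolynomial WM

namespace GrmAux

variable {V : Type} [AddCommGroup V] [Module ℂ V]

/-- The degree operator. -/
noncomputable def deg (V : Type) [AddCommGroup V] [Module ℂ V] : Module.End ℂ (ℤ →₀ V) :=
  Finsupp.lsum ℂ fun k : ℤ => (k : ℂ) • Finsupp.lsingle k

theorem deg_single (k : ℤ) (v : V) : deg V (Finsupp.single k v) = (k : ℂ) • Finsupp.single k v := by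
  simp [deg]

theorem deg_apply (u : ℤ →₀ V) (k : ℤ) : deg V u k = (k : ℂ) • u k := by
  induction u using Finsupp.induction_linear with
  | zero => simp
  | add a b ha hb => rw [map_add, Finsupp.add_apply, ha, hb, Finsupp.add_apply, smul_add]
  | single j v =>
    rw [deg_single, Finsupp.smul_apply]
    by_cases h : k = j
    · rw [h]
    · rw [Finsupp.single_eq_of_ne h, smul_zero, smul_zero]

theorem rx_single (T : Module.End ℂ V) (k : ℤ) (v : V) :
    rx T (Finsupp.single k v) = Finsupp.single k (T v) := by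
  simp [rx]

theorem sh_single (k : ℤ) (v : V) : sh V (Finsupp.single k v) = Finsupp.single (k + 1) v := by
  simp [sh, Finsupp.mapDomain_single]

theorem deg_rx (T : Module.End ℂ V) (u : ℤ →₀ V) : deg V (rx T u) = rx T (deg V u) := by
  induction u using Finsupp.induction_linear with
  | zero => simp
  | add a b ha hb => simp only [map_add, ha, hb]
  | single j v => rw [rx_single, deg_single, deg_single, map_smul, rx_single]

theorem deg_sh (u : ℤ →₀ V) : deg V (sh V u) = sh V (deg V u) + sh V u := by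
  induction u using Finsupp.induction_linear with
  | zero => simp
  | add a b ha hb => simp only [map_add, ha, hb]; abel
  | single j v =>
    rw [sh_single, deg_single, deg_single, map_smul, sh_single, Int.cast_add, Int.cast_one, add_smul,
      one_smul]

end GrmAux

open GrmAux in
theorem p_GRM (hDESC : S_DESC) (hDIAG : S_DIAG) (hREES : S_REES) :
    S_GRM := by
  intro σ _ N F hW hG
  classical
  obtain ⟨-, R2, -, -, R5, -, R7⟩ := hREES σ N
  obtain ⟨L1, L2, L3, L4⟩ := R7 F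
  have L5 := (L4 hG.mono hG.stX hG.stD).1
  have cc := R5 hW
  obtain ⟨⟨V, i1, i2, f, f1, f2⟩, hd⟩ := hDESC _ ((lat F).map (sh N.V)) (lat F)
  have desc : ∀ T : Module.End ℂ (ℤ →₀ N.V), (∀ u ∈ lat F, T u ∈ lat F) →
      sh N.V * T = T * sh N.V → ∃ T' : Module.End ℂ V, ∀ u ∈ lat F, T' (f u) = f (T u) :=
    fun T h1 h2 => hd V f f1 f2 T h1 (by
      rintro _ - ⟨u, hu, rfl⟩
      exact ⟨T u, h1 u hu, LinearMap.congr_fun h2 u⟩)
  have sur : ∀ x, ∃ u ∈ lat F, f u = x := fun x => (f2 ▸ Submodule.mem_top : x ∈ (lat F).map f)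
  have ext : ∀ A B : Module.End ℂ V, (∀ u ∈ lat F, A (f u) = B (f u)) → A = B := fun A B h =>
    LinearMap.ext fun x => by obtain ⟨u, hu, rfl⟩ := sur x; exact h u hu
  have sg : ∀ k, ∀ v ∈ F k, Finsupp.single k v ∈ lat F := fun k v hv => (L1 _).2 fun j => by
    by_cases h : j = k
    · rwa [h, Finsupp.single_eq_same]
    · rw [Finsupp.single_eq_of_ne h]; exact zero_mem _
  have top : ∀ W : Submodule ℂ V, (∀ k, ∀ v ∈ F k, f (Finsupp.single k v) ∈ W) → W = ⊤ :=
    fun W h => eq_top_iff.2 fun x _ => by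
      obtain ⟨u, hu, rfl⟩ := sur x
      rw [← Finsupp.sum_single u, Finsupp.sum, map_sum]
      exact W.sum_mem fun k _ => h k _ ((L1 u).1 hu k)
  have f0 : ∀ u ∈ lat F, f (sh N.V u) = 0 := fun u hu => (f1 _ (L5 u hu).1).2 ⟨u, hu, rfl⟩
  have dl : ∀ u ∈ lat F, deg N.V u ∈ lat F := fun u hu => (L1 _).2 fun k => by
    rw [deg_apply]; exact Submodule.smul_mem _ _ ((L1 u).1 hu k)
  obtain ⟨O, hO⟩ := hd V f f1 f2 (deg N.V) dl fun u _ hu => (L3 _).2 fun k => by
    rw [deg_apply]; exact Submodule.smul_mem _ _ ((L3 u).1 hu k)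
  choose z hz using fun s => desc (N.rz s) (fun u hu => (L5 u hu).2 s)
    (by cases s with | inl s => exact cc.ha s | inr s => exact cc.hb s)
  have O1 : ∀ k, ∀ v ∈ F k, O (f (Finsupp.single k v)) = (k : ℂ) • f (Finsupp.single k v) :=
    fun k v hv => by rw [hO _ (sg k v hv), deg_single, map_smul]
  have mix : ∀ s t, ∀ u ∈ lat F, f (N.rz (Sum.inr s) (N.rz (Sum.inl t) u)) =
      f (N.rz (Sum.inl t) (N.rz (Sum.inr s) u)) := fun s t u hu => by
    by_cases h : s = t
    · subst h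
      rw [← sub_eq_zero, ← map_sub, ← f0 u hu]
      exact congrArg f (LinearMap.congr_fun (cc.ba s) u)
    · exact congrArg f (LinearMap.congr_fun (cc.ne s t h) u)
  refine ⟨V, i1, i2, f, z, O, f1, f2, fun k v hv => ⟨?_, O1 k v hv⟩, hz,
    fun s t => ext _ _ fun u hu => ?_, ?_, top _ fun k v hv => Submodule.mem_iSup_of_mem (k : ℂ)
      (Module.End.mem_eigenspace_iff.2 (O1 k v hv)), fun k x hx => ?_,
    fun s => ⟨ext _ _ fun u hu => ?_, ext _ _ fun u hu => ?_⟩, fun T hT => ?_, fun Y => ?_⟩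
  · rw [f1 _ (sg k v hv), L3]
    refine ⟨fun h => by simpa using h k, fun h j => ?_⟩
    by_cases e : j = k
    · rwa [e, Finsupp.single_eq_same]
    · rw [Finsupp.single_eq_of_ne e]; exact zero_mem _
  · rw [Module.End.mul_apply, Module.End.mul_apply, hz t u hu, hz s u hu, hz s _ ((L5 u hu).2 t),
      hz t _ ((L5 u hu).2 s)]
    rcases s with s | s <;> rcases t with t | t
    exacts [congrArg f (LinearMap.congr_fun (cc.aa s t) u), (mix t s u hu).symm, mix s t u hu,
      congrArg f (LinearMap.congr_fun (cc.bb s t) u)]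
  · obtain ⟨G, hG'⟩ := hG.fg
    refine ⟨G.image f, eq_top_iff.2 fun x _ => ?_⟩
    obtain ⟨u, hu, rfl⟩ := sur x
    have : gen (insert (sh N.V) (Set.range N.rz)) (G : Set (ℤ →₀ N.V)) ≤
        lat F ⊓ (gen (Set.range z) (G.image f : Set V)).comap f := by
      refine gen_le (fun g hg => ⟨hG' ▸ subset_gen _ _ hg,
        subset_gen _ _ (Finset.mem_coe.2 (Finset.mem_image_of_mem f hg))⟩) ?_
      rintro _ (rfl | ⟨s, rfl⟩) v ⟨h1, h2⟩
      · exact ⟨(L5 v h1).1, Submodule.mem_comap.2 (f0 v h1 ▸ zero_mem _)⟩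
      · exact ⟨(L5 v h1).2 s, Submodule.mem_comap.2 (hz s v h1 ▸ gen_stable (Set.mem_range_self s) h2)⟩
    exact (this (hG' ▸ hu)).2
  · obtain ⟨u, hu, rfl⟩ := sur x
    refine ⟨u k, (L1 u).1 hu k, ?_⟩
    rw [hO u hu, ← map_smul, ← sub_eq_zero, ← map_sub,
      f1 _ (sub_mem (dl u hu) (Submodule.smul_mem _ _ hu)), L3] at hx
    rw [← sub_eq_zero, ← map_sub, f1 _ (sub_mem hu (sg k _ ((L1 u).1 hu k))), L3]
    intro j
    rw [Finsupp.sub_apply]
    by_cases e : j = k
    · rw [e, Finsupp.single_eq_same, sub_self]; exact zero_mem _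
    have := hx j
    rw [Finsupp.sub_apply, deg_apply, Finsupp.smul_apply, ← sub_smul,
      Submodule.smul_mem_iff _ (sub_ne_zero.2 (by exact_mod_cast e))] at this
    rwa [Finsupp.single_eq_of_ne e, sub_zero]
  · rw [Module.End.mul_apply, Module.End.mul_apply, hz _ u hu, hO u hu, hO _ ((L5 u hu).2 _),
      hz _ _ (dl u hu)]
    exact congrArg f (deg_rx _ u)
  · rw [LinearMap.add_apply, Module.End.mul_apply, Module.End.mul_apply, hz _ u hu, hO u hu,
      hO _ ((L5 u hu).2 _), hz _ _ (dl u hu), ← map_add]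
    refine congrArg f ((deg_sh (rx (N.D s) u)).trans ?_)
    rw [deg_rx]; rfl
  · obtain ⟨T', h⟩ := desc (rx T) (L2 T hT) (R2 T)
    refine ⟨T', h, ext _ _ fun u hu => ?_, fun hd => top _ fun k v hv => ?_⟩
    · rw [Module.End.mul_apply, Module.End.mul_apply, h u hu, hO u hu, hO _ (L2 T hT u hu),
        h _ (dl u hu), deg_rx]
    obtain ⟨d1, d2, -⟩ := hDIAG _ T hd
    obtain ⟨c, c1, c2⟩ := d1 v
    have c3 := d2 (F k) (hT k) c (fun a => by rw [c1, sub_self]; exact zero_mem _) (c2 ▸ hv)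
    rw [← c2, Finsupp.sum, Finsupp.single_finsetSum, map_sum]
    refine Submodule.sum_mem _ fun a _ => Submodule.mem_iSup_of_mem a
      (Module.End.mem_eigenspace_iff.2 ?_)
    rw [h _ (sg k _ (c3 a)), rx_single, c1, ← Finsupp.smul_single, map_smul]
  · refine (sup_le ?_ (iSup_le fun s => ?_) : N.fibK F Y ≤ (radz z Y ⊤).comap f)
    · rintro _ ⟨u, hu, rfl⟩
      exact Submodule.mem_comap.2 (f0 u hu ▸ zero_mem _)
    · rintro _ ⟨u, hu, rfl⟩
      refine Submodule.mem_iSup_of_mem s ⟨f u, trivial, ?_⟩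
      simp only [LinearMap.sub_apply, LinearMap.smul_apply, Module.End.one_apply, map_sub, map_smul,
        hz s u hu]

end Pool.Agent.P.MP_52ab5a_al
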