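import Pool.Agent.P.MP_52ab5a_al.B.Iface
import Pool.Agent.P.MP_52ab5a_al.A.Iface

/-! Step HOLD of the open orbit project. -/

namespace Pool.Agent.P.MP_52ab5a_al

open MvPolynomial WM

namespace HoldAux

/-- The Green operator of a diagonalisable operator. -/
theorem green (hDIAG : S_DIAG) {V : Type} [AddCommGroup V] [Module ℂ V] (L : Module.End ℂ V)
    (hL : Diag L) : ∃ G : Module.End ℂ V, (∀ v, L (v - L (G v)) = 0) ∧ (∀ z, L z = 0 → G z = 0) ∧
      (∀ Y : Submodule ℂ V, (∀ v ∈ Y, L v ∈ Y) → ∀ v ∈ Y, G v ∈ Y) ∧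
      ∀ A : Module.End ℂ V, (∀ v, A (L v) = L (A v)) → ∀ v, A (G v) = G (A v) := by
  obtain ⟨h1, -, h3⟩ := hDIAG V L hL
  obtain ⟨G, hG, hY⟩ := h3 fun a => a⁻¹
  refine ⟨G, fun v => ?_, fun z hz => ?_, hY, fun A hA v => ?_⟩
  · obtain ⟨c, hc, rfl⟩ := h1 v
    have key : ∀ a, (L * (1 - L * G)) (c a) = 0 := by
      intro a
      have e : (L * (1 - L * G)) (c a) = L (c a - L (G (c a))) := rfl
      rw [e, hG a _ (hc a), map_smul, hc a, smul_smul, map_sub, map_smul, hc a, smul_smul]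
      by_cases ha : a = 0
      · subst ha
        simp
      · rw [inv_mul_cancel₀ ha, one_mul, sub_self]
    have e : L ((c.sum fun _ u => u) - L (G (c.sum fun _ u => u))) =
        (L * (1 - L * G)) (c.sum fun _ u => u) := rfl
    rw [e, Finsupp.sum, map_sum]
    exact Finset.sum_eq_zero fun a _ => key a
  · have := hG 0 z (by rw [hz, zero_smul])
    rw [this, inv_zero, zero_smul]
  · obtain ⟨c, hc, rfl⟩ := h1 v
    rw [Finsupp.sum, map_sum, map_sum, map_sum, map_sum]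
    refine Finset.sum_congr rfl fun a _ => ?_
    rw [hG a _ (hc a), map_smul, hG a (A (c a)) (by rw [← hA, hc a, map_smul])]

/-- The invariant part of a complex computes its cohomology. -/
theorem piso {σ : Type} (hDIAG : S_DIAG) (T : WM σ) (d i L : Module.End ℂ T.V)
    (Y : Submodule ℂ T.V) (hL : Diag L) (hdef : ∀ v, L v = d (i v) + i (d v))
    (hdd : ∀ v, d (d v) = 0) (hY : T.Stable Y) (hLY : ∀ v ∈ Y, L v ∈ Y)
    (hc : ∀ s v, d (T.X s v) = T.X s (d v) ∧ d (T.D s v) = T.D s (d v) ∧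
      L (T.X s v) = T.X s (L v) ∧ L (T.D s v) = T.D s (L v)) :
    PIso Set.univ T (Y ⊓ LinearMap.ker L ⊓ (LinearMap.ker L).map d)
      (Y ⊓ LinearMap.ker L ⊓ LinearMap.ker d) T (Y ⊓ LinearMap.range d) (Y ⊓ LinearMap.ker d) := by
  obtain ⟨G, hG1, hG2, hG3, hG4⟩ := green hDIAG L hL
  have hdL : ∀ v, d (L v) = L (d v) := by
    intro v
    rw [hdef, hdef, map_add, hdd, hdd, map_zero, zero_add, add_zero]
  have hK : ∀ s v, L v = 0 → L (T.X s v) = 0 ∧ L (T.D s v) = 0 := by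
    intro s v hv
    rw [(hc s v).2.2.1, (hc s v).2.2.2, hv, map_zero, map_zero]
    exact ⟨rfl, rfl⟩
  have hKd : ∀ s v, d v = 0 → d (T.X s v) = 0 ∧ d (T.D s v) = 0 := by
    intro s v hv
    rw [(hc s v).1, (hc s v).2.1, hv, map_zero, map_zero]
    exact ⟨rfl, rfl⟩
  refine ⟨LinearMap.id, ?_, ?_, ?_, ?_, ?_, ?_, ?_, ?_, ?_, ?_⟩
  · rintro v ⟨hv, u, -, rfl⟩
    exact ⟨hv, hdd u⟩
  · rintro s - v ⟨⟨hv, hv'⟩, u, hu, rfl⟩
    exact ⟨⟨⟨(hY s _ hv).1, (hK s _ hv').1⟩, T.X s u, (hK s u hu).1, (hc s u).1⟩,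
      ⟨⟨(hY s _ hv).2, (hK s _ hv').2⟩, T.D s u, (hK s u hu).2, (hc s u).2.1⟩⟩
  · rintro s - v ⟨⟨hv, hv'⟩, hv''⟩
    exact ⟨⟨⟨(hY s _ hv).1, (hK s _ hv').1⟩, (hKd s v hv'').1⟩,
      ⟨⟨(hY s _ hv).2, (hK s _ hv').2⟩, (hKd s v hv'').2⟩⟩
  · rintro v ⟨hv, u, rfl⟩
    exact ⟨hv, hdd u⟩
  · rintro s - v ⟨hv, u, rfl⟩
    exact ⟨⟨(hY s _ hv).1, T.X s u, (hc s u).1⟩, ⟨(hY s _ hv).2, T.D s u, (hc s u).2.1⟩⟩
  · rintro s - v ⟨hv, hv''⟩
    exact ⟨⟨(hY s _ hv).1, (hKd s v hv'').1⟩, ⟨(hY s _ hv).2, (hKd s v hv'').2⟩⟩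
  · rintro z ⟨⟨hz, -⟩, hz''⟩
    exact ⟨hz, hz''⟩
  · rintro z ⟨⟨hz, hz'⟩, -⟩
    constructor
    · rintro ⟨-, u, hu⟩
      have hu' : d u = z := hu
      refine ⟨⟨hz, hz'⟩, u - L (G u), hG1 u, ?_⟩
      rw [map_sub, hdL, hG4 d hdL, hu', hG2 z hz', map_zero, sub_zero]
    · rintro ⟨-, u, -, hu⟩
      exact ⟨hz, u, hu⟩
  · rintro v ⟨hv, hv'⟩
    have hv0 : d v = 0 := hv'
    have hGv : G v ∈ Y := hG3 Y hLY v hv
    have hdG : d (G v) = 0 := by rw [hG4 d hdL, hv0, map_zero]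
    have e : v = (v - L (G v)) + L (G v) := by abel
    rw [e]
    refine Submodule.add_mem_sup ⟨v - L (G v), ⟨⟨Y.sub_mem hv (hLY _ hGv), hG1 v⟩, ?_⟩, rfl⟩
      ⟨hLY _ hGv, i (G v), ?_⟩
    · show d (v - L (G v)) = 0
      rw [map_sub, hdL, hdG, hv0, map_zero, sub_zero]
    · rw [hdef, hdG, map_zero, add_zero]
  · intro s _ z _
    simp

variable {ν σ : Type} [Fintype ν] [LinearOrder ν]

theorem mem_deg (M : WM (ν ⊕ σ)) (k : ℕ) (v : Finset ν → M.V) :
    v ∈ degForms M k ↔ ∀ I : Finset ν, I.card ≠ k → v I = 0 := by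
  simp [degForms, Submodule.mem_pi]

theorem mem_par {V : Type} [AddCommGroup V] [Module ℂ V] (p : ℕ) (v : Finset ν → V) :
    v ∈ parF ν V p ↔ ∀ I : Finset ν, I.card % 2 ≠ p % 2 → v I = 0 := by
  simp [parF, Submodule.mem_pi]

/-- The part of degree `k`. -/
def part {V : Type} [AddCommGroup V] (k : ℕ) (v : Finset ν → V) : Finset ν → V :=
  fun I => if I.card = k then v I else 0

theorem part_mem (M : WM (ν ⊕ σ)) (k : ℕ) (v : Finset ν → M.V) : part k v ∈ degForms M k := by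
  rw [mem_deg]
  intro I hI
  simp [part, hI]

theorem sum_part {V : Type} [AddCommGroup V] (v : Finset ν → V) :
    ∑ k ∈ Finset.range (Fintype.card ν + 1), part k v = v := by
  funext I
  rw [Finset.sum_apply]
  simp only [part]
  rw [Finset.sum_ite_eq, if_pos]
  exact Finset.mem_range.2 (Nat.lt_succ_of_le (Finset.card_le_univ I))

theorem part_ker (M : WM (ν ⊕ σ)) (L : Module.End ℂ (Finset ν → M.V))
    (hL : ∀ k, ∀ v ∈ degForms M k, L v ∈ degForms M k) (v : Finset ν → M.V) (hv : L v = 0)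
    (k : ℕ) : L (part k v) = 0 := by
  funext I
  by_cases hI : I.card = k
  · have h0 : (∑ j ∈ Finset.range (Fintype.card ν + 1), L (part j v)) I = 0 := by
      rw [← map_sum, sum_part, hv]
      rfl
    rw [Finset.sum_apply, Finset.sum_eq_single k] at h0
    · exact h0
    · intro j _ hj
      exact (mem_deg M j _).1 (hL j _ (part_mem M j v)) I (by rw [hI]; exact Ne.symm hj)
    · intro hk
      exact absurd (Finset.mem_range.2 (Nat.lt_succ_of_le (hI ▸ Finset.card_le_univ I))) hk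
  · exact (mem_deg M k _).1 (hL k _ (part_mem M k v)) I hI

theorem sup_all (M : WM (ν ⊕ σ)) (L : Module.End ℂ (Finset ν → M.V))
    (hL : ∀ k, ∀ v ∈ degForms M k, L v ∈ degForms M k) :
    (⨆ j, degForms M j ⊓ LinearMap.ker L) = LinearMap.ker L := by
  refine le_antisymm (iSup_le fun j => inf_le_right) fun v hv => ?_
  rw [← sum_part v]
  exact Submodule.sum_mem _ fun k _ =>
    Submodule.mem_iSup_of_mem k ⟨part_mem M k v, part_ker M L hL v hv k⟩

theorem sup_par (M : WM (ν ⊕ σ)) (L : Module.End ℂ (Finset ν → M.V))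
    (hL : ∀ k, ∀ v ∈ degForms M k, L v ∈ degForms M k) (p : ℕ) :
    (⨆ k, ⨆ _ : k % 2 = p % 2, degForms M k ⊓ LinearMap.ker L) =
      parF ν M.V p ⊓ LinearMap.ker L := by
  refine le_antisymm (iSup_le fun j => iSup_le fun hj => inf_le_inf_right _ fun v hv => ?_)
    fun v hv => ?_
  · rw [mem_par]
    intro I hI
    refine (mem_deg M j v).1 hv I fun h => hI ?_
    rw [h, hj]
  · rw [← sum_part v]
    refine Submodule.sum_mem _ fun k _ => ?_
    by_cases hk : k % 2 = p % 2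
    · exact Submodule.mem_iSup_of_mem k
        (Submodule.mem_iSup_of_mem hk ⟨part_mem M k v, part_ker M L hL v hv.2 k⟩)
    · have : part k v = 0 := by
        funext I
        by_cases hI : I.card = k
        · have := (mem_par p v).1 hv.1 I (by rw [hI]; exact hk)
          simp [part, this]
        · simp [part, hI]
      rw [this]
      exact Submodule.zero_mem _

theorem indep (M : WM (ν ⊕ σ)) : iSupIndep (degForms M) := by
  intro k
  rw [Submodule.disjoint_def]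
  intro v hv hv'
  have h : (⨆ j, ⨆ _ : j ≠ k, degForms M j) ≤
      Submodule.pi {I : Finset ν | I.card = k} fun _ => (⊥ : Submodule ℂ M.V) := by
    refine iSup_le fun j => iSup_le fun hj u hu => ?_
    intro I hI
    have hI' : I.card = k := hI
    exact (mem_deg M j u).1 hu I (by rw [hI']; exact Ne.symm hj)
  funext I
  by_cases hI : I.card = k
  · exact h hv' I hI
  · exact (mem_deg M k v).1 hv I hI

theorem deg_stable (M : WM (ν ⊕ σ)) (k : ℕ) : (forms M).Stable (degForms M k) := by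
  intro s v hv
  constructor
  · refine (mem_deg M k _).2 fun I hI => ?_
    show M.X (Sum.inr s) (v I) = 0
    rw [(mem_deg M k v).1 hv I hI, map_zero]
  · refine (mem_deg M k _).2 fun I hI => ?_
    show M.D (Sum.inr s) (v I) = 0
    rw [(mem_deg M k v).1 hv I hI, map_zero]

theorem deg_bot (M : WM (ν ⊕ σ)) (k : ℕ) (hk : Fintype.card ν < k) : degForms M k = ⊥ := by
  rw [eq_bot_iff]
  intro v hv
  funext I
  exact (mem_deg M k v).1 hv I (ne_of_lt (lt_of_le_of_lt (Finset.card_le_univ I) hk))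

end HoldAux

open HoldAux in
theorem p_HOLD (hPISO : S_PISO) (hHSUB : S_HSUB) (hDIAG : S_DIAG) (hKOS : S_KOS) (hMIX : S_MIX) (hCART : S_CART) :
    S_HOLD := by
  intro ν σ _ _ _ M w hM hD
  classical
  obtain ⟨hW, hdd, hii, -, -, -, hcm, hsq, hdiag, hdeg, hdeg', -, -⟩ := hCART ν σ M hM.1
  obtain ⟨hK1, hK2⟩ := hKOS ν σ M hM
  have hdg0 : dg (0 : σ → ℤ) = 0 := by simp [dg]
  have hL : Diag (dir M w * dir M w) := by
    rw [hsq w, ← hdg0]
    exact hdiag w 0 hD
  have hLdeg : ∀ k, ∀ v ∈ degForms M k, (dir M w * dir M w) v ∈ degForms M k := by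
    intro k v hv
    rw [hsq w]
    exact (hdeg k v hv).2.1 _ _
  have hdd' : ∀ v, dR M (dR M v) = 0 := fun v => LinearMap.congr_fun hdd v
  have hii' : ∀ v, io M (dg w) (io M (dg w) v) = 0 := by
    intro v
    have h : io M (dg w) (io M (dg w) v) + io M (dg w) (io M (dg w) v) = 0 :=
      LinearMap.congr_fun (hii (dg w) (dg w)) v
    rw [← two_smul ℂ] at h
    exact (smul_eq_zero.1 h).resolve_left two_ne_zero
  have hdir : ∀ v, dir M w v = dR M v + io M (dg w) v := fun v => rfl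
  have hdef : ∀ v, (dir M w * dir M w) v = dR M (io M (dg w) v) + io M (dg w) (dR M v) := by
    intro v
    rw [Module.End.mul_apply, hdir, hdir, map_add, map_add, hdd', hii', zero_add, add_zero]
  have hc0 : ∀ s v, dR M ((forms M).X s v) = (forms M).X s (dR M v) ∧
      dR M ((forms M).D s v) = (forms M).D s (dR M v) ∧
      io M (dg w) ((forms M).X s v) = (forms M).X s (io M (dg w) v) ∧
      io M (dg w) ((forms M).D s v) = (forms M).D s (io M (dg w) v) := fun s v =>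
    ⟨LinearMap.congr_fun (hcm s).1.1 v, LinearMap.congr_fun (hcm s).1.2 v,
      LinearMap.congr_fun ((hcm s).2 (dg w)).1 v, LinearMap.congr_fun ((hcm s).2 (dg w)).2 v⟩
  have hdirdef : dir M w = dR M + io M (dg w) := rfl
  have hkerle : LinearMap.ker (dir M w) ≤ LinearMap.ker (dir M w * dir M w) := by
    intro v hv
    have hv' : dir M w v = 0 := hv
    show dir M w (dir M w v) = 0
    rw [hv', map_zero]
  have hmaple : (LinearMap.ker (dir M w * dir M w)).map (dir M w) ≤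
      LinearMap.ker (dir M w * dir M w) := by
    rintro _ ⟨v, hv, rfl⟩
    have hv' : dir M w (dir M w v) = 0 := hv
    show dir M w (dir M w (dir M w v)) = 0
    rw [hv', map_zero]
  have hB : ∀ p, dirB M w p = parF ν M.V p ⊓ LinearMap.ker (dir M w * dir M w) ⊓
      (LinearMap.ker (dir M w * dir M w)).map (dR M + io M (dg w)) := by
    intro p
    rw [inf_assoc, ← hdirdef, inf_eq_right.2 hmaple]
    rfl
  have hZ : ∀ p, dirZ M w p = parF ν M.V p ⊓ LinearMap.ker (dir M w * dir M w) ⊓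
      LinearMap.ker (dR M + io M (dg w)) := by
    intro p
    rw [inf_assoc, ← hdirdef, inf_eq_right.2 hkerle]
    rfl
  generalize dir M w * dir M w = L at hL hLdeg hdef hB hZ
  have hc : ∀ s v, dR M ((forms M).X s v) = (forms M).X s (dR M v) ∧
      dR M ((forms M).D s v) = (forms M).D s (dR M v) ∧
      L ((forms M).X s v) = (forms M).X s (L v) ∧ L ((forms M).D s v) = (forms M).D s (L v) := by
    intro s v
    refine ⟨(hc0 s v).1, (hc0 s v).2.1, ?_, ?_⟩
    · rw [hdef, hdef, map_add, (hc0 s v).2.2.1, (hc0 s v).1, (hc0 s _).1, (hc0 s _).2.2.1]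
    · rw [hdef, hdef, map_add, (hc0 s v).2.2.2, (hc0 s v).2.1, (hc0 s _).2.1, (hc0 s _).2.2.2]
  have hP : ∀ k, PIso Set.univ (forms M)
      (degForms M k ⊓ LinearMap.range (dR M)) (degForms M k ⊓ LinearMap.ker (dR M)) (forms M)
      (degForms M k ⊓ LinearMap.ker L ⊓ (LinearMap.ker L).map (dR M))
      (degForms M k ⊓ LinearMap.ker L ⊓ LinearMap.ker (dR M)) := fun k =>
    (hPISO σ Set.univ).2.1 _ _ _ _ _ _
      (piso hDIAG (forms M) (dR M) (io M (dg w)) L (degForms M k) hL hdef hdd' (deg_stable M k)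
        (hLdeg k) hc)
  have hall := sup_all M L hLdeg
  have hpar := sup_par M L hLdeg
  have hmix := hMIX σ (forms M) (fun k => degForms M k ⊓ LinearMap.ker L) (Fintype.card ν)
    (dR M) (io M (dg w)) hW ?_ ?_ ?_ ?_ ?_ ?_ ?_ ?_ ?_
  · obtain ⟨hm1, hm2⟩ := hmix
    simp only [hall, hpar] at hm1 hm2
    refine ⟨fun p => ?_, fun φ hφ => ?_⟩
    · rw [hB, hZ]
      exact hm1 p
    · rw [hB, hZ, hB, hZ, ← hm2 φ hφ, ← hK2 φ hφ, euler]
      refine Finset.sum_congr rfl fun k _ => ?_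
      rw [hφ.iso _ _ _ _ _ _ (hK1 k) hW (hP k)]
  · intro k s v hv
    have hv2 : L v = 0 := hv.2
    refine ⟨⟨(deg_stable M k s v hv.1).1, ?_⟩, ⟨(deg_stable M k s v hv.1).2, ?_⟩⟩
    · show L ((forms M).X s v) = 0
      rw [(hc s v).2.2.1, hv2, map_zero]
    · show L ((forms M).D s v) = 0
      rw [(hc s v).2.2.2, hv2, map_zero]
  · exact (indep M).mono fun k => inf_le_left
  · intro k hk
    show degForms M k ⊓ LinearMap.ker L = ⊥
    rw [deg_bot M k hk, bot_inf_eq]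
  · intro s
    exact ⟨(hcm s).1.1, (hcm s).1.2, ((hcm s).2 (dg w)).1, ((hcm s).2 (dg w)).2⟩
  · intro k v hv
    have hv2 : L v = 0 := hv.2
    refine ⟨(hdeg k v hv.1).1, ?_⟩
    show L (dR M v) = 0
    have h := congrArg (dR M) hv2
    rw [hdef, map_add, hdd', zero_add, map_zero] at h
    rw [hdef, hdd', map_zero, add_zero, h]
  · intro k v hv
    have hv2 : L v = 0 := hv.2
    refine ⟨hdeg' k _ v hv.1, ?_⟩
    show L (io M (dg w) v) = 0
    have h := congrArg (io M (dg w)) hv2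
    rw [hdef, map_add, hii', add_zero, map_zero] at h
    rw [hdef, hii', map_zero, zero_add, h]
  · intro v hv
    exact (hdeg 0 v hv.1).2.2 _ rfl
  · intro k v hv
    have hv2 : L v = 0 := hv.2
    exact ⟨hdd' v, hii' v, by rw [← hdef, hv2]⟩
  · intro k
    simp only [hall]
    exact (hHSUB σ Set.univ).2.1 _ _ _ _ _ _ (hK1 k) hW (hP k)

end Pool.Agent.P.MP_52ab5a_al
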