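import Pool.Agent.P.MP_52ab5a_al.B.Iface

/-! Step KFG of the open orbit project. -/

namespace Pool.Agent.P.MP_52ab5a_al

open MvPolynomial WM

namespace KfgAux

variable {ν σ V : Type} [Fintype ν] [LinearOrder ν] [AddCommGroup V] [Module ℂ V]
  (z : (ν ⊕ σ) ⊕ ν ⊕ σ → Module.End ℂ V) (w : ν → ℤ)

theorem comm1 (A : Matrix (Finset ν) (Finset ν) ℂ) {T S : Module.End ℂ V} (h : T * S = S * T) :
    act V A * pw (Finset ν) T * pw (Finset ν) S = pw (Finset ν) S * (act V A * pw (Finset ν) T) := by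
  rw [mul_assoc, ← map_mul, h, map_mul, ← mul_assoc, act_mul_pw, mul_assoc]

theorem comm (h : ∀ s t, z s * z t = z t * z s) (v) :
    dir0 z w * pw (Finset ν) (z v) = pw (Finset ν) (z v) * dir0 z w := by
  rw [dir0, Finset.sum_mul, Finset.mul_sum]
  refine Finset.sum_congr rfl fun j _ => ?_
  rw [add_mul, mul_add, smul_mul_assoc, mul_smul_comm, comm1 _ (h _ _), comm1 _ (h _ _)]

theorem anti1 (A B : Matrix (Finset ν) (Finset ν) ℂ) (T : Module.End ℂ V) :
    act V B * pw (Finset ν) T * act V A + act V A * (act V B * pw (Finset ν) T) =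
      act V (B * A + A * B) * pw (Finset ν) T := by
  rw [mul_assoc, ← act_mul_pw, ← mul_assoc, ← mul_assoc, ← add_mul, map_add, map_mul, map_mul]

theorem anti (A : Matrix (Finset ν) (Finset ν) ℂ) :
    dir0 z w * act V A + act V A * dir0 z w =
      ∑ j, (act V (eps j * A + A * eps j) * pw (Finset ν) (z (Sum.inr (Sum.inl j))) +
        (w j : ℂ) • (act V (iot j * A + A * iot j) * pw (Finset ν) (z (Sum.inl (Sum.inl j))))) := by
  rw [dir0, Finset.sum_mul, Finset.mul_sum, ← Finset.sum_add_distrib]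
  refine Finset.sum_congr rfl fun j _ => ?_
  rw [← anti1, ← anti1, add_mul, mul_add, smul_mul_assoc, mul_smul_comm, smul_add,
    add_add_add_comm]

theorem mem_range {d A T : Module.End ℂ (Finset ν → V)} (h : d * A + A * d = T) {u}
    (hu : u ∈ LinearMap.ker d) : T u ∈ LinearMap.range d := by
  refine ⟨A u, ?_⟩
  rw [← h, LinearMap.add_apply, Module.End.mul_apply, Module.End.mul_apply,
    LinearMap.mem_ker.1 hu, map_zero, add_zero]

end KfgAux

open KfgAux in
theorem p_KFG (hCLIF : S_CLIF) :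
    S_KFG := by
  intro ν σ V _ _ _ _ _ z w hc ⟨G₀, hG₀⟩ hw
  have hC := (hCLIF ν).1
  have h1 : ∀ j : ν ⊕ ν, ∀ u ∈ LinearMap.ker (dir0 z w),
      pw (Finset ν) (z (Sum.map Sum.inl Sum.inl j)) u ∈ LinearMap.range (dir0 z w) := by
    rintro (k | k) u hu
    · have h := anti z w (eps k)
      rw [Finset.sum_eq_single k (fun j _ hj => by
        rw [(hC j k).1, add_comm (iot j * eps k), (hC k j).2.2, if_neg hj.symm]; simp) (by simp),
        (hC k k).1, add_comm (iot k * eps k), (hC k k).2.2, if_pos rfl, map_zero, zero_mul,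
        zero_add, map_one, one_mul] at h
      have h2 := Submodule.smul_mem _ (w k : ℂ)⁻¹ (mem_range h hu)
      rwa [LinearMap.smul_apply, smul_smul, inv_mul_cancel₀ (Int.cast_ne_zero.2 (hw k)),
        one_smul] at h2
    · have h := anti z w (iot k)
      rw [Finset.sum_eq_single k (fun j _ hj => by
        rw [(hC j k).2.1, (hC j k).2.2, if_neg hj]; simp) (by simp),
        (hC k k).2.1, (hC k k).2.2, if_pos rfl, map_zero, zero_mul, smul_zero, add_zero, map_one,
        one_mul] at h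
      exact mem_range h hu
  refine ⟨h1, ?_⟩
  obtain ⟨_, _, hX⟩ := exists_commModule z hc
  have hX' : ∀ s (u : Finset ν → V),
      (X s : MvPolynomial ((ν ⊕ σ) ⊕ ν ⊕ σ) ℂ) • u = pw (Finset ν) (z s) u := fun s u =>
    funext fun I => hX s (u I)
  have hd : ∀ s u, dir0 z w (pw (Finset ν) (z s) u) = pw (Finset ν) (z s) (dir0 z w u) :=
    fun s u => LinearMap.congr_fun (comm z w hc s) u
  have hker : ∀ s, ∀ u ∈ LinearMap.ker (dir0 z w),
      pw (Finset ν) (z s) u ∈ LinearMap.ker (dir0 z w) := fun s u hu => by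
    rw [LinearMap.mem_ker, hd, LinearMap.mem_ker.1 hu, map_zero]
  have : Module.Finite (MvPolynomial ((ν ⊕ σ) ⊕ ν ⊕ σ) ℂ) V := by
    refine ⟨⟨G₀, top_le_iff.1 fun v _ => ?_⟩⟩
    have h2 : gen (Set.range z) (G₀ : Set V) ≤ (Submodule.span
        (MvPolynomial ((ν ⊕ σ) ⊕ ν ⊕ σ) ℂ) (G₀ : Set V)).restrictScalars ℂ :=
      gen_le Submodule.subset_span (by
        rintro _ ⟨s, rfl⟩ v hv
        rw [← hX]
        exact (Submodule.span (MvPolynomial ((ν ⊕ σ) ⊕ ν ⊕ σ) ℂ) (G₀ : Set V)).smul_mem _ hv)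
    exact h2 (hG₀ ▸ Submodule.mem_top)
  let K : Submodule (MvPolynomial ((ν ⊕ σ) ⊕ ν ⊕ σ) ℂ) (Finset ν → V) :=
    { carrier := LinearMap.ker (dir0 z w)
      add_mem' := fun a b => Submodule.add_mem _ a b
      zero_mem' := Submodule.zero_mem _
      smul_mem' := fun f v hv => smul_mem_of_X (fun s u hu => by
        rw [hX']; exact hker s u hu) f v hv }
  obtain ⟨G, hG⟩ : K.FG := IsNoetherian.noetherian K
  have hGK : (G : Set (Finset ν → V)) ⊆ LinearMap.ker (dir0 z w) := fun v hv => by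
    have : v ∈ K := hG ▸ Submodule.subset_span hv
    exact this
  refine ⟨G, hGK, fun u hu => ?_⟩
  have hT : ∀ s, ∀ v ∈ LinearMap.ker (dir0 z w) ⊓
      (LinearMap.range (dir0 z w) ⊔ gen (Set.range (zBase z)) G),
      (X s : MvPolynomial ((ν ⊕ σ) ⊕ ν ⊕ σ) ℂ) • v ∈ LinearMap.ker (dir0 z w) ⊓
        (LinearMap.range (dir0 z w) ⊔ gen (Set.range (zBase z)) G) := by
    intro s v hv
    rw [hX']
    refine ⟨hker s v hv.1, ?_⟩
    have hb : ∀ t : σ ⊕ σ, zBase z t v ∈
        LinearMap.range (dir0 z w) ⊔ gen (Set.range (zBase z)) G := fun t => by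
      obtain ⟨_, ⟨a, rfl⟩, b, hb, e⟩ := Submodule.mem_sup.1 hv.2
      rw [← e, map_add]
      exact Submodule.add_mem_sup ⟨_, hd _ a⟩ (gen_stable (Set.mem_range_self t) hb)
    rcases s with (j | t) | j | t
    · exact Submodule.mem_sup_left (h1 (Sum.inl j) v hv.1)
    · exact hb (Sum.inl t)
    · exact Submodule.mem_sup_left (h1 (Sum.inr j) v hv.1)
    · exact hb (Sum.inr t)
  have hu' : u ∈ Submodule.span (MvPolynomial ((ν ⊕ σ) ⊕ ν ⊕ σ) ℂ) (G : Set (Finset ν → V)) := by
    rw [hG]; exact hu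
  suffices h : u ∈ LinearMap.ker (dir0 z w) ⊓
      (LinearMap.range (dir0 z w) ⊔ gen (Set.range (zBase z)) G) from h.2
  clear hu
  induction hu' using Submodule.span_induction with
  | mem x hx => exact ⟨hGK hx, Submodule.mem_sup_right (subset_gen _ _ hx)⟩
  | zero => exact Submodule.zero_mem _
  | add x y _ _ a b => exact Submodule.add_mem _ a b
  | smul f x _ a => exact smul_mem_of_X hT f x a

end Pool.Agent.P.MP_52ab5a_al
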