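import Pool.Agent.P.MP_52ab5a_al.B.Iface
import Pool.Agent.P.MP_52ab5a_al.A.Iface

/-! Step KOS of the open orbit project. -/

namespace Pool.Agent.P.MP_52ab5a_al

open MvPolynomial WM

namespace KosAux

section Cone

variable {ι : Type} {M : WM ι}

/-- Cycles. -/
def Zc (E : ℤ → Submodule ℂ M.V) (d : Module.End ℂ M.V) (k : ℤ) : Submodule ℂ M.V :=
  E k ⊓ LinearMap.ker d

/-- Boundaries. -/
def Bc (E : ℤ → Submodule ℂ M.V) (d : Module.End ℂ M.V) (k : ℤ) : Submodule ℂ M.V :=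
  (E (k - 1)).map d

/-- A complex and the cone of the operator `D t` on it. -/
structure Cone (M : WM ι) (S : Set ι) (t : ι) (e i d : Module.End ℂ M.V)
    (E E' : ℤ → Submodule ℂ M.V) : Prop where
  w : M.IsW
  ee : ∀ v, e (e v) = 0
  ie : ∀ v, i (e v) = v - e (i v)
  eX : ∀ s v, e (M.X s v) = M.X s (e v)
  eD : ∀ s v, e (M.D s v) = M.D s (e v)
  iX : ∀ s v, i (M.X s v) = M.X s (i v)
  iD : ∀ s v, i (M.D s v) = M.D s (i v)
  dX : ∀ s ∈ S, ∀ v, d (M.X s v) = M.X s (d v)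
  dD : ∀ s v, d (M.D s v) = M.D s (d v)
  de : ∀ v, d (e v) = -e (d v)
  dd : ∀ v, d (d v) = 0
  iE : ∀ k, ∀ v ∈ E k, i v = 0
  dE : ∀ k, ∀ v ∈ E (k - 1), d v ∈ E k
  st : ∀ k, M.Stable (E k)
  eq : ∀ k, E' k = E k ⊔ (E (k - 1)).map e

theorem st_map {S : Set ι} {B : Submodule ℂ M.V} {T : Module.End ℂ M.V} (hB : StOn S M B)
    (hX : ∀ s ∈ S, ∀ v, T (M.X s v) = M.X s (T v)) (hD : ∀ s ∈ S, ∀ v, T (M.D s v) = M.D s (T v)) :
    StOn S M (B.map T) := by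
  rintro s hs _ ⟨v, hv, rfl⟩
  exact ⟨⟨_, (hB s hs v hv).1, hX s hs v⟩, ⟨_, (hB s hs v hv).2, hD s hs v⟩⟩

theorem st_ker {S : Set ι} {T : Module.End ℂ M.V}
    (hX : ∀ s ∈ S, ∀ v, T (M.X s v) = M.X s (T v)) (hD : ∀ s ∈ S, ∀ v, T (M.D s v) = M.D s (T v)) :
    StOn S M (LinearMap.ker T) := fun s hs v hv => by
  rw [LinearMap.mem_ker] at hv
  simp [hX s hs, hD s hs, hv]

theorem st_sup {S : Set ι} {A B : Submodule ℂ M.V} (hA : StOn S M A) (hB : StOn S M B) :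
    StOn S M (A ⊔ B) := fun s hs v hv => by
  obtain ⟨a, ha, b, hb, rfl⟩ := Submodule.mem_sup.1 hv
  rw [map_add, map_add]
  exact ⟨Submodule.add_mem_sup (hA s hs a ha).1 (hB s hs b hb).1,
    Submodule.add_mem_sup (hA s hs a ha).2 (hB s hs b hb).2⟩

theorem st_inf {S : Set ι} {A B : Submodule ℂ M.V} (hA : StOn S M A) (hB : StOn S M B) :
    StOn S M (A ⊓ B) := fun s hs v hv =>
  ⟨⟨(hA s hs v hv.1).1, (hB s hs v hv.2).1⟩, ⟨(hA s hs v hv.1).2, (hB s hs v hv.2).2⟩⟩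

namespace Cone

variable {S : Set ι} {t : ι} {e i d : Module.End ℂ M.V} {E E' : ℤ → Submodule ℂ M.V}
  (h : Cone M S t e i d E E')

include h

theorem d' (a b : M.V) : (d + e * M.D t) (a + e b) = d a + e (M.D t a - d b) := by
  simp only [LinearMap.add_apply, Module.End.mul_apply, map_add, map_sub, h.de, ← h.eD, h.ee]
  abel

omit h in
theorem d0 (a : M.V) : (d + e * M.D t) a = d a + e (M.D t a) := rfl

theorem isum {k m : ℤ} {a b : M.V} (ha : a ∈ E k) (hb : b ∈ E m) : i (a + e b) = b := by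
  rw [map_add, h.ie, h.iE k a ha, h.iE m b hb]; simp

theorem psum {k : ℤ} {a : M.V} (ha : a ∈ E k) (b : M.V) : (i * e) (a + e b) = a := by
  rw [Module.End.mul_apply, map_add, h.ee, add_zero, h.ie, h.iE k a ha]; simp

theorem memE {k : ℤ} {v : M.V} : v ∈ E' k ↔ ∃ a ∈ E k, ∃ b ∈ E (k - 1), a + e b = v := by
  rw [h.eq, Submodule.mem_sup]
  exact ⟨fun ⟨a, ha, _, ⟨b, hb, rfl⟩, e1⟩ => ⟨a, ha, b, hb, e1⟩,
    fun ⟨a, ha, b, hb, e1⟩ => ⟨a, ha, _, ⟨b, hb, rfl⟩, e1⟩⟩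

theorem memB {k : ℤ} {v : M.V} : v ∈ Bc E' (d + e * M.D t) k ↔
    ∃ a ∈ E (k - 1), ∃ b ∈ E (k - 1 - 1), d a + e (M.D t a - d b) = v := by
  constructor
  · rintro ⟨u, hu, rfl⟩
    obtain ⟨a, ha, b, hb, rfl⟩ := h.memE.1 hu
    exact ⟨a, ha, b, hb, (h.d' a b).symm⟩
  · rintro ⟨a, ha, b, hb, rfl⟩
    exact ⟨_, h.memE.2 ⟨a, ha, b, hb, rfl⟩, h.d' a b⟩

theorem memZ {k : ℤ} {v : M.V} : v ∈ Zc E' (d + e * M.D t) k ↔
    ∃ a ∈ E k, ∃ b ∈ E (k - 1), d a = 0 ∧ d b = M.D t a ∧ a + e b = v := by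
  constructor
  · rintro ⟨hu, h0⟩
    obtain ⟨a, ha, b, hb, rfl⟩ := h.memE.1 hu
    have h1 : d a + e (M.D t a - d b) = 0 := (h.d' a b).symm.trans h0
    have ha' : d a ∈ E (k + 1) := h.dE _ a (by simpa using ha)
    have h2 := h.isum ha' ((E k).sub_mem (h.st k t a ha).2 (h.dE k b hb))
    rw [h1, map_zero] at h2
    rw [← h2, map_zero, add_zero] at h1
    exact ⟨a, ha, b, hb, h1, (sub_eq_zero.1 h2.symm).symm, rfl⟩
  · rintro ⟨a, ha, b, hb, h1, h2, rfl⟩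
    exact ⟨h.memE.2 ⟨a, ha, b, hb, rfl⟩, by
      change (d + e * M.D t) (a + e b) = 0
      rw [h.d', h1, h2]; simp⟩

theorem tX (s : ι) (hs : s ∈ S \ {t}) (v : M.V) : M.D t (M.X s v) = M.X s (M.D t v) :=
  LinearMap.congr_fun (h.w.2.2.2 t s fun e1 => hs.2 e1.symm) v

theorem tD (s : ι) (v : M.V) : M.D t (M.D s v) = M.D s (M.D t v) :=
  LinearMap.congr_fun (h.w.2.1 t s) v

theorem d'X (s : ι) (hs : s ∈ S \ {t}) (v : M.V) :
    (d + e * M.D t) (M.X s v) = M.X s ((d + e * M.D t) v) := by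
  rw [d0, d0, h.dX s hs.1, h.tX s hs, h.eX, map_add]

theorem d'D (s : ι) (v : M.V) : (d + e * M.D t) (M.D s v) = M.D s ((d + e * M.D t) v) := by
  rw [d0, d0, h.dD, h.tD s, h.eD, map_add]

theorem stE (k : ℤ) : StOn (S \ {t}) M (E k) := fun s _ => h.st k s

theorem stE' (k : ℤ) : StOn (S \ {t}) M (E' k) := by
  rw [h.eq]
  exact st_sup (h.stE k) (st_map (h.stE _) (fun s _ => h.eX s) fun s _ => h.eD s)

theorem stZ (k : ℤ) : StOn (S \ {t}) M (Zc E d k) :=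
  st_inf (h.stE k) (st_ker (fun s hs => h.dX s hs.1) fun s _ => h.dD s)

theorem stB (k : ℤ) : StOn (S \ {t}) M (Bc E d k) :=
  st_map (h.stE _) (fun s hs => h.dX s hs.1) fun s _ => h.dD s

theorem stZ' (k : ℤ) : StOn (S \ {t}) M (Zc E' (d + e * M.D t) k) :=
  st_inf (h.stE' k) (st_ker h.d'X fun s _ => h.d'D s)

theorem stB' (k : ℤ) : StOn (S \ {t}) M (Bc E' (d + e * M.D t) k) :=
  st_map (h.stE' _) h.d'X fun s _ => h.d'D s

theorem stY (k : ℤ) : StOn (S \ {t}) M (Bc E' (d + e * M.D t) k ⊔ (Zc E d (k - 1)).map e) :=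
  st_sup (h.stB' k) (st_map (h.stZ _) (fun s _ => h.eX s) fun s _ => h.eD s)

theorem le1 (k : ℤ) : Bc E d k ⊔ (Zc E d k).map (M.D t) ≤ Zc E d k := by
  refine sup_le ?_ ?_
  · rintro _ ⟨b, hb, rfl⟩
    exact ⟨h.dE k b hb, h.dd b⟩
  · rintro _ ⟨a, ⟨ha, h0⟩, rfl⟩
    exact ⟨(h.st k t a ha).2, by
      change d (M.D t a) = 0
      rw [h.dD, show d a = 0 from h0, map_zero]⟩

theorem le2 (k : ℤ) :
    Bc E' (d + e * M.D t) k ⊔ (Zc E d (k - 1)).map e ≤ Zc E' (d + e * M.D t) k := by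
  refine sup_le (fun v hv => ?_) ?_
  · obtain ⟨a, ha, b, hb, rfl⟩ := h.memB.1 hv
    exact h.memZ.2 ⟨_, h.dE k a ha, _, (E _).sub_mem (h.st _ t a ha).2 (h.dE _ b hb), h.dd a,
      by rw [map_sub, h.dd, h.dD, sub_zero], rfl⟩
  · rintro _ ⟨z, ⟨hz, h0⟩, rfl⟩
    exact h.memZ.2 ⟨0, (E k).zero_mem, z, hz, map_zero _, by rw [map_zero]; exact h0, zero_add _⟩

theorem iso1 (k : ℤ) : PIso (S \ {t}) M (Bc E d (k - 1) ⊔ (Zc E d (k - 1)).map (M.D t))
    (Zc E d (k - 1)) M (Bc E' (d + e * M.D t) k)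
    (Bc E' (d + e * M.D t) k ⊔ (Zc E d (k - 1)).map e) := by
  refine ⟨e, h.le1 _, st_sup (h.stB _) (st_map (h.stZ _) h.tX fun s _ => h.tD s), h.stZ _,
    le_sup_left, h.stB' k, h.stY k, fun z hz => Submodule.mem_sup_right ⟨z, hz, rfl⟩,
    fun z hz => ⟨fun hv => ?_, fun hv => ?_⟩, (sup_comm _ _).le,
    fun s _ z _ => by simp [h.eX, h.eD]⟩
  · obtain ⟨a, ha, b, hb, e1⟩ := h.memB.1 hv
    have h2 := h.isum (h.dE k a ha) ((E _).sub_mem (h.st _ t a ha).2 (h.dE _ b hb))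
    have h3 := h.psum (h.dE k a ha) (M.D t a - d b)
    rw [e1, h.ie, h.iE _ z hz.1, map_zero, sub_zero] at h2
    rw [e1, Module.End.mul_apply, h.ee, map_zero] at h3
    have m1 : d b ∈ Bc E d (k - 1) := ⟨b, hb, rfl⟩
    have m2 : M.D t a ∈ (Zc E d (k - 1)).map (M.D t) := ⟨a, ⟨ha, h3.symm⟩, rfl⟩
    rw [h2]
    exact Submodule.sub_mem _ (Submodule.mem_sup_right m2) (Submodule.mem_sup_left m1)
  · obtain ⟨_, ⟨b, hb, rfl⟩, _, ⟨a, ⟨ha, h0⟩, rfl⟩, rfl⟩ := Submodule.mem_sup.1 hv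
    exact h.memB.2 ⟨a, ha, -b, (E _).neg_mem hb, by
      rw [show d a = 0 from h0, zero_add, map_neg, sub_neg_eq_add, add_comm]⟩

theorem iso2 (k : ℤ) : PIso (S \ {t}) M (Bc E' (d + e * M.D t) k ⊔ (Zc E d (k - 1)).map e)
    (Zc E' (d + e * M.D t) k) M (Bc E d k) (Zc E d k ⊓ (Bc E d k).comap (M.D t)) := by
  refine ⟨i * e, h.le2 k, h.stY k, h.stZ' k, le_inf (le_sup_left.trans (h.le1 k)) ?_, h.stB k,
    st_inf (h.stZ k) fun s hs v hv => ?_, fun z hz => ?_, fun z hz => ⟨fun hv => ?_, fun hv => ?_⟩,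
    ?_, fun s _ z _ => by simp [h.eX, h.eD, h.iX, h.iD]⟩
  · rintro _ ⟨b, hb, rfl⟩
    exact ⟨_, (h.st _ t b hb).2, h.dD t b⟩
  · rw [Submodule.mem_comap, Submodule.mem_comap, h.tX s hs, h.tD s]
    exact h.stB k s hs _ hv
  · obtain ⟨a, ha, b, hb, h1, h2, rfl⟩ := h.memZ.1 hz
    rw [h.psum ha]
    exact ⟨⟨ha, h1⟩, b, hb, h2⟩
  · obtain ⟨a, ha, b, hb, h1, h2, rfl⟩ := h.memZ.1 hz
    rw [h.psum ha] at hv
    obtain ⟨c, hc, rfl⟩ := hv
    have e1 : d c + e b = (d c + e (M.D t c - d 0)) + e (b - M.D t c) := by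
      simp only [map_zero, sub_zero, map_sub]; abel
    rw [e1]
    refine Submodule.add_mem_sup (h.memB.2 ⟨c, hc, 0, (E _).zero_mem, rfl⟩)
      ⟨_, ⟨(E _).sub_mem hb (h.st _ t c hc).2, ?_⟩, rfl⟩
    change d (b - M.D t c) = 0
    rw [map_sub, h2, h.dD, sub_self]
  · obtain ⟨u, hu, _, ⟨y, _, rfl⟩, rfl⟩ := Submodule.mem_sup.1 hv
    obtain ⟨a, ha, b, hb, rfl⟩ := h.memB.1 hu
    rw [add_assoc, ← map_add, h.psum (h.dE k a ha)]
    exact ⟨a, ha, rfl⟩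
  · rintro a ⟨⟨ha, h1⟩, b, hb, h2⟩
    exact Submodule.mem_sup_left ⟨_, h.memZ.2 ⟨a, ha, b, hb, h1, h2, rfl⟩, h.psum ha b⟩

end Cone

end Cone

variable {τ σ : Type} [Fintype τ] [LinearOrder τ] (N : WM (τ ⊕ σ))

/-- Forms with all the operators. -/
@[reducible] noncomputable def Nh : WM (τ ⊕ σ) where
  V := Finset τ → N.V
  X s := pw (Finset τ) (N.X s)
  D s := pw (Finset τ) (N.D s)

/-- Forms of degree `k` in the variables of `J`. -/
def EJ (J : Finset τ) (k : ℤ) : Submodule ℂ (Nh N).V :=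
  Submodule.pi {I : Finset τ | ¬(I ⊆ J ∧ (I.card : ℤ) = k)} fun _ => ⊥

/-- The differential in the variables of `J`. -/
noncomputable def dJ (J : Finset τ) : Module.End ℂ (Nh N).V :=
  ∑ j ∈ J, act N.V (eps j) * pw (Finset τ) (N.D (Sum.inl j))

/-- The remaining variables. -/
def SJ (σ : Type) (J : Finset τ) : Set (τ ⊕ σ) := {s | ∀ j ∈ J, s ≠ Sum.inl j}

variable {N}

omit [Fintype τ] [LinearOrder τ] in
theorem isW (h : N.IsW) : (Nh N).IsW :=
  ⟨fun s t => by simp only [← map_mul, h.1 s t], fun s t => by simp only [← map_mul, h.2.1 s t],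
    fun s => by simp only [← map_mul, ← map_sub, h.2.2.1 s, map_one],
    fun s t hst => by simp only [← map_mul, h.2.2.2 s t hst]⟩

omit [Fintype τ] [LinearOrder τ] in
theorem mem_EJ {J : Finset τ} {k : ℤ} {v : Finset τ → N.V} :
    v ∈ EJ N J k ↔ ∀ I, v I ≠ 0 → I ⊆ J ∧ (I.card : ℤ) = k :=
  forall_congr' fun _ => ⟨fun h h0 => by_contra fun h1 => h0 (h h1),
    fun h h1 => by_contra fun h0 => h1 (h h0)⟩

omit [Fintype τ] [LinearOrder τ] in
theorem pw_EJ {J : Finset τ} {k : ℤ} {v : Finset τ → N.V} (hv : v ∈ EJ N J k)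
    (T : Module.End ℂ N.V) : pw (Finset τ) T v ∈ EJ N J k :=
  mem_EJ.2 fun I h => mem_EJ.1 hv I fun h0 => h (by rw [pw_apply, h0, map_zero])

omit [Fintype τ] [LinearOrder τ] in
theorem EJ_bot {J : Finset τ} {k : ℤ} (h : k < 0 ∨ (J.card : ℤ) < k) : EJ N J k = ⊥ :=
  (Submodule.eq_bot_iff _).2 fun v hv => funext fun I => by_contra fun h0 => by
    obtain ⟨h1, h2⟩ := mem_EJ.1 hv I h0
    have := Finset.card_le_card h1
    omega

theorem act_ne {A : Matrix (Finset τ) (Finset τ) ℂ} {v : Finset τ → N.V} {I : Finset τ}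
    (h : act N.V A v I ≠ 0) : ∃ K, A I K ≠ 0 ∧ v K ≠ 0 := by
  rw [act_apply] at h
  obtain ⟨K, _, hK⟩ := Finset.exists_ne_zero_of_sum_ne_zero h
  exact ⟨K, left_ne_zero_of_smul hK, right_ne_zero_of_smul hK⟩

omit [Fintype τ] in
theorem eps_ne {j : τ} {I K : Finset τ} (h : eps j I K ≠ 0) : j ∈ I ∧ K = I.erase j :=
  by_contra fun h1 => h (if_neg h1)

theorem eps_EJ {J J' : Finset τ} (hJ : J ⊆ J') {j : τ} (hj : j ∈ J') {k : ℤ} {v : Finset τ → N.V}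
    (hv : v ∈ EJ N J (k - 1)) : act N.V (eps j) v ∈ EJ N J' k := mem_EJ.2 fun I h => by
  obtain ⟨K, h1, h2⟩ := act_ne h
  obtain ⟨h3, rfl⟩ := eps_ne h1
  obtain ⟨h4, h5⟩ := mem_EJ.1 hv _ h2
  have := Finset.card_erase_add_one h3
  refine ⟨fun x hx => ?_, by omega⟩
  by_cases e : x = j
  · exact e ▸ hj
  · exact hJ (h4 (Finset.mem_erase.2 ⟨e, hx⟩))

theorem iot_EJ {J : Finset τ} {j : τ} {k : ℤ} {v : Finset τ → N.V}
    (hv : v ∈ EJ N (insert j J) k) : act N.V (iot j) v ∈ EJ N J (k - 1) := mem_EJ.2 fun I h => by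
  obtain ⟨K, h1, h2⟩ := act_ne h
  obtain ⟨h3, rfl⟩ := eps_ne (j := j) (I := K) (K := I) h1
  obtain ⟨h4, h5⟩ := mem_EJ.1 hv _ h2
  have := Finset.card_erase_add_one h3
  exact ⟨Finset.subset_insert_iff.1 h4, by omega⟩

theorem dJ_comm (J : Finset τ) (T : Module.End ℂ N.V)
    (h : ∀ j ∈ J, N.D (Sum.inl j) * T = T * N.D (Sum.inl j)) (v : Finset τ → N.V) :
    dJ N J (pw (Finset τ) T v) = pw (Finset τ) T (dJ N J v) := by
  change (dJ N J * pw (Finset τ) T) v = (pw (Finset τ) T * dJ N J) v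
  rw [dJ, Finset.sum_mul, Finset.mul_sum, Finset.sum_congr rfl fun j hj => ?_]
  rw [mul_assoc, ← map_mul, h j hj, map_mul, ← mul_assoc, act_mul_pw, mul_assoc]

theorem dJ_EJ (J : Finset τ) (k : ℤ) (v : Finset τ → N.V) (hv : v ∈ EJ N J (k - 1)) :
    dJ N J v ∈ EJ N J k := by
  rw [dJ, LinearMap.sum_apply]
  exact Submodule.sum_mem _ fun j hj => eps_EJ le_rfl hj (pw_EJ hv _)

theorem dJ_eps (hC : S_CLIF) (J : Finset τ) (t : τ) (v : Finset τ → N.V) :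
    dJ N J (act N.V (eps t) v) = -act N.V (eps t) (dJ N J v) := by
  change (dJ N J * act N.V (eps t)) v = (-(act N.V (eps t) * dJ N J)) v
  rw [dJ, Finset.sum_mul, Finset.mul_sum, ← Finset.sum_neg_distrib,
    Finset.sum_congr rfl fun j _ => ?_]
  rw [mul_assoc, ← act_mul_pw, ← mul_assoc, ← mul_assoc, ← map_mul, ← map_mul,
    eq_neg_of_add_eq_zero_left ((hC τ).1 j t).1, map_neg]
  exact LinearMap.ext fun _ => rfl

theorem eps_sq (hC : S_CLIF) (t : τ) (v : Finset τ → N.V) :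
    act N.V (eps t) (act N.V (eps t) v) = 0 := by
  have h := ((hC τ).1 t t).1
  rw [← two_smul ℂ, smul_eq_zero_iff_right two_ne_zero] at h
  rw [← Module.End.mul_apply, ← map_mul, h, map_zero, LinearMap.zero_apply]

theorem dJ_insert {J : Finset τ} {t : τ} (ht : t ∉ J) :
    dJ N (insert t J) = dJ N J + act N.V (eps t) * (Nh N).D (Sum.inl t) := by
  rw [dJ, Finset.sum_insert ht, add_comm]; rfl

theorem act_pw (A : Matrix (Finset τ) (Finset τ) ℂ) (T : Module.End ℂ N.V) (v : Finset τ → N.V) :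
    act N.V A (pw (Finset τ) T v) = pw (Finset τ) T (act N.V A v) :=
  LinearMap.congr_fun (act_mul_pw A T) v

theorem dJ_sq (hC : S_CLIF) (h : N.IsW) (J : Finset τ) (v : Finset τ → N.V) :
    dJ N J (dJ N J v) = 0 := by
  induction J using Finset.induction_on with
  | empty => simp [dJ]
  | insert t J ht ih =>
    simp only [dJ_insert ht, LinearMap.add_apply, Module.End.mul_apply, map_add, ih, dJ_eps hC,
      dJ_comm J _ fun j _ => h.2.1 _ (Sum.inl t), ← act_pw, eps_sq hC]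
    simp

theorem cone (hC : S_CLIF) (h : N.IsW) {J : Finset τ} {t : τ} (ht : t ∉ J) :
    Cone (Nh N) (SJ σ J) (Sum.inl t) (act N.V (eps t)) (act N.V (iot t)) (dJ N J) (EJ N J)
      (EJ N (insert t J)) := by
  have ie : ∀ v, act N.V (iot t) (act N.V (eps t) v) = v - act N.V (eps t) (act N.V (iot t) v) :=
    fun v => by
      have h1 := congrArg (fun A => act N.V A v) ((hC τ).1 t t).2.2
      simp only [if_true, map_add, map_mul, map_one, LinearMap.add_apply, Module.End.mul_apply,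
        Module.End.one_apply] at h1
      exact eq_sub_of_add_eq' h1
  refine ⟨isW h, eps_sq hC t, ie, fun s => act_pw _ _, fun s => act_pw _ _, fun s => act_pw _ _,
    fun s => act_pw _ _, fun s hs => dJ_comm J _ fun j hj => h.2.2.2 _ _ (hs j hj).symm,
    fun s => dJ_comm J _ fun j _ => h.2.1 _ _, dJ_eps hC J t, dJ_sq hC h J,
    fun k v hv => funext fun I => by_contra fun h0 => ?_, dJ_EJ J,
    fun k s v hv => ⟨pw_EJ hv _, pw_EJ hv _⟩, fun k => le_antisymm (fun v hv => ?_) (sup_le ?_ ?_)⟩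
  · obtain ⟨K, h1, h2⟩ := act_ne h0
    exact ht ((mem_EJ.1 hv _ h2).1 (eps_ne (j := t) (I := K) (K := I) h1).1)
  · have h1 := iot_EJ (eps_EJ le_rfl (Finset.mem_insert_self t J) (k := k + 1) (by simpa using hv))
    rw [add_sub_cancel_right, ie] at h1
    rw [← sub_add_cancel v (act N.V (eps t) (act N.V (iot t) v))]
    exact Submodule.add_mem_sup h1 ⟨_, iot_EJ hv, rfl⟩
  · exact fun v hv => mem_EJ.2 fun I h0 =>
      ⟨(mem_EJ.1 hv I h0).1.trans (Finset.subset_insert _ _), (mem_EJ.1 hv I h0).2⟩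
  · rintro _ ⟨v, hv, rfl⟩
    exact eps_EJ (Finset.subset_insert _ _) (Finset.mem_insert_self _ _) hv

omit [Fintype τ] in
theorem SJ_insert (J : Finset τ) (t : τ) : SJ σ (insert t J) = SJ σ J \ {Sum.inl t} := by
  ext s; simp [SJ, and_comm]

theorem bot_BZ {J : Finset τ} {k : ℤ} (h : k < 0 ∨ (J.card : ℤ) < k) :
    Bc (EJ N J) (dJ N J) k = ⊥ ∧ Zc (EJ N J) (dJ N J) k = ⊥ := by
  refine ⟨le_bot_iff.1 ?_, by rw [Zc, EJ_bot h, bot_inf_eq]⟩
  rintro _ ⟨v, hv, rfl⟩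
  exact EJ_bot (N := N) h ▸ dJ_EJ J k v hv

theorem base : PIso Set.univ N ⊥ ⊤ (Nh N) (Bc (EJ N ∅) (dJ N ∅) 0) (Zc (EJ N ∅) (dJ N ∅) 0) := by
  have hB : Bc (EJ N ∅) (dJ N ∅) 0 = ⊥ := by simp [Bc, dJ]
  have hZ : Zc (EJ N ∅) (dJ N ∅) 0 = EJ N ∅ 0 := by simp [Zc, dJ]
  rw [hB, hZ]
  refine ⟨LinearMap.single ℂ (fun _ : Finset τ => N.V) ∅, bot_le, fun s _ v hv => by simp_all,
    fun s _ v _ => ⟨trivial, trivial⟩, bot_le, fun s _ v hv => by simp_all,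
    fun s _ v hv => ⟨pw_EJ hv _, pw_EJ hv _⟩, fun z _ => mem_EJ.2 fun I h0 => ?_,
    fun z _ => by simp, fun v hv => Submodule.mem_sup_left ⟨v ∅, trivial, funext fun I => ?_⟩,
    fun s _ z _ => ⟨?_, ?_⟩⟩
  · obtain rfl : I = ∅ := by_contra fun e => h0 (by simp [e])
    simp
  · by_cases e : I = ∅
    · simp [e]
    · have : v I = 0 := by_contra fun h0 => e (Finset.subset_empty.1 (mem_EJ.1 hv I h0).1)
      simp [e, this]
  all_goals
    refine sub_eq_zero.2 (funext fun I => ?_)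
    by_cases e : I = ∅ <;> simp [e, pw_apply]

theorem shift (n : ℕ) (x : ℤ) (C : ℤ → ℤ) (h1 : C (-1) = 0) (h2 : C n = 0) :
    ∑ k ∈ Finset.range (n + 1), (-1) ^ k * C (k - 1) + x =
      x - ∑ k ∈ Finset.range (n + 1), (-1) ^ k * C k := by
  rw [Finset.sum_range_succ', Finset.sum_range_succ _ n, h2]
  simp [h1, pow_succ]
  ring

theorem main [Fintype σ] (hPISO : S_PISO) (hHSUB : S_HSUB) (hRED : S_RED) (hEXT : S_EXT)
    (hIADD : S_IADD) (hPUSH : S_PUSH) (hC : S_CLIF) (hN : N.Holo) (J : Finset τ) :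
    (∀ k, Hol (SJ σ J) (Nh N) (Bc (EJ N J) (dJ N J) k) (Zc (EJ N J) (dJ N J) k)) ∧
    ∀ φ : Fn σ, Additive φ → ∀ l : List (τ ⊕ σ), l.Nodup → (∀ s ∈ l, s ∉ Set.range Sum.inr) →
      Set.range Sum.inr ∪ {s | s ∈ l} = SJ σ J →
      ∑ k ∈ Finset.range (Fintype.card τ + 1), (-1) ^ k * iter φ ((Nh N).res Sum.inr)
        (l.map (Nh N).D) (Bc (M := Nh N) (EJ N J) (dJ N J) k) (Zc (M := Nh N) (EJ N J) (dJ N J) k) =
      push Sum.inr φ N ⊥ ⊤ := by
  have hW := isW hN.1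
  have hb : ∀ S, Hol S (Nh N) ⊥ ⊥ := fun S =>
    (hHSUB _ S).2.2.1 _ _ hW fun s _ v hv => by simp_all
  have h0 : ∀ φ : Fn σ, Additive φ → ∀ l : List (τ ⊕ σ), l.Nodup →
      (∀ s ∈ l, s ∉ Set.range Sum.inr) → iter φ ((Nh N).res Sum.inr) (l.map (Nh N).D) ⊥ ⊥ = 0 :=
    fun φ hφ l h1 h2 => by
      have := (hIADD _ _ _ φ Sum.inr_injective hφ l h1 h2).1 (Nh N) ⊥ ⊥ ⊥ (hb _) le_rfl le_rfl
        (hb _).2.2.1
      omega
  induction J using Finset.induction_on with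
  | empty =>
    have hS : SJ σ (∅ : Finset τ) = Set.univ := by simp [SJ]
    rw [hS]
    refine ⟨fun k => ?_, fun φ hφ l h1 h2 h3 => ?_⟩
    · by_cases hk : k = 0
      · exact hk ▸ (hHSUB _ _).2.1 N _ _ _ _ _ hN hW base
      · obtain ⟨e1, e2⟩ := bot_BZ (N := N) (J := ∅) (k := k) (by simp; omega)
        rw [e1, e2]; exact hb _
    · rw [Finset.sum_eq_single 0 (fun k _ hk => ?_) (by simp),
        (hPUSH _ _ _ Sum.inr_injective).2.1 φ l hφ h1 (fun s => ⟨h2 s, fun hs =>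
          (h3.ge (Set.mem_univ s)).resolve_left hs⟩) N _ _ hN,
        (hIADD _ _ _ φ Sum.inr_injective hφ l h1 h2).2 N _ _ _ _ _ (h3 ▸ hN) hW (h3 ▸ base)]
      · simp
      · obtain ⟨e1, e2⟩ := bot_BZ (N := N) (J := ∅) (k := k) (by simp; omega)
        rw [e1, e2, h0 φ hφ l h1 h2, mul_zero]
  | insert t J ht ih =>
    have c := cone hC hN.1 ht
    have htS : Sum.inl t ∈ SJ σ J := fun j hj e => ht (Sum.inl_injective e ▸ hj)
    have r := fun k => hRED _ _ _ _ _ (ih.1 k) _ htS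
    have a1 := fun k => (hHSUB _ _).2.1 _ _ _ _ _ _ (r (k - 1)).2 hW (c.iso1 k)
    have a2 := fun k => (hHSUB _ _).2.1 _ _ _ _ _ _ (r k).1 hW
      ((hPISO _ _).2.1 _ _ _ _ _ _ (c.iso2 k))
    have a3 := fun k => hEXT _ _ _ _ _ _ (a1 k) (a2 k)
    rw [SJ_insert, dJ_insert ht]
    refine ⟨a3, fun φ hφ l h1 h2 h3 => ?_⟩
    have htl : Sum.inl t ∉ l := fun e => (h3.le (Or.inr e)).2 rfl
    have I := hIADD _ _ _ φ Sum.inr_injective hφ l h1 h2
    rw [h3] at I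
    rw [← ih.2 φ hφ (Sum.inl t :: l) (List.nodup_cons.2 ⟨htl, h1⟩) (by simpa using h2) (by
      rw [← Set.insert_sdiff_self_of_mem htS, ← h3]; ext s; simp [or_left_comm]),
      Finset.sum_congr rfl fun k _ => by
        rw [I.1 _ _ _ _ (a3 k) le_sup_left (c.le2 k) (c.stY k),
          ← I.2 _ _ _ _ _ _ (r (k - 1)).2 hW (c.iso1 k), I.2 _ _ _ _ _ _ (a2 k) hW (c.iso2 k)]]
    simp only [List.map_cons, iter, mul_add, mul_sub, Finset.sum_add_distrib,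
      Finset.sum_sub_distrib]
    have hc : J.card < Fintype.card τ := Finset.card_lt_univ_of_notMem ht
    obtain ⟨e1, e2⟩ := bot_BZ (N := N) (J := J) (k := -1) (by simp)
    obtain ⟨e3, e4⟩ := bot_BZ (N := N) (J := J) (k := Fintype.card τ) (by omega)
    refine shift _ _ (fun k : ℤ => iter φ ((Nh N).res Sum.inr) (l.map (Nh N).D)
      (Bc (M := Nh N) (EJ N J) (dJ N J) k ⊔
        (Zc (M := Nh N) (EJ N J) (dJ N J) k).map ((Nh N).D (Sum.inl t)))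
      (Zc (M := Nh N) (EJ N J) (dJ N J) k)) ?_ ?_
    · simp only [e1, e2, Submodule.map_bot, bot_sup_eq]
      exact h0 φ hφ l h1 h2
    · simp only [e3, e4, Submodule.map_bot, bot_sup_eq]
      exact h0 φ hφ l h1 h2

omit [LinearOrder τ] in
theorem deg_eq (k : ℕ) : degForms N k = EJ N Finset.univ k := by
  simp [degForms, EJ]

theorem range_eq (hd : dR N = dJ N Finset.univ) (k : ℕ) :
    degForms N k ⊓ LinearMap.range (dR N) = Bc (EJ N Finset.univ) (dJ N Finset.univ) k := by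
  rw [deg_eq]
  refine le_antisymm ?_ ?_
  · rintro _ ⟨hv, u, rfl⟩
    have hu : (fun I => if (I.card : ℤ) = k - 1 then u I else 0) ∈ EJ N Finset.univ (k - 1) :=
      mem_EJ.2 fun I h0 => ⟨Finset.subset_univ _, by_contra fun e => h0 (if_neg e)⟩
    refine ⟨_, hu, funext fun I => ?_⟩
    by_cases e : (I.card : ℤ) = k
    · rw [← hd]
      simp only [dR, LinearMap.pi_apply, LinearMap.sum_apply, LinearMap.smul_apply,
        LinearMap.comp_apply, LinearMap.proj_apply]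
      refine Finset.sum_congr rfl fun j hj => ?_
      have := Finset.card_erase_add_one hj
      rw [if_pos (by omega)]
    · exact (dJ_EJ _ _ _ hu I fun h => e h.2).trans (hv I fun h => e h.2).symm
  · rintro _ ⟨u, hu, rfl⟩
    exact ⟨dJ_EJ _ _ _ hu, u, by rw [hd]⟩

end KosAux

open KosAux in
theorem p_KOS (hPISO : S_PISO) (hHSUB : S_HSUB) (hRED : S_RED) (hEXT : S_EXT) (hIADD : S_IADD) (hPUSH : S_PUSH) (hCLIF : S_CLIF) :
    S_KOS := by
  intro τ σ _ _ _ N hN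
  have hd : dR N = dJ N Finset.univ := (hCLIF τ).2.2.2.2 σ N
  have hZ : ∀ k : ℕ, degForms N k ⊓ LinearMap.ker (dR N) =
      Zc (EJ N Finset.univ) (dJ N Finset.univ) k := fun k => by rw [deg_eq, hd]; rfl
  have hS : SJ σ (Finset.univ : Finset τ) = Set.range Sum.inr := by
    ext s; cases s <;> simp [SJ]
  obtain ⟨h1, h2⟩ := main hPISO hHSUB hRED hEXT hIADD hPUSH hCLIF hN Finset.univ
  refine ⟨fun k => ?_, fun φ hφ => ?_⟩
  · rw [range_eq hd, hZ]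
    refine ((hHSUB _ Set.univ).2.2.2.1 σ Sum.inr Set.univ (Nh N) _ _ Sum.inr_injective
      (isW hN.1)).1 ?_
    rw [Set.image_univ, ← hS]
    exact h1 k
  · rw [← h2 φ hφ [] List.nodup_nil (by simp) (by simp [hS]), euler]
    refine Finset.sum_congr rfl fun k _ => ?_
    rw [range_eq hd, hZ]
    rfl

end Pool.Agent.P.MP_52ab5a_al
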