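import Pool.Agent.P.MP_52ab5a_al.B.Iface
import Pool.Agent.P.MP_52ab5a_al.A.Iface
import Pool.Agent.P.MP_52ab5a_al.K.Iface

/-! Step KZ of the open orbit project. -/

namespace Pool.Agent.P.MP_52ab5a_al

open MvPolynomial WM

theorem p_KZ (hDIM : S_DIM) (hPUSH : S_PUSH) (hRESM : S_RESM) (hKAP : S_KAP) (hCLIF : S_CLIF) (hKOS : S_KOS) (hACY : S_ACY) :
    S_KZ := by
  intro σ _ N F w Y hN hF hD hE hY1 hY2 hlat
  classical
  let _ : LinearOrder σ := LinearOrder.lift' (Fintype.equivFin σ) (Fintype.equivFin σ).injective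
  have hacy := hACY σ N F w Y hN.1 hF hD hE hY1 hY2 hlat
  have hK : Hol Set.univ (N.kt w Y) ⊥ ⊤ := (hKAP σ w Y).2.1 N ⊥ ⊤ hN
  let e : σ ⊕ Empty ≃ σ := Equiv.sumEmpty σ Empty
  have hM : ((N.kt w Y).res e).Holo := (hRESM σ (σ ⊕ Empty) e).2.2.2.1 _ _ _ hK
  have hdim : Additive (WM.dim : Fn Empty) := (hDIM Empty).1
  have h1 := (hKOS σ Empty ((N.kt w Y).res e) hM).2 WM.dim hdim
  have hd : dR ((N.kt w Y).res e) =
      ∑ s, act N.V (eps s) * pw (Finset σ) ((N.kt w Y).D s) :=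
    (hCLIF σ).2.2.2.2 Empty ((N.kt w Y).res e)
  have h0 : euler (WM.dim : Fn Empty) ((N.kt w Y).res e) = 0 := by
    unfold euler
    refine Finset.sum_eq_zero fun k _ => ?_
    rw [(hDIM Empty).2.2.1 _ _ _ (inf_le_inf_left _ (by rw [hd]; exact hacy)), mul_zero]
  have hinj : Function.Injective (Sum.inr : Empty → σ ⊕ Empty) := Sum.inr_injective
  have h2 := (hPUSH Empty (σ ⊕ Empty) Sum.inr hinj).2.2.1 WM.dim σ e hdim e.injective
    (N.kt w Y) ⊥ ⊤ hK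
  have h3 := (hPUSH (σ ⊕ Empty) σ e e.injective).2.2.2.1
    (push Sum.inr (WM.dim : Fn Empty)) e.surjective (N.kt w Y) ⊥ ⊤
  have h4 : (e ∘ Sum.inr : Empty → σ) = Empty.elim := funext fun x => x.elim
  unfold kap
  rw [← h4, h2, h3, ← h1, h0]

end Pool.Agent.P.MP_52ab5a_al
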