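import Pool.Agent.P.MP_52ab5a_al.B.Iface

/-! Step LAG of the open orbit project. -/

namespace Pool.Agent.P.MP_52ab5a_al

open MvPolynomial WM

namespace LagAux

variable {ι : Type} [Fintype ι]

/-- The linear form with coefficients `c` vanishing at `Y`. -/
noncomputable def lin (Y : ι → ℂ) : (ι → ℂ) →ₗ[ℂ] MvPolynomial ι ℂ :=
  Fintype.linearCombination ℂ fun u => X u - C (Y u)

theorem lin_apply (Y c : ι → ℂ) : lin Y c = ∑ u, c u • (X u - C (Y u)) := by
  simp [lin, Fintype.linearCombination_apply]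

theorem eval_lin (Y c : ι → ℂ) : eval Y (lin Y c) = 0 := by
  simp [lin_apply, map_sum]

theorem lin_single [DecidableEq ι] (Y : ι → ℂ) (v : ι) :
    lin Y (Pi.single v 1) = X v - C (Y v) := by
  simp [lin]

theorem pderiv_lin (Y c : ι → ℂ) (v : ι) : eval Y (pderiv v (lin Y c)) = c v := by
  classical
  rw [lin_apply, map_sum, map_sum, Finset.sum_eq_single v]
  · simp
  · intro u _ hu
    simp [pderiv_X, hu]
  · simp

theorem taylor (Y : ι → ℂ) (f : MvPolynomial ι ℂ) :
    f - C (eval Y f) - lin Y (fun u => eval Y (pderiv u f)) ∈ RingHom.ker (eval Y) ^ 2 := by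
  classical
  induction f using MvPolynomial.induction_on with
  | C a =>
    have : (fun u : ι => eval Y (pderiv u (C a : MvPolynomial ι ℂ))) = 0 := by
      funext u; simp
    rw [this]; simp
  | add p q hp hq =>
    have : (fun u : ι => eval Y (pderiv u (p + q))) =
        (fun u : ι => eval Y (pderiv u p)) + fun u : ι => eval Y (pderiv u q) := by
      funext u; simp
    rw [this, map_add, map_add, map_add]
    convert Ideal.add_mem _ hp hq using 1
    ring
  | mul_X p s hp =>
    have : (fun u : ι => eval Y (pderiv u (p * X s))) =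
        Y s • (fun u : ι => eval Y (pderiv u p)) + eval Y p • Pi.single s 1 := by
      funext u
      by_cases h : s = u
      · subst h; simp [pderiv_X]; ring
      · simp [pderiv_X, h, Ne.symm h, mul_comm]
    rw [this, map_add, map_smul, map_smul, lin_single]
    have h1 : lin Y (fun u : ι => eval Y (pderiv u p)) * (X s - C (Y s)) ∈
        RingHom.ker (eval Y) ^ 2 := by
      rw [pow_two]
      refine Ideal.mul_mem_mul (eval_lin _ _) ?_
      simp [RingHom.mem_ker]
    convert Ideal.add_mem _ (Ideal.mul_mem_right (X s) _ hp) h1 using 1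
    simp only [smul_eq_C_mul, map_mul, eval_X]
    ring

variable {σ : Type} [Fintype σ]

/-- The infinitesimal action at the point `Y`. -/
noncomputable def hvL (Y : σ ⊕ σ → ℂ) : Matrix σ σ ℂ →ₗ[ℂ] (σ ⊕ σ → ℂ) where
  toFun ξ := hv ξ Y
  map_add' ξ η := by
    funext u
    rcases u with s | s
    · simp [hv, Matrix.add_mulVec]
    · simp [hv, Matrix.add_mulVec, Matrix.transpose_add, add_comm]
  map_smul' c ξ := by
    funext u
    rcases u with s | s
    · simp [hv, Matrix.smul_mulVec]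
    · simp [hv, Matrix.smul_mulVec, Matrix.transpose_smul]

theorem om_swap (v w : σ ⊕ σ → ℂ) : om v w = -om w v := by
  simp only [om, ← Finset.sum_neg_distrib]
  exact Finset.sum_congr rfl fun s _ => by ring

theorem om_sum {n : ℕ} (a : Fin n → ℂ) (b : Fin n → σ ⊕ σ → ℂ) (w : σ ⊕ σ → ℂ) :
    om (∑ j, a j • b j) w = ∑ j, a j * om (b j) w := by
  simp only [om, Finset.sum_apply, Pi.smul_apply, smul_eq_mul, Finset.mul_sum, Finset.sum_mul,
    ← Finset.sum_sub_distrib]
  rw [Finset.sum_comm]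
  exact Finset.sum_congr rfl fun j _ => Finset.sum_congr rfl fun s _ => by ring

theorem exists_om (c : σ ⊕ σ → ℂ) : ∃ τ, ∀ w, om τ w = ∑ u, c u * w u := by
  refine ⟨Sum.elim (fun s => c (Sum.inr s)) fun s => -c (Sum.inl s), fun w => ?_⟩
  simp only [om, Sum.elim_inl, Sum.elim_inr, Fintype.sum_sum_type, ← Finset.sum_add_distrib]
  exact Finset.sum_congr rfl fun s _ => by ring

theorem apply_eq [DecidableEq ι] (l : (ι → ℂ) →ₗ[ℂ] ℂ) (w : ι → ℂ) :
    ∑ u, w u * l (Pi.single u 1) = l w := by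
  conv_rhs => rw [← Finset.univ_sum_single w, map_sum]
  refine Finset.sum_congr rfl fun u _ => ?_
  rw [← smul_eq_mul, ← map_smul, ← Pi.single_smul, smul_eq_mul, mul_one]

end LagAux

open LagAux in
theorem p_LAG (hVF : S_VF) :
    S_LAG := by
  intro σ _ g Y _ hR
  classical
  have hVF6 := (hVF σ (reg 1)).2.2.2.2.2
  let T : Submodule ℂ (σ ⊕ σ → ℂ) := g.map (hvL Y)
  let b := Module.finBasis ℂ T
  have hb : ∀ j, ∃ ξ ∈ g, hv ξ Y = (b j : σ ⊕ σ → ℂ) := fun j => (b j).2
  choose ξ hξ hξb using hb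
  have hl : ∀ j, ∃ l : (σ ⊕ σ → ℂ) →ₗ[ℂ] ℂ, l.comp T.subtype = b.coord j :=
    fun j => LinearMap.exists_extend _
  choose l hl using hl
  have hlT : ∀ j (w : T), l j w = b.repr w j := fun j w => DFunLike.congr_fun (hl j) w
  have hsum : ∀ w : T, (w : σ ⊕ σ → ℂ) = ∑ j, b.repr w j • hv (ξ j) Y := by
    intro w
    have h := congrArg T.subtype (b.sum_repr w)
    rw [map_sum] at h
    simp only [map_smul, Submodule.subtype_apply] at h
    simp only [hξb]
    exact h.symm
  refine ⟨_, ξ, fun j => lin Y fun u => l j (Pi.single u 1), hξ, ?_, fun j => eval_lin _ _,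
    fun i j => ?_, fun v => ?_⟩
  · have := b.linearIndependent.map' T.subtype T.ker_subtype
    simp only [hξb]
    exact this
  · rw [(hVF6 (ξ i) 0).2.1]
    simp only [pderiv_lin]
    rw [apply_eq, hξb, hlT, b.repr_self, Finsupp.single_apply]
  · obtain ⟨c, hc⟩ : ∃ c : σ ⊕ σ → ℂ,
        c = Pi.single v 1 - ∑ j, hv (ξ j) Y v • fun u => l j (Pi.single u 1) := ⟨_, rfl⟩
    have h1 : X v - C (Y v) - ∑ j, hv (ξ j) Y v • lin Y (fun u => l j (Pi.single u 1)) =
        lin Y c := by
      rw [hc, map_sub, map_sum, lin_single]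
      simp only [map_smul]
    have h2 : ∀ w : T, ∑ u, c u * (w : σ ⊕ σ → ℂ) u = 0 := by
      intro w
      have e1 : ∀ u, c u * (w : σ ⊕ σ → ℂ) u = (if u = v then (w : σ ⊕ σ → ℂ) v else 0) -
          ∑ j, hv (ξ j) Y v * ((w : σ ⊕ σ → ℂ) u * l j (Pi.single u 1)) := by
        intro u
        rw [hc]
        simp only [Pi.sub_apply, Finset.sum_apply, Pi.smul_apply, smul_eq_mul, sub_mul,
          Finset.sum_mul, Pi.single_apply]
        congr 1
        · split_ifs with h
          · rw [h, one_mul]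
          · rw [zero_mul]
        · exact Finset.sum_congr rfl fun j _ => by ring
      simp only [e1, Finset.sum_sub_distrib, Finset.sum_ite_eq', Finset.mem_univ, if_true]
      rw [Finset.sum_comm]
      simp only [← Finset.mul_sum, apply_eq, hlT]
      rw [sub_eq_zero]
      conv_lhs => rw [hsum w]
      simp only [Finset.sum_apply, Pi.smul_apply, smul_eq_mul]
      exact Finset.sum_congr rfl fun j _ => mul_comm _ _
    obtain ⟨τ, hτ⟩ := exists_om c
    obtain ⟨ζ, hζ, hζτ⟩ := hR.2 τ fun ζ hζ => by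
      rw [om_swap, hτ, h2 ⟨hv ζ Y, ζ, hζ, rfl⟩, neg_zero]
    have h3 : τ = ∑ j, b.repr ⟨hv ζ Y, ζ, hζ, rfl⟩ j • hv (ξ j) Y :=
      hζτ.trans (hsum ⟨hv ζ Y, ζ, hζ, rfl⟩)
    obtain ⟨a, ha⟩ : ∃ a : Fin (Module.finrank ℂ T) → ℂ, τ = ∑ j, a j • hv (ξ j) Y := ⟨_, h3⟩
    have h4 : c = ∑ j, a j • fun u => eval Y (pderiv u (mu (ξ j))) := by
      funext u
      have e1 := hτ (Pi.single u 1)
      rw [ha, om_sum] at e1
      have e2 : ∀ j, om (hv (ξ j) Y) (Pi.single u 1) = eval Y (pderiv u (mu (ξ j))) := by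
        intro j
        rw [← (hVF6 (ξ j) 0).2.2.2.1]
        simp [Pi.single_apply]
      simp only [e2] at e1
      simp only [Finset.sum_apply, Pi.smul_apply, smul_eq_mul]
      rw [e1]
      simp [Pi.single_apply]
    rw [h1, h4, map_sum]
    refine Ideal.sum_mem _ fun j _ => ?_
    rw [map_smul, smul_eq_C_mul]
    refine Ideal.mul_mem_left _ _ ?_
    have h5 := taylor Y (mu (ξ j))
    rw [hR.1 _ (hξ j), map_zero, sub_zero] at h5
    have h6 : mu (ξ j) ∈ Ideal.span (Set.range fun j => mu (ξ j)) := Ideal.subset_span ⟨j, rfl⟩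
    have h7 := Ideal.sub_mem _ (Ideal.mem_sup_right (S := RingHom.ker (eval Y) ^ 2) h6)
      (Ideal.mem_sup_left h5)
    simpa using h7

end Pool.Agent.P.MP_52ab5a_al
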