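import Pool.Agent.P.MP_52ab5a_al.B.Iface
import Pool.Agent.P.MP_52ab5a_al.A.Iface

/-! Step LATT of the open orbit project. -/

namespace Pool.Agent.P.MP_52ab5a_al

open MvPolynomial WM

namespace LattAux

variable {σ : Type} (N : WM σ) (W : Submodule ℂ N.V)

/-- Filtrations that contain `W` in degree zero. -/
def Adm (G : ℤ → Submodule ℂ N.V) : Prop :=
  W ≤ G 0 ∧ (∀ k, G k ≤ G (k + 1)) ∧ (∀ k s, ∀ v ∈ G k, N.X s v ∈ G k) ∧
    ∀ k s, ∀ v ∈ G k, N.D s v ∈ G (k + 1)

/-- The least such filtration. -/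
def F (k : ℤ) : Submodule ℂ N.V := ⨅ G : {G // Adm N W G}, G.1 k

theorem F_le {G : ℤ → Submodule ℂ N.V} (h : Adm N W G) (k : ℤ) : F N W k ≤ G k :=
  iInf_le (fun G : {G // Adm N W G} => G.1 k) ⟨G, h⟩

theorem P_F : Adm N W (F N W) := by
  refine ⟨le_iInf fun G => G.2.1, fun k => le_iInf fun G => (F_le N W G.2 k).trans (G.2.2.1 k),
    fun k s v hv => ?_, fun k s v hv => ?_⟩ <;> refine (Submodule.mem_iInf _).2 fun G => ?_
  exacts [G.2.2.2.1 k s v (F_le N W G.2 k hv), G.2.2.2.2 k s v (F_le N W G.2 k hv)]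

theorem sh_single {V : Type} [AddCommGroup V] [Module ℂ V] (k : ℤ) (v : V) :
    sh V (Finsupp.single k v) = Finsupp.single (k + 1) v := by
  simp [sh]

theorem rx_single {V : Type} [AddCommGroup V] [Module ℂ V] (T : Module.End ℂ V) (k : ℤ) (v : V) :
    rx T (Finsupp.single k v) = Finsupp.single k (T v) := by
  simp [rx]

end LattAux

open LattAux in
theorem p_LATT (hNORD : S_NORD) (hREES : S_REES) (hVF : S_VF) :
    S_LATT := by
  classical
  intro σ _ N W hN hW hf
  obtain ⟨h0, h1, h2, h3⟩ := P_F N W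
  have mono : Monotone (F N W) := monotone_int_of_le_succ h1
  obtain ⟨-, -, -, -, -, -, hR⟩ := hREES σ N
  obtain ⟨hl, -, -, hR⟩ := hR (F N W)
  refine ⟨F N W, ⟨mono, ⟨0, fun k hk => ?_⟩, fun v => ?_, h2, h3, ?_⟩, fun ξ hξ k v hv => ?_⟩
  · have := F_le N W (G := fun k => if k < 0 then ⊥ else ⊤) ⟨by simp, fun k => ?_,
      fun k s v hv => ?_, fun k s v hv => ?_⟩ k
    · simpa [hk] using this
    · by_cases h : k < 0
      · simp [h]
      · simp [show ¬k + 1 < 0 by omega]
    · by_cases h : k < 0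
      · simp only [h, if_true, Submodule.mem_bot] at hv ⊢
        rw [hv, map_zero]
      · simp [h]
    · by_cases h : k < 0
      · simp only [h, if_true, Submodule.mem_bot] at hv
        rw [hv, map_zero]
        exact Submodule.zero_mem _
      · simp [show ¬k + 1 < 0 by omega]
  · have hm := fun v => Submodule.mem_iSup_of_directed (F N W) mono.directed_le (x := v)
    rcases hN.2.2 (⨆ k, F N W k) (fun s v hv => by
      obtain ⟨k, hk⟩ := (hm v).1 hv
      exact ⟨(hm _).2 ⟨k, h2 k s v hk⟩, (hm _).2 ⟨k + 1, h3 k s v hk⟩⟩) with h | h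
    · exact absurd (le_bot_iff.1 (h0.trans ((le_iSup (F N W) 0).trans h.le))) hW
    · exact (hm v).1 (h ▸ Submodule.mem_top)
  · obtain ⟨S, hS⟩ := (Submodule.fg_top W).1 hf.1
    refine ⟨S.image (Finsupp.single 0), le_antisymm (fun u hu => ?_) (gen_le ?_ ?_)⟩
    · set Λ := gen (insert (sh N.V) (Set.range N.rz))
        ((S.image (Finsupp.single (0 : ℤ)) : Finset (ℤ →₀ N.V)) : Set (ℤ →₀ N.V))
      have hP : Adm N W fun k => Λ.comap (Finsupp.lsingle k) := by
        refine ⟨?_, fun k v hv => ?_, fun k s v hv => ?_, fun k s v hv => ?_⟩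
        · rw [← hS, Submodule.span_le]
          exact fun w hw => subset_gen _ _ (Finset.mem_coe.2 (Finset.mem_image_of_mem _ hw))
        · have := gen_stable (Set.mem_insert _ _) hv
          rwa [Finsupp.lsingle_apply, sh_single] at this
        · have := gen_stable (Set.mem_insert_of_mem _ (Set.mem_range_self (Sum.inl s))) hv
          rwa [Finsupp.lsingle_apply, WM.rz, Sum.elim_inl, rx_single] at this
        · have := gen_stable (Set.mem_insert_of_mem _ (Set.mem_range_self (Sum.inr s))) hv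
          rwa [Finsupp.lsingle_apply, WM.rz, Sum.elim_inr, Module.End.mul_apply, rx_single,
            sh_single] at this
      rw [← Finsupp.sum_single u]
      exact Submodule.sum_mem _ fun k _ => F_le N W hP k ((hl u).1 hu k)
    · intro u hu
      obtain ⟨w, hw, rfl⟩ := Finset.mem_image.1 (Finset.mem_coe.1 hu)
      refine (hl _).2 fun k => ?_
      rw [Finsupp.single_apply]
      split_ifs with h
      · exact h ▸ h0 (hS ▸ Submodule.subset_span hw)
      · exact Submodule.zero_mem _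
    · rintro T (rfl | ⟨s, rfl⟩) u hu
      exacts [((hR mono h2 h3).1 u hu).1, ((hR mono h2 h3).1 u hu).2 s]
  · obtain ⟨-, -, -, -, hV, -⟩ := hVF σ N
    obtain ⟨v1, v2, -⟩ := hV hN.1
    refine (F_le N W (G := fun k => F N W k ⊓ (F N W k).comap (N.vf ξ))
      ⟨fun w hw => ⟨h0 hw, h0 (hξ w hw)⟩, fun k v hv => ⟨h1 k hv.1, h1 k hv.2⟩,
        fun k s v hv => ⟨h2 k s v hv.1, ?_⟩, fun k s v hv => ⟨h3 k s v hv.1, ?_⟩⟩ k hv).2
    · have := LinearMap.congr_fun (v1 ξ s) v
      simp only [LinearMap.sub_apply, Module.End.mul_apply, LinearMap.sum_apply,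
        LinearMap.smul_apply, sub_eq_iff_eq_add] at this
      refine Submodule.mem_comap.2 (this ▸ Submodule.add_mem _ ?_ (h2 k s _ hv.2))
      exact Submodule.sum_mem _ fun t _ => Submodule.smul_mem _ _ (h2 k t v hv.1)
    · have := LinearMap.congr_fun (v2 ξ s) v
      simp only [LinearMap.sub_apply, Module.End.mul_apply, LinearMap.sum_apply,
        LinearMap.smul_apply, LinearMap.neg_apply, sub_eq_iff_eq_add] at this
      refine Submodule.mem_comap.2 (this ▸ Submodule.add_mem _ (Submodule.neg_mem _ ?_)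
        (h3 k s _ hv.2))
      exact Submodule.sum_mem _ fun t _ => Submodule.smul_mem _ _ (h3 k t v hv.1)

end Pool.Agent.P.MP_52ab5a_al
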