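import Pool.Agent.P.MP_52ab5a_al.B.Iface
import Pool.Agent.P.MP_52ab5a_al.A.Iface

/-! Step LBA of the open orbit project. -/

namespace Pool.Agent.P.MP_52ab5a_al

open MvPolynomial WM

namespace LbaAux

section gen

variable {ν V : Type} [AddCommGroup V] [Module ℂ V]

theorem mem_lat {F : ℤ → Submodule ℂ V} {v : ℤ →₀ V} : v ∈ lat F ↔ ∀ k, v k ∈ F k :=
  Submodule.mem_iInf _

theorem rx_apply (T : Module.End ℂ V) (v : ℤ →₀ V) (k : ℤ) : rx T v k = T (v k) := rfl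

theorem sh_apply (v : ℤ →₀ V) (k : ℤ) : sh V v k = v (k - 1) := by
  have := Finsupp.mapDomain_apply (add_left_injective (1 : ℤ)) v (k - 1)
  rwa [sub_add_cancel] at this

theorem mem_parF {p : ℕ} {v : Finset ν → V} :
    v ∈ parF ν V p ↔ ∀ I : Finset ν, I.card % 2 ≠ p % 2 → v I = 0 := Iff.rfl

theorem parF_congr {p q : ℕ} (h : p % 2 = q % 2) : parF ν V p = parF ν V q := by
  rw [parF, parF, h]

theorem parF_zero {p : ℕ} {v : Finset ν → V} (h : v ∈ parF ν V p) (h' : v ∈ parF ν V (p + 1)) :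
    v = 0 := funext fun I => by
  by_cases e : I.card % 2 = p % 2
  · exact mem_parF.1 h' I (by omega)
  · exact mem_parF.1 h I e

/-- The projection on the forms of parity `p`. -/
noncomputable def pr (ν V : Type) [AddCommGroup V] [Module ℂ V] (p : ℕ) :
    Module.End ℂ (Finset ν → V) :=
  LinearMap.pi fun I => if I.card % 2 = p % 2 then LinearMap.proj I else 0

theorem pr_apply (p : ℕ) (v : Finset ν → V) (I : Finset ν) :
    pr ν V p v I = if I.card % 2 = p % 2 then v I else 0 := by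
  simp only [pr, LinearMap.pi_apply]
  split_ifs <;> rfl

theorem pr_mem (p : ℕ) (v : Finset ν → V) : pr ν V p v ∈ parF ν V p :=
  mem_parF.2 fun I h => by rw [pr_apply, if_neg h]

theorem pr_add (p : ℕ) (v : Finset ν → V) : pr ν V p v + pr ν V (p + 1) v = v := funext fun I => by
  rw [Pi.add_apply, pr_apply, pr_apply]
  by_cases e : I.card % 2 = p % 2
  · rw [if_pos e, if_neg (by omega), add_zero]
  · rw [if_neg e, if_pos (by omega), zero_add]

theorem mem_filF {F : ℤ → Submodule ℂ V} {k : ℤ} {v : Finset ν → V} :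
    v ∈ filF F k ↔ ∀ I : Finset ν, v I ∈ F (k + (I.card / 2 : ℕ)) :=
  ⟨fun h I => h I trivial, fun h I _ => h I⟩

theorem pr_fil (p : ℕ) {F : ℤ → Submodule ℂ V} {k : ℤ} {v : Finset ν → V} (h : v ∈ filF F k) :
    pr ν V p v ∈ filF F k := mem_filF.2 fun I => by
  rw [pr_apply]
  split_ifs
  exacts [mem_filF.1 h I, zero_mem _]

/-- The projection on the kernel of the square of an operator. -/
theorem exQ (hDIAG : S_DIAG) (d : Module.End ℂ V) (h : Diag (d * d)) :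
    ∃ Q : Module.End ℂ V, (∀ v, d v = 0 → Q v = v) ∧ (∀ v, Q (d v) = d (Q v)) ∧
      (∀ v, (d * d) (Q v) = 0) ∧
      ∀ Y : Submodule ℂ V, (∀ v ∈ Y, (d * d) v ∈ Y) → ∀ v ∈ Y, Q v ∈ Y := by
  classical
  obtain ⟨Q, h1, h2⟩ := (hDIAG V _ h).2.2 fun a => if a = 0 then 1 else 0
  have k : ∀ v, Q (d v) = d (Q v) ∧ (d * d) (Q v) = 0 := fun v => by
    have hv : v ∈ ⨆ a : ℂ, (d * d).eigenspace a := h.ge Submodule.mem_top
    induction hv using Submodule.iSup_induction' with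
    | mem a v hv =>
      have e := Module.End.mem_eigenspace_iff.1 hv
      have e' : (d * d) (d v) = a • d v := by rw [← map_smul, ← e]; rfl
      rw [h1 a v e, h1 a _ e', map_smul, map_smul, e, smul_smul]
      refine ⟨rfl, ?_⟩
      by_cases ha : a = 0 <;> simp [ha]
    | zero => simp
    | add v w _ _ a b =>
      rw [map_add, map_add, map_add, map_add, map_add, a.1, b.1, a.2, b.2, add_zero]
      exact ⟨rfl, rfl⟩
  refine ⟨Q, fun v hv => ?_, fun v => (k v).1, fun v => (k v).2, h2⟩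
  rw [h1 0 v (by rw [Module.End.mul_apply, hv, map_zero, zero_smul]), if_pos rfl, one_smul]

end gen

variable {ν σ : Type} [Fintype ν] [LinearOrder ν] [Fintype σ] [DecidableEq σ]

theorem lie_fil (hCLIF : S_CLIF) {M : WM (ν ⊕ σ)} {F : ℤ → Submodule ℂ M.V} {w : ν → ℤ}
    (h : ∀ k, ∀ v ∈ F k, M.vf (Matrix.fromBlocks (dg w) 0 0 0) v ∈ F k) (k : ℤ) :
    ∀ v ∈ filF (ν := ν) F k, lieD M (dg w) 0 v ∈ filF (ν := ν) F k := fun v hv => by
  have e : lam (dg w) = Matrix.diagonal fun I : Finset ν => ∑ j ∈ I, (w j : ℂ) := by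
    rw [← (hCLIF ν).2.2.2.1, lam]
    refine Finset.sum_congr rfl fun j _ => ?_
    rw [Finset.sum_eq_single j (fun k _ hk => by rw [dg, Matrix.diagonal_apply_ne' _ hk, zero_smul])
      fun h => (h (Finset.mem_univ j)).elim, dg, Matrix.diagonal_apply_eq]
  refine mem_filF.2 fun I => ?_
  rw [lieD, LinearMap.add_apply, Pi.add_apply, pw_apply, act_apply, e,
    Finset.sum_eq_single I (fun J _ hJ => by rw [Matrix.diagonal_apply_ne' _ hJ, zero_smul])
      fun h => (h (Finset.mem_univ I)).elim]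
  exact add_mem (h _ _ (mem_filF.1 hv I)) (Submodule.smul_mem _ _ (mem_filF.1 hv I))

theorem lift {S : Setup ν σ} {M : WM (ν ⊕ σ)} {F : ℤ → Submodule ℂ M.V}
    {T : Module.End ℂ (Finset ν → M.V)} {V : Type} [AddCommGroup V] [Module ℂ V] {π : _} {z : _}
    {T₀ : _} (h : GrD S M F T V π z T₀) (q : ℕ) {y : ℤ →₀ (Finset ν → M.V)}
    (hy : y ∈ lat (filF (ν := ν) F)) (hq : ∀ k, y k ∈ parF ν M.V q) :
    ∃ c ∈ lat (filF (ν := ν) F), (∀ k, ∃ j, c k = dir M S.w (y j)) ∧ π c = dir0 z S.w (π y) := by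
  rcases Nat.mod_two_eq_zero_or_one q with e | e
  · rw [parF_congr (q := 0) e] at hq
    exact ⟨_, (h.even y hy hq).1, fun k => ⟨k - 1, by rw [sh_apply, rx_apply]⟩, (h.even y hy hq).2⟩
  · rw [parF_congr (q := 1) e] at hq
    exact ⟨_, (h.odd y hy hq).1, fun k => ⟨k, rfl⟩, (h.odd y hy hq).2⟩

end LbaAux

open LbaAux in
theorem p_LBA (hDIAG : S_DIAG) (hREES : S_REES) (hVF : S_VF) (hCLIF : S_CLIF) (hCART : S_CART) :
    S_LBA := by
  intro ν σ _ _ _ _ S M F T V _ _ π z T₀ hW _ hg hD h p N₂ hB hZ u hu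
  obtain ⟨-, -, -, -, -, -, -, c8, c9, -, -, c12, -⟩ := hCART ν σ M hW
  have u1 : u ∈ lat (filF (ν := ν) F) := mem_lat.2 fun k => (mem_lat.1 hu k).1
  have u2 : ∀ k, u k ∈ parF ν M.V p := fun k => (hZ (mem_lat.1 hu k).2).1
  have u3 : ∀ k, dir M S.w (u k) = 0 := fun k => (hZ (mem_lat.1 hu k).2).2
  have fl : ∀ q, ∀ v ∈ parF ν M.V q, dir M S.w v ∈ parF ν M.V (q + 1) := fun q v hv =>
    add_mem (c12 q (dg S.w) v hv).1 (c12 q (dg S.w) v hv).2.1
  constructor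
  · obtain ⟨c, -, c1, c2⟩ := lift h p u1 u2
    have : c = 0 := Finsupp.ext fun k => by obtain ⟨j, e⟩ := c1 k; rw [e, u3]; rfl
    rw [LinearMap.mem_ker, ← c2, this, map_zero]
  rintro ⟨x, hx⟩
  obtain ⟨y, hy, rfl⟩ : x ∈ (lat (filF (ν := ν) F)).map π := h.onto.ge Submodule.mem_top
  have l : ∀ q, rx (pr ν M.V q) y ∈ lat (filF (ν := ν) F) := fun q =>
    mem_lat.2 fun k => pr_fil q (mem_lat.1 hy k)
  obtain ⟨a, a0, a1, a2⟩ := lift h p (l p) fun k => pr_mem p (y k)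
  obtain ⟨c, c0, c1, c2⟩ := lift h (p + 1) (l (p + 1)) fun k => pr_mem (p + 1) (y k)
  have e2 : parF ν M.V (p + 1 + 1) = parF ν M.V p := parF_congr (by omega)
  have ey : rx (pr ν M.V p) y + rx (pr ν M.V (p + 1)) y = y := Finsupp.ext fun k => pr_add p (y k)
  have ea : π a = π (u - c) := by
    rw [map_sub, ← hx, a2, c2, ← map_sub, ← map_sub, eq_sub_of_add_eq ey]
  have uc : u - c ∈ lat (filF (ν := ν) F) := sub_mem u1 c0
  have e0 : π (u - c) = 0 := by
    refine parF_zero (h.par p _ uc fun k => sub_mem (u2 k) ?_) (ea ▸ h.par (p + 1) a a0 fun k => ?_)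
    · obtain ⟨j, e⟩ := c1 k
      rw [e, ← e2]
      exact fl _ _ (pr_mem _ _)
    · obtain ⟨j, e⟩ := a1 k
      rw [e]
      exact fl _ _ (pr_mem _ _)
  have r7 := fun G => ((hREES σ (forms M)).2.2.2.2.2.2 G).2.2.1
  have s1 := (r7 _ _).1 ((h.ker _ uc).1 e0)
  have d0 : (dg (0 : σ → ℤ)) = 0 := by simp [dg]
  obtain ⟨Q, q1, q2, q3, q4⟩ := exQ hDIAG (dir M S.w) (by rw [c8, ← d0]; exact c9 _ _ hD)
  have qf : ∀ k, ∀ v ∈ filF (ν := ν) F k, Q v ∈ filF (ν := ν) F k := fun k =>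
    q4 _ (by rw [c8]; exact lie_fil hCLIF (hg _ S.lam_mem) k)
  have qb : ∀ k, rx Q c k ∈ dirB M S.w p := fun k => by
    obtain ⟨j, e⟩ := c1 k
    rw [rx_apply, e, q2]
    refine ⟨?_, _, q3 _, rfl⟩
    rw [← e2]
    refine fl _ _ (q4 _ (fun v hv => ?_) _ (pr_mem _ _))
    rw [← parF_congr (p := p + 1 + 1 + 1) (by omega)]
    exact fl _ _ (fl _ _ hv)
  refine Submodule.mem_sup.2 ⟨rx Q c, mem_lat.2 fun k => ⟨qf k _ (mem_lat.1 c0 k), qb k⟩,
    u - rx Q c, (r7 _ _).2 fun k => ⟨?_, sub_mem (mem_lat.1 hu k).2 (hB (qb k))⟩,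
    add_sub_cancel _ _⟩
  have := qf _ _ (s1 k)
  rwa [Finsupp.sub_apply, map_sub, q1 _ (u3 k)] at this

end Pool.Agent.P.MP_52ab5a_al
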