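import Pool.Agent.P.MP_52ab5a_al.B.Iface
import Pool.Agent.P.MP_52ab5a_al.A.Iface

/-! Step LBB of the open orbit project. -/

namespace Pool.Agent.P.MP_52ab5a_al

open MvPolynomial WM

namespace LbbAux

theorem rx_apply {V : Type} [AddCommGroup V] [Module ℂ V] (T : Module.End ℂ V) (u : ℤ →₀ V)
    (k : ℤ) : rx T u k = T (u k) := rfl

theorem rx_comm {V : Type} [AddCommGroup V] [Module ℂ V] {T T' : Module.End ℂ V}
    (h : T * T' = T' * T) (u : ℤ →₀ V) : rx T (rx T' u) = rx T' (rx T u) :=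
  Finsupp.ext fun k => LinearMap.congr_fun h (u k)

variable {ν : Type}

/-- The projection to the forms of parity `p`. -/
noncomputable def pe (ν V : Type) [AddCommGroup V] [Module ℂ V] (p : ℕ) :
    Module.End ℂ (Finset ν → V) :=
  LinearMap.pi fun I => if I.card % 2 = p % 2 then LinearMap.proj I else 0

theorem pe_apply {V : Type} [AddCommGroup V] [Module ℂ V] (p : ℕ) (v : Finset ν → V)
    (I : Finset ν) : pe ν V p v I = if I.card % 2 = p % 2 then v I else 0 := by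
  simp only [pe, LinearMap.pi_apply]
  split_ifs <;> rfl

theorem mem_fil {V : Type} [AddCommGroup V] [Module ℂ V] {F : ℤ → Submodule ℂ V} {k : ℤ}
    {v : Finset ν → V} : v ∈ filF F k ↔ ∀ I, v I ∈ F (k + (I.card / 2 : ℕ)) :=
  ⟨fun h I => h I trivial, fun h I _ => h I⟩

variable [Fintype ν] [LinearOrder ν] {σ : Type} [Fintype σ]

theorem lam_card (hC : S_CLIF) (ξ : Matrix ν ν ℂ) {I J : Finset ν} (h : lam ξ I J ≠ 0) :
    I.card = J.card := by
  by_contra e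
  refine h ?_
  simp only [lam, Matrix.sum_apply, Matrix.smul_apply, Matrix.mul_apply]
  refine Finset.sum_eq_zero fun j _ => Finset.sum_eq_zero fun k _ => ?_
  rw [Finset.sum_eq_zero fun K _ => ?_, smul_zero]
  by_contra a
  have a1 := (((hC ν).2.1 k I K).1 (left_ne_zero_of_mul a))
  have a2 := (((hC ν).2.1 j K J).2 (right_ne_zero_of_mul a))
  omega

theorem lie_fil (hC : S_CLIF) {M : WM (ν ⊕ σ)} {F : ℤ → Submodule ℂ M.V} {ξ : Matrix ν ν ℂ}
    {ξ₀ : Matrix σ σ ℂ} (h : ∀ k, ∀ v ∈ F k, M.vf (Matrix.fromBlocks ξ 0 0 ξ₀) v ∈ F k) (k : ℤ) :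
    ∀ v ∈ filF (ν := ν) F k, lieD M ξ ξ₀ v ∈ filF F k := fun v hv => mem_fil.2 fun I => by
  rw [lieD, LinearMap.add_apply, Pi.add_apply, pw_apply, act_apply]
  refine Submodule.add_mem _ (h _ _ (mem_fil.1 hv I)) (Submodule.sum_mem _ fun J _ => ?_)
  by_cases a : lam ξ I J = 0
  · rw [a, zero_smul]; exact Submodule.zero_mem _
  · rw [lam_card hC ξ a]; exact Submodule.smul_mem _ _ (mem_fil.1 hv J)

theorem d0_comm {V : Type} [AddCommGroup V] [Module ℂ V]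
    {z : (ν ⊕ σ) ⊕ ν ⊕ σ → Module.End ℂ V} (h : ∀ s t, z s * z t = z t * z s) (w : ν → ℤ)
    (s : (ν ⊕ σ) ⊕ ν ⊕ σ) : Commute (dir0 z w) (pw (Finset ν) (z s)) := by
  have k : ∀ t, Commute (pw (Finset ν) (z t)) (pw (Finset ν) (z s)) := fun t =>
    Commute.map (h t s) (pw (Finset ν))
  have l : ∀ A, Commute (act V A) (pw (Finset ν) (z s)) := fun A => act_mul_pw A _
  exact Commute.sum_left _ _ _ fun j _ => ((l _).mul_left (k _)).add_left
    (((l _).mul_left (k _)).smul_left _)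

theorem lie_X [DecidableEq σ] (hV : S_VF) {M : WM (ν ⊕ σ)} (hM : M.IsW) (ξ : Matrix ν ν ℂ)
    (ξ₀ : Matrix σ σ ℂ) (s : σ) (v : Finset ν → M.V) :
    lieD M ξ ξ₀ ((forms M).X s v) = (forms M).X s (lieD M ξ ξ₀ v) + ∑ t, ξ₀ s t • (forms M).X t v := by
  have a := ((hV (ν ⊕ σ) M).2.2.2.2.1 hM).1 (Matrix.fromBlocks ξ 0 0 ξ₀) (Sum.inr s)
  have b := LinearMap.congr_fun (act_mul_pw (lam ξ) (M.X (Sum.inr s))) v
  funext I
  have a' := LinearMap.congr_fun a (v I)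
  have b' := congrFun b I
  simp only [Fintype.sum_sum_type, Matrix.fromBlocks_apply₂₁, Matrix.fromBlocks_apply₂₂,
    Matrix.zero_apply, zero_smul, Finset.sum_const_zero, zero_add, LinearMap.sub_apply,
    Module.End.mul_apply, LinearMap.sum_apply, LinearMap.smul_apply, pw_apply] at a' b'
  simp only [lieD, pw_eq, LinearMap.add_apply, Pi.add_apply, pw_apply, Finset.sum_apply,
    Pi.smul_apply, map_add, b', ← a']
  abel

theorem lie_D [DecidableEq σ] (hV : S_VF) {M : WM (ν ⊕ σ)} (hM : M.IsW) (ξ : Matrix ν ν ℂ)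
    (ξ₀ : Matrix σ σ ℂ) (t : σ) (v : Finset ν → M.V) :
    lieD M ξ ξ₀ ((forms M).D t v) = (forms M).D t (lieD M ξ ξ₀ v) - ∑ s, ξ₀ s t • (forms M).D s v := by
  have a := ((hV (ν ⊕ σ) M).2.2.2.2.1 hM).2.1 (Matrix.fromBlocks ξ 0 0 ξ₀) (Sum.inr t)
  have b := LinearMap.congr_fun (act_mul_pw (lam ξ) (M.D (Sum.inr t))) v
  funext I
  have a' := LinearMap.congr_fun (neg_eq_iff_eq_neg.2 a) (v I)
  have b' := congrFun b I
  simp only [Fintype.sum_sum_type, Matrix.fromBlocks_apply₁₂, Matrix.fromBlocks_apply₂₂,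
    Matrix.zero_apply, zero_smul, Finset.sum_const_zero, zero_add, LinearMap.sub_apply,
    LinearMap.neg_apply, Module.End.mul_apply, LinearMap.sum_apply, LinearMap.smul_apply,
    pw_apply] at a' b'
  simp only [lieD, pw_eq, LinearMap.add_apply, Pi.add_apply, Pi.sub_apply, pw_apply,
    Finset.sum_apply, Pi.smul_apply, map_add, b', ← a']
  abel

end LbbAux

open LbbAux in
theorem p_LBB (hDESC : S_DESC) (hREES : S_REES) (hVF : S_VF) (hCLIF : S_CLIF) (hCART : S_CART) (hKFG : S_KFG) :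
    S_LBB := by
  intro ν σ _ _ _ _ S M F T V _ _ π z T₀ hM hF hg G
  obtain ⟨-, -, c3, c4, c5, c6, -, c8, -, -, -, c12, -⟩ := hCART ν σ M hM
  obtain ⟨-, r2, -, -, -, -, r7⟩ := hREES σ (forms M)
  obtain ⟨q1, q2, -, q4⟩ := r7 (filF F)
  replace q4 := (q4 (fun a b hab v hv => mem_fil.2 fun I => hF.mono (by omega) (mem_fil.1 hv I))
    (fun k s v hv => mem_fil.2 fun I => hF.stX _ _ _ (mem_fil.1 hv I))
    fun k s v hv => mem_fil.2 fun I => by
      rw [add_right_comm]; exact hF.stD _ _ _ (mem_fil.1 hv I)).1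
  have shc : ∀ (A : Module.End ℂ (Finset ν → M.V)) u, rx A (sh _ u) = sh _ (rx A u) := fun A u =>
    (LinearMap.congr_fun (r2 A) u).symm
  have hL : ∀ ξ ξ₀, Matrix.fromBlocks ξ 0 0 ξ₀ ∈ S.g → ∀ u ∈ lat (filF (ν := ν) F),
      rx (lieD M ξ ξ₀) u ∈ lat (filF (ν := ν) F) := fun ξ ξ₀ h => q2 _ (lie_fil hCLIF (hg _ h))
  have on : ∀ x, ∃ u ∈ lat (filF (ν := ν) F), π u = x := fun x => by
    have : x ∈ (lat (filF (ν := ν) F)).map π := G.onto ▸ Submodule.mem_top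
    exact this
  have ind : ∀ A B : Module.End ℂ (Finset ν → V),
      (∀ u ∈ lat (filF (ν := ν) F), (∀ k, u k ∈ parF ν M.V 0) → A (π u) = B (π u)) →
      (∀ u ∈ lat (filF (ν := ν) F), (∀ k, u k ∈ parF ν M.V 1) → A (π u) = B (π u)) →
      ∀ x, A x = B x := fun A B h0 h1 x => by
    obtain ⟨u, hu, rfl⟩ := on x
    have m : ∀ p, rx (pe ν M.V p) u ∈ lat (filF (ν := ν) F) := fun p => q2 _ (fun k v hv =>
      mem_fil.2 fun I => by
        rw [pe_apply]
        split_ifs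
        exacts [mem_fil.1 hv I, Submodule.zero_mem _]) u hu
    have n : ∀ p k, rx (pe ν M.V p) u k ∈ parF ν M.V p := fun p k I hI => by
      rw [rx_apply, pe_apply, if_neg hI]; exact Submodule.zero_mem _
    have e : u = rx (pe ν M.V 0) u + rx (pe ν M.V 1) u := Finsupp.ext fun k => funext fun I => by
      rw [Finsupp.add_apply, Pi.add_apply, rx_apply, rx_apply, pe_apply, pe_apply]
      rcases Nat.mod_two_eq_zero_or_one I.card with a | a <;> simp [a]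
    rw [e, map_add, map_add, map_add, h0 _ (m 0) (n 0), h1 _ (m 1) (n 1)]
  have dp : ∀ p, ∀ v ∈ parF ν M.V p, dir M S.w v ∈ parF ν M.V (p + 1) := fun p v hv =>
    Submodule.add_mem _ (c12 p 0 v hv).1 (c12 p _ v hv).2.1
  have dd : ∀ u ∈ lat (filF (ν := ν) F), π (sh _ (rx (dir M S.w) (rx (dir M S.w) u))) = 0 :=
    fun u hu => by
      have e : rx (dir M S.w) (rx (dir M S.w) u) = rx (lieD M (dg S.w) 0) u :=
        Finsupp.ext fun k => LinearMap.congr_fun (c8 S.w) (u k)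
      have m := hL _ _ S.lam_mem u hu
      rw [e]
      exact (G.ker _ (q4 _ m).1).2 (Submodule.mem_map_of_mem m)
  have d2 : ∀ x, dir0 z S.w (dir0 z S.w x) = 0 := ind (dir0 z S.w * dir0 z S.w) 0
    (fun u hu h => by
      obtain ⟨a, b⟩ := G.even u hu h
      have c := (G.odd _ a ((r7 fun _ => parF ν M.V 1).2.2.1 _ |>.1 (Submodule.mem_map_of_mem
        (((r7 fun _ => parF ν M.V 1).1 _).2 fun k => dp 0 _ (h k))))).2
      rw [Module.End.mul_apply, ← b, ← c, shc, dd u hu]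
      rfl)
    fun u hu h => by
      obtain ⟨a, b⟩ := G.odd u hu h
      have c := (G.even _ a fun k => dp 1 _ (h k)).2
      rw [Module.End.mul_apply, ← b, ← c, dd u hu]
      rfl
  have ex : ∀ ξ₀, ∃ T' : Module.End ℂ (Finset ν → V), ξ₀ ∈ S.g₀ → ∃ ξ,
      Matrix.fromBlocks ξ 0 0 ξ₀ ∈ S.g ∧ ξ * dg S.w = dg S.w * ξ ∧
      ∀ u ∈ lat (filF (ν := ν) F), T' (π u) = π (rx (lieD M ξ ξ₀) u) := fun ξ₀ => by
    by_cases h : ξ₀ ∈ S.g₀
    · obtain ⟨ξ, h1, h2⟩ := S.block ξ₀ h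
      obtain ⟨T', h3⟩ := (hDESC _ _ _).2 _ π G.ker G.onto (rx (lieD M ξ ξ₀)) (hL ξ ξ₀ h1) (by
        rintro _ - ⟨u, hu, rfl⟩
        exact ⟨_, hL ξ ξ₀ h1 u hu, (shc _ u).symm⟩)
      exact ⟨T', fun _ => ⟨ξ, h1, h2, h3⟩⟩
    · exact ⟨0, fun a => absurd a h⟩
  choose γ hγ using ex
  have gd : ∀ ξ₀ ∈ S.g₀, ∀ x, γ ξ₀ (dir0 z S.w x) = dir0 z S.w (γ ξ₀ x) := fun ξ₀ h => by
    obtain ⟨ξ, h1, h2, h3⟩ := hγ ξ₀ h
    have e : lieD M ξ ξ₀ * dir M S.w = dir M S.w * lieD M ξ ξ₀ := by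
      rw [dir, mul_add, add_mul, c6 _ _ _ h2]
      exact congrArg (· + _) (c5 ξ ξ₀)
    refine ind (γ ξ₀ * dir0 z S.w) (dir0 z S.w * γ ξ₀) (fun u hu k => ?_) fun u hu k => ?_
    · obtain ⟨a, b⟩ := G.even u hu k
      rw [Module.End.mul_apply, Module.End.mul_apply, ← b, h3 _ a, h3 u hu, shc, rx_comm e,
        (G.even _ (hL _ _ h1 u hu) fun j => (c12 0 ξ _ (k j)).2.2 ξ₀).2]
    · obtain ⟨a, b⟩ := G.odd u hu k
      rw [Module.End.mul_apply, Module.End.mul_apply, ← b, h3 _ a, h3 u hu, rx_comm e,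
        (G.odd _ (hL _ _ h1 u hu) fun j => (c12 1 ξ _ (k j)).2.2 ξ₀).2]
  have zd : ∀ s x, pw (Finset ν) (z s) (dir0 z S.w x) = dir0 z S.w (pw (Finset ν) (z s) x) :=
    fun s x => (LinearMap.congr_fun (d0_comm G.comm S.w s).eq x).symm
  obtain ⟨k1, k2⟩ := hKFG ν σ V z S.w G.comm G.fg fun j => by rcases S.w_pm j with a | a <;> omega
  refine ⟨γ, ⟨?_, ?_, fun s v hv => ?_, fun s t v _ => ?_, k2, ?_, fun ξ h v hv => ?_,
    fun ξ₀ h s v _ => ?_, fun ξ₀ h t v _ => ?_, fun ξ₀ h v hv => ?_⟩,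
    fun p N₂ hB hZ hS ξ₀ h u hu => ?_⟩
  · rintro _ ⟨x, rfl⟩
    exact d2 x
  · rintro s _ ⟨x, rfl⟩
    exact ⟨_, (zd _ x).symm⟩
  · rw [LinearMap.mem_ker] at hv ⊢
    rw [zBase, ← zd, hv, map_zero]
  · rw [show zBase z s (zBase z t v) = zBase z t (zBase z s v) from
      funext fun I => LinearMap.congr_fun (G.comm _ _) (v I), sub_self]
    exact Submodule.zero_mem _
  · rintro ξ h _ ⟨x, rfl⟩
    exact ⟨_, (gd ξ h x).symm⟩
  · rw [LinearMap.mem_ker] at hv ⊢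
    rw [← gd ξ h, hv, map_zero]
  · obtain ⟨ξ, h1, -, h3⟩ := hγ ξ₀ h
    obtain ⟨u, hu, rfl⟩ := on v
    have e : rx (lieD M ξ ξ₀) ((forms M).rz (Sum.inl s) u) =
        (forms M).rz (Sum.inl s) (rx (lieD M ξ ξ₀) u) + ∑ t, ξ₀ s t • (forms M).rz (Sum.inl t) u :=
      Finsupp.ext fun k => by
        rw [Finsupp.add_apply, Finsupp.finsetSum_apply]
        exact lie_X hVF hM ξ ξ₀ s (u k)
    rw [← G.base _ u hu, h3 _ ((q4 u hu).2 _), h3 u hu, e, map_add, map_sum,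
      G.base _ _ (hL _ _ h1 u hu)]
    simp only [map_smul, G.base _ u hu, add_sub_cancel_left, sub_self]
    exact Submodule.zero_mem _
  · obtain ⟨ξ, h1, -, h3⟩ := hγ ξ₀ h
    obtain ⟨u, hu, rfl⟩ := on v
    have e0 : rx (lieD M ξ ξ₀) (rx ((forms M).D t) u) =
        rx ((forms M).D t) (rx (lieD M ξ ξ₀) u) - ∑ s, ξ₀ s t • rx ((forms M).D s) u :=
      Finsupp.ext fun k => by
        rw [Finsupp.sub_apply, Finsupp.finsetSum_apply]
        exact lie_D hVF hM ξ ξ₀ t (u k)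
    have e : rx (lieD M ξ ξ₀) ((forms M).rz (Sum.inr t) u) =
        (forms M).rz (Sum.inr t) (rx (lieD M ξ ξ₀) u) - ∑ s, ξ₀ s t • (forms M).rz (Sum.inr s) u := by
      refine (shc _ _).trans ?_
      rw [e0, map_sub, map_sum]
      simp only [map_smul]
      rfl
    rw [← G.base _ u hu, h3 _ ((q4 u hu).2 _), h3 u hu, e, map_sub, map_sum,
      G.base _ _ (hL _ _ h1 u hu)]
    simp only [map_smul, G.base _ u hu, sub_sub_cancel_left, neg_add_cancel]
    exact Submodule.zero_mem _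
  · obtain ⟨ξ, h1, -, -⟩ := hγ ξ₀ h
    have e : ∑ s, ∑ t, ξ₀ s t • zBase z (Sum.inl t) (zBase z (Sum.inr s) v) =
        -∑ j, ∑ k, ξ j k • pw (Finset ν) (z (Sum.inl (Sum.inl k)))
          (pw (Finset ν) (z (Sum.inr (Sum.inl j))) v) := funext fun I => by
      have a := G.muB ξ ξ₀ h1 (v I)
      simp only [Fintype.sum_sum_type, Matrix.fromBlocks_apply₁₁, Matrix.fromBlocks_apply₁₂,
        Matrix.fromBlocks_apply₂₁, Matrix.fromBlocks_apply₂₂, Matrix.zero_apply, zero_smul,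
        Finset.sum_const_zero, zero_add, add_zero] at a
      simp only [Finset.sum_apply, Pi.neg_apply, Pi.smul_apply]
      exact eq_neg_of_add_eq_zero_right a
    rw [e]
    refine Submodule.neg_mem _ (Submodule.sum_mem _ fun j _ => Submodule.sum_mem _ fun k _ =>
      Submodule.smul_mem _ _ ?_)
    obtain ⟨x, hx⟩ := k1 (Sum.inr j) v hv
    exact ⟨_, (zd _ x).symm.trans (congrArg _ hx)⟩
  · obtain ⟨ξ, h1, h2, h3⟩ := hγ ξ₀ h
    have m := ((r7 fun k => filF F k ⊓ N₂).1 u).1 hu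
    rw [h3 u ((q1 u).2 fun k => (m k).1)]
    refine Submodule.mem_map_of_mem ((r7 fun k => filF F k ⊓ N₂).2.1 _ (fun k v hv =>
      ⟨lie_fil hCLIF (hg _ h1) k v hv.1, ?_⟩) u hu)
    obtain ⟨p1, p2⟩ := hZ hv.2
    replace p2 : dir M S.w v = 0 := p2
    have f : (forms M).vf ξ₀ v ∈ N₂ := by
      simp only [WM.vf, LinearMap.sum_apply, LinearMap.smul_apply, Module.End.mul_apply]
      exact N₂.sum_mem fun s _ => N₂.sum_mem fun t _ =>
        N₂.smul_mem _ (hS t _ (hS s v hv.2).2).1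
    have e : dir M S.w (io M ξ v) = lieD M ξ ξ₀ v - (forms M).vf ξ₀ v := by
      have a := LinearMap.congr_fun (c4 ξ ξ₀) v
      have b := LinearMap.congr_fun (c3 ξ (dg S.w)) v
      have c := congrArg (io M ξ) p2
      simp only [dir, LinearMap.add_apply, LinearMap.sub_apply, Module.End.mul_apply,
        LinearMap.zero_apply, map_add, map_zero] at a b c ⊢
      rw [← a, eq_neg_of_add_eq_zero_right b, eq_neg_of_add_eq_zero_left c]
    rw [← sub_add_cancel (lieD M ξ ξ₀ v) ((forms M).vf ξ₀ v)]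
    refine N₂.add_mem (hB ⟨Submodule.sub_mem _ ((c12 p ξ v p1).2.2 ξ₀) (hZ f).1, io M ξ v, ?_, e⟩) f
    have a := LinearMap.congr_fun (c6 (dg S.w) 0 ξ h2.symm) v
    rw [← c8] at a
    refine a.trans ?_
    rw [Module.End.mul_apply, Module.End.mul_apply, p2, map_zero, map_zero]

end Pool.Agent.P.MP_52ab5a_al
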