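import Pool.Agent.P.MP_52ab5a_al.B.Iface

/-! Step LIFTA of the open orbit project. -/

namespace Pool.Agent.P.MP_52ab5a_al

open MvPolynomial WM

namespace LiftaAux

variable {V : Type} [AddCommGroup V] [Module ℂ V]

theorem shift_apply (n : ℤ) (u : ℤ →₀ V) (k : ℤ) :
    Finsupp.lmapDomain V ℂ (· + n) u k = u (k - n) := by
  have h : k = (k - n) + n := by ring
  conv_lhs => rw [h]
  exact Finsupp.mapDomain_apply (add_left_injective n) u (k - n)

theorem sh_apply (u : ℤ →₀ V) (k : ℤ) : sh V u k = u (k - 1) := shift_apply 1 u k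

theorem rx_apply (T : Module.End ℂ V) (u : ℤ →₀ V) (k : ℤ) : rx T u k = T (u k) := rfl

theorem mem_lat (F : ℤ → Submodule ℂ V) (u : ℤ →₀ V) : u ∈ lat F ↔ ∀ k, u k ∈ F k := by
  simp [lat, Submodule.mem_iInf]

variable {ν : Type}

/-- The component `I`, with shifted degrees. -/
noncomputable def sL (I : Finset ν) : (ℤ →₀ (Finset ν → V)) →ₗ[ℂ] (ℤ →₀ V) :=
  Finsupp.lmapDomain V ℂ (· + ((I.card / 2 : ℕ) : ℤ)) ∘ₗ
    Finsupp.mapRange.linearMap (LinearMap.proj I)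

/-- The same as a function. -/
noncomputable def sI (I : Finset ν) (u : ℤ →₀ (Finset ν → V)) : ℤ →₀ V := sL (V := V) I u

theorem sI_apply (I : Finset ν) (u : ℤ →₀ (Finset ν → V)) (k : ℤ) :
    sI I u k = u (k - ((I.card / 2 : ℕ) : ℤ)) I := shift_apply _ _ k

theorem mem_filF (F : ℤ → Submodule ℂ V) (k : ℤ) (x : Finset ν → V) :
    x ∈ filF F k ↔ ∀ I, x I ∈ F (k + ((I.card / 2 : ℕ) : ℤ)) := by
  simp [filF, Submodule.mem_pi]

theorem mem_latF (F : ℤ → Submodule ℂ V) (u : ℤ →₀ (Finset ν → V)) :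
    u ∈ lat (filF F) ↔ ∀ I, sI I u ∈ lat F := by
  simp only [mem_lat, mem_filF, sI_apply]
  constructor
  · intro h I k
    have := h (k - ((I.card / 2 : ℕ) : ℤ)) I
    rwa [sub_add_cancel] at this
  · intro h k I
    have := h I (k + ((I.card / 2 : ℕ) : ℤ))
    rwa [add_sub_cancel_right] at this

theorem exists_sI [Fintype ν] [DecidableEq ν] (a : Finset ν → (ℤ →₀ V)) :
    ∃ u : ℤ →₀ (Finset ν → V), ∀ I, sI I u = a I := by
  refine ⟨∑ J, Finsupp.mapRange.linearMap (LinearMap.single ℂ (fun _ : Finset ν => V) J)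
    (Finsupp.lmapDomain V ℂ (· + -((J.card / 2 : ℕ) : ℤ)) (a J)), fun I => ?_⟩
  ext k
  rw [sI_apply, Finsupp.finsetSum_apply, Finset.sum_apply, Finset.sum_eq_single I]
  · show (Pi.single I (Finsupp.lmapDomain V ℂ (· + -((I.card / 2 : ℕ) : ℤ)) (a I) _) :
      Finset ν → V) I = _
    rw [Pi.single_eq_same, shift_apply]
    congr 1; ring
  · intro J _ hJ
    exact Pi.single_eq_of_ne (Ne.symm hJ) _
  · simp

theorem mem_parF (p : ℕ) (x : Finset ν → V) :
    x ∈ parF ν V p ↔ ∀ I : Finset ν, I.card % 2 ≠ p % 2 → x I = 0 := by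
  simp [parF, Submodule.mem_pi]

variable {σ : Type}

theorem rzX_apply (N : WM σ) (s : σ) (u : ℤ →₀ N.V) (k : ℤ) :
    N.rz (Sum.inl s) u k = N.X s (u k) := rfl

theorem rzD_apply (N : WM σ) (s : σ) (u : ℤ →₀ N.V) (k : ℤ) :
    N.rz (Sum.inr s) u k = N.D s (u (k - 1)) := sh_apply (rx (N.D s) u) k

theorem rx_rz (N : WM σ) (e : σ → σ) (U : Module.End ℂ N.V) (h : Semi N e U) (v : σ ⊕ σ)
    (u : ℤ →₀ N.V) : rx U (N.rz v u) = N.rz (Sum.map e e v) (rx U u) := by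
  ext k
  rcases v with s | s
  · exact LinearMap.congr_fun (h s).1 (u k)
  · rw [rx_apply, Sum.map_inr, rzD_apply, rzD_apply]
    exact LinearMap.congr_fun (h s).2 (u (k - 1))

variable [Fintype ν] [LinearOrder ν] [Fintype σ]

theorem sI_base (M : WM (ν ⊕ σ)) (v : σ ⊕ σ) (u : ℤ →₀ (Finset ν → M.V)) (I : Finset ν) :
    sI I ((forms M).rz v u) = M.rz (Sum.map Sum.inr Sum.inr v) (sI I u) := by
  ext k
  rcases v with s | s
  · rw [sI_apply, Sum.map_inl, rzX_apply, rzX_apply, sI_apply]; rfl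
  · rw [sI_apply, Sum.map_inr, rzD_apply, rzD_apply, sI_apply, sub_right_comm]; rfl

theorem sI_tw (W : Matrix (Finset ν) (Finset ν) ℂ) (hW : ∀ I J, W I J ≠ 0 → I.card = J.card)
    (U : Module.End ℂ V) (u : ℤ →₀ (Finset ν → V)) (I : Finset ν) :
    sI I (rx (act V W * pw (Finset ν) U) u) = ∑ J, W I J • rx U (sI J u) := by
  ext k
  rw [sI_apply, rx_apply, Module.End.mul_apply, act_apply, Finsupp.finsetSum_apply]
  refine Finset.sum_congr rfl fun J _ => ?_
  by_cases h : W I J = 0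
  · simp [h]
  · rw [Finsupp.smul_apply, rx_apply, sI_apply, pw_apply, hW I J h]

theorem dir_apply (hCLIF : S_CLIF) (M : WM (ν ⊕ σ)) (w : ν → ℤ) (x : Finset ν → M.V)
    (I : Finset ν) : dir M w x I = ∑ j, (∑ J, eps j I J • M.D (Sum.inl j) (x J) +
      (w j : ℂ) • ∑ J, iot j I J • M.X (Sum.inl j) (x J)) := by
  have h1 : dR M x I = ∑ j, ∑ J, eps j I J • M.D (Sum.inl j) (x J) := by
    rw [(hCLIF ν).2.2.2.2 σ M]
    show (∑ j, act M.V (eps j) * pw (Finset ν) (M.D (Sum.inl j)) :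
      Module.End ℂ (Finset ν → M.V)) x I = _
    simp only [LinearMap.sum_apply, Finset.sum_apply, Module.End.mul_apply, act_apply, pw_apply]
  have h2 : io M (dg w) x I = ∑ j, (w j : ℂ) • ∑ J, iot j I J • M.X (Sum.inl j) (x J) := by
    simp only [io, LinearMap.sum_apply, Finset.sum_apply, LinearMap.smul_apply, Pi.smul_apply,
      Module.End.mul_apply, act_apply, pw_apply]
    refine Finset.sum_congr rfl fun j _ => ?_
    rw [Finset.sum_eq_single j]
    · simp [dg]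
    · intro k _ hk
      simp [dg, Matrix.diagonal_apply_ne _ (Ne.symm hk)]
    · simp
  rw [Finset.sum_add_distrib, ← h1, ← h2]
  rfl

theorem sI_dir (hCLIF : S_CLIF) (M : WM (ν ⊕ σ)) (w : ν → ℤ) (p : ℕ) (δ : ℤ)
    (hp : δ + (p % 2 : ℕ) = 1) (u u' : ℤ →₀ (Finset ν → M.V)) (hu : ∀ k, u k ∈ parF ν M.V p)
    (hu' : ∀ k, u' k = dir M w (u (k - δ))) (I : Finset ν) :
    sI I u' = ∑ j, (∑ J, eps j I J • M.rz (Sum.inr (Sum.inl j)) (sI J u) +
      (w j : ℂ) • ∑ J, iot j I J • M.rz (Sum.inl (Sum.inl j)) (sI J u)) := by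
  ext k
  rw [sI_apply, hu', dir_apply hCLIF, Finsupp.finsetSum_apply]
  refine Finset.sum_congr rfl fun j _ => ?_
  rw [Finsupp.add_apply, Finsupp.smul_apply, Finsupp.finsetSum_apply, Finsupp.finsetSum_apply]
  congr 1
  · refine Finset.sum_congr rfl fun J _ => ?_
    rw [Finsupp.smul_apply, rzD_apply, sI_apply]
    by_cases h : eps j I J = 0
    · simp [h]
    · have h1 := ((hCLIF ν).2.1 j I J).1 h
      by_cases hJ : J.card % 2 = p % 2
      · rw [show k - ((I.card / 2 : ℕ) : ℤ) - δ = k - 1 - ((J.card / 2 : ℕ) : ℤ) by omega]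
      · rw [(mem_parF p _).1 (hu _) J hJ, (mem_parF p _).1 (hu _) J hJ]
  · congr 1
    refine Finset.sum_congr rfl fun J _ => ?_
    rw [Finsupp.smul_apply, rzX_apply, sI_apply]
    by_cases h : iot j I J = 0
    · simp [h]
    · have h1 := ((hCLIF ν).2.1 j I J).2 h
      by_cases hJ : J.card % 2 = p % 2
      · rw [show k - ((I.card / 2 : ℕ) : ℤ) - δ = k - ((J.card / 2 : ℕ) : ℤ) by omega]
      · rw [(mem_parF p _).1 (hu _) J hJ, (mem_parF p _).1 (hu _) J hJ]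

theorem dir0_apply (z : (ν ⊕ σ) ⊕ ν ⊕ σ → Module.End ℂ V) (w : ν → ℤ) (x : Finset ν → V)
    (I : Finset ν) : dir0 z w x I = ∑ j, (∑ J, eps j I J • z (Sum.inr (Sum.inl j)) (x J) +
      (w j : ℂ) • ∑ J, iot j I J • z (Sum.inl (Sum.inl j)) (x J)) := by
  simp only [dir0, LinearMap.sum_apply, Finset.sum_apply, LinearMap.add_apply, Pi.add_apply,
    LinearMap.smul_apply, Pi.smul_apply, Module.End.mul_apply, act_apply, pw_apply]

end LiftaAux

open LiftaAux in
theorem p_LIFTA (hREES : S_REES) (hEQV : S_EQV) (hCLIF : S_CLIF) (hGRM : S_GRM) (hCP : S_CP) :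
    S_LIFTA := by
  intro ν σ _ _ _ _ S M F U W c hM hF hg hW hU hUF hc hfib
  obtain ⟨V, iV, mV, f, z, O, hker, honto, -, hz, hcomm, hfg, -, -, -, hdesc, hrad⟩ :=
    hGRM (ν ⊕ σ) M F hM hF
  obtain ⟨hrx, hmap, hst⟩ := ((hREES (ν ⊕ σ) M).2.2.2.2.2.2 F).2
  have hrz : ∀ v ∈ lat F, ∀ s, M.rz s v ∈ lat F := fun v hv =>
    ((hst hF.mono hF.stX hF.stD).1 v hv).2
  have hshL : ∀ v ∈ lat F, sh M.V v ∈ lat F := fun v hv =>
    ((hst hF.mono hF.stX hF.stD).1 v hv).1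
  have hsurj : ∀ x : V, ∃ u ∈ lat F, f u = x := fun x => by
    have : x ∈ (lat F).map f := honto ▸ Submodule.mem_top
    exact this
  obtain ⟨U', hU', -⟩ := hdesc U hUF
  have hγ : ∀ ξ : Matrix (ν ⊕ σ) (ν ⊕ σ) ℂ, ∃ γ : Module.End ℂ V, ξ ∈ S.g →
      ∀ u ∈ lat F, γ (f u) = f (rx (M.vf ξ) u) := fun ξ => by
    by_cases h : ξ ∈ S.g
    · obtain ⟨γ, hγ, -⟩ := hdesc _ (hg ξ h)
      exact ⟨γ, fun _ => hγ⟩
    · exact ⟨0, fun h' => (h h').elim⟩
  choose γ hγ using hγ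
  have hgL : ∀ ξ ∈ S.g, ∀ v ∈ lat F, rx (M.vf ξ) v ∈ lat F := fun ξ h => hrx _ (hg ξ h)
  have hBL : (lat F).map (sh M.V) ≤ lat F := by
    rintro _ ⟨v, hv, rfl⟩; exact hshL v hv
  have hE : Eqv S.g M.rz (fun ξ => rx (M.vf ξ)) ((lat F).map (sh M.V)) (lat F) := by
    refine hEQV (ν ⊕ σ) M S.g (lat F) _ hM hF.fg hgL le_rfl hBL ?_ ?_
    · rintro s _ ⟨v, hv, rfl⟩
      refine ⟨M.rz s v, hrz v hv s, ?_⟩
      ext k
      rcases s with s | s
      · rw [sh_apply, rzX_apply, rzX_apply, sh_apply]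
      · rw [sh_apply, rzD_apply, rzD_apply, sh_apply]
    · rintro ξ h _ ⟨v, hv, rfl⟩
      refine ⟨rx (M.vf ξ) v, hgL ξ h v hv, ?_⟩
      ext k
      rw [sh_apply, rx_apply, rx_apply, sh_apply]
  have hB0 : ∀ u ∈ (lat F).map (sh M.V), f u = 0 := fun u hu => (hker u (hBL hu)).2 hu
  have hE0 : Eqv S.g z γ ⊥ ⊤ := by
    refine ⟨bot_le, ?_, fun _ _ _ => trivial, ?_, ?_, ?_, fun _ _ _ _ => trivial, ?_, ?_, ?_⟩
    · intro s v hv
      rw [Submodule.mem_bot] at hv ⊢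
      rw [hv, map_zero]
    · intro s t v _
      rw [Submodule.mem_bot, sub_eq_zero]
      exact LinearMap.congr_fun (hcomm s t) v
    · obtain ⟨G, hG⟩ := hfg
      exact ⟨G, fun _ _ => trivial, by rw [hG]; exact le_sup_right⟩
    · intro ξ _ v hv
      rw [Submodule.mem_bot] at hv ⊢
      rw [hv, map_zero]
    · intro ξ h s v _
      obtain ⟨u, hu, rfl⟩ := hsurj v
      have := hB0 _ (hE.leibX ξ h s u hu)
      rw [Submodule.mem_bot, hz _ u hu, hγ ξ h _ (hrz u hu _), hγ ξ h u hu, hz _ _ (hgL ξ h u hu),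
        ← this]
      simp only [map_sub, map_sum, map_smul, hz _ u hu]
    · intro ξ h s v _
      obtain ⟨u, hu, rfl⟩ := hsurj v
      have := hB0 _ (hE.leibD ξ h s u hu)
      rw [Submodule.mem_bot, hz _ u hu, hγ ξ h _ (hrz u hu _), hγ ξ h u hu, hz _ _ (hgL ξ h u hu),
        ← this]
      simp only [map_sub, map_add, map_sum, map_smul, hz _ u hu]
    · intro ξ h v _
      obtain ⟨u, hu, rfl⟩ := hsurj v
      have := hB0 _ (hE.mu ξ h u hu)
      rw [Submodule.mem_bot, ← this]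
      simp only [map_sum, map_smul, hz _ u hu, hz _ _ (hrz u hu _)]
  have hUz : ∀ v, U' * z v = z (Sum.map (Sum.map S.bar S.τ) (Sum.map S.bar S.τ) v) * U' := by
    intro v
    refine LinearMap.ext fun x => ?_
    obtain ⟨u, hu, rfl⟩ := hsurj x
    rw [Module.End.mul_apply, Module.End.mul_apply, hz _ u hu, hU' _ (hrz u hu _), hU' u hu,
      hz _ _ (hrx U hUF u hu), rx_rz M _ U hU]
  have hUc : ∀ v, U' v - c • v ∈ radz z (ext0 ν S.Y) ⊤ := by
    intro x
    obtain ⟨u, hu, rfl⟩ := hsurj x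
    have := hrad _ _ (hfib u hu)
    rwa [map_sub, map_smul, ← hU' u hu] at this
  let π : (ℤ →₀ (Finset ν → M.V)) →ₗ[ℂ] (Finset ν → V) := LinearMap.pi fun I => f ∘ₗ sL I
  have hπ : ∀ u I, π u I = f (sI I u) := fun _ _ => rfl
  have hdir : ∀ (p : ℕ) (δ : ℤ), δ + (p % 2 : ℕ) = 1 → ∀ u ∈ lat (filF (ν := ν) F), ∀ u',
      (∀ k, u k ∈ parF ν M.V p) → (∀ k, u' k = dir M S.w (u (k - δ))) →
      u' ∈ lat (filF (ν := ν) F) ∧ π u' = dir0 z S.w (π u) := by
    intro p δ hp u hu u' hpar hu'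
    have h1 := (mem_latF F u).1 hu
    refine ⟨(mem_latF F u').2 fun I => ?_, funext fun I => ?_⟩
    · rw [sI_dir hCLIF M S.w p δ hp u u' hpar hu' I]
      refine Submodule.sum_mem _ fun j _ => Submodule.add_mem _ ?_ (Submodule.smul_mem _ _ ?_) <;>
        exact Submodule.sum_mem _ fun J _ => Submodule.smul_mem _ _ (hrz _ (h1 J) _)
    · rw [hπ, sI_dir hCLIF M S.w p δ hp u u' hpar hu' I, dir0_apply]
      simp only [map_sum, map_add, map_smul, hπ, hz _ _ (h1 _)]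
  refine ⟨V, iV, mV, π, z, act V W * pw (Finset ν) U', ?_, ?_, hcomm, hfg, ?_, ?_, ?_, ?_, ?_, ?_,
    hCP ν σ V S z γ U' W c hE0 hW hUz hc hUc⟩
  · rw [eq_top_iff]
    intro y _
    choose a ha hfa using fun I => hsurj (y I)
    obtain ⟨u, hu⟩ := exists_sI a
    exact ⟨u, (mem_latF F u).2 fun I => hu I ▸ ha I, funext fun I => by rw [hπ, hu, hfa]⟩
  · intro u hu
    have h1 := (mem_latF F u).1 hu
    have h2 := ((hREES σ (forms M)).2.2.2.2.2.2 (filF F)).2.2.1 u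
    refine Iff.trans ?_ h2.symm
    simp only [funext_iff, hπ, Pi.zero_apply, hker _ (h1 _), hmap, sI_apply]
    constructor
    · intro h k
      refine (mem_filF F _ _).2 fun I => ?_
      have := h I (k + ((I.card / 2 : ℕ) : ℤ))
      rwa [add_sub_cancel_right, add_sub_right_comm] at this
    · intro h I k
      have := (mem_filF F _ _).1 (h (k - ((I.card / 2 : ℕ) : ℤ))) I
      rwa [sub_right_comm, sub_add_cancel] at this
  · intro v u hu
    funext I
    rw [hπ, sI_base, ← hz _ _ ((mem_latF F u).1 hu I)]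
    rfl
  · intro p u _ hpar
    refine (mem_parF p _).2 fun I hI => ?_
    have : sI I u = 0 := by
      ext k
      rw [sI_apply, (mem_parF p _).1 (hpar _) I hI]; rfl
    rw [hπ, this, map_zero]
  · intro u hu hpar
    exact hdir 0 1 (by simp) u hu _ hpar fun k => by rw [sh_apply, rx_apply]
  · intro u hu hpar
    exact hdir 1 0 (by simp) u hu _ hpar fun k => by rw [rx_apply, sub_zero]
  · intro u hu
    have h1 := (mem_latF F u).1 hu
    refine ⟨(mem_latF F _).2 fun I => ?_, funext fun I => ?_⟩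
    · rw [sI_tw W hW.deg]
      exact Submodule.sum_mem _ fun J _ => Submodule.smul_mem _ _ (hrx U hUF _ (h1 J))
    · rw [hπ, sI_tw W hW.deg, Module.End.mul_apply, act_apply]
      simp only [map_sum, map_smul, pw_apply, hπ, hU' _ (h1 _)]
  · intro ξ ξ₀ h v
    exact (Submodule.mem_bot ℂ).1 (hE0.mu _ h v trivial)

end Pool.Agent.P.MP_52ab5a_al
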