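import Pool.Agent.P.MP_52ab5a_al.B.Iface

/-! Step LIFTB of the open orbit project. -/

namespace Pool.Agent.P.MP_52ab5a_al

open MvPolynomial WM

theorem p_LIFTB (hREES : S_REES) (hFE : S_FE) (hLBA : S_LBA) (hLBB : S_LBB) :
    S_LIFTB := by
  classical
  intro ν σ _ _ _ _ S M F T V _ _ π z T₀ hW hG hvf hD hGr p N₁ N₂ h1 h12 h2 _ s2 hT
  obtain ⟨-, -, -, -, -, -, R⟩ := hREES σ (forms M)
  have mem : ∀ (F' : ℤ → Submodule ℂ (Finset ν → M.V)) v, v ∈ lat F' ↔ ∀ k, v k ∈ F' k :=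
    fun F' => (R F').1
  obtain ⟨γ, eqv, hγ⟩ := hLBB ν σ S M F T V π z T₀ hW hG hvf hGr
  have A := hLBA ν σ S M F T V π z T₀ hW hG hvf hD hGr p N₂ (h1.trans h12) h2
  have rzL : ∀ v ∈ lat fun k => filF F k ⊓ N₂, ∀ s, (forms M).rz s v ∈ lat fun k => filF F k ⊓ N₂ :=
    fun v hv => (((R fun k => filF F k ⊓ N₂).2.2.2
      (fun a b hab v hv => ⟨fun I hI => hG.mono (by omega) (hv.1 I hI), hv.2⟩)
      (fun k s v hv => ⟨fun I hI => hG.stX _ _ _ (hv.1 I hI), (s2 s v hv.2).1⟩)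
      (fun k s v hv => ⟨fun I hI => by
        have := hG.stD _ (Sum.inr s) _ (hv.1 I hI)
        rw [add_right_comm] at this
        exact this, (s2 s v hv.2).2⟩)).1 v hv).2
  have txL : ∀ v ∈ lat fun k => filF F k ⊓ N₂, v ∈ lat (filF (ν := ν) F) := fun v hv =>
    (mem _ _).2 fun k => ((mem _ _).1 hv k).1
  have l1 : lat (fun k => filF F k ⊓ dirB M S.w p) ≤ lat fun k => filF F k ⊓ N₁ := fun v hv =>
    (mem _ _).2 fun k => ⟨((mem _ _).1 hv k).1, h1 ((mem _ _).1 hv k).2⟩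
  have rT : ∀ v ∈ lat fun k => filF F k ⊓ N₂, rx T v ∈ lat fun k => filF F k ⊓ N₂ := fun v hv =>
    (mem _ _).2 fun k => ⟨(mem _ _).1 (hGr.tw v (txL v hv)).1 k, hT _ ((mem _ _).1 hv k).2⟩
  have hγ' := hγ p N₂ (h1.trans h12) h2 s2
  unfold WM.fibK
  generalize (lat fun k => filF F k ⊓ N₂) = L2 at A rzL txL rT hγ' ⊢
  generalize (lat fun k => filF F k ⊓ N₁) = L1 at l1 ⊢
  have A2 : ∀ u ∈ L2, ∀ y ∈ L2, π u ∈ LinearMap.range (dir0 z S.w) ⊔ Submodule.span ℂ {π y} →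
      ∀ Y : Submodule ℂ (ℤ →₀ (Finset ν → M.V)), y ∈ Y → u ∈ L1 ⊔ L2.map (sh _) ⊔ Y := by
    intro u hu y hy h Y hY
    obtain ⟨b, hb, _, hx, e⟩ := Submodule.mem_sup.1 h
    obtain ⟨a, rfl⟩ := Submodule.mem_span_singleton.1 hx
    have := (A (u - a • y) (L2.sub_mem hu (L2.smul_mem a hy))).2 (by
      rw [map_sub, map_smul, ← e, add_sub_cancel_right]; exact hb)
    rw [← sub_add_cancel u (a • y)]
    exact Submodule.add_mem_sup (sup_le_sup_right l1 _ this) (Y.smul_mem a hY)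
  have A3 : ∀ u ∈ L2, ∀ Y ≤ L2, π u ∈ LinearMap.range (dir0 z S.w) ⊔ Y.map π →
      u ∈ L1 ⊔ L2.map (sh _) ⊔ Y := by
    intro u hu Y hY h
    obtain ⟨b, hb, _, ⟨y, hy, rfl⟩, e⟩ := Submodule.mem_sup.1 h
    exact A2 u hu y (hY hy) (e ▸ Submodule.add_mem_sup hb (Submodule.mem_span_singleton_self _))
      Y hy
  obtain ⟨f1, G0, g1, g2⟩ := hFE σ (Finset ν → V) S.g₀ S.Y (zBase z) γ _
    (L2.map π ⊔ LinearMap.range (dir0 z S.w)) _ S.lie₀ S.rigid₀ eqv le_sup_right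
    (sup_le (Submodule.map_le_iff_le_comap.2 fun u hu => (A u hu).1) eqv.le)
    (fun s v hv => by
      obtain ⟨_, ⟨u, hu, rfl⟩, b, hb, rfl⟩ := Submodule.mem_sup.1 hv
      rw [map_add, ← hGr.base s u (txL u hu)]
      exact Submodule.add_mem_sup ⟨_, rzL u hu s, rfl⟩ (eqv.zB s b hb))
    (fun ξ hξ v hv => by
      obtain ⟨_, ⟨u, hu, rfl⟩, b, hb, rfl⟩ := Submodule.mem_sup.1 hv
      rw [map_add]
      exact Submodule.add_mem_sup (hγ' ξ hξ u hu) (eqv.gB ξ hξ b hb))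
  refine ⟨?_, ?_⟩
  · have ch : ∀ g : Finset ν → V, ∃ u, g ∈ G0 → u ∈ L2 ∧ g - π u ∈ LinearMap.range (dir0 z S.w) := by
      intro g
      by_cases hg : g ∈ G0
      · obtain ⟨_, ⟨u, hu, rfl⟩, b, hb, rfl⟩ := Submodule.mem_sup.1 (g1 hg)
        exact ⟨u, fun _ => ⟨hu, by rw [add_sub_cancel_left]; exact hb⟩⟩
      · exact ⟨0, fun h => absurd h hg⟩
    choose l hl using ch
    have sub : ((G0.image l : Finset _) : Set (ℤ →₀ (Finset ν → M.V))) ⊆ L2 := fun u hu => by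
      obtain ⟨g, hg, rfl⟩ := Finset.mem_image.1 hu
      exact (hl g hg).1
    have gl : gen (Set.range (forms M).rz) (G0.image l : Finset _) ≤ L2 :=
      gen_le sub (by rintro _ ⟨s, rfl⟩ v hv; exact rzL v hv s)
    refine ⟨G0.image l, sub, fun u hu => A3 u hu _ gl ?_⟩
    refine (g2.trans (sup_le le_sup_left (gen_le (fun g hg => ?_) ?_)))
      (Submodule.mem_sup_left ⟨u, hu, rfl⟩)
    · rw [← sub_add_cancel g (π (l g))]
      exact Submodule.add_mem_sup (hl g hg).2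
        ⟨_, subset_gen _ _ (Finset.mem_image_of_mem l hg), rfl⟩
    · rintro _ ⟨s, rfl⟩ v hv
      obtain ⟨b, hb, _, ⟨y, hy, rfl⟩, rfl⟩ := Submodule.mem_sup.1 hv
      rw [map_add, ← hGr.base s y (txL y (gl hy))]
      exact Submodule.add_mem_sup (eqv.zB s b hb) ⟨_, gen_stable (Set.mem_range_self s) hy, rfl⟩
  · obtain ⟨c, hc, hs⟩ := hGr.scal
    refine ⟨c, hc, fun u hu => ?_⟩
    have hw : rx T u - c • u ∈ L2 := L2.sub_mem (rT u hu) (L2.smul_mem c hu)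
    have rl : radz (forms M).rz S.Y L2 ≤ L2 := iSup_le fun s => by
      rintro _ ⟨v, hv, rfl⟩
      exact L2.sub_mem (rzL v hv s) (L2.smul_mem _ hv)
    rw [← sup_assoc]
    refine A3 _ hw _ rl (SetLike.le_def.1 (f1.trans (sup_le le_sup_left (iSup_le fun s => ?_)))
      ⟨Submodule.mem_sup_left ⟨_, hw, rfl⟩, ?_⟩)
    · rintro _ ⟨v, hv, rfl⟩
      obtain ⟨_, ⟨y, hy, rfl⟩, b, hb, rfl⟩ := Submodule.mem_sup.1 hv
      rw [map_add, add_comm]
      refine Submodule.add_mem_sup (Submodule.sub_mem _ (eqv.zB s b hb) (Submodule.smul_mem _ _ hb))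
        ⟨_, Submodule.mem_iSup_of_mem s ⟨y, hy, rfl⟩, ?_⟩
      simp only [LinearMap.sub_apply, LinearMap.smul_apply, Module.End.one_apply, map_sub, map_smul]
      rw [hGr.base s y (txL y hy)]
    · rw [map_sub, map_smul, (hGr.tw u (txL u hu)).2]
      exact hs _ (A u hu).1

end Pool.Agent.P.MP_52ab5a_al
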