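import Pool.Agent.P.MP_52ab5a_al.B.Iface
import Pool.Agent.P.MP_52ab5a_al.A.Iface

/-! Step LIFTC of the open orbit project. -/

namespace Pool.Agent.P.MP_52ab5a_al

open MvPolynomial WM

namespace LiftcAux

section General

variable {V V' : Type} [AddCommGroup V] [Module ℂ V] [AddCommGroup V'] [Module ℂ V']

theorem mem_lat (F : ℤ → Submodule ℂ V) (v : ℤ →₀ V) : v ∈ lat F ↔ ∀ k, v k ∈ F k := by
  simp [lat]

theorem sh_apply (u : ℤ →₀ V) (k : ℤ) : sh V u k = u (k - 1) := by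
  have h : Function.Injective fun j : ℤ => j + 1 := add_left_injective 1
  have := Finsupp.mapDomain_apply h u (k - 1)
  simpa [sh] using this

theorem rx_apply (T : Module.End ℂ V) (u : ℤ →₀ V) (k : ℤ) : rx T u k = T (u k) := by
  simp [rx]

/-- The map on coefficients. -/
noncomputable def fh (f : V →ₗ[ℂ] V') : (ℤ →₀ V) →ₗ[ℂ] (ℤ →₀ V') := Finsupp.mapRange.linearMap f

theorem fh_apply (f : V →ₗ[ℂ] V') (u : ℤ →₀ V) (k : ℤ) : fh f u k = f (u k) := by
  simp [fh]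

theorem fh_sh (f : V →ₗ[ℂ] V') (u : ℤ →₀ V) : fh f (sh V u) = sh V' (fh f u) := by
  ext k; simp only [fh_apply, sh_apply]

theorem fh_mem (f : V →ₗ[ℂ] V') (L : ℤ → Submodule ℂ V) {u : ℤ →₀ V} (hu : u ∈ lat L) :
    fh f u ∈ lat fun k => (L k).map f := by
  rw [mem_lat] at hu ⊢
  intro k
  rw [fh_apply]
  exact Submodule.mem_map_of_mem (hu k)

theorem lat_lift (f : V →ₗ[ℂ] V') (L : ℤ → Submodule ℂ V) {v : ℤ →₀ V'}
    (hv : v ∈ lat fun k => (L k).map f) : ∃ u ∈ lat L, fh f u = v := by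
  classical
  rw [mem_lat] at hv
  choose u hu hfu using fun k => Submodule.mem_map.1 (hv k)
  refine ⟨Finsupp.onFinset v.support (fun k => if v k = 0 then 0 else u k) fun k hk => ?_, ?_, ?_⟩
  · rw [Finsupp.mem_support_iff]
    intro h0
    simp [h0] at hk
  · rw [mem_lat]
    intro k
    rw [Finsupp.onFinset_apply]
    split_ifs
    · exact (L k).zero_mem
    · exact hu k
  · ext k
    rw [fh_apply, Finsupp.onFinset_apply]
    split_ifs with h
    · simp [h]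
    · exact hfu k

end General

section Forms

variable {ν σ : Type} [Fintype ν] [LinearOrder ν] [Fintype σ]

omit [Fintype ν] in
theorem eps_card {j : ν} {I J : Finset ν} (h : eps j I J ≠ 0) : I.card = J.card + 1 := by
  unfold eps at h
  rw [Matrix.of_apply] at h
  split_ifs at h with h1
  · rw [h1.2, Finset.card_erase_add_one h1.1]
  · exact absurd rfl h

theorem lam_card (ξ : Matrix ν ν ℂ) {I J : Finset ν} (h : lam ξ I J ≠ 0) : I.card = J.card := by
  by_contra hne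
  apply h
  unfold lam
  simp only [Matrix.sum_apply, Matrix.smul_apply, Matrix.mul_apply]
  refine Finset.sum_eq_zero fun j _ => Finset.sum_eq_zero fun k _ => ?_
  rw [Finset.sum_eq_zero, smul_zero]
  intro K _
  by_contra hK
  have h1 := eps_card (left_ne_zero_of_mul hK)
  have h2 : eps j J K ≠ 0 := right_ne_zero_of_mul hK
  have h3 := eps_card h2
  omega

omit [Fintype ν] [LinearOrder ν] in
theorem mem_filF {V : Type} [AddCommGroup V] [Module ℂ V] (F : ℤ → Submodule ℂ V) (k : ℤ)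
    (v : Finset ν → V) : v ∈ filF F k ↔ ∀ I : Finset ν, v I ∈ F (k + (I.card / 2 : ℕ)) := by
  simp [filF, Submodule.mem_pi]

theorem lieD_filF (M : WM (ν ⊕ σ)) (F : ℤ → Submodule ℂ M.V) (ξ : Matrix ν ν ℂ)
    (ξ₀ : Matrix σ σ ℂ) (h : ∀ k, ∀ v ∈ F k, M.vf (Matrix.fromBlocks ξ 0 0 ξ₀) v ∈ F k) (k : ℤ)
    (v : Finset ν → M.V) (hv : v ∈ filF F k) : lieD M ξ ξ₀ v ∈ filF F k := by
  rw [mem_filF] at hv ⊢
  intro I
  unfold lieD
  rw [LinearMap.add_apply, Pi.add_apply, pw_apply, act_apply]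
  refine Submodule.add_mem _ (h _ _ (hv I)) (Submodule.sum_mem _ fun J _ => ?_)
  by_cases h0 : lam ξ I J = 0
  · rw [h0, zero_smul]; exact Submodule.zero_mem _
  · rw [lam_card ξ h0]; exact Submodule.smul_mem _ _ (hv J)

theorem vf_comm {P U : WM σ} {N₁ N₂ : Submodule ℂ P.V} {f : P.V →ₗ[ℂ] U.V}
    (hf : PIsoBy Set.univ P N₁ N₂ U ⊥ ⊤ f) (ξ₀ : Matrix σ σ ℂ) {v : P.V} (hv : v ∈ N₂) :
    P.vf ξ₀ v ∈ N₂ ∧ f (P.vf ξ₀ v) = U.vf ξ₀ (f v) := by
  unfold WM.vf
  simp only [LinearMap.sum_apply, LinearMap.smul_apply, Module.End.mul_apply, map_sum, map_smul]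
  refine ⟨Submodule.sum_mem _ fun s _ => Submodule.sum_mem _ fun t _ => Submodule.smul_mem _ _
    (hf.stZ t trivial _ (hf.stZ s trivial v hv).2).1, ?_⟩
  refine Finset.sum_congr rfl fun s _ => Finset.sum_congr rfl fun t _ => ?_
  have h1 := (hf.comm s trivial v hv).2
  have h2 := (hf.comm t trivial _ (hf.stZ s trivial v hv).2).1
  rw [Submodule.mem_bot, sub_eq_zero] at h1 h2
  rw [h2, h1]

omit [Fintype σ] in
theorem rz_comm {P U : WM σ} {N₁ N₂ : Submodule ℂ P.V} {f : P.V →ₗ[ℂ] U.V}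
    (hf : PIsoBy Set.univ P N₁ N₂ U ⊥ ⊤ f) (s : σ ⊕ σ) {u : ℤ →₀ P.V} (hu : ∀ k, u k ∈ N₂) :
    fh f (P.rz s u) = U.rz s (fh f u) := by
  ext k
  rcases s with s | s
  · have h1 := (hf.comm s trivial _ (hu k)).1
    rw [Submodule.mem_bot, sub_eq_zero] at h1
    simp only [WM.rz, Sum.elim_inl, fh_apply, rx_apply, h1]
  · have h1 := (hf.comm s trivial _ (hu (k - 1))).2
    rw [Submodule.mem_bot, sub_eq_zero] at h1
    simp only [WM.rz, Sum.elim_inr, Module.End.mul_apply, fh_apply, rx_apply, sh_apply, h1]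

theorem lie_comm [DecidableEq σ] (hCART : S_CART) (M : WM (ν ⊕ σ)) (hM : M.IsW) (w : ν → ℤ)
    (p : ℕ) {N₁ N₂ : Submodule ℂ (Finset ν → M.V)} {U : WM σ} {f : (Finset ν → M.V) →ₗ[ℂ] U.V}
    (h1 : dirB M w p ≤ N₁) (h2 : N₂ ≤ dirZ M w p)
    (hf : PIsoBy Set.univ (forms M) N₁ N₂ U ⊥ ⊤ f) (ξ : Matrix ν ν ℂ) (ξ₀ : Matrix σ σ ℂ)
    (hc : ξ * dg w = dg w * ξ) {v : Finset ν → M.V} (hv : v ∈ N₂) :
    lieD M ξ ξ₀ v ∈ N₂ ∧ f (lieD M ξ ξ₀ v) = U.vf ξ₀ (f v) := by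
  obtain ⟨-, -, c3, c4, c5, c6, -, -, -, -, -, c12, -⟩ := hCART ν σ M hM
  obtain ⟨hv1, hv2⟩ := vf_comm hf ξ₀ hv
  have hz : dR M v + io M (dg w) v = 0 := (h2 hv).2
  have e3 : io M ξ (io M (dg w) v) + io M (dg w) (io M ξ v) = 0 :=
    LinearMap.congr_fun (c3 ξ (dg w)) v
  have e4 : dR M (io M ξ v) + io M ξ (dR M v) = lieD M ξ ξ₀ v - (forms M).vf ξ₀ v :=
    LinearMap.congr_fun (c4 ξ ξ₀) v
  have e5 : lieD M ξ ξ₀ (dR M v) = dR M (lieD M ξ ξ₀ v) := LinearMap.congr_fun (c5 ξ ξ₀) v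
  have e6 : lieD M ξ ξ₀ (io M (dg w) v) = io M (dg w) (lieD M ξ ξ₀ v) :=
    LinearMap.congr_fun (c6 ξ ξ₀ (dg w) hc) v
  have hd : dir M w (io M ξ v) = lieD M ξ ξ₀ v - (forms M).vf ξ₀ v := by
    have h0 : io M ξ (dR M v) + io M ξ (io M (dg w) v) = 0 := by rw [← map_add, hz, map_zero]
    show dR M (io M ξ v) + io M (dg w) (io M ξ v) = _
    rw [← e4]
    congr 1
    rw [eq_neg_of_add_eq_zero_right e3, eq_neg_of_add_eq_zero_left h0]
  have hl : dir M w (lieD M ξ ξ₀ v) = 0 := by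
    show dR M (lieD M ξ ξ₀ v) + io M (dg w) (lieD M ξ ξ₀ v) = 0
    rw [← e5, ← e6, ← map_add, hz, map_zero]
  have hB : lieD M ξ ξ₀ v - (forms M).vf ξ₀ v ∈ dirB M w p := by
    refine ⟨Submodule.sub_mem _ ((c12 p ξ v (h2 hv).1).2.2 ξ₀) (h2 hv1).1, io M ξ v, ?_, hd⟩
    show dir M w (dir M w (io M ξ v)) = 0
    have h5 : dir M w ((forms M).vf ξ₀ v) = 0 := (h2 hv1).2
    rw [hd, map_sub, hl, h5, sub_zero]
  have hN := hf.le (h1 hB)
  refine ⟨by simpa using N₂.add_mem hN hv1, ?_⟩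
  have h0 : f (lieD M ξ ξ₀ v - (forms M).vf ξ₀ v) = 0 := (hf.ker _ hN).2 (h1 hB)
  rw [map_sub, sub_eq_zero] at h0
  rw [h0, hv2]

end Forms

end LiftcAux

open LiftcAux in
theorem p_LIFTC (hDIAG : S_DIAG) (hREES : S_REES) (hVF : S_VF) (hCART : S_CART) :
    S_LIFTC := by
  intro ν σ _ _ _ _ S M F T p N₁ N₂ U f WU c hM hF hg hdiag h1 h2 hf hT hTF hG hc
  classical
  set L : ℤ → Submodule ℂ (Finset ν → M.V) := fun k => filF F k ⊓ N₂ with hL
  have Lmono : Monotone L := by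
    intro a b hab
    refine inf_le_inf_right _ fun v hv => ?_
    rw [mem_filF] at hv ⊢
    exact fun I => hF.mono (by omega) (hv I)
  have LX : ∀ k s, ∀ v ∈ L k, (forms M).X s v ∈ L k := by
    intro k s v hv
    refine ⟨?_, (hf.stZ s trivial v hv.2).1⟩
    have := (mem_filF F k v).1 hv.1
    exact (mem_filF F k _).2 fun I => hF.stX _ _ _ (this I)
  have LD : ∀ k s, ∀ v ∈ L k, (forms M).D s v ∈ L (k + 1) := by
    intro k s v hv
    refine ⟨?_, (hf.stZ s trivial v hv.2).2⟩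
    have := (mem_filF F k v).1 hv.1
    refine (mem_filF F _ _).2 fun I => ?_
    rw [add_right_comm]
    exact hF.stD _ _ _ (this I)
  have Lrz : ∀ u ∈ lat L, ∀ s, (forms M).rz s u ∈ lat L := fun u hu =>
    ((((hREES σ (forms M)).2.2.2.2.2.2 L).2.2.2 Lmono LX LD).1 u hu).2
  have LN : ∀ u ∈ lat L, ∀ k, u k ∈ N₂ := fun u hu k => ((mem_lat L u).1 hu k).2
  have kill : ∀ u ∈ lat (fun k => filF F k ⊓ N₁), fh f u = 0 := by
    intro u hu
    ext k
    have := ((mem_lat _ u).1 hu k).2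
    rw [fh_apply]
    exact (hf.ker _ (hf.le this)).2 this
  have onto : ∀ y : U.V, ∃ v ∈ N₂, f v = y := by
    intro y
    have := hf.onto (Submodule.mem_top (x := y))
    rw [sup_bot_eq] at this
    exact this
  have hlie : ∀ ξ ξ₀, Matrix.fromBlocks ξ 0 0 ξ₀ ∈ S.g → ξ * dg S.w = dg S.w * ξ →
      ∀ k, ∀ v ∈ (L k).map f, U.vf ξ₀ v ∈ (L k).map f := by
    rintro ξ ξ₀ hξ hcm k _ ⟨v, hv, rfl⟩
    obtain ⟨a, b⟩ := lie_comm hCART M hM S.w p h1 h2 hf ξ ξ₀ hcm hv.2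
    exact ⟨_, ⟨lieD_filF M F ξ ξ₀ (hg _ hξ) k v hv.1, a⟩, b⟩
  have hdg : dg S.wν * dg S.w = dg S.w * dg S.wν := by
    simp only [dg, Matrix.diagonal_mul_diagonal, mul_comm]
  have heu : U.vf (dg S.w₀) = U.eu S.w₀ := (hVF σ U).2.1 S.w₀
  have mono' : Monotone fun k => (L k).map f := fun a b hab => Submodule.map_mono (Lmono hab)
  have stX' : ∀ k s, ∀ v ∈ (L k).map f, U.X s v ∈ (L k).map f := by
    rintro k s _ ⟨v, hv, rfl⟩
    have h := (hf.comm s trivial v hv.2).1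
    rw [Submodule.mem_bot, sub_eq_zero] at h
    exact ⟨_, LX k s v hv, h⟩
  have stD' : ∀ k s, ∀ v ∈ (L k).map f, U.D s v ∈ (L (k + 1)).map f := by
    rintro k s _ ⟨v, hv, rfl⟩
    have h := (hf.comm s trivial v hv.2).2
    rw [Submodule.mem_bot, sub_eq_zero] at h
    exact ⟨_, LD k s v hv, h⟩
  have bot' : ∃ k₀, ∀ k < k₀, (L k).map f = ⊥ := by
    obtain ⟨k₀, hk₀⟩ := hF.bot
    refine ⟨k₀ - Fintype.card ν, fun k hk => ?_⟩
    rw [eq_bot_iff]
    rintro _ ⟨v, hv, rfl⟩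
    have hv0 : v = 0 := by
      funext I
      have h := (mem_filF F k v).1 hv.1 I
      have hc : I.card ≤ Fintype.card ν := Finset.card_le_univ I
      rw [hk₀ _ (by omega)] at h
      exact h
    simp [hv0]
  have shm : (lat L).map (sh _) ≤ ((lat fun k => (L k).map f).map (sh U.V)).comap (fh f) := by
    rintro _ ⟨u, hu, rfl⟩
    exact ⟨fh f u, fh_mem f L hu, (fh_sh f u).symm⟩
  refine ⟨fun k => (L k).map f, ⟨mono', bot', fun y => ?_, stX', stD', ?_⟩, fun ξ₀ hξ₀ => ?_, ?_,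
    fun y hy => ?_, ?_, ?_⟩
  · obtain ⟨v, hv, rfl⟩ := onto y
    choose κ hκ using fun I : Finset ν => hF.exh (v I)
    obtain ⟨k, hk⟩ := Finite.exists_le κ
    refine ⟨k, v, ⟨(mem_filF F k v).2 fun I => hF.mono ?_ (hκ I), hv⟩, rfl⟩
    have := hk I
    omega
  · obtain ⟨G, hG1, hG2⟩ := hG
    refine (((hREES σ U).2.2.2.2.2.2 _).2.2.2 mono' stX' stD').2 bot' (G.image (fh f)) ?_ ?_
    · intro y hy
      rw [Finset.coe_image] at hy
      obtain ⟨u, hu, rfl⟩ := hy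
      exact fh_mem f L (hG1 hu)
    · intro y hy
      obtain ⟨u, hu, rfl⟩ := lat_lift f L hy
      have key : lat (fun k => filF F k ⊓ N₁) ⊔ (lat L).map (sh _) ⊔
          gen (Set.range (forms M).rz) G ≤ ((lat fun k => (L k).map f).map (sh U.V) ⊔
            gen (Set.range U.rz) (G.image (fh f) : Finset (ℤ →₀ U.V))).comap (fh f) := by
        refine sup_le (sup_le (fun a ha => ?_) fun a ha => ?_) ?_
        · rw [Submodule.mem_comap, kill a ha]; exact Submodule.zero_mem _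
        · exact Submodule.mem_sup_left (shm ha)
        · have : gen (Set.range (forms M).rz) G ≤ lat L ⊓
              (gen (Set.range U.rz) (G.image (fh f) : Finset (ℤ →₀ U.V))).comap (fh f) := by
            refine gen_le (fun a ha => ⟨hG1 ha, subset_gen _ _ ?_⟩) ?_
            · rw [Finset.coe_image]; exact ⟨a, ha, rfl⟩
            · rintro _ ⟨s, rfl⟩ a ha
              refine ⟨Lrz a ha.1 s, ?_⟩
              refine Submodule.mem_comap.2 ?_
              rw [rz_comm hf s (LN a ha.1)]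
              exact gen_stable (Set.mem_range_self s) ha.2
          exact fun a ha => Submodule.mem_sup_right (this ha).2
      exact key (hG2 hu)
  · obtain ⟨ξ, hξ, hcm⟩ := S.block ξ₀ hξ₀
    exact hlie ξ ξ₀ hξ hcm
  · rintro k _ ⟨v, hv, rfl⟩
    exact ⟨T v, ⟨hTF k v hv.1, (hT v hv.2).1⟩, (hT v hv.2).2.symm⟩
  · obtain ⟨u, hu, rfl⟩ := lat_lift f L hy
    have e : rx WU (fh f u) - c • fh f u = fh f (rx T u - c • u) := by
      rw [map_sub, map_smul]
      congr 1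
      ext k
      simp only [rx_apply, fh_apply, (hT _ (LN u hu k)).2]
    have key : lat (fun k => filF F k ⊓ N₁) ⊔ (forms M).fibK L S.Y ≤
        (U.fibK (fun k => (L k).map f) S.Y).comap (fh f) := by
      refine sup_le (fun a ha => ?_) (sup_le (fun a ha => ?_) (iSup_le fun s => ?_))
      · rw [Submodule.mem_comap, kill a ha]; exact Submodule.zero_mem _
      · exact Submodule.mem_sup_left (shm ha)
      · rintro _ ⟨a, ha, rfl⟩
        refine Submodule.mem_sup_right (Submodule.mem_iSup_of_mem s ⟨fh f a, fh_mem f L ha, ?_⟩)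
        simp only [LinearMap.sub_apply, LinearMap.smul_apply, Module.End.one_apply, map_sub,
          map_smul]
        rw [rz_comm hf s (LN a ha)]
    rw [e]
    exact key (hc u hu)
  · have hE := (hCART ν σ M hM).2.2.2.2.2.2.2.2.1 S.wν S.w₀ hdiag
    obtain ⟨d1, d2, -⟩ := hDIAG _ _ hE
    have hl := fun v (hv : v ∈ N₂) =>
      lie_comm hCART M hM S.w p h1 h2 hf (dg S.wν) (dg S.w₀) hdg hv
    unfold Diag
    rw [eq_top_iff]
    intro y _
    obtain ⟨v, hv, rfl⟩ := onto y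
    obtain ⟨cc, hc1, hc2⟩ := d1 v
    have hN := d2 N₂ (fun v hv => (hl v hv).1) cc
      (fun a => by rw [hc1 a, sub_self]; exact N₂.zero_mem) (hc2.symm ▸ hv)
    rw [← hc2, Finsupp.sum, map_sum]
    refine Submodule.sum_mem _ fun a _ => Submodule.mem_iSup_of_mem a ?_
    rw [Module.End.mem_eigenspace_iff, ← heu, ← (hl _ (hN a)).2, hc1 a, map_smul]
  · rw [← heu]
    exact hlie _ _ S.rho_mem hdg

end Pool.Agent.P.MP_52ab5a_al
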