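import Pool.Agent.P.MP_52ab5a_al.B.Iface
import Pool.Agent.P.MP_52ab5a_al.A.Iface

/-! Step LOW of the open orbit project. -/

namespace Pool.Agent.P.MP_52ab5a_al

open MvPolynomial WM

namespace LowAux

variable {V : Type} [AddCommGroup V] [Module ℂ V]

/-- The sum of the eigenspaces with real part at least `r`. -/
noncomputable def up (E : Module.End ℂ V) (r : ℝ) : Submodule ℂ V :=
  ⨆ a : ℂ, ⨆ _ : r ≤ a.re, E.eigenspace a

theorem up_anti (E : Module.End ℂ V) {r r' : ℝ} (h : r' ≤ r) : up E r ≤ up E r' :=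
  iSup₂_le fun a ha => le_iSup₂_of_le (f := fun (a : ℂ) (_ : r' ≤ a.re) => E.eigenspace a)
    a (h.trans ha) le_rfl

theorem mem_up {E : Module.End ℂ V} {r : ℝ} {a : ℂ} {v : V} (h : r ≤ a.re) (hv : E v = a • v) :
    v ∈ up E r :=
  le_iSup₂_of_le (f := fun (a : ℂ) (_ : r ≤ a.re) => E.eigenspace a) a h le_rfl
    (Module.End.mem_eigenspace_iff.2 hv)

theorem exists_up {E : Module.End ℂ V} (h : Diag E) (v : V) : ∃ r, v ∈ up E r := by
  have hv : v ∈ ⨆ a : ℂ, E.eigenspace a := by rw [h]; trivial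
  induction hv using Submodule.iSup_induction' with
  | mem a x hx => exact ⟨a.re, mem_up le_rfl (Module.End.mem_eigenspace_iff.1 hx)⟩
  | zero => exact ⟨0, zero_mem _⟩
  | add x y _ _ hx hy =>
    obtain ⟨r, hr⟩ := hx
    obtain ⟨r', hr'⟩ := hy
    exact ⟨min r r', add_mem (up_anti E (min_le_left _ _) hr) (up_anti E (min_le_right _ _) hr')⟩

theorem exists_up_fin {E : Module.End ℂ V} (h : Diag E) (G : Finset V) :
    ∃ r, ∀ v ∈ G, v ∈ up E r := by
  classical
  induction G using Finset.induction_on with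
  | empty => exact ⟨0, by simp⟩
  | insert x G _ ih =>
    obtain ⟨r, hr⟩ := ih
    obtain ⟨r', hr'⟩ := exists_up h x
    refine ⟨min r r', fun v hv => ?_⟩
    rcases Finset.mem_insert.1 hv with rfl | hv
    · exact up_anti E (min_le_right _ _) hr'
    · exact up_anti E (min_le_left _ _) (hr v hv)

theorem step {E z : Module.End ℂ V} {d : ℤ} {B : Submodule ℂ V}
    (h : E * z = z * E + (d : ℂ) • z) (hB : ∀ v ∈ B, z v ∈ B) (r : ℝ) :
    ∀ v ∈ B ⊔ up E r, z v ∈ B ⊔ up E (r + d) := by
  have : B ⊔ up E r ≤ (B ⊔ up E (r + d)).comap z := by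
    refine sup_le (fun v hv => Submodule.mem_sup_left (hB v hv)) (iSup₂_le fun a ha v hv => ?_)
    refine Submodule.mem_sup_right (mem_up (a := a + d) (by simpa using ha) ?_)
    have h1 := LinearMap.congr_fun h v
    rw [Module.End.mem_eigenspace_iff] at hv
    simp only [Module.End.mul_apply, LinearMap.add_apply, LinearMap.smul_apply, hv, map_smul] at h1
    rw [h1, add_smul]
  exact fun v hv => this hv

theorem one_var {E z : Module.End ℂ V} {d : ℤ} {B Z : Submodule ℂ V}
    (h : E * z = z * E + (d : ℂ) • z) (hB : ∀ v ∈ B, z v ∈ B)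
    (hd : 0 < d ∨ ∃ (c : ℂ) (k : ℕ), ∀ v ∈ Z, ((z - c • (1 : Module.End ℂ V)) ^ k) v ∈ B) :
    ∃ M : ℝ, ∀ (j : ℕ) (r : ℝ), ∀ v ∈ Z, v ∈ B ⊔ up E r → (z ^ j) v ∈ B ⊔ up E (r - M) := by
  rcases hd with hd | ⟨c, k, hk⟩
  · refine ⟨0, fun j r v _ hv => ?_⟩
    rw [sub_zero]
    have hd' : (0 : ℝ) < d := by exact_mod_cast hd
    induction j with
    | zero => simpa using hv
    | succ j ih =>
      rw [pow_succ', Module.End.mul_apply]
      exact sup_le_sup_left (up_anti E (by linarith)) B (step h hB r _ ih)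
  · set y := z - c • (1 : Module.End ℂ V) with hy
    have hya : ∀ v, y v = z v - c • v := fun v => by simp [hy]
    have h0 : (0 : ℝ) ≤ |(d : ℝ)| := abs_nonneg _
    have hyB : ∀ (i : ℕ), ∀ v ∈ B, (y ^ i) v ∈ B := by
      intro i v hv
      induction i with
      | zero => simpa using hv
      | succ i ih =>
        rw [pow_succ', Module.End.mul_apply, hya]
        exact sub_mem (hB _ ih) (B.smul_mem _ ih)
    refine ⟨k * |(d : ℝ)|, fun j r v hvZ hv => ?_⟩
    have h1 : ∀ i : ℕ, (y ^ i) v ∈ B ⊔ up E (r - i * |(d : ℝ)|) := by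
      intro i
      induction i with
      | zero => simpa using hv
      | succ i ih =>
        rw [pow_succ', Module.End.mul_apply, hya]
        have := neg_abs_le (d : ℝ)
        refine sub_mem (sup_le_sup_left (up_anti E ?_) B (step h hB _ _ ih))
          (Submodule.smul_mem _ _ (sup_le_sup_left (up_anti E ?_) B ih)) <;> push_cast <;> linarith
    have h2 : ∀ i : ℕ, (y ^ i) v ∈ B ⊔ up E (r - k * |(d : ℝ)|) := by
      intro i
      rcases le_total i k with hi | hi
      · have : (i : ℝ) ≤ k := by exact_mod_cast hi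
        exact sup_le_sup_left (up_anti E (by nlinarith)) B (h1 i)
      · obtain ⟨l, rfl⟩ := Nat.exists_eq_add_of_le hi
        rw [add_comm, pow_add, Module.End.mul_apply]
        exact Submodule.mem_sup_left (hyB l _ (hk v hvZ))
    have h3 : ∀ j i : ℕ, (z ^ j) ((y ^ i) v) ∈ B ⊔ up E (r - k * |(d : ℝ)|) := by
      intro j
      induction j with
      | zero => simpa using h2
      | succ j ih =>
        intro i
        have e : z ((y ^ i) v) = (y ^ (i + 1)) v + c • (y ^ i) v := by
          rw [pow_succ', Module.End.mul_apply, hya]; abel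
        rw [pow_succ, Module.End.mul_apply, e, map_add, map_smul]
        exact add_mem (ih _) (Submodule.smul_mem _ _ (ih _))
    simpa using h3 j 0

end LowAux

open LowAux in
theorem p_LOW (hDIAG : S_DIAG) :
    S_LOW := by
  intro ι V _ _ _ z E deg B Z hz ⟨G, hG⟩ hE hdeg _ hB hZ hEB _ hs
  classical
  have := Fintype.ofFinite ι
  obtain ⟨_, _, hX⟩ := exists_commModule z hz
  choose M hM using fun s => one_var (Z := Z) (hdeg s) (hB s) (hs s)
  have hpow : ∀ s (j : ℕ) v, (X s ^ j : MvPolynomial ι ℂ) • v = (z s ^ j) v := by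
    intro s j v
    induction j with
    | zero => simp
    | succ j ih => rw [pow_succ', pow_succ', mul_smul, ih, hX, Module.End.mul_apply]
  have hZ' : ∀ f : MvPolynomial ι ℂ, ∀ v ∈ Z, f • v ∈ Z :=
    smul_mem_of_X fun s v hv => by rw [hX]; exact hZ s v hv
  have hprod : ∀ (S : Finset ι) (α : ι → ℕ) (r : ℝ), ∀ v ∈ Z, v ∈ B ⊔ up E r →
      (∏ s ∈ S, X s ^ α s : MvPolynomial ι ℂ) • v ∈ B ⊔ up E (r - ∑ s ∈ S, M s) := by
    intro S α r v hvZ hv
    induction S using Finset.induction_on with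
    | empty => simpa using hv
    | insert s S hsS ih =>
      rw [Finset.prod_insert hsS, Finset.sum_insert hsS, mul_smul, hpow,
        show r - (M s + ∑ s ∈ S, M s) = r - ∑ s ∈ S, M s - M s by ring]
      exact hM s _ _ _ (hZ' _ v hvZ) ih
  have hfin : Module.Finite (MvPolynomial ι ℂ) V := by
    refine ⟨⟨G, eq_top_iff.2 fun v _ => ?_⟩⟩
    have : gen (Set.range z) (G : Set V) ≤
        (Submodule.span (MvPolynomial ι ℂ) (G : Set V)).restrictScalars ℂ := by
      refine gen_le Submodule.subset_span ?_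
      rintro _ ⟨s, rfl⟩ w hw
      rw [← hX]
      exact Submodule.smul_mem (Submodule.span (MvPolynomial ι ℂ) (G : Set V)) _ hw
    exact this (by rw [hG]; trivial)
  let Z' : Submodule (MvPolynomial ι ℂ) V :=
    { carrier := Z
      add_mem' := Z.add_mem
      zero_mem' := Z.zero_mem
      smul_mem' := fun f v hv => hZ' f v hv }
  obtain ⟨G', hG'⟩ : Z'.FG := IsNoetherian.noetherian Z'
  obtain ⟨r₀, hr₀⟩ := exists_up_fin hE G'
  have key : ∀ v ∈ Submodule.span (MvPolynomial ι ℂ) (G' : Set V), ∀ f : MvPolynomial ι ℂ,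
      f • v ∈ B ⊔ up E (r₀ - ∑ s, M s) := by
    intro v hv
    induction hv using Submodule.span_induction with
    | mem g hg =>
      have hgZ : g ∈ Z' := hG' ▸ Submodule.subset_span hg
      intro f
      induction f using MvPolynomial.induction_on' with
      | monomial α a =>
        rw [monomial_eq, Finsupp.prod_fintype _ _ (fun _ => pow_zero _), mul_smul,
          ← algebraMap_eq, algebraMap_smul]
        exact Submodule.smul_mem _ _ (hprod _ _ _ g hgZ (Submodule.mem_sup_right (hr₀ g hg)))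
      | add p q hp hq => rw [add_smul]; exact add_mem hp hq
    | zero => intro f; rw [smul_zero]; exact zero_mem _
    | add x y _ _ hx hy => intro f; rw [smul_add]; exact add_mem (hx f) (hy f)
    | smul a x _ hx => intro f; rw [← mul_smul]; exact hx _
  refine ⟨r₀ - ∑ s, M s, fun a ha v hv hva => ?_⟩
  have h1 := key v (hG' ▸ (show v ∈ Z' from hv)) 1
  rw [one_smul] at h1
  obtain ⟨P, hP1, hP2⟩ := (hDIAG V E hE).2.2 fun b => if b = a then 1 else 0
  have h2 : B ⊔ up E (r₀ - ∑ s, M s) ≤ B.comap P := by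
    refine sup_le (fun w hw => hP2 B hEB w hw) (iSup₂_le fun b hb w hw => ?_)
    have hne : b ≠ a := fun e => by rw [e] at hb; linarith
    have := hP1 b w (Module.End.mem_eigenspace_iff.1 hw)
    rw [if_neg hne, zero_smul] at this
    show P w ∈ B
    rw [this]; exact zero_mem _
  have h3 := hP1 a v hva
  rw [if_pos rfl, one_smul] at h3
  have h4 : P v ∈ B := h2 h1
  rwa [h3] at h4

end Pool.Agent.P.MP_52ab5a_al
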