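import Pool.Agent.P.MP_52ab5a_al.B.Iface
import Pool.Agent.P.MP_52ab5a_al.A.Iface

/-! Step MINW of the open orbit project. -/

namespace Pool.Agent.P.MP_52ab5a_al

open MvPolynomial WM

namespace MinwAux

variable {σ : Type} {T : WM σ} {τ : σ ≃ σ} {W : Module.End ℂ T.V} {e : ℂ}

theorem semi_X {N : WM σ} {r : σ → σ} {W : Module.End ℂ N.V} (h : Semi N r W) (s : σ) (v : N.V) :
    W (N.X s v) = N.X (r s) (W v) := LinearMap.congr_fun (h s).1 v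

theorem semi_D {N : WM σ} {r : σ → σ} {W : Module.End ℂ N.V} (h : Semi N r W) (s : σ) (v : N.V) :
    W (N.D s v) = N.D (r s) (W v) := LinearMap.congr_fun (h s).2 v

/-- The swap as an isomorphism with the twisted module. -/
theorem tw (hW : Semi T τ W) (he : e ≠ 0) {N S S' : Submodule ℂ T.V} (hN : T.Stable N)
    (hS : T.Stable S) (hS' : T.Stable S') (l : N ≤ S) (l' : N ≤ S') (wN : ∀ v ∈ N, W v ∈ N)
    (w : ∀ v ∈ S, W v ∈ S') (w' : ∀ v ∈ S', W v ∈ S) (q : ∀ v ∈ S, W (W v) = e • v)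
    (q' : ∀ v ∈ S', W (W v) = e • v) : PIsoBy Set.univ T N S (T.res τ) N S' W where
  le := l
  stB := fun s _ => hN s
  stZ := fun s _ => hS s
  le' := l'
  stB' := fun s _ => hN (τ s)
  stZ' := fun s _ => hS' (τ s)
  maps := w
  ker := fun z hz => ⟨fun h => (N.smul_mem_iff he).1 (q z hz ▸ wN _ h), wN z⟩
  onto := fun v hv => Submodule.mem_sup_left ⟨e⁻¹ • W v, S.smul_mem _ (w' v hv), by
    rw [map_smul, q' v hv, inv_smul_smul₀ he]⟩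
  comm := fun s _ z _ => by
    rw [semi_X hW, semi_D hW]
    exact ⟨by simp, by simp⟩

theorem flip (hτ : ∀ s, τ (τ s) = s) {A : WM σ} {B Z : Submodule ℂ T.V} {B' Z' : Submodule ℂ A.V}
    (h : PIso Set.univ (T.res τ) B Z A B' Z') : PIso Set.univ T B Z (A.res τ) B' Z' := by
  obtain ⟨f, h⟩ := h
  refine ⟨f, h.le, fun s _ v hv => ?_, fun s _ v hv => ?_, h.le', fun s _ => h.stB' (τ s) trivial,
    fun s _ => h.stZ' (τ s) trivial, h.maps, h.ker, h.onto, fun s _ z hz => ?_⟩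
  · simpa only [hτ] using h.stB (τ s) trivial v hv
  · simpa only [hτ] using h.stZ (τ s) trivial v hv
  · simpa only [hτ] using h.comm (τ s) trivial z hz

theorem st_sup {S S' : Submodule ℂ T.V} (h : T.Stable S) (h' : T.Stable S') :
    T.Stable (S ⊔ S') := fun s v hv => by
  obtain ⟨a, ha, b, hb, rfl⟩ := Submodule.mem_sup.1 hv
  rw [map_add, map_add]
  exact ⟨Submodule.add_mem_sup (h s a ha).1 (h' s b hb).1,
    Submodule.add_mem_sup (h s a ha).2 (h' s b hb).2⟩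

theorem st_inf {S S' : Submodule ℂ T.V} (h : T.Stable S) (h' : T.Stable S') :
    T.Stable (S ⊓ S') := fun s v hv =>
  ⟨⟨(h s v hv.1).1, (h' s v hv.2).1⟩, (h s v hv.1).2, (h' s v hv.2).2⟩

theorem st_map (hτ : ∀ s, τ (τ s) = s) (hW : Semi T τ W) {S : Submodule ℂ T.V} (h : T.Stable S) :
    T.Stable (S.map W) := by
  rintro s _ ⟨v, hv, rfl⟩
  exact ⟨⟨_, (h (τ s) v hv).1, by rw [semi_X hW, hτ]⟩, _, (h (τ s) v hv).2, by rw [semi_D hW, hτ]⟩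

/-- The value on a direct sum. -/
theorem add_two (hPISO : S_PISO) (hHSUB : S_HSUB) {N₁ N₂ S S' : Submodule ℂ T.V}
    (H : Hol Set.univ T N₁ N₂) (hS : T.Stable S) (hS' : T.Stable S') (hi : S ⊓ S' = N₁)
    (hs : S ⊔ S' = N₂) {φ : Fn σ} (hφ : Additive φ) : φ T N₁ N₂ = φ T N₁ S + φ T N₁ S' := by
  have h := (hPISO σ Set.univ).2.2.2.1 T S S' (fun s _ => hS s) fun s _ => hS' s
  rw [hi, hs] at h
  rw [hφ.add T N₁ S N₂ H (hi ▸ inf_le_left) (hs ▸ le_sup_left) hS,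
    hφ.iso T N₁ S' T S N₂ ((hHSUB σ Set.univ).1 T N₁ S' N₂ H (hi ▸ inf_le_right)
      (hs ▸ le_sup_right) fun s _ => hS' s).1 H.1 h]

theorem fin (hPISO : S_PISO) (hHSUB : S_HSUB) (hDESC : S_DESC) (hRESM : S_RESM)
    (hW : Semi T τ W) {A : WM σ} (hA : A.IsW)
    {N₁ N₂ S S' : Submodule ℂ T.V} (H : Hol Set.univ T N₁ N₂) (hS : T.Stable S)
    (hS' : T.Stable S') (hi : S ⊓ S' = N₁) (hs : S ⊔ S' = N₂) (wN : ∀ v ∈ N₁, W v ∈ N₁)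
    (wZ : ∀ v ∈ N₂, W v ∈ N₂) (w : ∀ v ∈ S, W v ∈ S') (w' : ∀ v ∈ S', W v ∈ S)
    (i : PIso Set.univ T N₁ S A ⊥ ⊤) (i' : PIso Set.univ T N₁ S' (A.res τ) ⊥ ⊤) :
    ∃ (U : WM σ) (f : T.V →ₗ[ℂ] U.V) (WU η : Module.End ℂ U.V),
      U.Holo ∧ PIsoBy Set.univ T N₁ N₂ U ⊥ ⊤ f ∧
      (∀ v ∈ N₂, W v ∈ N₂ ∧ WU (f v) = f (W v)) ∧ Semi U τ WU ∧ Semi U id η ∧ η * η = 1 ∧
      η * WU = -(WU * η) ∧ ∀ φ : Fn σ, Additive φ → φ U ⊥ ⊤ = φ A ⊥ ⊤ + φ (A.res τ) ⊥ ⊤ := by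
  have l : N₁ ≤ S := hi ▸ inf_le_left
  have l' : N₁ ≤ S' := hi ▸ inf_le_right
  have u : S ≤ N₂ := hs ▸ le_sup_left
  have u' : S' ≤ N₂ := hs ▸ le_sup_right
  obtain ⟨U, hU, f, hf⟩ := (hPISO σ Set.univ).2.2.2.2.2.2.1 T N₁ N₂ H.1 H.2.1
    (fun s => H.2.2.1 s trivial) fun s => H.2.2.2.1 s trivial
  have k : ∀ z ∈ N₂, f z = 0 ↔ z ∈ N₁ := fun z hz => by simpa using hf.ker z hz
  have o : N₂.map f = ⊤ := top_le_iff.1 (by simpa using hf.onto)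
  have cX : ∀ s, ∀ z ∈ N₂, U.X s (f z) = f (T.X s z) := fun s z hz =>
    (sub_eq_zero.1 ((Submodule.mem_bot ℂ).1 (hf.comm s trivial z hz).1)).symm
  have cD : ∀ s, ∀ z ∈ N₂, U.D s (f z) = f (T.D s z) := fun s z hz =>
    (sub_eq_zero.1 ((Submodule.mem_bot ℂ).1 (hf.comm s trivial z hz).2)).symm
  obtain ⟨WU, hWU⟩ := (hDESC T.V N₁ N₂).2 U.V f k o W wZ fun z _ => wN z
  have hc : IsCompl (S.map f) (S'.map f) := by
    refine ⟨Submodule.disjoint_def.2 ?_, codisjoint_iff.2 (by rw [← Submodule.map_sup, hs, o])⟩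
    rintro _ ⟨a, ha, rfl⟩ ⟨b, hb, hab⟩
    have h1 : a - b ∈ N₁ := (k _ (N₂.sub_mem (u ha) (u' hb))).1 (by rw [map_sub, hab, sub_self])
    have h2 : a ∈ S' := by simpa using S'.add_mem (l' h1) hb
    exact (k a (u ha)).2 (hi ▸ ⟨ha, h2⟩)
  obtain ⟨η, e1, e2⟩ : ∃ η : Module.End ℂ U.V, (∀ a ∈ S, η (f a) = f a) ∧
      ∀ b ∈ S', η (f b) = -f b :=
    ⟨LinearMap.ofIsCompl hc (S.map f).subtype (-(S'.map f).subtype),
      fun a ha => LinearMap.ofIsCompl_apply_left hc ⟨f a, a, ha, rfl⟩,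
      fun b hb => LinearMap.ofIsCompl_apply_right hc ⟨f b, b, hb, rfl⟩⟩
  have ext : ∀ P Q : Module.End ℂ U.V, (∀ a ∈ S, P (f a) = Q (f a)) →
      (∀ b ∈ S', P (f b) = Q (f b)) → P = Q := fun P Q h1 h2 => LinearMap.ext fun x => by
    obtain ⟨z, hz, rfl⟩ : x ∈ N₂.map f := o ▸ Submodule.mem_top
    obtain ⟨a, ha, b, hb, rfl⟩ := Submodule.mem_sup.1 (hs ▸ hz : z ∈ S ⊔ S')
    rw [map_add, map_add, map_add, h1 a ha, h2 b hb]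
  have sZ : T.Stable N₂ := fun s => H.2.2.2.1 s trivial
  have hX : ∀ s, ∀ z ∈ N₂, (WU * U.X s) (f z) = (U.X (τ s) * WU) (f z) := fun s z hz => by
    rw [Module.End.mul_apply, Module.End.mul_apply, cX s z hz, hWU _ (sZ s z hz).1, hWU z hz,
      cX _ _ (wZ z hz), semi_X hW]
  have hD : ∀ s, ∀ z ∈ N₂, (WU * U.D s) (f z) = (U.D (τ s) * WU) (f z) := fun s z hz => by
    rw [Module.End.mul_apply, Module.End.mul_apply, cD s z hz, hWU _ (sZ s z hz).2, hWU z hz,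
      cD _ _ (wZ z hz), semi_D hW]
  refine ⟨U, f, WU, η, (hHSUB σ Set.univ).2.1 T N₁ N₂ U ⊥ ⊤ H hU ⟨f, hf⟩, hf,
    fun v hv => ⟨wZ v hv, hWU v hv⟩, fun s => ⟨ext _ _ (fun a ha => hX s a (u ha))
      fun b hb => hX s b (u' hb), ext _ _ (fun a ha => hD s a (u ha)) fun b hb => hD s b (u' hb)⟩,
    fun s => ⟨ext _ _ (fun a ha => ?_) fun b hb => ?_, ext _ _ (fun a ha => ?_) fun b hb => ?_⟩,
    ext _ _ (fun a ha => ?_) fun b hb => ?_, ext _ _ (fun a ha => ?_) fun b hb => ?_,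
    fun φ hφ => ?_⟩
  · simp only [Module.End.mul_apply, id, cX s a (u ha), e1 a ha, e1 _ (hS s a ha).1]
  · simp only [Module.End.mul_apply, id, cX s b (u' hb), e2 b hb, e2 _ (hS' s b hb).1, map_neg]
  · simp only [Module.End.mul_apply, id, cD s a (u ha), e1 a ha, e1 _ (hS s a ha).2]
  · simp only [Module.End.mul_apply, id, cD s b (u' hb), e2 b hb, e2 _ (hS' s b hb).2, map_neg]
  · simp only [Module.End.mul_apply, Module.End.one_apply, e1 a ha]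
  · simp only [Module.End.mul_apply, Module.End.one_apply, e2 b hb, map_neg, neg_neg]
  · simp only [Module.End.mul_apply, LinearMap.neg_apply, e1 a ha, hWU a (u ha), e2 _ (w a ha)]
  · simp only [Module.End.mul_apply, LinearMap.neg_apply, e2 b hb, map_neg, hWU b (u' hb),
      e1 _ (w' b hb), neg_neg]
  · rw [← hφ.iso T N₁ N₂ U ⊥ ⊤ H hU ⟨f, hf⟩, add_two hPISO hHSUB H hS hS' hi hs hφ,
      hφ.iso T N₁ S A ⊥ ⊤ ((hHSUB σ Set.univ).1 T N₁ S N₂ H l u fun s _ => hS s).1 hA i,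
      hφ.iso T N₁ S' (A.res τ) ⊥ ⊤ ((hHSUB σ Set.univ).1 T N₁ S' N₂ H l' u' fun s _ => hS' s).1
        ((hRESM σ σ τ).1 A hA) i']

end MinwAux

open MinwAux in
theorem p_MINW (hPISO : S_PISO) (hHSUB : S_HSUB) (hDESC : S_DESC) (hLEN : S_LEN) (hMULT : S_MULT) (hRESM : S_RESM) :
    S_MINW := by
  intro σ _ T B Z τ W e A H hτ hW wB wZ he q hA hn hm
  obtain ⟨ad, m2, -⟩ := hMULT σ A hA
  obtain ⟨-, p2, p3, -, -, p6, -, p8, -⟩ := hPISO σ Set.univ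
  have sub := (hHSUB σ Set.univ).1 T
  have sB : T.Stable B := fun s => H.2.2.1 s trivial
  obtain ⟨N₂, ⟨⟨s2, l2, u2⟩, w2, k2⟩, min⟩ := ((hLEN σ T B Z H).2.1
    {Y | (T.Stable Y ∧ B ≤ Y ∧ Y ≤ Z) ∧ (∀ v ∈ Y, W v ∈ Y) ∧ A.mult T B Y ≠ 0}
    ⟨Z, ⟨fun s => H.2.2.2.1 s trivial, H.2.1, le_rfl⟩, wZ, hm⟩ fun _ h => h.1).2
  have H2 := (sub B N₂ Z H l2 u2 fun s _ => s2 s).1
  have ne : B ≠ N₂ := by
    rintro rfl
    have := ad.add T B B B H2 le_rfl le_rfl sB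
    omega
  obtain ⟨N₁, ⟨⟨s1, l1, u1⟩, w1, k1⟩, max⟩ := ((hLEN σ T B N₂ H2).2.1
    {Y | (T.Stable Y ∧ B ≤ Y ∧ Y ≤ N₂) ∧ (∀ v ∈ Y, W v ∈ Y) ∧ Y ≠ N₂}
    ⟨B, ⟨sB, le_rfl, l2⟩, wB, ne⟩ fun _ h => h.1).1
  have H1 := (sub B N₁ N₂ H2 l1 u1 fun s _ => s1 s).2
  have k : A.mult T N₁ N₂ ≠ 0 := fun h0 => by
    have h1 := ad.add T B N₁ N₂ H2 l1 u1 s1
    exact k1 (min N₁ ⟨⟨s1, l1, u1.trans u2⟩, w1, by omega⟩ u1)
  have two : ∀ Y, T.Stable Y → (∀ v ∈ Y, W v ∈ Y) → N₁ ≤ Y → Y ≤ N₂ → Y = N₁ ∨ Y = N₂ :=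
    fun Y a b c d => (em (Y = N₂)).symm.imp (fun h => max Y ⟨⟨a, l1.trans c, d⟩, b, h⟩ c) id
  obtain ⟨S, uS, hS⟩ := (hLEN σ T N₁ N₂ H1).2.2.1 k1
  have q2 : ∀ v ∈ N₂, W (W v) = e • v := fun v hv => q v (u2 hv)
  obtain ⟨S', sS', lS', uS', w, w'⟩ : ∃ S', T.Stable S' ∧ N₁ ≤ S' ∧ S' ≤ N₂ ∧
      (∀ v ∈ S, W v ∈ S') ∧ ∀ v ∈ S', W v ∈ S := by
    refine ⟨S.map W ⊔ N₁, st_sup (st_map hτ hW hS.2.2.1) s1, le_sup_right, sup_le ?_ u1,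
      fun v hv => Submodule.mem_sup_left ⟨v, hv, rfl⟩, fun v hv => ?_⟩
    · rintro _ ⟨v, hv, rfl⟩
      exact w2 v (uS hv)
    · obtain ⟨_, ⟨a, ha, rfl⟩, b, hb, rfl⟩ := Submodule.mem_sup.1 hv
      rw [map_add, q2 a (uS ha)]
      exact S.add_mem (S.smul_mem e ha) (hS.1.le (w1 b hb))
  have sS : T.Stable S := hS.2.2.1
  have t : PIso Set.univ T N₁ S (T.res τ) N₁ S' := ⟨W, tw hW he s1 sS sS' hS.1.le lS' w1 w w'
    (fun v hv => q2 v (uS hv)) fun v hv => q2 v (uS' hv)⟩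
  have t' : PIso Set.univ T N₁ S' (T.res τ) N₁ S := ⟨W, tw hW he s1 sS' sS lS' hS.1.le w1 w' w
    (fun v hv => q2 v (uS' hv)) fun v hv => q2 v (uS hv)⟩
  have hS' : SP T N₁ S' := by
    obtain ⟨a, -, -, d⟩ := p8 _ _ _ _ _ _ t hS
    exact ⟨a, s1, sS', fun Y hY => d Y fun s => hY (τ s)⟩
  have fac : ∀ Y, SP T N₁ Y → A.mult T N₁ Y ≠ 0 → PIso Set.univ T N₁ Y A ⊥ ⊤ := fun Y h1 h2 =>
    (p6 A T N₁ Y).1 (by_contra fun h => h2 ((m2 T N₁ Y h1).2 h))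
  have sw : ∀ Y Y', PIso Set.univ T N₁ Y (T.res τ) N₁ Y' → PIso Set.univ T N₁ Y A ⊥ ⊤ →
      PIso Set.univ T N₁ Y' (A.res τ) ⊥ ⊤ := fun Y Y' h1 h2 =>
    flip hτ (p3 _ _ _ _ _ _ _ _ _ (p2 _ _ _ _ _ _ h1) h2)
  have hs : S ⊔ S' = N₂ := by
    refine (two _ (st_sup sS sS') (fun v hv => ?_) (le_sup_of_le_right lS')
      (sup_le uS uS')).resolve_left fun h => hS.1.not_ge (h ▸ le_sup_left)
    obtain ⟨a, ha, b, hb, rfl⟩ := Submodule.mem_sup.1 hv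
    rw [map_add, add_comm]
    exact Submodule.add_mem_sup (w' b hb) (w a ha)
  have hi : S ⊓ S' = N₁ := by
    refine (two _ (st_inf sS sS') (fun v hv => ⟨w' v hv.2, w v hv.1⟩) (le_inf hS.1.le lS')
      (inf_le_left.trans uS)).resolve_right fun h => hn ?_
    obtain rfl : S = N₂ := le_antisymm uS (h ▸ inf_le_left)
    obtain rfl : S' = S := le_antisymm uS' (inf_eq_left.1 h)
    have h1 := fac _ hS k
    exact p3 _ _ _ _ _ _ _ _ _ (p2 _ _ _ _ _ _ h1) (sw _ _ t h1)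
  have a2 := add_two hPISO hHSUB H1 sS sS' hi hs ad
  by_cases c : A.mult T N₁ S = 0
  · have h1 := fac _ hS' (by omega)
    obtain ⟨U, f, WU, η, h⟩ := fin hPISO hHSUB hDESC hRESM hW hA.1 H1 sS' sS
      (by rw [inf_comm, hi]) (by rw [sup_comm, hs]) w1 w2 w' w h1 (sw _ _ t' h1)
    exact ⟨N₁, N₂, U, f, WU, η, l1, u2, h⟩
  · have h1 := fac _ hS c
    obtain ⟨U, f, WU, η, h⟩ := fin hPISO hHSUB hDESC hRESM hW hA.1 H1 sS sS' hi hs w1 w2 w w' h1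
      (sw _ _ t h1)
    exact ⟨N₁, N₂, U, f, WU, η, l1, u2, h⟩

end Pool.Agent.P.MP_52ab5a_al
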