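import Pool.Agent.P.MP_52ab5a_al.B.Iface
import Pool.Agent.P.MP_52ab5a_al.A.Iface

/-! Step MIX of the open orbit project. -/

namespace Pool.Agent.P.MP_52ab5a_al

open MvPolynomial WM

namespace MixAux

section lin
variable {V : Type} [AddCommGroup V] [Module ℂ V]

/-- The parity filtration, shifted by two. -/
def G (E : ℕ → Submodule ℂ V) (q : ℕ) : Submodule ℂ V :=
  ⨆ k, ⨆ _ : k + 2 ≤ q ∧ k % 2 = q % 2, E k

variable {E : ℕ → Submodule ℂ V} {d i : Module.End ℂ V} {π : ℕ → Module.End ℂ V}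

theorem G_le {q : ℕ} {P : Submodule ℂ V} (h : ∀ k, k + 2 ≤ q → k % 2 = q % 2 → E k ≤ P) :
    G E q ≤ P := iSup₂_le fun k hk => h k hk.1 hk.2

theorem le_G {k q : ℕ} (h : k + 2 ≤ q) (h' : k % 2 = q % 2) : E k ≤ G E q :=
  le_iSup₂_of_le (f := fun k (_ : k + 2 ≤ q ∧ k % 2 = q % 2) => E k) k ⟨h, h'⟩ le_rfl

theorem G_small {q : ℕ} (h : q < 2) : G E q = ⊥ := eq_bot_iff.2 (G_le fun k hk _ => by omega)

theorem G_mono (q : ℕ) : G E q ≤ G E (q + 2) := G_le fun k h h' => le_G (by omega) (by omega)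

theorem E_le (q : ℕ) : E q ≤ G E (q + 2) := le_G le_rfl (by omega)

theorem G_dec {q : ℕ} {z : V} (h : z ∈ G E (q + 2)) : ∃ a ∈ G E q, ∃ e ∈ E q, a + e = z := by
  refine Submodule.mem_sup.1 (G_le (fun k h1 h2 => ?_) h)
  by_cases hk : k = q
  · exact hk ▸ le_sup_right
  · exact (le_G (by omega) (by omega)).trans le_sup_left

theorem G_big {n q : ℕ} (hn : ∀ k, n < k → E k = ⊥) (h : n + 2 ≤ q) :
    (⨆ k, ⨆ _ : k % 2 = q % 2, E k) = G E q := by
  refine le_antisymm (iSup₂_le fun k hk => ?_) (G_le fun k _ hk =>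
    le_iSup₂_of_le (f := fun k (_ : k % 2 = q % 2) => E k) k hk le_rfl)
  by_cases h1 : n < k
  · rw [hn k h1]; exact bot_le
  · exact le_G (by omega) hk

/-- The hypotheses on the mixed complex, with projections to the components. -/
structure Mx (E : ℕ → Submodule ℂ V) (d i : Module.End ℂ V) (π : ℕ → Module.End ℂ V) : Prop where
  dE : ∀ k, ∀ v ∈ E k, d v ∈ E (k + 1)
  iE : ∀ k, ∀ v ∈ E (k + 1), i v ∈ E k
  i0 : ∀ v ∈ E 0, i v = 0
  sq : ∀ k, ∀ v ∈ E k, d (d v) = 0 ∧ i (i v) = 0 ∧ d (i v) + i (d v) = 0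
  ps : ∀ k, ∀ v ∈ E k, π k v = v
  pn : ∀ k j, j ≠ k → ∀ v ∈ E j, π k v = 0

theorem exists_proj (h : iSupIndep E) : ∃ π : ℕ → Module.End ℂ V,
    (∀ k, ∀ v ∈ E k, π k v = v) ∧ ∀ k j, j ≠ k → ∀ v ∈ E j, π k v = 0 := by
  choose Q h1 h2 using fun k => (h k).symm.exists_isCompl
  refine ⟨fun k => (E k).projection (Q k) (h2 k).symm,
    fun k v hv => Submodule.projection_apply_of_mem_left _ hv, fun k j hj v hv =>
    Submodule.projection_apply_of_mem_right _ (h1 k ?_)⟩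
  exact le_iSup₂_of_le (f := fun j (_ : j ≠ k) => E j) j hj le_rfl hv

/-- Boundaries. -/
def β (E : ℕ → Submodule ℂ V) (D : Module.End ℂ V) (q : ℕ) : Submodule ℂ V := (G E q).map D

/-- Cycles. -/
def ζ (E : ℕ → Submodule ℂ V) (D : Module.End ℂ V) (q : ℕ) : Submodule ℂ V :=
  G E q ⊓ LinearMap.ker D

namespace Mx
variable (h : Mx E d i π)
include h

theorem iEG {q : ℕ} {v : V} (hv : v ∈ E q) : i v ∈ G E (q + 1) := by
  cases q with
  | zero => rw [h.i0 v hv]; exact zero_mem _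
  | succ q => exact E_le q (h.iE q v hv)

theorem DG {q : ℕ} {v : V} (hv : v ∈ G E q) : (d + i) v ∈ G E (q + 1) := by
  refine G_le (P := (G E (q + 1)).comap (d + i)) (fun k h1 h2 v hv => ?_) hv
  refine add_mem (le_G (by omega) (by omega) (h.dE k v hv)) ?_
  exact G_le (fun j h3 h4 => le_G (by omega) (by omega)) (h.iEG hv)

theorem DD {q : ℕ} {v : V} (hv : v ∈ G E q) : (d + i) ((d + i) v) = 0 := by
  refine G_le (P := LinearMap.ker ((d + i) * (d + i))) (fun k _ _ v hv => ?_) hv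
  obtain ⟨h1, h2, h3⟩ := h.sq k v hv
  simp only [LinearMap.mem_ker, Module.End.mul_apply, LinearMap.add_apply, map_add, h1, h2,
    zero_add, add_zero]
  rw [← h3, add_comm]

theorem pG {q : ℕ} {v : V} (hv : v ∈ G E q) : π q v = 0 :=
  G_le (P := LinearMap.ker (π q)) (fun k _ _ v hv => h.pn q k (by omega) v hv) hv

theorem pdec {q : ℕ} {a e : V} (ha : a ∈ G E q) (he : e ∈ E q) : π q (a + e) = e := by
  rw [map_add, h.pG ha, h.ps q e he, zero_add]

theorem pD {q : ℕ} {a e : V} (ha : a ∈ G E q) (he : e ∈ E q) :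
    π (q + 1) ((d + i) (a + e)) = d e := by
  rw [map_add, LinearMap.add_apply d i e, add_comm (d e), ← add_assoc]
  exact h.pdec (add_mem (h.DG ha) (h.iEG he)) (h.dE q e he)

theorem β_le (q : ℕ) : β E (d + i) q ≤ ζ E (d + i) (q + 1) := by
  rintro _ ⟨v, hv, rfl⟩
  exact ⟨h.DG hv, h.DD hv⟩

theorem pd {u : V} (hu : u ∈ ⨆ j, E j) :
    π 0 (d u) = 0 ∧ ∀ k, π k u ∈ E k ∧ π (k + 1) (d u) = d (π k u) := by
  induction hu using Submodule.iSup_induction' with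
  | mem j v hv =>
    refine ⟨h.pn 0 (j + 1) (by omega) _ (h.dE j v hv), fun k => ?_⟩
    by_cases e : j = k
    · subst e
      rw [h.ps j v hv, h.ps _ _ (h.dE j v hv)]
      exact ⟨hv, rfl⟩
    · rw [h.pn k j e v hv, h.pn (k + 1) (j + 1) (by omega) _ (h.dE j v hv), map_zero]
      exact ⟨zero_mem _, rfl⟩
  | zero => simp
  | add x y _ _ hx hy =>
    refine ⟨by rw [map_add, map_add, hx.1, hy.1, add_zero], fun k => ?_⟩
    simp only [map_add, (hx.2 k).2, (hy.2 k).2, and_true]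
    exact add_mem (hx.2 k).1 (hy.2 k).1

theorem bd (p : ℕ) : E p ⊓ (⨆ j, E j).map d = (β E (d + i) (p + 1)).map (π p) := by
  ext x
  constructor
  · rintro ⟨hx, u, hu, rfl⟩
    obtain ⟨h1, h2⟩ := h.pd hu
    cases p with
    | zero => rw [← h.ps 0 _ hx, h1]; exact zero_mem _
    | succ p =>
      refine ⟨_, ⟨0 + π p u, ?_, rfl⟩, ?_⟩
      · rw [zero_add]; exact E_le p (h2 p).1
      · rw [h.pD (zero_mem _) (h2 p).1, ← (h2 p).2, h.ps _ _ hx]
  · rintro ⟨_, ⟨u, hu, rfl⟩, rfl⟩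
    cases p with
    | zero =>
      rw [G_small (by omega), SetLike.mem_coe, Submodule.mem_bot] at hu
      rw [hu, map_zero, map_zero]; exact zero_mem _
    | succ p =>
      obtain ⟨a, ha, e, he, rfl⟩ := G_dec hu
      rw [h.pD ha he]
      exact ⟨h.dE p e he, e, le_iSup E p he, rfl⟩

theorem ker2 {p : ℕ} {z : V} (hz : z ∈ ζ E (d + i) (p + 2)) :
    π p z ∈ (β E (d + i) (p + 1)).map (π p) ↔ z ∈ β E (d + i) (p + 1) ⊔ ζ E (d + i) p := by
  constructor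
  · rintro ⟨b, hb, e⟩
    have h1 : z - b ∈ ζ E (d + i) (p + 2) := sub_mem hz (h.β_le _ hb)
    obtain ⟨a, ha, e', he', h2⟩ := G_dec h1.1
    have h3 : e' = 0 := by rw [← h.pdec ha he', h2, map_sub, e, sub_self]
    rw [h3, add_zero] at h2
    exact Submodule.mem_sup.2 ⟨b, hb, z - b, ⟨h2 ▸ ha, h1.2⟩, add_sub_cancel _ _⟩
  · intro hz'
    obtain ⟨b, hb, a, ha, rfl⟩ := Submodule.mem_sup.1 hz'
    exact ⟨b, hb, by rw [map_add, h.pG ha.1, add_zero]⟩

theorem W_le (p : ℕ) : (ζ E (d + i) (p + 2)).map (π p) ≤ E p ⊓ LinearMap.ker d := by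
  rintro _ ⟨z, hz, rfl⟩
  obtain ⟨a, ha, e, he, rfl⟩ := G_dec hz.1
  rw [h.pdec ha he]
  refine ⟨he, ?_⟩
  have h1 : (d + i) (a + e) = 0 := hz.2
  show d e = 0
  rw [← h.pD ha he, h1, map_zero]

theorem maps3 {p : ℕ} {e : V} (he : e ∈ E p ⊓ LinearMap.ker d) :
    (d + i) e ∈ β E (d + i) (p + 2) ⊓ ζ E (d + i) (p + 1) := by
  refine ⟨⟨e, E_le p he.1, rfl⟩, ?_, h.DD (E_le p he.1)⟩
  have h1 : d e = 0 := he.2
  rw [LinearMap.add_apply, h1, zero_add]
  exact h.iEG he.1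

theorem ker3 {p : ℕ} {e : V} (he : e ∈ E p ⊓ LinearMap.ker d) :
    (d + i) e ∈ β E (d + i) p ↔ e ∈ (ζ E (d + i) (p + 2)).map (π p) := by
  constructor
  · rintro ⟨a, ha, e1⟩
    refine ⟨-a + e, ⟨add_mem (neg_mem (G_mono p ha)) (E_le p he.1), ?_⟩,
      h.pdec (neg_mem ha) he.1⟩
    show (d + i) (-a + e) = 0
    rw [map_add, map_neg, e1, neg_add_cancel]
  · rintro ⟨z, hz, rfl⟩
    obtain ⟨a, ha, e, he', rfl⟩ := G_dec hz.1
    have h1 : (d + i) (a + e) = 0 := hz.2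
    rw [map_add] at h1
    rw [h.pdec ha he']
    exact ⟨-a, neg_mem ha, by rw [map_neg, neg_eq_iff_add_eq_zero, h1]⟩

theorem onto3 (p : ℕ) : β E (d + i) (p + 2) ⊓ ζ E (d + i) (p + 1) ≤
    (E p ⊓ LinearMap.ker d).map (d + i) ⊔ β E (d + i) p := by
  rintro _ ⟨⟨u, hu, rfl⟩, hx⟩
  obtain ⟨a, ha, e, he, rfl⟩ := G_dec hu
  have h1 : d e = 0 := by rw [← h.pD ha he, h.pG hx.1]
  rw [map_add, add_comm ((d + i) a)]
  exact Submodule.add_mem_sup ⟨e, ⟨he, h1⟩, rfl⟩ ⟨a, ha, rfl⟩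

theorem big {n q : ℕ} (hE : iSupIndep E) (hn : ∀ k, n < k → E k = ⊥) (hq : n + 2 ≤ q) :
    G E (q + 1) ⊓ (⨆ j, E j).map (d + i) = β E (d + i) q := by
  have h1 : Disjoint (G E (q + 1)) (G E (q + 1 + 1)) :=
    hE.disjoint_biSup_biSup (s := {k | k + 2 ≤ q + 1 ∧ k % 2 = (q + 1) % 2})
      (t := {k | k + 2 ≤ q + 1 + 1 ∧ k % 2 = (q + 1 + 1) % 2})
      (Set.disjoint_left.2 fun k a b => by have := a.2; have := b.2; omega)
  have h2 : (⨆ j, E j) ≤ G E q ⊔ G E (q + 1) := iSup_le fun k => by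
    by_cases h3 : n < k
    · rw [hn k h3]; exact bot_le
    · by_cases h4 : k % 2 = q % 2
      · exact (le_G (by omega) h4).trans le_sup_left
      · exact (le_G (by omega) (by omega)).trans le_sup_right
  refine le_antisymm ?_ (le_inf ((h.β_le q).trans inf_le_left)
    (Submodule.map_mono (G_le fun k _ _ => le_iSup E k)))
  rintro _ ⟨hx, u, hu, rfl⟩
  obtain ⟨a, ha, b, hb, rfl⟩ := Submodule.mem_sup.1 (h2 hu)
  have h3 : (d + i) b = 0 := by
    refine Submodule.disjoint_def.1 h1 _ ?_ (h.DG hb)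
    have := sub_mem hx (h.DG ha)
    rwa [map_add, add_sub_cancel_left] at this
  exact ⟨a, ha, by rw [map_add, h3, add_zero]⟩

end Mx

/-- Operators that respect the structure. -/
def Op (E : ℕ → Submodule ℂ V) (d i A : Module.End ℂ V) : Prop :=
  (∀ k, ∀ v ∈ E k, A v ∈ E k) ∧ d * A = A * d ∧ i * A = A * i

variable {A : Module.End ℂ V}

theorem Op.D (h : Op E d i A) (v : V) : (d + i) (A v) = A ((d + i) v) := by
  have h1 : d (A v) = A (d v) := LinearMap.congr_fun h.2.1 v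
  have h2 : i (A v) = A (i v) := LinearMap.congr_fun h.2.2 v
  simp only [LinearMap.add_apply, map_add, h1, h2]

theorem Op.G (h : Op E d i A) {q : ℕ} {v : V} (hv : v ∈ G E q) : A v ∈ G E q :=
  G_le (P := (MixAux.G E q).comap A) (fun k h1 h2 v hv => le_G h1 h2 (h.1 k v hv)) hv

theorem Op.β (h : Op E d i A) {q : ℕ} {v : V} (hv : v ∈ β E (d + i) q) : A v ∈ β E (d + i) q := by
  obtain ⟨u, hu, rfl⟩ := hv
  exact ⟨A u, h.G hu, h.D u⟩

theorem Op.ζ (h : Op E d i A) {q : ℕ} {v : V} (hv : v ∈ ζ E (d + i) q) : A v ∈ ζ E (d + i) q := by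
  refine ⟨h.G hv.1, ?_⟩
  have h1 : (d + i) v = 0 := hv.2
  show (d + i) (A v) = 0
  rw [h.D, h1, map_zero]

theorem Op.p (h : Op E d i A) (hM : Mx E d i π) {q : ℕ} {v : V} (hv : v ∈ MixAux.G E (q + 2)) :
    π q (A v) = A (π q v) := by
  obtain ⟨a, ha, e, he, rfl⟩ := G_dec hv
  rw [hM.pdec ha he, map_add A, hM.pdec (h.G ha) (h.1 q e he)]

/-- Subspaces stable under all operators that respect the structure. -/
def St (E : ℕ → Submodule ℂ V) (d i : Module.End ℂ V) (B : Submodule ℂ V) : Prop :=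
  ∀ A, Op E d i A → ∀ v ∈ B, A v ∈ B

theorem St.inf {B C : Submodule ℂ V} (h : St E d i B) (h' : St E d i C) : St E d i (B ⊓ C) :=
  fun A hA v hv => ⟨h A hA v hv.1, h' A hA v hv.2⟩

theorem St.sup {B C : Submodule ℂ V} (h : St E d i B) (h' : St E d i C) : St E d i (B ⊔ C) := by
  intro A hA v hv
  obtain ⟨a, ha, b, hb, rfl⟩ := Submodule.mem_sup.1 hv
  rw [map_add]
  exact Submodule.add_mem_sup (h A hA a ha) (h' A hA b hb)

theorem st_β (q : ℕ) : St E d i (β E (d + i) q) := fun _ hA _ hv => hA.β hv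

theorem st_ζ (q : ℕ) : St E d i (ζ E (d + i) q) := fun _ hA _ hv => hA.ζ hv

theorem st_W (hM : Mx E d i π) (q : ℕ) : St E d i ((ζ E (d + i) (q + 2)).map (π q)) := by
  rintro A hA _ ⟨z, hz, rfl⟩
  exact ⟨A z, hA.ζ hz, hA.p hM hz.1⟩

end lin

end MixAux

open MixAux in
theorem p_MIX (hPISO : S_PISO) (hHSUB : S_HSUB) (hEXT : S_EXT) :
    S_MIX := by
  intro σ _ T E n d i hW hst hE hn hc hd hi hi0 hsq hH
  obtain ⟨π, hp1, hp2⟩ := exists_proj hE
  have hM : Mx E d i π := ⟨hd, hi, hi0, hsq, hp1, hp2⟩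
  have oX : ∀ s, Op E d i (T.X s) := fun s =>
    ⟨fun k v hv => (hst k s v hv).1, (hc s).1, (hc s).2.2.1⟩
  have oD : ∀ s, Op E d i (T.D s) := fun s =>
    ⟨fun k v hv => (hst k s v hv).2, (hc s).2.1, (hc s).2.2.2⟩
  have st : ∀ {B}, St E d i B → StOn Set.univ T B := fun h s _ v hv =>
    ⟨h _ (oX s) v hv, h _ (oD s) v hv⟩
  obtain ⟨-, symm, -, iso4, -⟩ := hPISO σ Set.univ
  obtain ⟨sub, hiso, triv, -⟩ := hHSUB σ Set.univ
  have I1 : ∀ p, PIso Set.univ T (β E (d + i) (p + 1) ⊓ ζ E (d + i) p) (ζ E (d + i) p)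
      T (β E (d + i) (p + 1)) (β E (d + i) (p + 1) ⊔ ζ E (d + i) p) := fun p =>
    iso4 T _ _ (st (st_β _)) (st (st_ζ _))
  have hY : ∀ p, β E (d + i) (p + 1) ⊔ ζ E (d + i) p ≤ ζ E (d + i) (p + 2) := fun p =>
    sup_le (hM.β_le _) (inf_le_inf_right _ (G_mono p))
  have hB : ∀ p, E p ⊓ (⨆ j, E j).map d ≤ (ζ E (d + i) (p + 2)).map (π p) := fun p => by
    rw [hM.bd]; exact Submodule.map_mono (hM.β_le _)
  have I2 : ∀ p, PIso Set.univ T (β E (d + i) (p + 1) ⊔ ζ E (d + i) p) (ζ E (d + i) (p + 2))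
      T (E p ⊓ (⨆ j, E j).map d) ((ζ E (d + i) (p + 2)).map (π p)) := fun p =>
    ⟨π p, hY p, st ((st_β _).sup (st_ζ _)), st (st_ζ _), hB p, (hH p).2.2.1, st (st_W hM p),
      fun z hz => ⟨z, hz, rfl⟩, fun z hz => by rw [hM.bd]; exact hM.ker2 hz, le_sup_left,
      fun s _ z hz => by
        rw [(oX s).p hM hz.1, (oD s).p hM hz.1, sub_self, sub_self]
        exact ⟨zero_mem _, zero_mem _⟩⟩
  have hZ : ∀ p, β E (d + i) p ≤ β E (d + i) (p + 2) ⊓ ζ E (d + i) (p + 1) := fun p =>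
    le_inf (Submodule.map_mono (G_mono p)) (hM.β_le p)
  have I3 : ∀ p, PIso Set.univ T ((ζ E (d + i) (p + 2)).map (π p)) (E p ⊓ LinearMap.ker d)
      T (β E (d + i) p) (β E (d + i) (p + 2) ⊓ ζ E (d + i) (p + 1)) := fun p =>
    ⟨d + i, hM.W_le p, st (st_W hM p), (hH p).2.2.2.1, hZ p, st (st_β _),
      st ((st_β _).inf (st_ζ _)), fun z hz => hM.maps3 hz, fun z hz => hM.ker3 hz, hM.onto3 p,
      fun s _ z _ => by
        rw [(oX s).D, (oD s).D, sub_self, sub_self]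
        exact ⟨zero_mem _, zero_mem _⟩⟩
  have Hb := fun p => sub T _ _ _ (hH p) (hB p) (hM.W_le p) (st (st_W hM p))
  have z0 : ζ E (d + i) 0 = ⊥ := by rw [ζ, G_small (by omega), bot_inf_eq]
  have z1 : ζ E (d + i) (0 + 1) = ⊥ := by rw [ζ, G_small (by omega), bot_inf_eq]
  have b0 : β E (d + i) 0 = ⊥ := by rw [β, G_small (by omega), Submodule.map_bot]
  have Hbot : Hol Set.univ T ⊥ ⊥ := triv T ⊥ hW fun s _ v hv => by
    rw [(Submodule.mem_bot ℂ).1 hv, map_zero, map_zero]; exact ⟨zero_mem _, zero_mem _⟩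
  have HH : ∀ q, Hol Set.univ T (β E (d + i) (q + 1) ⊓ ζ E (d + i) q) (ζ E (d + i) q) ∧
      Hol Set.univ T (β E (d + i) q) (ζ E (d + i) (q + 1)) := fun q => by
    induction q with
    | zero => rw [z0, z1, b0, inf_bot_eq]; exact ⟨Hbot, Hbot⟩
    | succ q ih =>
      exact ⟨(sub T _ _ _ ih.2 (hZ q) inf_le_right (st ((st_β _).inf (st_ζ _)))).2,
        hEXT σ _ T _ _ _ (hiso T _ _ T _ _ ih.1 hW (I1 q))
          (hiso T _ _ T _ _ (Hb q).1 hW (symm _ _ _ _ _ _ (I2 q)))⟩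
  have big : ∀ p q, n + 2 ≤ q → p % 2 = (q + 1) % 2 →
      (⨆ k, ⨆ _ : k % 2 = p % 2, E k) ⊓ (⨆ j, E j).map (d + i) = β E (d + i) q ∧
      (⨆ k, ⨆ _ : k % 2 = p % 2, E k) ⊓ LinearMap.ker (d + i) = ζ E (d + i) (q + 1) :=
    fun p q hq hp => by
      rw [hp, G_big hn (by omega), hM.big hE hn hq]
      exact ⟨rfl, rfl⟩
  refine ⟨fun p => ?_, fun φ hφ => ?_⟩
  · obtain ⟨e1, e2⟩ := big p (p + 2 * n + 3) (by omega) (by omega)
    rw [e1, e2]
    exact (HH _).2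
  · have p0 : φ T ⊥ ⊥ = 0 := by
      have := hφ.add T ⊥ ⊥ ⊥ Hbot le_rfl le_rfl ((stOn_univ T _).1 Hbot.2.2.1)
      omega
    set t : ℕ → ℤ := fun q => φ T (β E (d + i) q) (ζ E (d + i) (q + 1)) -
      φ T (β E (d + i) (q + 1) ⊓ ζ E (d + i) q) (ζ E (d + i) q) with ht
    have he : ∀ p, φ T (E p ⊓ (⨆ j, E j).map d) (E p ⊓ LinearMap.ker d) = t p + t (p + 1) :=
      fun p => by
        have a1 := hφ.add T _ _ _ (hH p) (hB p) (hM.W_le p) ((stOn_univ T _).1 (st (st_W hM p)))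
        have a2 := hφ.add T _ _ _ (HH (p + 1)).2 le_sup_left (hY p)
          ((stOn_univ T _).1 (st ((st_β _).sup (st_ζ _))))
        have a3 := hφ.add T _ _ _ (HH p).2 (hZ p) inf_le_right
          ((stOn_univ T _).1 (st ((st_β _).inf (st_ζ _))))
        have a4 := hφ.iso T _ _ T _ _ (HH p).1 hW (I1 p)
        have a5 := hφ.iso T _ _ T _ _ (Hb p).1 hW (symm _ _ _ _ _ _ (I2 p))
        have a6 := hφ.iso T _ _ T _ _ (Hb p).2 hW (I3 p)
        simp only [ht, add_assoc, Nat.reduceAdd] at a2 a3 a4 a5 a6 ⊢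
        omega
    have tel : ∀ m, ∑ k ∈ Finset.range m, (-1) ^ k * (t k + t (k + 1)) = t 0 - (-1) ^ m * t m :=
      fun m => by
        induction m with
        | zero => simp
        | succ m ih => rw [Finset.sum_range_succ, ih]; ring
    have t0 : t 0 = 0 := by simp only [ht, z0, z1, b0, inf_bot_eq, p0, sub_self]
    have e1 : ∑ k ∈ Finset.range (n + 1), (-1) ^ k *
        φ T (E k ⊓ (⨆ j, E j).map d) (E k ⊓ LinearMap.ker d) =
        ∑ k ∈ Finset.range (2 * (n + 2)), (-1) ^ k *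
        φ T (E k ⊓ (⨆ j, E j).map d) (E k ⊓ LinearMap.ker d) := by
      refine Finset.sum_subset (Finset.range_subset_range.2 (by omega)) fun k _ hk => ?_
      rw [hn k (by simpa using hk), bot_inf_eq, bot_inf_eq, p0, mul_zero]
    obtain ⟨c1, c2⟩ := big 1 (2 * (n + 2)) (by omega) (by omega)
    obtain ⟨c3, c4⟩ := big 0 (2 * (n + 2) + 1) (by omega) (by omega)
    obtain ⟨-, c5⟩ := big 0 (2 * n + 3) (by omega) (by omega)
    have c6 : ζ E (d + i) (2 * (n + 2) + 1 + 1) = ζ E (d + i) (2 * (n + 2)) := c4.symm.trans c5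
    have c7 : β E (d + i) (2 * (n + 2) + 1) ⊓ ζ E (d + i) (2 * (n + 2)) =
        β E (d + i) (2 * (n + 2) + 1) := inf_eq_left.2 (c6 ▸ hM.β_le _)
    rw [e1, Finset.sum_congr rfl fun k _ => by rw [he k], tel, t0, c1, c2, c3, c4, c6, pow_mul]
    simp only [ht, c7]
    ring

end Pool.Agent.P.MP_52ab5a_al
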