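import Pool.Agent.P.MP_52ab5a_al.B.Iface

/-! Step PURE of the open orbit project. -/

namespace Pool.Agent.P.MP_52ab5a_al

open MvPolynomial WM

namespace PureAux

open Matrix

variable {ν α : Type} [Fintype ν] [DecidableEq ν] [Fintype α] [DecidableEq α]

/-- Vectors killed by all products of `r` of the matrices. -/
def KK (c : ν → Matrix α α ℂ) : ℕ → (α → ℂ) → Prop
  | 0, v => v = 0
  | r + 1, v => ∀ j, KK c r ((c j).mulVec v)

omit [Fintype ν] [DecidableEq ν] [DecidableEq α] in
theorem KK_zero (c : ν → Matrix α α ℂ) (r : ℕ) : KK c r 0 := by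
  induction r with
  | zero => rfl
  | succ r ih => intro j; rw [mulVec_zero]; exact ih

variable {c c' : ν → Matrix α α ℂ}

omit [Fintype ν] [DecidableEq ν] [DecidableEq α] in
theorem anti (h : ∀ i j, c i * c j + c j * c i = 0) (i j : ν) (v : α → ℂ) :
    (c i).mulVec ((c j).mulVec v) = -(c j).mulVec ((c i).mulVec v) := by
  rw [mulVec_mulVec, mulVec_mulVec, eq_neg_iff_add_eq_zero, ← add_mulVec, h, zero_mulVec]

omit [Fintype ν] [DecidableEq ν] [DecidableEq α] in
theorem sq0 (h : ∀ i j, c i * c j + c j * c i = 0) (i : ν) (v : α → ℂ) :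
    (c i).mulVec ((c i).mulVec v) = 0 := by
  have := anti h i i v
  rw [eq_neg_iff_add_eq_zero, ← two_smul ℂ] at this
  exact (smul_eq_zero.1 this).resolve_left two_ne_zero

omit [DecidableEq α] in
theorem KK_top (h : ∀ i j, c i * c j + c j * c i = 0) (m : ℕ) : ∀ J : Finset ν,
    Fintype.card ν ≤ J.card + m → ∀ v, (∀ j ∈ J, (c j).mulVec v = 0) → KK c (m + 1) v := by
  induction m with
  | zero =>
    intro J hJ v hv j
    have : J = Finset.univ := Finset.eq_univ_of_card J (le_antisymm (Finset.card_le_univ J) hJ)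
    exact hv j (this ▸ Finset.mem_univ j)
  | succ m ih =>
    intro J hJ v hv i
    by_cases hi : i ∈ J
    · rw [hv i hi]; exact KK_zero c _
    · refine ih (insert i J) (by rw [Finset.card_insert_of_notMem hi]; omega) _ fun j hj => ?_
      rcases Finset.mem_insert.1 hj with rfl | hj
      · exact sq0 h _ v
      · rw [anti h, hv j hj, mulVec_zero, neg_zero]

theorem comm_n (h : ∀ i j, c i * c j + c j * c i = 0)
    (h' : ∀ i j, c i * c' j + c' j * c i = if i = j then 1 else 0) (j : ν) :
    c j * ∑ i, c' i * c i = (∑ i, c' i * c i) * c j + c j := by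
  have e : ∀ i, c j * (c' i * c i) = c' i * c i * c j + if j = i then c i else 0 := fun i => by
    have e1 : c j * c' i = (if j = i then 1 else 0) - c' i * c j := eq_sub_of_add_eq (h' j i)
    have e2 : c j * c i = -(c i * c j) := eq_neg_of_add_eq_zero_left (h j i)
    rw [← mul_assoc, e1, sub_mul, mul_assoc, e2, mul_assoc]
    split_ifs <;> simp [add_comm]
  rw [Finset.mul_sum, Finset.sum_mul, Finset.sum_congr rfl fun i _ => e i, Finset.sum_add_distrib,
    Finset.sum_ite_eq, if_pos (Finset.mem_univ j)]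

theorem KK_step (h : ∀ i j, c i * c j + c j * c i = 0)
    (h' : ∀ i j, c i * c' j + c' j * c i = if i = j then 1 else 0) (r : ℕ) : ∀ v, KK c (r + 1) v →
    KK c r ((∑ i, c' i * c i - (r : ℂ) • (1 : Matrix α α ℂ)).mulVec v) := by
  induction r with
  | zero =>
    intro v hv
    show _ = 0
    rw [Nat.cast_zero, zero_smul, sub_zero, sum_mulVec]
    exact Finset.sum_eq_zero fun i _ => by
      rw [← mulVec_mulVec, show (c i).mulVec v = 0 from hv i, mulVec_zero]
  | succ r ih =>
    intro v hv j
    have e : c j * (∑ i, c' i * c i - ((r + 1 : ℕ) : ℂ) • (1 : Matrix α α ℂ)) =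
        (∑ i, c' i * c i - (r : ℂ) • (1 : Matrix α α ℂ)) * c j := by
      rw [mul_sub, sub_mul, comm_n h h', mul_smul_comm, smul_mul_assoc, mul_one, one_mul,
        Nat.cast_succ, add_smul, one_smul]
      abel
    rw [mulVec_mulVec, e, ← mulVec_mulVec]
    exact ih _ (hv j)

theorem prod_zero (h : ∀ i j, c i * c j + c j * c i = 0)
    (h' : ∀ i j, c i * c' j + c' j * c i = if i = j then 1 else 0) (m : ℕ) : ∀ v, KK c m v →
    ((List.range m).map fun r : ℕ =>
      ∑ i, c' i * c i - (r : ℂ) • (1 : Matrix α α ℂ)).prod.mulVec v = 0 := by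
  induction m with
  | zero => intro v hv; rw [show v = 0 from hv, mulVec_zero]
  | succ m ih =>
    intro v hv
    rw [List.range_succ, List.map_append, List.prod_append, List.map_singleton,
      List.prod_singleton, ← mulVec_mulVec]
    exact ih _ (KK_step h h' m v hv)

omit [Fintype ν] [DecidableEq ν] in
theorem neg_eig (n : Matrix α α ℂ) {w : α → ℂ} (hw : n.mulVec w = -w) (m : ℕ) :
    ((List.range m).map fun r : ℕ => n - (r : ℂ) • (1 : Matrix α α ℂ)).prod.mulVec w = 0 →
      w = 0 := by
  induction m with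
  | zero => intro e; simpa using e
  | succ m ih =>
    intro e
    rw [List.range_succ, List.map_append, List.prod_append, List.map_singleton,
      List.prod_singleton, ← mulVec_mulVec, sub_mulVec, hw, smul_mulVec, one_mulVec,
      show -w - (m : ℂ) • w = (-((m + 1 : ℕ) : ℂ)) • w by
        rw [Nat.cast_succ, neg_smul, add_smul, one_smul]; abel, mulVec_smul] at e
    exact ih ((smul_eq_zero.1 e).resolve_left (neg_ne_zero.2 (Nat.cast_ne_zero.2 m.succ_ne_zero)))

/-- The common kernel. -/
def UU (c : ν → Matrix α α ℂ) (J : Finset ν) : Submodule ℂ (α → ℂ) where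
  carrier := {v | ∀ j ∈ J, (c j).mulVec v = 0}
  add_mem' := fun ha hb j hj => by rw [mulVec_add, ha j hj, hb j hj, add_zero]
  zero_mem' := fun j _ => mulVec_zero _
  smul_mem' := fun a v hv j hj => by rw [mulVec_smul, hv j hj, smul_zero]

omit [Fintype ν] in
theorem rank_UU (h' : ∀ i j, c i * c' j + c' j * c i = if i = j then 1 else 0) (J : Finset ν) :
    2 ^ J.card * Module.finrank ℂ (UU c J) ≤ Fintype.card α := by
  have k : ∀ i j v, (c i).mulVec ((c' j).mulVec v) + (c' j).mulVec ((c i).mulVec v) =
      if i = j then v else 0 := fun i j v => by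
    rw [mulVec_mulVec, mulVec_mulVec, ← add_mulVec, h']
    split_ifs <;> simp
  induction J using Finset.induction_on with
  | empty => simpa using (UU c ∅).finrank_le
  | insert j J hj ih =>
    refine le_trans ?_ ih
    rw [Finset.card_insert_of_notMem hj, pow_succ, mul_assoc]
    refine Nat.mul_le_mul_left _ ?_
    let f : (UU c (insert j J) × UU c (insert j J)) →ₗ[ℂ] (α → ℂ) :=
      (UU c (insert j J)).subtype.coprod ((c' j).mulVecLin ∘ₗ (UU c (insert j J)).subtype)
    have fe : ∀ z, f z = z.1 + (c' j).mulVec z.2 := fun _ => rfl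
    have fm : ∀ z, f z ∈ UU c J := fun z i hi => by
      have := k i j z.2
      rw [z.2.2 i (Finset.mem_insert_of_mem hi), mulVec_zero, add_zero,
        if_neg fun e : i = j => hj (e ▸ hi)] at this
      rw [fe, mulVec_add, z.1.2 i (Finset.mem_insert_of_mem hi), this, add_zero]
    have fi : Function.Injective (f.codRestrict _ fm) := by
      refine (injective_iff_map_eq_zero _).2 fun z hz => ?_
      have e : (z.1 : α → ℂ) + (c' j).mulVec z.2 = 0 := congrArg Subtype.val hz
      have e1 := k j j z.2
      rw [z.2.2 j (Finset.mem_insert_self _ _), mulVec_zero, add_zero, if_pos rfl] at e1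
      have e2 := congrArg (c j).mulVec e
      rw [mulVec_add, z.1.2 j (Finset.mem_insert_self _ _), e1, zero_add, mulVec_zero] at e2
      rw [e2, mulVec_zero, add_zero] at e
      exact Prod.ext (Subtype.ext e) (Subtype.ext e2)
    have := LinearMap.finrank_le_finrank_of_injective fi
    rwa [Module.finrank_prod, ← two_mul] at this

end PureAux

open PureAux Matrix in
theorem p_PURE (hCLIF : S_CLIF) :
    S_PURE := by
  intro ν _ _ c c' h h' hp
  have top : ∀ v, KK c (Fintype.card ν + 1) v := fun v =>
    KK_top h _ ∅ (by simp) v fun j hj => absurd hj (Finset.notMem_empty j)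
  have pz : ((List.range (Fintype.card ν + 1)).map fun r : ℕ =>
      ∑ j, c' j * c j - (r : ℂ) • (1 : Matrix (Finset ν) (Finset ν) ℂ)).prod = 0 :=
    Matrix.toLin'.injective (LinearMap.ext fun v => by
      rw [Matrix.toLin'_apply, Matrix.toLin'_apply, zero_mulVec]
      exact prod_zero h h' _ v (top v))
  have r1 : Module.finrank ℂ (UU c Finset.univ) ≤ 1 := by
    have := rank_UU h' Finset.univ
    rw [Fintype.card_finset, Finset.card_univ] at this
    exact Nat.le_of_mul_le_mul_left (this.trans_eq (mul_one _).symm) (by positivity)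
  obtain ⟨v₀, hv⟩ := finrank_le_one_iff.1 r1
  have all : ∀ v : Finset ν → ℂ, (∀ j, (c j).mulVec v = 0) → ∃ a : ℂ, v = a • (v₀ : Finset ν → ℂ) :=
    fun v e => let ⟨a, ha⟩ := hv ⟨v, fun j _ => e j⟩; ⟨a, (congrArg Subtype.val ha).symm⟩
  have k0 : ∀ j, (c j).mulVec v₀ = 0 := fun j => v₀.2 j (Finset.mem_univ j)
  have n0 : (v₀ : Finset ν → ℂ) ≠ 0 := fun e => by
    have : ∀ r v, KK c r v → v = 0 := fun r => by
      induction r with
      | zero => exact fun _ a => a
      | succ r ih =>
        intro v a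
        obtain ⟨b, hb⟩ := all v fun j => ih _ (a j)
        rw [hb, e, smul_zero]
    exact one_ne_zero (congrFun (this _ (fun _ => 1) (top _)) ∅)
  obtain ⟨s, hs⟩ := all ((parM ν).mulVec v₀) fun j => by
    rw [mulVec_mulVec, show c j * parM ν = -(parM ν * c j) by rw [hp, neg_neg], neg_mulVec,
      ← mulVec_mulVec, k0, mulVec_zero, neg_zero]
  have pp : parM ν * parM ν = 1 := by
    rw [parM, diagonal_mul_diagonal, ← diagonal_one]
    exact congrArg _ (funext fun I => by rw [← mul_pow]; simp)
  refine ⟨v₀, s, n0, ?_, hs, k0, all, pz, fun v e j => neg_eig _ ?_ _ (by rw [pz, zero_mulVec])⟩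
  · have e := congrArg (parM ν).mulVec hs
    rw [mulVec_mulVec, pp, one_mulVec, mulVec_smul, hs, smul_smul, ← sub_eq_zero] at e
    nth_rewrite 1 [← one_smul ℂ (v₀ : Finset ν → ℂ)] at e
    rw [← sub_smul] at e
    exact mul_self_eq_one_iff.1 (sub_eq_zero.1 ((smul_eq_zero.1 e).resolve_right n0)).symm
  · have e' := congrArg (fun A : Matrix (Finset ν) (Finset ν) ℂ => A.mulVec v) (comm_n h h' j)
    simp only [add_mulVec, ← mulVec_mulVec, e, mulVec_zero] at e'
    exact eq_neg_of_add_eq_zero_left e'.symm

end Pool.Agent.P.MP_52ab5a_al
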