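import Pool.Agent.P.MP_52ab5a_al.B.Iface

/-! Step REES of the open orbit project. -/

namespace Pool.Agent.P.MP_52ab5a_al

open MvPolynomial WM

namespace ReesAux

variable {V : Type} [AddCommGroup V] [Module ℂ V]

theorem sh_apply (u : ℤ →₀ V) (k : ℤ) : sh V u k = u (k - 1) := by
  have := Finsupp.mapDomain_apply (f := (· + (1 : ℤ))) (add_left_injective 1) u (k - 1)
  rw [sub_add_cancel] at this
  exact this

theorem rx_apply (T : Module.End ℂ V) (u : ℤ →₀ V) (k : ℤ) : rx T u k = T (u k) := rfl

theorem sh_single (k : ℤ) (v : V) : sh V (Finsupp.single k v) = Finsupp.single (k + 1) v := by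
  rw [sh, Finsupp.lmapDomain_apply, Finsupp.mapDomain_single]

theorem rx_single (T : Module.End ℂ V) (k : ℤ) (v : V) :
    rx T (Finsupp.single k v) = Finsupp.single k (T v) := by
  simp [rx]

theorem sh_surj : Function.Surjective (sh V) := by
  intro u
  refine ⟨Finsupp.mapDomain (· - 1) u, ?_⟩
  ext k
  rw [sh_apply]
  exact Finsupp.mapDomain_apply (f := (· - (1 : ℤ))) sub_left_injective u k

theorem sh_inj : Function.Injective (sh V) := by
  intro u v h
  ext k
  have := congrArg (fun x : ℤ →₀ V => x (k + 1)) h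
  simpa only [sh_apply, add_sub_cancel_right] using this

theorem sh_rx (T : Module.End ℂ V) : sh V * rx T = rx T * sh V := by
  refine LinearMap.ext fun u => Finsupp.ext fun k => ?_
  rw [Module.End.mul_apply, Module.End.mul_apply, sh_apply, rx_apply, rx_apply, sh_apply]

theorem rx_mul (T T' : Module.End ℂ V) : rx (T * T') = rx T * rx T' :=
  LinearMap.ext fun _ => Finsupp.ext fun _ => rfl

theorem rx_add (T T' : Module.End ℂ V) : rx (T + T') = rx T + rx T' :=
  LinearMap.ext fun _ => Finsupp.ext fun _ => rfl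

theorem rx_sub (T T' : Module.End ℂ V) : rx (T - T') = rx T - rx T' :=
  LinearMap.ext fun _ => Finsupp.ext fun _ => rfl

theorem rx_smul (c : ℂ) (T : Module.End ℂ V) : rx (c • T) = c • rx T :=
  LinearMap.ext fun _ => Finsupp.ext fun _ => rfl

theorem rx_one : rx (1 : Module.End ℂ V) = 1 :=
  LinearMap.ext fun _ => Finsupp.ext fun _ => rfl

theorem rx_sum {α : Type} (s : Finset α) (T : α → Module.End ℂ V) :
    rx (∑ a ∈ s, T a) = ∑ a ∈ s, rx (T a) := by
  classical
  induction s using Finset.induction_on with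
  | empty => exact LinearMap.ext fun _ => Finsupp.ext fun _ => rfl
  | insert a s ha ih => rw [Finset.sum_insert ha, Finset.sum_insert ha, rx_add, ih]

theorem mem_lat (F : ℤ → Submodule ℂ V) (v : ℤ →₀ V) : v ∈ lat F ↔ ∀ k, v k ∈ F k := by
  simp [lat, Submodule.mem_iInf]

theorem mem_map (F : ℤ → Submodule ℂ V) (v : ℤ →₀ V) :
    v ∈ (lat F).map (sh V) ↔ ∀ k, v k ∈ F (k - 1) := by
  constructor
  · rintro ⟨u, hu, rfl⟩ k
    rw [sh_apply]
    exact (mem_lat F u).1 hu _
  · intro h
    obtain ⟨u, rfl⟩ := sh_surj v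
    refine ⟨u, (mem_lat F u).2 fun k => ?_, rfl⟩
    have := h (k + 1)
    rwa [sh_apply, add_sub_cancel_right] at this

theorem single_mem (F : ℤ → Submodule ℂ V) (k : ℤ) (v : V) (hv : v ∈ F k) :
    Finsupp.single k v ∈ lat F := by
  refine (mem_lat F _).2 fun l => ?_
  by_cases h : k = l
  · subst h; rw [Finsupp.single_eq_same]; exact hv
  · rw [Finsupp.single_eq_of_ne (Ne.symm h)]; exact zero_mem _

end ReesAux

open ReesAux in
theorem p_REES :
    S_REES := by
  intro σ _ N
  classical
  have hl : ∀ s, N.rz (Sum.inl s) = rx (N.X s) := fun _ => rfl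
  have hr : ∀ s, N.rz (Sum.inr s) = sh N.V * rx (N.D s) := fun _ => rfl
  refine ⟨⟨sh_inj, sh_surj⟩, sh_rx, fun T T' => ⟨rx_mul T T', rx_add T T', fun c => rx_smul c T⟩,
    rx_one, fun hW => ?_, fun ξ => ?_, fun F => ⟨mem_lat F, fun T hT v hv => ?_, mem_map F,
      fun hm hX hD => ?_⟩⟩
  · refine ⟨fun s t => ?_, fun s t => ?_, fun s => ?_, fun s t hst => ?_, fun s => ?_, fun s => ?_⟩
    all_goals simp only [Function.comp_apply, hl, hr]
    · rw [← rx_mul, hW.1, rx_mul]
    · rw [mul_assoc, mul_assoc, ← mul_assoc (rx (N.D s)), ← mul_assoc (rx (N.D t)), ← sh_rx,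
        ← sh_rx, mul_assoc, mul_assoc, ← rx_mul, hW.2.1, rx_mul]
    · rw [← mul_assoc (rx (N.X s)), ← sh_rx, mul_assoc, mul_assoc, ← mul_sub, ← rx_mul, ← rx_mul,
        ← rx_sub, hW.2.2.1, rx_one, mul_one]
    · rw [← mul_assoc (rx (N.X t)), ← sh_rx, mul_assoc, mul_assoc, ← rx_mul, hW.2.2.2 s t hst,
        rx_mul]
    · exact sh_rx _
    · rw [mul_assoc, ← sh_rx]
  · rw [WM.vf, rx_sum, Finset.mul_sum]
    refine Finset.sum_congr rfl fun s _ => ?_
    rw [rx_sum, Finset.mul_sum]
    refine Finset.sum_congr rfl fun t _ => ?_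
    rw [rx_smul, mul_smul_comm, rx_mul, hl, hr, ← mul_assoc, ← mul_assoc, sh_rx]
  · exact (mem_lat F _).2 fun k => hT k _ ((mem_lat F v).1 hv k)
  · have hst : ∀ v ∈ lat F, sh N.V v ∈ lat F ∧ ∀ s, N.rz s v ∈ lat F := by
      intro v hv
      rw [mem_lat] at hv
      refine ⟨(mem_lat F _).2 fun k => ?_, fun s => (mem_lat F _).2 fun k => ?_⟩
      · rw [sh_apply]
        exact hm (by omega) (hv _)
      · rcases s with s | s
        · exact hX k s _ (hv k)
        · rw [hr, Module.End.mul_apply, sh_apply, rx_apply]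
          have := hD (k - 1) s _ (hv (k - 1))
          rwa [sub_add_cancel] at this
    refine ⟨hst, ?_⟩
    rintro ⟨k₀, hk₀⟩ G hG hle
    let G' : Finset (ℤ →₀ N.V) :=
      G.biUnion fun g => g.support.image fun k => Finsupp.single k (g k)
    refine ⟨G', le_antisymm ?_ (gen_le ?_ ?_)⟩
    · set H := gen (insert (sh N.V) (Set.range N.rz)) (G' : Set (ℤ →₀ N.V)) with hH
      have hHs : ∀ v ∈ H, sh N.V v ∈ H := fun v hv => gen_stable (Set.mem_insert _ _) hv
      have hHz : ∀ s, ∀ v ∈ H, N.rz s v ∈ H := fun s v hv =>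
        gen_stable (Set.mem_insert_of_mem _ (Set.mem_range_self s)) hv
      let C : Submodule ℂ (ℤ →₀ N.V) :=
        ⨅ k, H.comap (Finsupp.lsingle k ∘ₗ Finsupp.lapply k)
      have hC : ∀ u, u ∈ C ↔ ∀ k, Finsupp.single k (u k) ∈ H := fun u => by
        simp [C, Submodule.mem_iInf]
      have hgen : gen (Set.range N.rz) (G : Set (ℤ →₀ N.V)) ≤ C := by
        refine gen_le (fun g hg => (hC g).2 fun k => ?_) ?_
        · by_cases hk : k ∈ g.support
          · exact subset_gen _ _ (Finset.mem_coe.2
              (Finset.mem_biUnion.2 ⟨g, hg, Finset.mem_image_of_mem _ hk⟩))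
          · rw [Finsupp.notMem_support_iff.1 hk, Finsupp.single_zero]
            exact zero_mem _
        · rintro _ ⟨s, rfl⟩ u hu
          rw [hC] at hu ⊢
          intro k
          rcases s with s | s
          · have := hHz (Sum.inl s) _ (hu k)
            rwa [hl, rx_single] at this
          · have := hHz (Sum.inr s) _ (hu (k - 1))
            rw [hr, Module.End.mul_apply, rx_single, sh_single, sub_add_cancel] at this
            rwa [hr, Module.End.mul_apply, sh_apply, rx_apply]
      have key : ∀ n : ℕ, ∀ k < k₀ + n, ∀ v ∈ F k, Finsupp.single k v ∈ H := by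
        intro n
        induction n with
        | zero =>
          intro k hk v hv
          rw [hk₀ k (by omega), Submodule.mem_bot] at hv
          rw [hv, Finsupp.single_zero]
          exact zero_mem _
        | succ n ih =>
          intro k hk v hv
          obtain ⟨a, ha, p, hp, hap⟩ := Submodule.mem_sup.1 (hle (single_mem F k v hv))
          have h1 : v = a k + p k := by
            rw [← Finsupp.add_apply, hap, Finsupp.single_eq_same]
          have h2 := hHs _ (ih (k - 1) (by omega) _ ((mem_map F a).1 ha k))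
          rw [sh_single, sub_add_cancel] at h2
          rw [h1, Finsupp.single_add]
          exact add_mem h2 ((hC p).1 (hgen hp) k)
      intro u hu
      rw [← Finsupp.sum_single u]
      exact Submodule.sum_mem _ fun k _ =>
        key ((k - k₀).toNat + 1) k (by omega) _ ((mem_lat F u).1 hu k)
    · intro x hx
      obtain ⟨g, hg, hx⟩ := Finset.mem_biUnion.1 (Finset.mem_coe.1 hx)
      obtain ⟨k, -, rfl⟩ := Finset.mem_image.1 hx
      exact single_mem F k _ ((mem_lat F g).1 (hG hg) k)
    · rintro T (rfl | ⟨s, rfl⟩) v hv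
      exacts [(hst v hv).1, (hst v hv).2 s]

end Pool.Agent.P.MP_52ab5a_al
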