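import Pool.Agent.P.MP_52ab5a_al.B.Iface
import Pool.Agent.P.MP_52ab5a_al.A.Iface

/-! Step SPIN of the open orbit project. -/

namespace Pool.Agent.P.MP_52ab5a_al

open MvPolynomial WM

namespace SpinAux

open Matrix

theorem ringA {R : Type} [Ring R] [Algebra ℂ R] {c c' x : R} {l : ℂ} (h1 : c * c = 0)
    (h2 : c * x + x * c = 0) (h3 : x * c' + c' * x = l • 1) :
    (1 - c * c') * x = (x - l • c) * (1 - c * c') := by
  have e1 : c' * x = l • 1 - x * c' := eq_sub_of_add_eq' h3
  have e2 : c * x = -(x * c) := eq_neg_of_add_eq_zero_left h2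
  have f1 : c * c' * x = l • c + x * (c * c') := by
    rw [mul_assoc, e1, mul_sub, ← mul_assoc c x, e2]
    simp only [mul_smul_comm, mul_one, neg_mul, mul_assoc, sub_neg_eq_add]
  have f2 : (x - l • c) * (c * c') = x * (c * c') := by
    rw [sub_mul, smul_mul_assoc, ← mul_assoc c c, h1, zero_mul, smul_zero, sub_zero]
  rw [sub_mul, f1, mul_sub, f2, one_mul, mul_one]
  abel

theorem ringB {R : Type} [Ring R] [Algebra ℂ R] {c c' y : R} {l : ℂ} (h1 : c' * c' = 0)
    (h0 : c * c' + c' * c = 1 + 1) (h2 : c' * y + y * c' = 0) (h3 : c * y + y * c = l • 1) :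
    (1 - c * c') * y = (y - l • c') * (1 - c * c') := by
  have e1 : c * y = l • 1 - y * c := eq_sub_of_add_eq h3
  have e2 : c' * y = -(y * c') := eq_neg_of_add_eq_zero_left h2
  have e3 : c' * c = 1 + 1 - c * c' := eq_sub_of_add_eq' h0
  have f1 : c * c' * y = -(l • c') + y * (c * c') := by
    rw [mul_assoc, e2, mul_neg, ← mul_assoc c y, e1, sub_mul]
    simp only [smul_mul_assoc, one_mul, mul_assoc]
    abel
  have f2 : c' * (c * c') = c' + c' := by
    rw [← mul_assoc, e3, sub_mul, mul_assoc, h1, mul_zero, sub_zero, add_mul, one_mul]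
  rw [sub_mul, f1, mul_sub, mul_one, sub_mul y, smul_mul_assoc, f2, one_mul, smul_add]
  abel

variable {ν : Type} [Fintype ν] [LinearOrder ν]

/-- A lift of a permutation. -/
def Lift (p : ν → ν) (W : Matrix (Finset ν) (Finset ν) ℂ) : Prop :=
  (∀ j, W * eps j = eps (p j) * W) ∧ (∀ j, W * iot j = iot (p j) * W) ∧
    W *ᵥ Pi.single ∅ 1 = Pi.single ∅ 1

theorem Lift.mul {p q : ν → ν} {W W' : Matrix (Finset ν) (Finset ν) ℂ} (h : Lift p W)
    (h' : Lift q W') : Lift (p ∘ q) (W * W') :=
  ⟨fun j => by rw [mul_assoc, h'.1, ← mul_assoc, h.1, mul_assoc]; rfl,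
    fun j => by rw [mul_assoc, h'.2.1, ← mul_assoc, h.2.1, mul_assoc]; rfl,
    by rw [← mulVec_mulVec, h'.2.2, h.2.2]⟩

omit [LinearOrder ν] in
theorem half {A : Matrix (Finset ν) (Finset ν) ℂ} (h : A + A = 0) : A = 0 := by
  rw [← two_smul ℂ A] at h
  exact (smul_eq_zero.1 h).resolve_left two_ne_zero

theorem lift_swap (hCLIF : S_CLIF) {j k : ν} (hjk : j ≠ k) : ∃ W, Lift (Equiv.swap j k) W := by
  obtain ⟨h, -⟩ := hCLIF ν
  have a1 : ∀ m : ν, (eps j - eps k) * eps m + eps m * (eps j - eps k) = 0 := fun m => by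
    rw [sub_mul, mul_sub, sub_add_sub_comm, (h j m).1, (h k m).1, sub_zero]
  have a2 : ∀ m : ν, (iot j - iot k) * iot m + iot m * (iot j - iot k) = 0 := fun m => by
    rw [sub_mul, mul_sub, sub_add_sub_comm, (h j m).2.1, (h k m).2.1, sub_zero]
  have a3 : ∀ m : ν, eps m * (iot j - iot k) + (iot j - iot k) * eps m =
      ((if m = j then 1 else 0) - if m = k then 1 else 0 : ℂ) • 1 := fun m => by
    rw [sub_mul, mul_sub, sub_add_sub_comm, (h m j).2.2, (h m k).2.2]
    split_ifs <;> simp
  have a4 : ∀ m : ν, (eps j - eps k) * iot m + iot m * (eps j - eps k) =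
      ((if m = j then 1 else 0) - if m = k then 1 else 0 : ℂ) • 1 := fun m => by
    rw [sub_mul, mul_sub, sub_add_sub_comm, (h j m).2.2, (h k m).2.2]
    simp only [eq_comm (a := m)]
    split_ifs <;> simp
  have sw : ∀ (f : ν → Matrix (Finset ν) (Finset ν) ℂ) m, f (Equiv.swap j k m) =
      f m - ((if m = j then 1 else 0) - if m = k then 1 else 0 : ℂ) • (f j - f k) := fun f m => by
    rw [Equiv.swap_apply_def]
    split_ifs with e1 e2 e2
    · exact absurd (e1.symm.trans e2) hjk
    · simp [e1]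
    · simp [e2]
    · simp
  refine ⟨1 - (eps j - eps k) * (iot j - iot k), fun m => ?_, fun m => ?_, ?_⟩
  · rw [sw eps]
    refine ringA (half ?_) (a1 m) (a3 m)
    rw [show ∀ a b : Matrix (Finset ν) (Finset ν) ℂ, (a - b) * (a - b) + (a - b) * (a - b) =
      ((a - b) * a + a * (a - b)) - ((a - b) * b + b * (a - b)) from fun a b => by noncomm_ring,
      a1, a1, sub_zero]
  · rw [sw iot]
    refine ringB (half ?_) ?_ (a2 m) (a4 m)
    · rw [show ∀ a b : Matrix (Finset ν) (Finset ν) ℂ, (a - b) * (a - b) + (a - b) * (a - b) =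
        ((a - b) * a + a * (a - b)) - ((a - b) * b + b * (a - b)) from fun a b => by noncomm_ring,
        a2, a2, sub_zero]
    · rw [mul_sub, sub_mul (iot j), sub_add_sub_comm, a4, a4]
      simp [hjk, hjk.symm]
  · have : (iot j - iot k) *ᵥ (Pi.single ∅ 1 : Finset ν → ℂ) = 0 := by
      ext I
      simp [iot, eps]
    rw [sub_mulVec, one_mulVec, ← mulVec_mulVec, this, mulVec_zero, sub_zero]

theorem exists_lift (hCLIF : S_CLIF) (p : Equiv.Perm ν) : ∃ W, Lift p W := by
  induction p using Equiv.Perm.swap_induction_on with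
  | one => exact ⟨1, fun j => by simp, fun j => by simp, one_mulVec _⟩
  | swap_mul p j k hjk ih =>
    obtain ⟨W, h⟩ := ih
    obtain ⟨W', h'⟩ := lift_swap hCLIF hjk
    exact ⟨_, h'.mul h⟩

theorem Lift.eq_one {W : Matrix (Finset ν) (Finset ν) ℂ} (h : Lift id W) : W = 1 := by
  have key : ∀ J : Finset ν, W *ᵥ Pi.single J 1 = Pi.single J 1 := by
    intro J
    induction J using Finset.induction_on with
    | empty => exact h.2.2
    | insert j J hj ih =>
      have e : eps j *ᵥ (Pi.single J 1 : Finset ν → ℂ) =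
          ((-1 : ℂ) ^ ((insert j J).filter (· < j)).card) • Pi.single (insert j J) 1 := by
        ext I
        by_cases hI : I = insert j J
        · simp [eps, hI, hj]
        · have : ¬(j ∈ I ∧ J = I.erase j) := fun a => hI (by rw [a.2, Finset.insert_erase a.1])
          simp [eps, hI, this]
      have e2 : W *ᵥ (eps j *ᵥ Pi.single J 1) = eps j *ᵥ Pi.single J 1 := by
        rw [mulVec_mulVec, h.1, ← mulVec_mulVec, ih]; rfl
      rw [e, mulVec_smul] at e2
      exact smul_right_injective _ (pow_ne_zero _ (neg_ne_zero.2 one_ne_zero)) e2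
  ext I J
  simpa [one_apply, Pi.single_apply] using congrFun (key J) I

theorem Lift.deg (hCLIF : S_CLIF) {p : Equiv.Perm ν} {W : Matrix (Finset ν) (Finset ν) ℂ}
    (h : Lift p W) (I J : Finset ν) (hW : W I J ≠ 0) : I.card = J.card := by
  have e := (hCLIF ν).2.2.2.1 fun _ => 1
  simp only [one_smul, Finset.sum_const, nsmul_eq_mul, mul_one] at e
  have e2 : W * ∑ j, eps j * iot j = (∑ j, eps j * iot j) * W := by
    rw [Finset.mul_sum, Finset.sum_mul, ← Equiv.sum_comp p fun j => eps j * iot j * W]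
    exact Finset.sum_congr rfl fun j _ => by rw [← mul_assoc, h.1, mul_assoc, h.2.1, mul_assoc]
  have e3 := congrFun (congrFun e2 I) J
  rw [e, mul_diagonal, diagonal_mul, mul_comm] at e3
  exact_mod_cast (mul_right_cancel₀ hW e3).symm

end SpinAux

open SpinAux Matrix in
theorem p_SPIN (hCLIF : S_CLIF) :
    S_SPIN := by
  intro ν _ _ bar hb
  obtain ⟨W, h⟩ := exists_lift hCLIF bar
  have h2 : W * W = 1 := Lift.eq_one (by
    have := h.mul h
    rwa [show bar ∘ bar = id from funext hb] at this)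
  obtain ⟨-, c2, -⟩ := hCLIF ν
  have cm : W * diagonal (fun I : Finset ν => Complex.I ^ I.card) =
      diagonal (fun I : Finset ν => Complex.I ^ I.card) * W := by
    ext I J
    rw [mul_diagonal, diagonal_mul, mul_comm]
    by_cases e : W I J = 0
    · simp [e]
    · rw [h.deg hCLIF I J e]
  refine ⟨diagonal (fun I : Finset ν => Complex.I ^ I.card) * W, fun I J e => h.deg hCLIF I J
    fun e' => e (by rw [diagonal_mul, e', mul_zero]), fun j => ?_, fun j => ?_, ?_⟩
  · rw [mul_assoc, h.1, ← mul_assoc, ← mul_assoc, ← smul_mul_assoc]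
    congr 1
    ext I J
    rw [diagonal_mul, Matrix.smul_apply, mul_diagonal, smul_eq_mul]
    by_cases e : eps (bar j) I J = 0
    · simp [e]
    · rw [(c2 _ I J).1 e]; ring
  · rw [mul_assoc, h.2.1, ← mul_assoc, ← mul_assoc, ← smul_mul_assoc]
    congr 1
    ext I J
    rw [diagonal_mul, Matrix.smul_apply, mul_diagonal, smul_eq_mul]
    by_cases e : iot (bar j) I J = 0
    · simp [e]
    · rw [← (c2 _ I J).2 e]
      linear_combination (Complex.I ^ I.card * iot (bar j) I J) * Complex.I_mul_I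
  · rw [mul_assoc, ← mul_assoc W, cm, mul_assoc, h2, mul_one, diagonal_mul_diagonal, parM]
    simp only [← mul_pow, Complex.I_mul_I]

end Pool.Agent.P.MP_52ab5a_al
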