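import Pool.Agent.P.MP_52ab5a_al.B.Iface

/-! Step TI of the open orbit project. -/

namespace Pool.Agent.P.MP_52ab5a_al

open MvPolynomial WM

namespace TiAux

variable {M ι κ : Type} [AddCommGroup M] [Module ℂ M]

/-- The kernel of the map to the fibre. -/
noncomputable def K (h : Module.End ℂ M) (z : ι → Module.End ℂ M) (Y : ι → ℂ)
    (Λ : Submodule ℂ M) : Submodule ℂ M := Λ.map h ⊔ radz z Y Λ

variable {h w T : Module.End ℂ M} {z : ι → Module.End ℂ M} {Y : ι → ℂ} {Λ S : Submodule ℂ M}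

theorem radz_le (h2 : ∀ s, ∀ v ∈ Λ, z s v - Y s • v ∈ S) : radz z Y Λ ≤ S :=
  iSup_le fun s => by rintro _ ⟨v, hv, rfl⟩; exact h2 s v hv

theorem K_le (h1 : ∀ v ∈ Λ, h v ∈ S) (h2 : ∀ s, ∀ v ∈ Λ, z s v - Y s • v ∈ S) : K h z Y Λ ≤ S :=
  sup_le (by rintro _ ⟨v, hv, rfl⟩; exact h1 v hv) (radz_le h2)

theorem h_mem {v : M} (hv : v ∈ Λ) : h v ∈ K h z Y Λ := Submodule.mem_sup_left ⟨v, hv, rfl⟩

theorem z_mem (s : ι) {v : M} (hv : v ∈ Λ) : z s v - Y s • v ∈ K h z Y Λ :=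
  Submodule.mem_sup_right (Submodule.mem_iSup_of_mem s ⟨v, hv, rfl⟩)

theorem ap {A B C D : Module.End ℂ M} (e : A * B = C * D) (v : M) : A (B v) = C (D v) :=
  DFunLike.congr_fun e v

theorem pow_mem {A : Module.End ℂ M} (hA : ∀ v ∈ S, A v ∈ S) (k : ℕ) : ∀ v ∈ S, (A ^ k) v ∈ S := by
  induction k with
  | zero => exact fun v hv => hv
  | succ k ih => exact fun v hv => by rw [pow_succ]; exact ih _ (hA v hv)

theorem sub_mem' (hw : ∀ v ∈ S, w v ∈ S) (c : ℂ) : ∀ v ∈ S, (w - c • (1 : Module.End ℂ M)) v ∈ S :=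
  fun v hv => S.sub_mem (hw v hv) (S.smul_mem c hv)

theorem K_map (hh : T * h = h * T) (hz : ∀ s, T * z s = z s * T) :
    K h z Y (Λ.map T) ≤ (K h z Y Λ).map T := by
  refine K_le ?_ fun s => ?_
  · rintro _ ⟨v, hv, rfl⟩; exact ⟨_, h_mem hv, ap hh v⟩
  · rintro _ ⟨v, hv, rfl⟩; exact ⟨_, z_mem s hv, by rw [map_sub, map_smul, ap (hz s)]⟩

theorem gen_map {O : Set (Module.End ℂ M)} (hO : ∀ A ∈ O, T * A = A * T) (G : Set M) :
    (gen O G).map T = gen O (T '' G) := by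
  refine le_antisymm (Submodule.map_le_iff_le_comap.2 (gen_le (fun v hv =>
    subset_gen _ _ ⟨v, hv, rfl⟩) fun A hA v hv => ?_)) (gen_le ?_ fun A hA => ?_)
  · rw [Submodule.mem_comap, ap (hO A hA)]; exact gen_stable hA hv
  · rintro _ ⟨v, hv, rfl⟩; exact ⟨v, subset_gen _ _ hv, rfl⟩
  · rintro _ ⟨v, hv, rfl⟩; exact ⟨_, gen_stable hA hv, ap (hO A hA) v⟩

theorem sup_st {A : Module.End ℂ M} {L L' : Submodule ℂ M} (h1 : ∀ v ∈ L, A v ∈ L)
    (h2 : ∀ v ∈ L', A v ∈ L') : ∀ v ∈ L ⊔ L', A v ∈ L ⊔ L' := fun v hv => by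
  obtain ⟨a, ha, b, hb, rfl⟩ := Submodule.mem_sup.1 hv
  rw [map_add]; exact Submodule.add_mem_sup (h1 a ha) (h2 b hb)

theorem gen_union (O : Set (Module.End ℂ M)) (G G' : Set M) :
    gen O G ⊔ gen O G' = gen O (G ∪ G') :=
  le_antisymm (sup_le
    (gen_le (Set.subset_union_left.trans (subset_gen _ _)) fun _ hA _ => gen_stable hA)
    (gen_le (Set.subset_union_right.trans (subset_gen _ _)) fun _ hA _ => gen_stable hA))
    (gen_le (Set.union_subset (fun _ hv => Submodule.mem_sup_left (subset_gen _ _ hv))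
      fun _ hv => Submodule.mem_sup_right (subset_gen _ _ hv))
      fun _ hA => sup_st (fun _ => gen_stable hA) fun _ => gen_stable hA)

/-- Admissible lattices. -/
structure Adm (h w : Module.End ℂ M) (z : ι → Module.End ℂ M) (γ : κ → Module.End ℂ M)
    (g : Set κ) (Λ : Submodule ℂ M) : Prop where
  fg : ∃ G : Finset M, Λ = gen (insert h (Set.range z)) G
  sγ : ∀ ξ ∈ g, ∀ v ∈ Λ, γ ξ v ∈ Λ
  sw : ∀ v ∈ Λ, w v ∈ Λ

variable {γ : κ → Module.End ℂ M} {g : Set κ}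

theorem Adm.st (a : Adm h w z γ g Λ) {A : Module.End ℂ M} (hA : A ∈ insert h (Set.range z)) :
    ∀ v ∈ Λ, A v ∈ Λ := by
  obtain ⟨G, rfl⟩ := a.fg
  exact fun _ => gen_stable hA

theorem Adm.sup {L L' : Submodule ℂ M} (a : Adm h w z γ g L) (b : Adm h w z γ g L') :
    Adm h w z γ g (L ⊔ L') := by
  classical
  obtain ⟨G, e⟩ := a.fg
  obtain ⟨G', e'⟩ := b.fg
  exact ⟨⟨G ∪ G', by rw [e, e', gen_union, Finset.coe_union]⟩,
    fun ξ hξ => sup_st (a.sγ ξ hξ) (b.sγ ξ hξ), sup_st a.sw b.sw⟩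

theorem Adm.map (a : Adm h w z γ g Λ) (hh : T * h = h * T) (hz : ∀ s, T * z s = z s * T)
    (hγ : ∀ ξ, T * γ ξ = γ ξ * T) {ε : ℂ} (hw : T * (ε • w) = w * T) :
    Adm h w z γ g (Λ.map T) := by
  classical
  obtain ⟨G, e⟩ := a.fg
  refine ⟨⟨G.image T, ?_⟩, fun ξ hξ => ?_, ?_⟩
  · rw [e, gen_map, Finset.coe_image]
    rintro _ (rfl | ⟨s, rfl⟩)
    exacts [hh, hz s]
  · rintro _ ⟨v, hv, rfl⟩; exact ⟨_, a.sγ ξ hξ v hv, ap (hγ ξ) v⟩
  · rintro _ ⟨v, hv, rfl⟩; exact ⟨_, Λ.smul_mem ε (a.sw v hv), ap hw v⟩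

/-- `w` has the single eigenvalue `c` on the fibre. -/
def Pr (h w : Module.End ℂ M) (z : ι → Module.End ℂ M) (Y : ι → ℂ) (c : ℂ) (Λ : Submodule ℂ M) :
    Prop := ∃ k : ℕ, ∀ v ∈ Λ, ((w - c • (1 : Module.End ℂ M)) ^ k) v ∈ K h z Y Λ

theorem step {e : ι → ι} {c : ℂ} {L L' : Submodule ℂ M} (hz : ∀ s, h * z s = z s * h)
    (hw : h * w = w * h) (he : ∀ s, w * z s = z (e s) * w) (hY : ∀ s, Y (e s) = Y s)
    (a : ∀ v ∈ L', w v ∈ L') (h1 : L.map h ≤ L')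
    (key : L' ⊓ K h z Y L ≤ L.map h ⊔ radz z Y L') (h2 : L' ≤ L) (p : Pr h w z Y c L) :
    Pr h w z Y c L' := by
  obtain ⟨k, hk⟩ := p
  have hc : Commute h ((w - c • (1 : Module.End ℂ M)) ^ k) :=
    ((Commute.sub_right hw ((Commute.one_right h).smul_right c))).pow_right k
  have hK : K h z Y L' ≤ (K h z Y L').comap w := K_le
    (fun v hv => by rw [Submodule.mem_comap, ← ap hw]; exact h_mem (a v hv)) fun s v hv => by
      rw [Submodule.mem_comap, map_sub, map_smul, ap (he s), ← hY s]; exact z_mem _ (a v hv)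
  have hL : K h z Y L ≤ (K h z Y L').comap h := K_le
    (fun v hv => h_mem (h1 ⟨v, hv, rfl⟩)) fun s v hv => by
      rw [Submodule.mem_comap, map_sub, map_smul, ap (hz s)]; exact z_mem _ (h1 ⟨v, hv, rfl⟩)
  refine ⟨k + k, fun v hv => ?_⟩
  have : L.map h ⊔ radz z Y L' ≤ (K h z Y L').comap ((w - c • (1 : Module.End ℂ M)) ^ k) := by
    refine sup_le ?_ fun u hu => pow_mem (sub_mem' hK c) k u (Submodule.mem_sup_right hu)
    rintro _ ⟨u, hu, rfl⟩
    rw [Submodule.mem_comap, ← ap hc.eq]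
    exact hL (hk u hu)
  rw [pow_add]
  exact this (key ⟨pow_mem (sub_mem' a c) k v hv, hk v (h2 hv)⟩)

theorem main {e : ι → ι} {c : ℂ} {n : ℕ} (hz : ∀ s, h * z s = z s * h)
    (hγ : ∀ ξ, h * γ ξ = γ ξ * h) (hw : h * w = w * h) (he : ∀ s, w * z s = z (e s) * w)
    (hY : ∀ s, Y (e s) = Y s) (Th : T * h = h * T) (Tz : ∀ s, T * z s = z s * T)
    (Tγ : ∀ ξ, T * γ ξ = γ ξ * T) (Tw' : T * w = (-1 : ℂ) • (w * T)) (Ti : Function.Injective T)
    (TT : T * T = h ^ n) (a : Adm h w z γ g Λ) (TΛ : Λ.map T ≤ Λ) (hc : c ≠ 0)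
    (key : ∀ L L', Adm h w z γ g L → Adm h w z γ g L' → L.map h ≤ L' → L' ≤ L →
      L' ⊓ K h z Y L ≤ L.map h ⊔ radz z Y L')
    (p : ∀ v ∈ Λ, w v - c • v ∈ K h z Y Λ) : Λ ≤ K h z Y Λ := by
  have Tw : T * -w = w * T := by rw [mul_neg, Tw', neg_smul, one_smul, neg_neg]
  have b := a.map Th Tz Tγ (ε := -1) (by rw [neg_smul, one_smul, Tw])
  have ad : ∀ j : ℕ, Adm h w z γ g (Λ.map (h ^ j) ⊔ Λ.map T) := fun j =>
    (a.map ((Commute.refl h).pow_left j) (fun s => (Commute.pow_left (hz s) j))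
      (fun ξ => (Commute.pow_left (hγ ξ) j)) (ε := 1)
      (by rw [one_smul]; exact Commute.pow_left hw j)).sup b
  have ch : ∀ j : ℕ, Pr h w z Y c (Λ.map (h ^ j) ⊔ Λ.map T) := fun j => by
    induction j with
    | zero =>
      rw [pow_zero, Module.End.one_eq_id, Submodule.map_id, sup_eq_left.2 TΛ]
      exact ⟨1, fun v hv => by rw [pow_one]; exact p v hv⟩
    | succ j ih =>
      have h1 : (Λ.map (h ^ j) ⊔ Λ.map T).map h ≤ Λ.map (h ^ (j + 1)) ⊔ Λ.map T := by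
        rw [Submodule.map_sup]
        refine sup_le_sup ?_ ?_
        · rintro _ ⟨_, ⟨v, hv, rfl⟩, rfl⟩; exact ⟨v, hv, by rw [pow_succ']; rfl⟩
        · rintro _ ⟨v, hv, rfl⟩; exact b.st (Set.mem_insert _ _) v hv
      have h2 : Λ.map (h ^ (j + 1)) ⊔ Λ.map T ≤ Λ.map (h ^ j) ⊔ Λ.map T := by
        refine sup_le_sup_right ?_ _
        rintro _ ⟨v, hv, rfl⟩
        exact ⟨_, a.st (Set.mem_insert _ _) v hv, by rw [pow_succ]; rfl⟩
      exact step hz hw he hY (ad _).sw h1 (key _ _ (ad _) (ad _) h1 h2) h2 ih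
  have := ch n
  rw [sup_eq_right.2 (by
    rintro _ ⟨v, hv, rfl⟩; exact ⟨T v, TΛ ⟨v, hv, rfl⟩, by rw [← TT]; rfl⟩)] at this
  obtain ⟨k, hk⟩ := this
  have e1 : T * (-w - c • (1 : Module.End ℂ M)) ^ k = (w - c • (1 : Module.End ℂ M)) ^ k * T :=
    SemiconjBy.pow_right (SemiconjBy.sub_right Tw (by simp [SemiconjBy])) k
  have e2 : ∀ v ∈ Λ, ((-w - c • (1 : Module.End ℂ M)) ^ k) v ∈ K h z Y Λ := fun v hv => by
    obtain ⟨u, hu, e⟩ := K_map Th Tz (hk _ ⟨v, hv, rfl⟩)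
    rw [← ap e1] at e
    exact Ti e ▸ hu
  have e3 : ∀ (k : ℕ), ∀ v ∈ Λ, ((-w - c • (1 : Module.End ℂ M)) ^ k) v ∈ K h z Y Λ →
      v ∈ K h z Y Λ := fun k => by
    induction k with
    | zero => exact fun v _ hv => hv
    | succ k ih =>
      intro v hv hu
      rw [pow_succ] at hu
      have h3 := (K h z Y Λ).add_mem (ih _ (Λ.sub_mem (Λ.neg_mem (a.sw v hv)) (Λ.smul_mem c hv)) hu)
        (p v hv)
      have e : -w v - c • v + (w v - c • v) = (-2 * c) • v := by module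
      rw [e] at h3
      exact (Submodule.smul_mem_iff _ (mul_ne_zero (by norm_num) hc)).1 h3
  exact fun v hv => e3 k v hv (e2 v hv)

theorem sh_pow {V : Type} [AddCommGroup V] [Module ℂ V] (m : ℕ) (k : ℤ) (v : V) :
    (sh V ^ m) (Finsupp.single k v) = Finsupp.single (k + m) v := by
  induction m with
  | zero => simp
  | succ m ih =>
    rw [pow_succ', Module.End.mul_apply, ih]
    simp [sh, add_assoc]

theorem exh {V : Type} [AddCommGroup V] [Module ℂ V] {F : ℤ → Submodule ℂ V} (hm : Monotone F)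
    (he : ∀ v, ∃ k, v ∈ F k) (u : ℤ →₀ V) : ∀ᶠ m : ℕ in Filter.atTop, (sh V ^ m) u ∈ lat F := by
  induction u using Finsupp.induction_linear with
  | zero => simp
  | add a b ha hb =>
    filter_upwards [ha, hb] with m h1 h2
    rw [map_add]; exact add_mem h1 h2
  | single k v =>
    obtain ⟨j, hj⟩ := he v
    filter_upwards [Filter.eventually_ge_atTop (j - k).toNat] with m h
    rw [sh_pow]
    refine (Submodule.mem_iInf _).2 fun i => ?_
    rw [Submodule.mem_comap, Finsupp.lapply_apply, Finsupp.single_apply]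
    split_ifs with e
    · exact hm (by omega) hj
    · exact zero_mem _

end TiAux

open TiAux in
theorem p_TI (hREES : S_REES) (hEQV : S_EQV) (hFE : S_FE) :
    S_TI := by
  intro σ _ N F g Y e W η c hN hF hg hY hγ he hW hWF hη hηη hηW hc hp
  obtain ⟨hb, hs, hr, h1, -, -, hl⟩ := hREES σ N
  have rz : ∀ {U : Module.End ℂ N.V} {f : σ → σ}, Semi N f U →
      ∀ s, rx U * N.rz s = N.rz (Sum.map f f s) * rx U := fun {U f} hU s => by
    rcases s with s | s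
    · change rx U * rx (N.X s) = rx (N.X (f s)) * rx U
      rw [← (hr _ _).1, ← (hr _ _).1, (hU s).1]
    · change rx U * (sh N.V * rx (N.D s)) = sh N.V * rx (N.D (f s)) * rx U
      rw [← mul_assoc, ← hs, mul_assoc, mul_assoc, ← (hr _ _).1, ← (hr _ _).1, (hU s).2]
  have hz : ∀ s, sh N.V * N.rz s = N.rz s * sh N.V := fun s => by
    rcases s with s | s
    · exact hs _
    · change sh N.V * (sh N.V * rx (N.D s)) = sh N.V * rx (N.D s) * sh N.V
      rw [mul_assoc, hs]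
  have ηz : ∀ s, rx η * N.rz s = N.rz s * rx η := fun s => by simpa using rz hη s
  have ηγ : ∀ ξ, rx η * rx (N.vf ξ) = rx (N.vf ξ) * rx η := fun ξ => by
    rw [← (hr _ _).1, ← (hr _ _).1]
    congr 1
    simp only [WM.vf, Finset.mul_sum, Finset.sum_mul, mul_smul_comm, smul_mul_assoc]
    refine Finset.sum_congr rfl fun s _ => Finset.sum_congr rfl fun t _ => ?_
    rw [← mul_assoc, (hη t).1, mul_assoc, (hη s).2, mul_assoc]; rfl
  have ηη : rx η * rx η = 1 := by rw [← (hr _ _).1, hηη, h1]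
  have ηW : rx η * rx W = (-1 : ℂ) • (rx W * rx η) := by
    rw [← (hr _ _).1, hηW, ← neg_one_smul ℂ (W * η), (hr _ η).2.2, (hr _ _).1]
  have a : Adm (sh N.V) (rx W) N.rz (fun ξ => rx (N.vf ξ)) (g : Set (Matrix σ σ ℂ)) (lat F) :=
    ⟨hF.fg, fun ξ hξ => (hl F).2.1 _ (hγ ξ hξ), (hl F).2.1 _ hWF⟩
  obtain ⟨G, hG⟩ := hF.fg
  obtain ⟨m, hm⟩ := ((Filter.eventually_all_finset G).2 fun u _ =>
    exh hF.mono hF.exh (rx η u)).exists
  have cη : Commute (sh N.V) (rx η) := hs η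
  have Th : sh N.V ^ m * rx η * sh N.V = sh N.V * (sh N.V ^ m * rx η) :=
    (((Commute.refl _).pow_left m).mul_left cη.symm).eq
  have Tz : ∀ s, sh N.V ^ m * rx η * N.rz s = N.rz s * (sh N.V ^ m * rx η) := fun s =>
    ((Commute.pow_left (hz s) m).mul_left (ηz s)).eq
  refine main (T := sh N.V ^ m * rx η) (n := m + m) (e := Sum.map e e) hz (fun ξ => hs _) (hs _)
    (rz hW) (congrFun he) Th Tz (fun ξ => ((Commute.pow_left (hs _) m).mul_left (ηγ ξ)).eq) ?_ ?_ ?_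
    a ?_ hc (fun L L' b b' h1 h2 => ?_) hp
  · rw [mul_assoc, ηW, mul_smul_comm, ← mul_assoc, ← mul_assoc, (Commute.pow_left (hs W) m).eq]
  · rw [Module.End.coe_mul, Module.End.coe_pow]
    refine (hb.1.iterate m).comp (Function.LeftInverse.injective (g := rx η) fun v => ?_)
    exact DFunLike.congr_fun ηη v
  · rw [mul_assoc, ← mul_assoc (rx η), ← (cη.pow_left m).eq, mul_assoc, ηη, mul_one, pow_add]
  · refine Submodule.map_le_iff_le_comap.2 (hG.le.trans (gen_le (fun u hu => hm u hu) ?_))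
    rintro A hA v hv
    have : sh N.V ^ m * rx η * A = A * (sh N.V ^ m * rx η) := by
      rcases hA with rfl | ⟨s, rfl⟩
      exacts [Th, Tz s]
    rw [Submodule.mem_comap, ap this]
    exact a.st hA _ hv
  · refine (hFE σ _ g Y N.rz (fun ξ => rx (N.vf ξ)) (L.map (sh N.V)) L' L hg hY
      (hEQV σ N g L _ hN b.fg b.sγ le_rfl (h1.trans h2) (fun s => ?_) fun ξ hξ => ?_) h1 h2
      (fun s => b'.st (Set.mem_insert_of_mem _ ⟨s, rfl⟩)) b'.sγ).1
    · rintro _ ⟨v, hv, rfl⟩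
      exact ⟨_, b.st (Set.mem_insert_of_mem _ ⟨s, rfl⟩) v hv, ap (hz s) v⟩
    · rintro _ ⟨v, hv, rfl⟩; exact ⟨_, b.sγ ξ hξ v hv, ap (hs _) v⟩

end Pool.Agent.P.MP_52ab5a_al
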