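import Pool.Agent.P.MP_52ab5a_al.B.Iface

/-! Step VF of the open orbit project. -/

namespace Pool.Agent.P.MP_52ab5a_al

open MvPolynomial WM

namespace VfAux

variable {σ : Type} [Fintype σ] [DecidableEq σ]

/-- The bilinear expression behind the vector field and its symbol. -/
noncomputable def bil {A : Type} [Ring A] [Algebra ℂ A] (x d : σ → A) (ξ : Matrix σ σ ℂ) : A :=
  ∑ s, ∑ t, ξ s t • (x t * d s)

omit [DecidableEq σ] in
theorem bil_der {A : Type} [Ring A] [Algebra ℂ A] (x d : σ → A) (ξ η : Matrix σ σ ℂ) :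
    ∑ s, ∑ t, η s t • ((∑ u, ξ t u • x u) * d s + x t * -∑ u, ξ u s • d u) =
      bil x d (η * ξ - ξ * η) := by
  simp only [bil, Matrix.sub_apply, Matrix.mul_apply, smul_add,
    Finset.sum_add_distrib, Finset.sum_mul, Finset.mul_sum, mul_neg, smul_neg,
    Finset.sum_neg_distrib, Finset.smul_sum, Finset.sum_smul, smul_mul_assoc, mul_smul_comm,
    smul_smul, sub_eq_add_neg, add_smul, neg_smul]
  congr 1
  · exact Finset.sum_congr rfl fun s _ => Finset.sum_comm
  · congr 1
    rw [Finset.sum_comm]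
    refine (Finset.sum_congr rfl fun t _ => Finset.sum_comm).trans ?_
    rw [Finset.sum_comm]
    exact Finset.sum_congr rfl fun u _ => Finset.sum_congr rfl fun t _ =>
      Finset.sum_congr rfl fun s _ => by rw [mul_comm]

omit [Fintype σ] in
theorem cX {N : WM σ} (h : N.IsW) (s t u : σ) :
    N.X t * N.D s * N.X u - N.X u * (N.X t * N.D s) = if s = u then N.X t else 0 := by
  rw [← mul_assoc, h.1 u t, mul_assoc, mul_assoc, ← mul_sub]
  split_ifs with e
  · rw [e, h.2.2.1, mul_one]
  · rw [h.2.2.2 s u e, sub_self, mul_zero]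

omit [Fintype σ] in
theorem cD {N : WM σ} (h : N.IsW) (s t u : σ) :
    N.X t * N.D s * N.D u - N.D u * (N.X t * N.D s) = -if t = u then N.D s else 0 := by
  rw [mul_assoc, h.2.1 s u, ← mul_assoc, ← mul_assoc, ← sub_mul, ← neg_sub, neg_mul]
  split_ifs with e
  · rw [e, h.2.2.1, one_mul]
  · rw [h.2.2.2 u t (Ne.symm e), sub_self, zero_mul]

theorem vfX {N : WM σ} (h : N.IsW) (ξ : Matrix σ σ ℂ) (u : σ) :
    N.vf ξ * N.X u - N.X u * N.vf ξ = ∑ t, ξ u t • N.X t := by
  simp only [WM.vf, Finset.sum_mul, Finset.mul_sum, smul_mul_assoc, mul_smul_comm,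
    ← Finset.sum_sub_distrib, ← smul_sub, cX h]
  rw [Finset.sum_comm]
  simp

theorem vfD {N : WM σ} (h : N.IsW) (ξ : Matrix σ σ ℂ) (u : σ) :
    N.vf ξ * N.D u - N.D u * N.vf ξ = -∑ s, ξ s u • N.D s := by
  simp only [WM.vf, Finset.sum_mul, Finset.mul_sum, smul_mul_assoc, mul_smul_comm,
    ← Finset.sum_sub_distrib, ← smul_sub, cD h]
  simp

theorem vfvf {N : WM σ} (h : N.IsW) (ξ η : Matrix σ σ ℂ) :
    N.vf ξ * N.vf η - N.vf η * N.vf ξ = N.vf (η * ξ - ξ * η) := by
  refine Eq.trans ?_ (bil_der N.X N.D ξ η)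
  have e : ∀ T : Module.End ℂ N.V, T * N.vf η - N.vf η * T =
      ∑ s, ∑ t, η s t • ((T * N.X t - N.X t * T) * N.D s + N.X t * (T * N.D s - N.D s * T)) :=
    fun T => by
      simp only [WM.vf, Finset.sum_mul, Finset.mul_sum, smul_mul_assoc, mul_smul_comm,
        ← Finset.sum_sub_distrib, ← smul_sub]
      refine Finset.sum_congr rfl fun s _ => Finset.sum_congr rfl fun t _ => ?_
      congr 1
      noncomm_ring
  rw [e]
  simp only [vfX h, vfD h]

omit [DecidableEq σ] in
theorem ev_der (ξ : Matrix σ σ ℂ) (z : σ ⊕ σ → ℂ) (v : σ ⊕ σ) :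
    eval z (der ξ (X v)) = hv ξ z v := by
  rw [der, mkDerivation_X]
  cases v <;> simp [hv, Matrix.mulVec, dotProduct, smul_eval]

omit [DecidableEq σ] in
theorem ev_mu (ξ : Matrix σ σ ℂ) (z : σ ⊕ σ → ℂ) :
    eval z (mu ξ) = (z ∘ Sum.inr) ⬝ᵥ ξ.mulVec (z ∘ Sum.inl) := by
  simp only [mu, map_sum, smul_eval, map_mul, eval_X, dotProduct, Matrix.mulVec, Finset.mul_sum,
    Function.comp]
  exact Finset.sum_congr rfl fun s _ => Finset.sum_congr rfl fun t _ => by ring

omit [DecidableEq σ] in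
theorem om_eq (v v' : σ ⊕ σ → ℂ) :
    om v v' = (v ∘ Sum.inl) ⬝ᵥ (v' ∘ Sum.inr) - (v ∘ Sum.inr) ⬝ᵥ (v' ∘ Sum.inl) := by
  simp only [om, dotProduct, Finset.sum_sub_distrib, Function.comp]

end VfAux

open VfAux in
theorem p_VF :
    S_VF := by
  intro σ _ _ N
  refine ⟨fun ξ η c => ⟨?_, ?_⟩, fun w => ?_, fun ι _ γ δ ξ => ?_, fun ι _ e ξ => ?_,
    fun h => ⟨vfX h, vfD h, vfvf h⟩, fun ξ η => ⟨?_, fun f z => ?_, fun z => ?_, fun z v => ?_,
      fun z => ?_⟩⟩
  · simp only [WM.vf, Matrix.add_apply, add_smul, Finset.sum_add_distrib]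
  · simp only [WM.vf, Matrix.smul_apply, smul_eq_mul, mul_smul, Finset.smul_sum]
  · simp [WM.vf, WM.eu, dg, Matrix.diagonal_apply]
  · simp only [WM.vf, Pi.zero_apply, zero_smul, add_zero, Matrix.mul_apply, Finset.sum_mul,
      Finset.mul_sum, Finset.smul_sum, Finset.sum_smul, smul_mul_assoc, mul_smul_comm, smul_smul]
    have a : ∀ f : ι → ι → σ → σ → Module.End ℂ N.V,
        ∑ s, ∑ t, ∑ a, ∑ b, f s t a b = ∑ a, ∑ b, ∑ t, ∑ s, f s t a b := fun f => by
      rw [Finset.sum_comm]
      refine (Finset.sum_congr rfl fun t _ => Finset.sum_comm).trans ?_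
      rw [Finset.sum_comm]
      refine Finset.sum_congr rfl fun a _ => ?_
      refine (Finset.sum_congr rfl fun t _ => Finset.sum_comm).trans ?_
      rw [Finset.sum_comm]
    rw [a]
    exact Finset.sum_congr rfl fun a _ => Finset.sum_congr rfl fun b _ =>
      Finset.sum_congr rfl fun t _ => Finset.sum_congr rfl fun s _ => by congr 1; ring
  · simp only [WM.vf, Matrix.submatrix_apply]
    rw [← e.sum_comp]
    exact Finset.sum_congr rfl fun s _ => e.sum_comp fun t => ξ (e s) t • (N.X t * N.D (e s))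
  · refine Eq.trans ?_ (bil_der (fun t => X (Sum.inl t)) (fun s => X (Sum.inr s)) ξ η)
    simp only [mu, map_sum, Derivation.map_smul, Derivation.leibniz, der, mkDerivation_X,
      Sum.elim_inl, Sum.elim_inr, smul_eq_mul]
    exact Finset.sum_congr rfl fun s _ => Finset.sum_congr rfl fun t _ => by congr 1; ring
  · induction f using MvPolynomial.induction_on with
    | C a => simp [← algebraMap_eq]
    | add p q hp hq => simp only [map_add, hp, hq, mul_add, Finset.sum_add_distrib]
    | mul_X p v hp =>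
      simp only [Derivation.leibniz, smul_eq_mul, map_add, map_mul, hp, ev_der, eval_X, mul_add,
        Finset.sum_add_distrib, pderiv_X, Finset.mul_sum]
      congr 1
      · rw [Finset.sum_eq_single v (fun u _ hu => by simp [hu.symm]) (by simp)]
        simp [mul_comm]
      · exact Finset.sum_congr rfl fun u _ => by ring
  · rw [om_eq, ev_mu]
    simp only [hv, Sum.elim_comp_inl, Sum.elim_comp_inr, dotProduct_neg, neg_dotProduct,
      Matrix.mulVec_transpose, Matrix.sub_mulVec, dotProduct_sub, ← Matrix.mulVec_mulVec]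
    rw [Matrix.dotProduct_mulVec _ ξ, Matrix.dotProduct_mulVec _ η (ξ.mulVec _),
      dotProduct_comm (ξ.mulVec _)]
    ring
  · simp only [om, hv, Fintype.sum_sum_type, mu, map_sum, Derivation.map_smul, Derivation.leibniz,
      pderiv_X, smul_eq_mul, smul_eval, map_add, map_mul, eval_X, Sum.elim_inl, Sum.elim_inr,
      Pi.neg_apply, neg_mul, sub_neg_eq_add, Finset.sum_add_distrib]
    rw [add_comm]
    congr 1
    · refine Finset.sum_congr rfl fun u _ => ?_
      rw [mul_comm]
      simp [Pi.single_apply, apply_ite (eval z), Matrix.mulVec, dotProduct]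
    · refine Finset.sum_congr rfl fun u _ => ?_
      rw [mul_comm]
      simp [Pi.single_apply, apply_ite (eval z), Matrix.mulVec, dotProduct]
  · funext v
    cases v <;> simp [hv, Matrix.mulVec_mulVec, Matrix.sub_mulVec, Matrix.mulVec_neg,
      Matrix.transpose_sub, Matrix.transpose_mul]

end Pool.Agent.P.MP_52ab5a_al
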