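import Pool.Agent.P.MP_52ab5a_al.B.Iface
import Pool.Agent.P.MP_52ab5a_al.A.Iface

/-! Step WMX of the open orbit project. -/

namespace Pool.Agent.P.MP_52ab5a_al

open MvPolynomial WM

namespace WmxAux

variable {V : Type} [AddCommGroup V] [Module ℂ V] {E A U : Module.End ℂ V}

/-- The commutator with `E`. -/
noncomputable abbrev ad (E : Module.End ℂ V) : Module.End ℂ (Module.End ℂ V) :=
  LinearMap.mulLeft ℂ E - LinearMap.mulRight ℂ E

theorem ad_apply (E A : Module.End ℂ V) : ad E A = E * A - A * E := rfl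

theorem diag_ext (hE : Diag E) {P Q : Module.End ℂ V} (h : ∀ (a : ℂ) v, E v = a • v → P v = Q v) :
    P = Q := by
  have h1 : (⨆ a : ℂ, E.eigenspace a) ≤ LinearMap.eqLocus P Q :=
    iSup_le fun a v hv => h a v (Module.End.mem_eigenspace_iff.1 hv)
  rw [hE] at h1
  exact LinearMap.ext fun v => h1 trivial

theorem parts (h : ad E (ad E (ad E A)) = ad E A) :
    ∃ A₀ A₁ A₂, ad E A₀ = (0 : ℂ) • A₀ ∧ ad E A₁ = (1 : ℂ) • A₁ ∧ ad E A₂ = (-1 : ℂ) • A₂ ∧
      A = A₀ + A₁ + A₂ ∧ A - (2 : ℂ) • ad E (ad E A) = A₀ - A₁ - A₂ := by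
  refine ⟨A - ad E (ad E A), (2⁻¹ : ℂ) • (ad E (ad E A) + ad E A),
    (2⁻¹ : ℂ) • (ad E (ad E A) - ad E A), ?_, ?_, ?_, ?_, ?_⟩
  · rw [map_sub, h, sub_self, zero_smul]
  · rw [map_smul, map_add, h, one_smul, add_comm]
  · rw [map_smul, map_sub, h]
    module
  · module
  · module

theorem mem_sup (h : ad E (ad E (ad E A)) = ad E A) :
    A ∈ ⨆ k : ℤ, Module.End.eigenspace (ad E) (k : ℂ) := by
  obtain ⟨A₀, A₁, A₂, h0, h1, h2, rfl, -⟩ := parts h
  refine add_mem (add_mem (Submodule.mem_iSup_of_mem 0 ?_) (Submodule.mem_iSup_of_mem 1 ?_))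
    (Submodule.mem_iSup_of_mem (-1) ?_)
  · rw [Module.End.mem_eigenspace_iff, h0, Int.cast_zero]
  · rw [Module.End.mem_eigenspace_iff, h1, Int.cast_one]
  · rw [Module.End.mem_eigenspace_iff, h2, Int.cast_neg, Int.cast_one]

theorem tw (hE : Diag E) {q : ℂ → ℂ} (hU : ∀ a v, E v = a • v → U v = q a • v) {k c : ℂ}
    (h : ad E A = k • A) (hq : ∀ a, q (a + k) = c * q a) : U * A = c • (A * U) := by
  refine diag_ext hE fun a v hv => ?_
  have h1 : E (A v) = (a + k) • A v := by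
    have h2 : E (A v) - A (E v) = k • A v := LinearMap.congr_fun h v
    rw [hv, map_smul, sub_eq_iff_eq_add'] at h2
    rw [h2, add_smul]
  change U (A v) = c • A (U v)
  rw [hU _ _ h1, hU _ _ hv, hq, map_smul, mul_smul]

theorem semi (hE : Diag E) {q : ℂ → ℂ} (hU : ∀ a v, E v = a • v → U v = q a • v)
    (hq : ∀ a, q (a + 1) = -q a) (h : ad E (ad E (ad E A)) = ad E A) :
    U * A = (A - (2 : ℂ) • ad E (ad E A)) * U := by
  obtain ⟨A₀, A₁, A₂, h0, h1, h2, e1, e2⟩ := parts h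
  have t0 := tw hE hU (c := 1) h0 fun a => by rw [add_zero, one_mul]
  have t1 := tw hE hU (c := -1) h1 fun a => by rw [hq, neg_one_mul]
  have t2 := tw hE hU (c := -1) h2 fun a => by
    rw [neg_one_mul, eq_neg_iff_add_eq_zero, ← neg_neg (q (a + -1)), ← hq, neg_add_cancel_right,
      neg_add_cancel]
  rw [e2, e1, mul_add, mul_add, t0, t1, t2, sub_mul, sub_mul]
  module

variable {σ : Type} [Fintype σ] {B : σ → Module.End ℂ V} {ρ : Matrix σ σ ℂ}

theorem ad_comb (h : ∀ s, ad E (B s) = ∑ t, ρ s t • B t) (M : Matrix σ σ ℂ) (s : σ) :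
    ad E (∑ t, M s t • B t) = ∑ t, (M * ρ) s t • B t := by
  simp only [map_sum, map_smul, h, Finset.smul_sum, smul_smul, Matrix.mul_apply, Finset.sum_smul]
  exact Finset.sum_comm

theorem fam [DecidableEq σ] (h : ∀ s, ad E (B s) = ∑ t, ρ s t • B t) (h3 : ρ * ρ * ρ = ρ)
    {e : σ → σ} (he : ∀ s t, (1 - (2 : ℂ) • (ρ * ρ)) s t = if t = e s then 1 else 0) (s : σ) :
    ad E (ad E (ad E (B s))) = ad E (B s) ∧ B s - (2 : ℂ) • ad E (ad E (B s)) = B (e s) := by
  rw [h, ad_comb h, ad_comb h, h3]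
  refine ⟨rfl, ?_⟩
  have h1 : ∑ t, (1 - (2 : ℂ) • (ρ * ρ)) s t • B t = B (e s) := by simp [he]
  rw [← h1]
  simp [sub_smul, Finset.sum_sub_distrib, Finset.smul_sum, smul_smul, Matrix.one_apply]

end WmxAux

open WmxAux in
theorem p_WMX (hEIG : S_EIG) (hDIAG : S_DIAG) (hVF : S_VF) :
    S_WMX := by
  intro σ _ _ N π e hN h3 hee he hW
  obtain ⟨v1, v2, -⟩ := (hVF σ N).2.2.2.2.1 hN.1
  have fX := fam (E := N.vf π) (B := N.X) (v1 π) h3 he
  have fD := fam (E := N.vf π) (B := N.D) (ρ := -π.transpose) (e := e)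
    (fun t => (v2 π t).trans (by simp))
    (by rw [neg_mul_neg, mul_neg, ← Matrix.transpose_mul, ← Matrix.transpose_mul, ← mul_assoc, h3])
    (fun s t => by
      have h1 := he t s
      rw [neg_mul_neg, ← Matrix.transpose_mul]
      have h2 : s = e t ↔ t = e s := ⟨fun h => by rw [h, hee], fun h => by rw [h, hee]⟩
      simp only [Matrix.sub_apply, Matrix.smul_apply, Matrix.transpose_apply, h2] at h1 ⊢
      rw [← h1, Matrix.one_apply, Matrix.one_apply]
      simp only [eq_comm])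
  obtain ⟨hd, a₀, ha⟩ := hEIG σ N hN (N.vf π) (fun s A hA => by
    rcases hA with rfl | rfl
    · exact mem_sup (fX s).1
    · exact mem_sup (fD s).1) hW
  obtain ⟨U, hU, hY⟩ := (hDIAG N.V _ hd).2.2 fun a => Complex.exp ((a - a₀) * (Real.pi * Complex.I))
  have hq : ∀ a : ℂ, Complex.exp ((a + 1 - a₀) * (Real.pi * Complex.I)) =
      -Complex.exp ((a - a₀) * (Real.pi * Complex.I)) := fun a => by
    rw [add_sub_right_comm, add_mul, one_mul, Complex.exp_add_pi_mul_I]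
  refine ⟨hd, U, _, fun a => Complex.exp_ne_zero _, hU, diag_ext hd fun a v hv => ?_, fun s => ⟨?_, ?_⟩,
    hY⟩
  · by_cases h0 : v = 0
    · rw [h0, map_zero, map_zero]
    obtain ⟨k, rfl⟩ := ha a v h0 hv
    change U (U v) = v
    rw [hU _ _ hv, map_smul, hU _ _ hv, smul_smul, ← Complex.exp_add, add_sub_cancel_left,
      ← mul_add, ← two_mul, ← mul_assoc 2, Complex.exp_int_mul_two_pi_mul_I, one_smul]
  · rw [semi hd hU hq (fX s).1, (fX s).2]
  · rw [semi hd hU hq (fD s).1, (fD s).2]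

end Pool.Agent.P.MP_52ab5a_al
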