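import Pool.Agent.P.MP_52ab5a_al.B.Base

/-! The Dirac complex and the swap: definitions and statements. -/

namespace Pool.Agent.P.MP_52ab5a_al

open MvPolynomial WM

section Ham

variable {σ : Type} [Fintype σ]

/-- The differential operator given by the linear vector field `x ↦ ξ x`. -/
noncomputable def WM.vf (N : WM σ) (ξ : Matrix σ σ ℂ) : Module.End ℂ N.V :=
  ∑ s, ∑ t, ξ s t • (N.X t * N.D s)

/-- Its symbol: the moment map. -/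
noncomputable def mu (ξ : Matrix σ σ ℂ) : MvPolynomial (σ ⊕ σ) ℂ :=
  ∑ s, ∑ t, ξ s t • (X (Sum.inl t) * X (Sum.inr s))

/-- The Hamiltonian vector field on the cotangent space. -/
noncomputable def hv (ξ : Matrix σ σ ℂ) (z : σ ⊕ σ → ℂ) : σ ⊕ σ → ℂ :=
  Sum.elim (ξ.mulVec (z ∘ Sum.inl)) (-ξ.transpose.mulVec (z ∘ Sum.inr))

/-- The same vector field as a derivation. -/
noncomputable def der (ξ : Matrix σ σ ℂ) :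
    Derivation ℂ (MvPolynomial (σ ⊕ σ) ℂ) (MvPolynomial (σ ⊕ σ) ℂ) :=
  mkDerivation ℂ (Sum.elim (fun s => ∑ t, ξ s t • X (Sum.inl t))
    fun t => -∑ s, ξ s t • X (Sum.inr s))

/-- The symplectic form. -/
noncomputable def om (v v' : σ ⊕ σ → ℂ) : ℂ :=
  ∑ s, (v (Sum.inl s) * v' (Sum.inr s) - v (Sum.inr s) * v' (Sum.inl s))

/-- A Lie algebra of matrices. -/
def IsLie (g : Submodule ℂ (Matrix σ σ ℂ)) : Prop := ∀ ξ ∈ g, ∀ η ∈ g, ξ * η - η * ξ ∈ g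

/-- The moment map vanishes at `Y`, and the tangent space of its zero fibre is that of the orbit. -/
def Rigid (g : Submodule ℂ (Matrix σ σ ℂ)) (Y : σ ⊕ σ → ℂ) : Prop :=
  (∀ ξ ∈ g, eval Y (mu ξ) = 0) ∧ ∀ v, (∀ ξ ∈ g, om (hv ξ Y) v = 0) → ∃ ξ ∈ g, v = hv ξ Y

/-- There is a nonzero finite dimensional subspace stable under `g`. -/
def LocFin (N : WM σ) (g : Submodule ℂ (Matrix σ σ ℂ)) : Prop :=
  ∃ W : Submodule ℂ N.V, W ≠ ⊥ ∧ Module.Finite ℂ W ∧ ∀ ξ ∈ g, ∀ v ∈ W, N.vf ξ v ∈ W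

variable {V : Type} [AddCommGroup V] [Module ℂ V]

/-- The product of the maximal ideal of the point `y` and the subspace `Λ`. -/
noncomputable def radz {ι : Type} (z : ι → Module.End ℂ V) (y : ι → ℂ) (Λ : Submodule ℂ V) :
    Submodule ℂ V := ⨆ s, Λ.map (z s - y s • (1 : Module.End ℂ V))

/-- `Z / B` is a finitely generated equivariant module over the functions on the zero fibre of the
moment map. -/
structure Eqv (g : Submodule ℂ (Matrix σ σ ℂ)) (z : σ ⊕ σ → Module.End ℂ V)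
    (γ : Matrix σ σ ℂ → Module.End ℂ V) (B Z : Submodule ℂ V) : Prop where
  le : B ≤ Z
  zB : ∀ s, ∀ v ∈ B, z s v ∈ B
  zZ : ∀ s, ∀ v ∈ Z, z s v ∈ Z
  comm : ∀ s t, ∀ v ∈ Z, z s (z t v) - z t (z s v) ∈ B
  fg : ∃ G : Finset V, (G : Set V) ⊆ Z ∧ Z ≤ B ⊔ gen (Set.range z) G
  gB : ∀ ξ ∈ g, ∀ v ∈ B, γ ξ v ∈ B
  gZ : ∀ ξ ∈ g, ∀ v ∈ Z, γ ξ v ∈ Z
  leibX : ∀ ξ ∈ g, ∀ s, ∀ v ∈ Z,
    γ ξ (z (Sum.inl s) v) - z (Sum.inl s) (γ ξ v) - ∑ t, ξ s t • z (Sum.inl t) v ∈ B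
  leibD : ∀ ξ ∈ g, ∀ t, ∀ v ∈ Z,
    γ ξ (z (Sum.inr t) v) - z (Sum.inr t) (γ ξ v) + ∑ s, ξ s t • z (Sum.inr s) v ∈ B
  mu : ∀ ξ ∈ g, ∀ v ∈ Z, ∑ s, ∑ t, ξ s t • z (Sum.inl t) (z (Sum.inr s) v) ∈ B

/-- Multiplication by the Rees parameter. -/
noncomputable def sh (V : Type) [AddCommGroup V] [Module ℂ V] : Module.End ℂ (ℤ →₀ V) :=
  Finsupp.lmapDomain V ℂ (· + 1)

/-- An operator acting on each coefficient. -/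
noncomputable def rx (T : Module.End ℂ V) : Module.End ℂ (ℤ →₀ V) := Finsupp.mapRange.linearMap T

/-- The Rees lattice of a filtration. -/
noncomputable def lat (F : ℤ → Submodule ℂ V) : Submodule ℂ (ℤ →₀ V) :=
  ⨅ k, (F k).comap (Finsupp.lapply k)

/-- The generators of the homogenised Weyl algebra on the Rees module. -/
noncomputable def WM.rz (N : WM σ) : σ ⊕ σ → Module.End ℂ (ℤ →₀ N.V) :=
  Sum.elim (fun s => rx (N.X s)) fun s => sh N.V * rx (N.D s)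

/-- A good filtration for the order filtration. -/
structure WM.Good (N : WM σ) (F : ℤ → Submodule ℂ N.V) : Prop where
  mono : Monotone F
  bot : ∃ k₀, ∀ k < k₀, F k = ⊥
  exh : ∀ v, ∃ k, v ∈ F k
  stX : ∀ k s, ∀ v ∈ F k, N.X s v ∈ F k
  stD : ∀ k s, ∀ v ∈ F k, N.D s v ∈ F (k + 1)
  fg : ∃ G : Finset (ℤ →₀ N.V), lat F = gen (insert (sh N.V) (Set.range N.rz)) G

/-- The kernel of the map from the Rees lattice to the fibre of the graded module at `Y`. -/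
noncomputable def WM.fibK (N : WM σ) (F : ℤ → Submodule ℂ N.V) (Y : σ ⊕ σ → ℂ) :
    Submodule ℂ (ℤ →₀ N.V) := (lat F).map (sh N.V) ⊔ radz N.rz Y (lat F)

end Ham

section Dirac

variable {ν σ : Type} [Fintype ν] [LinearOrder ν] [Fintype σ]

/-- Contraction with a linear vector field. -/
noncomputable def io (M : WM (ν ⊕ σ)) (ξ : Matrix ν ν ℂ) : Module.End ℂ (Finset ν → M.V) :=
  ∑ j, ∑ k, ξ j k • (act M.V (iot j) * pw (Finset ν) (M.X (Sum.inl k)))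

/-- The action of a matrix on constant forms. -/
noncomputable def lam (ξ : Matrix ν ν ℂ) : Matrix (Finset ν) (Finset ν) ℂ :=
  ∑ j, ∑ k, ξ j k • (eps k * iot j)

/-- The Lie derivative. -/
noncomputable def lieD (M : WM (ν ⊕ σ)) (ξ : Matrix ν ν ℂ) (ξ₀ : Matrix σ σ ℂ) :
    Module.End ℂ (Finset ν → M.V) :=
  pw (Finset ν) (M.vf (Matrix.fromBlocks ξ 0 0 ξ₀)) + act M.V (lam ξ)

/-- The diagonal matrix with integer entries. -/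
noncomputable def dg {α : Type} [DecidableEq α] (w : α → ℤ) : Matrix α α ℂ :=
  Matrix.diagonal fun j => (w j : ℂ)

/-- The Dirac operator `d + ι`. -/
noncomputable def dir (M : WM (ν ⊕ σ)) (w : ν → ℤ) : Module.End ℂ (Finset ν → M.V) :=
  dR M + io M (dg w)

/-- Forms of parity `p`. -/
def parF (ν V : Type) [AddCommGroup V] [Module ℂ V] (p : ℕ) : Submodule ℂ (Finset ν → V) :=
  Submodule.pi {I : Finset ν | I.card % 2 ≠ p % 2} fun _ => ⊥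

/-- Cycles of the Dirac operator. -/
noncomputable def dirZ (M : WM (ν ⊕ σ)) (w : ν → ℤ) (p : ℕ) : Submodule ℂ (Finset ν → M.V) :=
  parF ν M.V p ⊓ LinearMap.ker (dir M w)

/-- Boundaries of invariant forms. -/
noncomputable def dirB (M : WM (ν ⊕ σ)) (w : ν → ℤ) (p : ℕ) : Submodule ℂ (Finset ν → M.V) :=
  parF ν M.V p ⊓ (LinearMap.ker (dir M w * dir M w)).map (dir M w)

/-- The symbol of the Dirac operator. -/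
noncomputable def dir0 {V : Type} [AddCommGroup V] [Module ℂ V]
    (z : (ν ⊕ σ) ⊕ ν ⊕ σ → Module.End ℂ V) (w : ν → ℤ) : Module.End ℂ (Finset ν → V) :=
  ∑ j, (act V (eps j) * pw (Finset ν) (z (Sum.inr (Sum.inl j))) +
    (w j : ℂ) • (act V (iot j) * pw (Finset ν) (z (Sum.inl (Sum.inl j)))))

/-- The base variables acting on forms. -/
noncomputable def zBase {V : Type} [AddCommGroup V] [Module ℂ V]
    (z : (ν ⊕ σ) ⊕ ν ⊕ σ → Module.End ℂ V) : σ ⊕ σ → Module.End ℂ (Finset ν → V) :=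
  fun v => pw (Finset ν) (z (Sum.map Sum.inr Sum.inr v))

/-- Extension of a point by zero. -/
def ext0 (ν : Type) (Y : σ ⊕ σ → ℂ) : (ν ⊕ σ) ⊕ ν ⊕ σ → ℂ :=
  Sum.elim (Sum.elim 0 (Y ∘ Sum.inl)) (Sum.elim 0 (Y ∘ Sum.inr))

/-- The lift of the swap to forms. -/
structure IsSpin (bar : ν ≃ ν) (W : Matrix (Finset ν) (Finset ν) ℂ) : Prop where
  deg : ∀ I J, W I J ≠ 0 → I.card = J.card
  eps : ∀ j, W * eps j = Complex.I • (eps (bar j) * W)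
  iot : ∀ j, W * iot j = -Complex.I • (iot (bar j) * W)
  sq : W * W = parM ν

/-- The data of the swap argument. -/
structure Setup (ν σ : Type) [Fintype ν] [LinearOrder ν] [Fintype σ] [DecidableEq σ] where
  g : Submodule ℂ (Matrix (ν ⊕ σ) (ν ⊕ σ) ℂ)
  g₀ : Submodule ℂ (Matrix σ σ ℂ)
  Y : σ ⊕ σ → ℂ
  w : ν → ℤ
  bar : ν ≃ ν
  τ : σ ≃ σ
  pr : Matrix (ν ⊕ σ) (ν ⊕ σ) ℂ
  wν : ν → ℤ
  w₀ : σ → ℤ
  lie : IsLie g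
  lie₀ : IsLie g₀
  rigid : Rigid g (ext0 ν Y)
  rigid₀ : Rigid g₀ Y
  w_pm : ∀ j, w j = 1 ∨ w j = -1
  w_bar : ∀ j, w (bar j) = -w j
  bar_bar : ∀ j, bar (bar j) = j
  τ_τ : ∀ s, τ (τ s) = s
  Y_τ : Y ∘ Sum.map τ τ = Y
  w₀_τ : w₀ ∘ τ = w₀
  lam_mem : Matrix.fromBlocks (dg w) 0 0 0 ∈ g
  block : ∀ ξ₀ ∈ g₀, ∃ ξ, Matrix.fromBlocks ξ 0 0 ξ₀ ∈ g ∧ ξ * dg w = dg w * ξ
  rho_mem : Matrix.fromBlocks (dg wν) 0 0 (dg w₀) ∈ g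
  conj : ∀ ξ ∈ g, ξ.submatrix (Sum.map bar τ) (Sum.map bar τ) ∈ g
  pr_mem : pr ∈ g
  pr_cube : pr * pr * pr = pr
  pr_sq : ∀ s t, (1 - (2 : ℂ) • (pr * pr)) s t = if t = Sum.map bar τ s then 1 else 0
  pr_Y : hv pr (ext0 ν Y) = 0
  supX : ∀ s, Y (Sum.inl s) ≠ 0 → w₀ s = 0
  supD : ∀ s, Y (Sum.inr s) ≠ 0 → w₀ s = 1

end Dirac

/-- `W` is semilinear for the permutation `e` of the variables. -/
def Semi {σ : Type} (N : WM σ) (e : σ → σ) (W : Module.End ℂ N.V) : Prop :=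
  ∀ s, W * N.X s = N.X (e s) * W ∧ W * N.D s = N.D (e s) * W

-- deps:
def S_CLIF : Prop := ∀ (ν : Type) [Fintype ν] [LinearOrder ν],
  (∀ j k : ν, eps j * eps k + eps k * eps j = 0 ∧ iot j * iot k + iot k * iot j = 0 ∧
    eps j * iot k + iot k * eps j = if j = k then 1 else 0) ∧
  (∀ (j : ν) I J, (eps j I J ≠ 0 → I.card = J.card + 1) ∧ (iot j I J ≠ 0 → I.card + 1 = J.card)) ∧
  (∀ j : ν, parM ν * eps j = -(eps j * parM ν) ∧ parM ν * iot j = -(iot j * parM ν)) ∧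
  (∀ a : ν → ℂ, ∑ j, a j • (eps j * iot j) = Matrix.diagonal fun I : Finset ν => ∑ j ∈ I, a j) ∧
  ∀ (σ : Type) (N : WM (ν ⊕ σ)),
    dR N = ∑ j, act N.V (eps j) * pw (Finset ν) (N.D (Sum.inl j))

-- deps: CLIF
def S_SPIN : Prop := ∀ (ν : Type) [Fintype ν] [LinearOrder ν] (bar : ν ≃ ν),
  (∀ j, bar (bar j) = j) → ∃ W, IsSpin bar W

-- deps: PISO HSUB RED EXT IADD PUSH CLIF
def S_KOS : Prop := ∀ (τ σ : Type) [Fintype τ] [LinearOrder τ] [Fintype σ] (N : WM (τ ⊕ σ)),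
  N.Holo → (∀ k, Hol Set.univ (forms N) (degForms N k ⊓ LinearMap.range (dR N))
      (degForms N k ⊓ LinearMap.ker (dR N))) ∧
    ∀ φ : Fn σ, Additive φ → euler φ N = push Sum.inr φ N ⊥ ⊤

-- deps: KOS REGH DIM
def S_BR : Prop := ∀ (τ : Type) [Fintype τ] [LinearOrder τ],
  (∀ (σ : Type) [Fintype σ] (φ : Fn σ) (S : Set (τ ⊕ σ → ℂ)), Additive φ →
    direct φ S = intg φ S) ∧ ∀ S : Set (τ → ℂ), chi S = chi' S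

-- deps: PISO HSUB EXT
def S_MIX : Prop := ∀ (σ : Type) [Finite σ] (T : WM σ) (E : ℕ → Submodule ℂ T.V) (n : ℕ)
  (d i : Module.End ℂ T.V), T.IsW → (∀ k, T.Stable (E k)) → iSupIndep E → (∀ k, n < k → E k = ⊥) →
  (∀ s, d * T.X s = T.X s * d ∧ d * T.D s = T.D s * d ∧ i * T.X s = T.X s * i ∧
    i * T.D s = T.D s * i) →
  (∀ k, ∀ v ∈ E k, d v ∈ E (k + 1)) → (∀ k, ∀ v ∈ E (k + 1), i v ∈ E k) → (∀ v ∈ E 0, i v = 0) →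
  (∀ k, ∀ v ∈ E k, d (d v) = 0 ∧ i (i v) = 0 ∧ d (i v) + i (d v) = 0) →
  (∀ k, Hol Set.univ T (E k ⊓ (⨆ j, E j).map d) (E k ⊓ LinearMap.ker d)) →
  (∀ p, Hol Set.univ T ((⨆ k, ⨆ _ : k % 2 = p % 2, E k) ⊓ (⨆ j, E j).map (d + i))
    ((⨆ k, ⨆ _ : k % 2 = p % 2, E k) ⊓ LinearMap.ker (d + i))) ∧
  ∀ φ : Fn σ, Additive φ →
    ∑ k ∈ Finset.range (n + 1), (-1) ^ k * φ T (E k ⊓ (⨆ j, E j).map d) (E k ⊓ LinearMap.ker d) =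
      φ T ((⨆ k, ⨆ _ : k % 2 = 0 % 2, E k) ⊓ (⨆ j, E j).map (d + i))
        ((⨆ k, ⨆ _ : k % 2 = 0 % 2, E k) ⊓ LinearMap.ker (d + i)) -
      φ T ((⨆ k, ⨆ _ : k % 2 = 1 % 2, E k) ⊓ (⨆ j, E j).map (d + i))
        ((⨆ k, ⨆ _ : k % 2 = 1 % 2, E k) ⊓ LinearMap.ker (d + i))

-- deps:
def S_VF : Prop := ∀ (σ : Type) [Fintype σ] [DecidableEq σ] (N : WM σ),
  (∀ ξ η (c : ℂ), N.vf (ξ + η) = N.vf ξ + N.vf η ∧ N.vf (c • ξ) = c • N.vf ξ) ∧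
  (∀ w, N.vf (dg w) = N.eu w) ∧
  (∀ (ι : Type) [Fintype ι] (γ : Matrix ι σ ℂ) (δ : Matrix σ ι ℂ) ξ,
    (N.aff γ δ 0).vf ξ = N.vf (δ * ξ * γ)) ∧
  (∀ (ι : Type) [Fintype ι] (e : ι ≃ σ) ξ, (N.res e).vf (ξ.submatrix e e) = N.vf ξ) ∧
  (N.IsW → (∀ ξ s, N.vf ξ * N.X s - N.X s * N.vf ξ = ∑ t, ξ s t • N.X t) ∧
    (∀ ξ t, N.vf ξ * N.D t - N.D t * N.vf ξ = -∑ s, ξ s t • N.D s) ∧
    (∀ ξ η, N.vf ξ * N.vf η - N.vf η * N.vf ξ = N.vf (η * ξ - ξ * η))) ∧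
  ∀ ξ η : Matrix σ σ ℂ, der ξ (mu η) = mu (η * ξ - ξ * η) ∧
    (∀ (f : MvPolynomial (σ ⊕ σ) ℂ) z, eval z (der ξ f) = ∑ v, hv ξ z v * eval z (pderiv v f)) ∧
    (∀ z, om (hv ξ z) (hv η z) = eval z (mu (ξ * η - η * ξ))) ∧
    (∀ z v, ∑ u, v u * eval z (pderiv u (mu ξ)) = om (hv ξ z) v) ∧
    ∀ z, hv ξ (hv η z) - hv η (hv ξ z) = hv (ξ * η - η * ξ) z

-- deps: CLIF VF DIAG
def S_CART : Prop := ∀ (ν σ : Type) [Fintype ν] [LinearOrder ν] [Fintype σ] [DecidableEq σ]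
  (M : WM (ν ⊕ σ)), M.IsW → (forms M).IsW ∧ dR M * dR M = 0 ∧
    (∀ ξ η, io M ξ * io M η + io M η * io M ξ = 0) ∧
    (∀ ξ ξ₀, dR M * io M ξ + io M ξ * dR M = lieD M ξ ξ₀ - (forms M).vf ξ₀) ∧
    (∀ ξ ξ₀, lieD M ξ ξ₀ * dR M = dR M * lieD M ξ ξ₀) ∧
    (∀ ξ ξ₀ η, ξ * η = η * ξ → lieD M ξ ξ₀ * io M η = io M η * lieD M ξ ξ₀) ∧
    (∀ s, (dR M * (forms M).X s = (forms M).X s * dR M ∧
      dR M * (forms M).D s = (forms M).D s * dR M) ∧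
      ∀ ξ, io M ξ * (forms M).X s = (forms M).X s * io M ξ ∧
        io M ξ * (forms M).D s = (forms M).D s * io M ξ) ∧
    (∀ w, dir M w * dir M w = lieD M (dg w) 0) ∧
    (∀ a b, Diag (M.eu (Sum.elim a b)) → Diag (lieD M (dg a) (dg b))) ∧
    (∀ k, ∀ v ∈ degForms M k, dR M v ∈ degForms M (k + 1) ∧
      (∀ ξ ξ₀, lieD M ξ ξ₀ v ∈ degForms M k) ∧ ∀ ξ, k = 0 → io M ξ v = 0) ∧
    (∀ k ξ, ∀ v ∈ degForms M (k + 1), io M ξ v ∈ degForms M k) ∧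
    (∀ p ξ, ∀ v ∈ parF ν M.V p, dR M v ∈ parF ν M.V (p + 1) ∧ io M ξ v ∈ parF ν M.V (p + 1) ∧
      ∀ ξ₀, lieD M ξ ξ₀ v ∈ parF ν M.V p) ∧
    ∀ (w : ν → ℤ) (bar : ν ≃ ν) (τ : σ → σ) (U : Module.End ℂ M.V) W, (∀ j, w (bar j) = -w j) →
      IsSpin bar W → Semi M (Sum.map bar τ) U →
      act M.V W * pw (Finset ν) U * dir M w =
        Complex.I • (dir M w * (act M.V W * pw (Finset ν) U)) ∧
      Semi (forms M) τ (act M.V W * pw (Finset ν) U) ∧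
      ∀ p, ∀ v ∈ parF ν M.V p, (act M.V W * pw (Finset ν) U) v ∈ parF ν M.V p ∧
        (U * U = 1 → (act M.V W * pw (Finset ν) U) ((act M.V W * pw (Finset ν) U) v) =
          (-1 : ℂ) ^ p • v)

-- deps: PISO HSUB DIAG KOS MIX CART
def S_HOLD : Prop := ∀ (ν σ : Type) [Fintype ν] [LinearOrder ν] [Fintype σ] (M : WM (ν ⊕ σ))
  (w : ν → ℤ), M.Holo → Diag (M.eu (Sum.elim w 0)) →
    (∀ p, Hol Set.univ (forms M) (dirB M w p) (dirZ M w p)) ∧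
    ∀ φ : Fn σ, Additive φ → push Sum.inr φ M ⊥ ⊤ =
      φ (forms M) (dirB M w 0) (dirZ M w 0) - φ (forms M) (dirB M w 1) (dirZ M w 1)

-- deps: VF
def S_LAG : Prop := ∀ (σ : Type) [Fintype σ] (g : Submodule ℂ (Matrix σ σ ℂ)) (Y : σ ⊕ σ → ℂ),
  IsLie g → Rigid g Y → ∃ (n : ℕ) (ξ : Fin n → Matrix σ σ ℂ) (t : Fin n → MvPolynomial (σ ⊕ σ) ℂ),
    (∀ j, ξ j ∈ g) ∧ LinearIndependent ℂ (fun j => hv (ξ j) Y) ∧ (∀ j, eval Y (t j) = 0) ∧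
    (∀ i j, eval Y (der (ξ i) (t j)) = if i = j then 1 else 0) ∧
    ∀ v, X v - C (Y v) - ∑ j, hv (ξ j) Y v • t j ∈
      RingHom.ker (eval Y) ^ 2 ⊔ Ideal.span (Set.range fun j => mu (ξ j))

-- deps: VF LAG
def S_EU : Prop := ∀ (σ : Type) [Fintype σ] (g : Submodule ℂ (Matrix σ σ ℂ)) (Y : σ ⊕ σ → ℂ),
  IsLie g → Rigid g Y →
    (∀ ξ ∈ g, ∀ f ∈ Ideal.span (mu '' (g : Set (Matrix σ σ ℂ))),
      der ξ f ∈ Ideal.span (mu '' (g : Set (Matrix σ σ ℂ)))) ∧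
    ∀ k, 1 ≤ k → ∀ a ∈ RingHom.ker (eval Y) ^ k ⊔ Ideal.span (mu '' (g : Set (Matrix σ σ ℂ))),
      (∀ ξ ∈ g, der ξ a ∈ RingHom.ker (eval Y) ^ k ⊔ Ideal.span (mu '' (g : Set (Matrix σ σ ℂ)))) →
      a ∈ RingHom.ker (eval Y) ^ (k + 1) ⊔ Ideal.span (mu '' (g : Set (Matrix σ σ ℂ)))

-- deps: DESC EU
def S_FE : Prop := ∀ (σ V : Type) [Fintype σ] [AddCommGroup V] [Module ℂ V]
  (g : Submodule ℂ (Matrix σ σ ℂ)) (Y : σ ⊕ σ → ℂ) (z : σ ⊕ σ → Module.End ℂ V)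
  (γ : Matrix σ σ ℂ → Module.End ℂ V) (B N Z : Submodule ℂ V), IsLie g → Rigid g Y →
    Eqv g z γ B Z → B ≤ N → N ≤ Z → (∀ s, ∀ v ∈ N, z s v ∈ N) → (∀ ξ ∈ g, ∀ v ∈ N, γ ξ v ∈ N) →
    N ⊓ (B ⊔ radz z Y Z) ≤ B ⊔ radz z Y N ∧
      ∃ G : Finset V, (G : Set V) ⊆ N ∧ N ≤ B ⊔ gen (Set.range z) G

-- deps: VF LAG EU
def S_MUP : Prop := ∀ (σ : Type) [Fintype σ] (g : Submodule ℂ (Matrix σ σ ℂ)) (Y : σ ⊕ σ → ℂ),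
  IsLie g → Rigid g Y → ∀ π ∈ g, hv π Y = 0 →
    ∃ (n : ℕ) (ξ : Fin n → Matrix σ σ ℂ) (u : MvPolynomial (σ ⊕ σ) ℂ)
      (a : Fin n → MvPolynomial (σ ⊕ σ) ℂ), (∀ j, ξ j ∈ g) ∧ eval Y u = 1 ∧
      (∀ j, eval Y (a j) = 0) ∧ u * mu π = ∑ j, a j * mu (ξ j)

-- deps:
def S_REES : Prop := ∀ (σ : Type) [Fintype σ] (N : WM σ),
  Function.Bijective (sh N.V) ∧ (∀ T, sh N.V * rx T = rx T * sh N.V) ∧
  (∀ T T' : Module.End ℂ N.V, rx (T * T') = rx T * rx T' ∧ rx (T + T') = rx T + rx T' ∧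
    ∀ c : ℂ, rx (c • T) = c • rx T) ∧ rx (1 : Module.End ℂ N.V) = 1 ∧
  (N.IsW → CCR (N.rz ∘ Sum.inl) (N.rz ∘ Sum.inr) (sh N.V)) ∧
  (∀ ξ, sh N.V * rx (N.vf ξ) = ∑ s, ∑ t, ξ s t • (N.rz (Sum.inl t) * N.rz (Sum.inr s))) ∧
  ∀ F : ℤ → Submodule ℂ N.V, (∀ v, v ∈ lat F ↔ ∀ k, v k ∈ F k) ∧
    (∀ T : Module.End ℂ N.V, (∀ k, ∀ v ∈ F k, T v ∈ F k) → ∀ v ∈ lat F, rx T v ∈ lat F) ∧
    (∀ v, v ∈ (lat F).map (sh N.V) ↔ ∀ k, v k ∈ F (k - 1)) ∧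
    (Monotone F → (∀ k s, ∀ v ∈ F k, N.X s v ∈ F k) → (∀ k s, ∀ v ∈ F k, N.D s v ∈ F (k + 1)) →
      (∀ v ∈ lat F, sh N.V v ∈ lat F ∧ ∀ s, N.rz s v ∈ lat F) ∧
      ((∃ k₀, ∀ k < k₀, F k = ⊥) → ∀ G : Finset (ℤ →₀ N.V), (G : Set (ℤ →₀ N.V)) ⊆ lat F →
        lat F ≤ (lat F).map (sh N.V) ⊔ gen (Set.range N.rz) G →
        ∃ G' : Finset (ℤ →₀ N.V), lat F = gen (insert (sh N.V) (Set.range N.rz)) G'))

-- deps: REES VF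
def S_EQV : Prop := ∀ (σ : Type) [Fintype σ] (N : WM σ) (g : Submodule ℂ (Matrix σ σ ℂ))
  (Λ B : Submodule ℂ (ℤ →₀ N.V)), N.IsW →
    (∃ G : Finset (ℤ →₀ N.V), Λ = gen (insert (sh N.V) (Set.range N.rz)) G) →
    (∀ ξ ∈ g, ∀ v ∈ Λ, rx (N.vf ξ) v ∈ Λ) → Λ.map (sh N.V) ≤ B → B ≤ Λ →
    (∀ s, ∀ v ∈ B, N.rz s v ∈ B) → (∀ ξ ∈ g, ∀ v ∈ B, rx (N.vf ξ) v ∈ B) →
    Eqv g N.rz (fun ξ => rx (N.vf ξ)) B Λ

-- deps: NORD REES VF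
def S_LATT : Prop := ∀ (σ : Type) [Fintype σ] (N : WM σ) (W : Submodule ℂ N.V), N.Simple →
  W ≠ ⊥ → Module.Finite ℂ W → ∃ F, N.Good F ∧
    ∀ ξ, (∀ v ∈ W, N.vf ξ v ∈ W) → ∀ k, ∀ v ∈ F k, N.vf ξ v ∈ F k

-- deps: NORD REES MUP
def S_FIB : Prop := ∀ (σ : Type) [Fintype σ] (N : WM σ) (F : ℤ → Submodule ℂ N.V)
  (g : Submodule ℂ (Matrix σ σ ℂ)) (Y : σ ⊕ σ → ℂ), N.IsW → N.Good F → IsLie g → Rigid g Y →
    (∀ ξ ∈ g, ∀ k, ∀ v ∈ F k, N.vf ξ v ∈ F k) → ∀ π ∈ g, hv π Y = 0 →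
    ∃ b : ℂ, ∀ v ∈ lat F, rx (N.vf π) v - b • v ∈ N.fibK F Y

-- deps: EIG DIAG VF
def S_WMX : Prop := ∀ (σ : Type) [Fintype σ] [DecidableEq σ] (N : WM σ) (π : Matrix σ σ ℂ)
  (e : σ → σ), N.Simple → π * π * π = π → (∀ s, e (e s) = s) →
    (∀ s t, (1 - (2 : ℂ) • (π * π)) s t = if t = e s then 1 else 0) →
    (∃ W : Submodule ℂ N.V, W ≠ ⊥ ∧ Module.Finite ℂ W ∧ ∀ v ∈ W, N.vf π v ∈ W) →
    Diag (N.vf π) ∧ ∃ (U : Module.End ℂ N.V) (q : ℂ → ℂ), (∀ a, q a ≠ 0) ∧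
      (∀ a v, N.vf π v = a • v → U v = q a • v) ∧ U * U = 1 ∧ Semi N e U ∧
      ∀ Y : Submodule ℂ N.V, (∀ v ∈ Y, N.vf π v ∈ Y) → ∀ v ∈ Y, U v ∈ Y

-- deps: DIAG REES VF FIB
def S_FIBW : Prop := ∀ (σ : Type) [Fintype σ] (N : WM σ) (F : ℤ → Submodule ℂ N.V)
  (g : Submodule ℂ (Matrix σ σ ℂ)) (Y : σ ⊕ σ → ℂ), N.IsW → N.Good F → IsLie g → Rigid g Y →
    (∀ ξ ∈ g, ∀ k, ∀ v ∈ F k, N.vf ξ v ∈ F k) → ∀ π ∈ g, hv π Y = 0 → Diag (N.vf π) →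
    ∀ (U : Module.End ℂ N.V) (q : ℂ → ℂ), (∀ a, q a ≠ 0) → (∀ a v, N.vf π v = a • v → U v = q a • v) →
      ∃ c : ℂ, c ≠ 0 ∧ ∀ v ∈ lat F, rx U v - c • v ∈ N.fibK F Y

-- deps: REES EQV FE
def S_TI : Prop := ∀ (σ : Type) [Fintype σ] (N : WM σ) (F : ℤ → Submodule ℂ N.V)
  (g : Submodule ℂ (Matrix σ σ ℂ)) (Y : σ ⊕ σ → ℂ) (e : σ → σ) (W η : Module.End ℂ N.V) (c : ℂ),
    N.IsW → N.Good F → IsLie g → Rigid g Y → (∀ ξ ∈ g, ∀ k, ∀ v ∈ F k, N.vf ξ v ∈ F k) →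
    Y ∘ Sum.map e e = Y → Semi N e W → (∀ k, ∀ v ∈ F k, W v ∈ F k) → Semi N id η → η * η = 1 →
    η * W = -(W * η) → c ≠ 0 → (∀ v ∈ lat F, rx W v - c • v ∈ N.fibK F Y) → lat F ≤ N.fibK F Y

-- deps: DIAG
def S_LOW : Prop := ∀ (ι V : Type) [Finite ι] [AddCommGroup V] [Module ℂ V]
  (z : ι → Module.End ℂ V) (E : Module.End ℂ V) (deg : ι → ℤ) (B Z : Submodule ℂ V),
    (∀ s t, z s * z t = z t * z s) → (∃ G : Finset V, gen (Set.range z) (G : Set V) = ⊤) → Diag E →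
    (∀ s, E * z s = z s * E + (deg s : ℂ) • z s) → B ≤ Z →
    (∀ s, ∀ v ∈ B, z s v ∈ B) → (∀ s, ∀ v ∈ Z, z s v ∈ Z) → (∀ v ∈ B, E v ∈ B) →
    (∀ v ∈ Z, E v ∈ Z) →
    (∀ s, 0 < deg s ∨ ∃ (c : ℂ) (k : ℕ), ∀ v ∈ Z, ((z s - c • (1 : Module.End ℂ V)) ^ k) v ∈ B) →
    ∃ r : ℝ, ∀ (a : ℂ), a.re < r → ∀ v ∈ Z, E v = a • v → v ∈ B

-- deps: DIAG
def S_ANN : Prop := ∀ (σ V : Type) [Fintype σ] [AddCommGroup V] [Module ℂ V]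
  (z : σ ⊕ σ → Module.End ℂ V) (hz : ∀ s t, z s * z t = z t * z s) (O E : Module.End ℂ V)
  (w : σ → ℤ) (Y : σ ⊕ σ → ℂ), (∃ G : Finset V, gen (Set.range z) (G : Set V) = ⊤) →
    Diag O → Diag E → O * E = E * O →
    (∀ s, O * z (Sum.inl s) = z (Sum.inl s) * O ∧
      O * z (Sum.inr s) = z (Sum.inr s) * O + z (Sum.inr s) ∧
      E * z (Sum.inl s) = z (Sum.inl s) * E + (w s : ℂ) • z (Sum.inl s) ∧
      E * z (Sum.inr s) = z (Sum.inr s) * E - (w s : ℂ) • z (Sum.inr s)) →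
    (∀ s, Y (Sum.inl s) ≠ 0 → w s = 0) → (∀ s, Y (Sum.inr s) ≠ 0 → w s = 1) →
    radz z Y ⊤ = ⊤ → ∃ (k : ℕ) (f : MvPolynomial (σ ⊕ σ) ℂ), evOp z hz f = 0 ∧
      f.IsWeightedHomogeneous (Sum.elim (fun s => ((0 : ℤ), w s)) fun s => ((1 : ℤ), -w s))
        ((k : ℤ), -(k : ℤ)) ∧ eval Y f = 1

-- deps: CLIF DIAG LOW ANN
def S_GRK : Prop := ∀ (σ V : Type) [Fintype σ] [LinearOrder σ] [AddCommGroup V] [Module ℂ V]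
  (z : σ ⊕ σ → Module.End ℂ V) (O E : Module.End ℂ V) (w : σ → ℤ) (Y : σ ⊕ σ → ℂ),
    (∀ s t, z s * z t = z t * z s) → (∃ G : Finset V, gen (Set.range z) (G : Set V) = ⊤) →
    Diag O → Diag E → O * E = E * O →
    (∀ s, O * z (Sum.inl s) = z (Sum.inl s) * O ∧
      O * z (Sum.inr s) = z (Sum.inr s) * O + z (Sum.inr s) ∧
      E * z (Sum.inl s) = z (Sum.inl s) * E + (w s : ℂ) • z (Sum.inl s) ∧
      E * z (Sum.inr s) = z (Sum.inr s) * E - (w s : ℂ) • z (Sum.inr s)) →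
    (∀ s, Y (Sum.inl s) ≠ 0 → w s = 0) → (∀ s, Y (Sum.inr s) ≠ 0 → w s = 1) →
    radz z Y ⊤ = ⊤ →
    let d₀ : Module.End ℂ (Finset σ → V) := ∑ s, act V (eps s) * pw (Finset σ)
      (if w s ≤ 0 then z (Sum.inl s) - Y (Sum.inl s) • (1 : Module.End ℂ V) else z (Sum.inr s))
    let d₁ : Module.End ℂ (Finset σ → V) :=
      ∑ s, (if w s ≤ 0 then 0 else Y (Sum.inr s)) • act V (eps s)
    let Hom : ℂ → ℂ → (ℕ →₀ (Finset σ → V)) → Prop := fun k a u => ∀ j I,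
      O (u j I) = (k - j + ((I.filter fun s => 0 < w s).card : ℂ)) • u j I ∧
      E (u j I) = (a + j - ∑ s ∈ I, (|w s| : ℤ)) • u j I
    let D : Module.End ℂ (ℕ →₀ (Finset σ → V)) := Finsupp.mapRange.linearMap d₀ -
      Finsupp.lmapDomain _ ℂ (· + 1) * Finsupp.mapRange.linearMap d₁
    ∃ (e : ℕ) (r : ℝ), ∀ k a u, Hom k a u → D u = 0 →
      (∃ u', Hom (k + e) (a - e) u' ∧ D u' = Finsupp.mapDomain (· + e) u) ∧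
      ((k + a).re < r → ∃ u', Hom k a u' ∧ D u' = u)

-- deps: DESC DIAG REES
def S_GRM : Prop := ∀ (σ : Type) [Fintype σ] (N : WM σ) (F : ℤ → Submodule ℂ N.V), N.IsW →
  N.Good F → ∃ (V : Type) (_ : AddCommGroup V) (_ : Module ℂ V) (f : (ℤ →₀ N.V) →ₗ[ℂ] V)
    (z : σ ⊕ σ → Module.End ℂ V) (O : Module.End ℂ V),
    (∀ u ∈ lat F, f u = 0 ↔ u ∈ (lat F).map (sh N.V)) ∧ (lat F).map f = ⊤ ∧
    (∀ k, ∀ v ∈ F k, (f (Finsupp.single k v) = 0 ↔ v ∈ F (k - 1)) ∧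
      O (f (Finsupp.single k v)) = (k : ℂ) • f (Finsupp.single k v)) ∧
    (∀ s, ∀ u ∈ lat F, z s (f u) = f (N.rz s u)) ∧ (∀ s t, z s * z t = z t * z s) ∧
    (∃ G : Finset V, gen (Set.range z) (G : Set V) = ⊤) ∧ Diag O ∧
    (∀ (k : ℤ) x, O x = (k : ℂ) • x → ∃ v ∈ F k, x = f (Finsupp.single k v)) ∧
    (∀ s, O * z (Sum.inl s) = z (Sum.inl s) * O ∧
      O * z (Sum.inr s) = z (Sum.inr s) * O + z (Sum.inr s)) ∧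
    (∀ T : Module.End ℂ N.V, (∀ k, ∀ v ∈ F k, T v ∈ F k) →
      ∃ T' : Module.End ℂ V, (∀ u ∈ lat F, T' (f u) = f (rx T u)) ∧ O * T' = T' * O ∧
        (Diag T → Diag T')) ∧
    ∀ Y, ∀ u ∈ N.fibK F Y, f u ∈ radz z Y ⊤

-- deps: DIAG REES VF CLIF GRK GRM
def S_ACY : Prop := ∀ (σ : Type) [Fintype σ] [LinearOrder σ] (N : WM σ) (F : ℤ → Submodule ℂ N.V)
  (w : σ → ℤ) (Y : σ ⊕ σ → ℂ), N.IsW → N.Good F → Diag (N.eu w) →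
    (∀ k, ∀ v ∈ F k, N.eu w v ∈ F k) → (∀ s, Y (Sum.inl s) ≠ 0 → w s = 0) →
    (∀ s, Y (Sum.inr s) ≠ 0 → w s = 1) → lat F ≤ N.fibK F Y →
    LinearMap.ker (∑ s, act N.V (eps s) * pw (Finset σ) ((N.kt w Y).D s)) ≤
      LinearMap.range (∑ s, act N.V (eps s) * pw (Finset σ) ((N.kt w Y).D s))

-- deps: DIM PUSH RESM KAP CLIF KOS ACY
def S_KZ : Prop := ∀ (σ : Type) [Fintype σ] (N : WM σ) (F : ℤ → Submodule ℂ N.V)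
  (w : σ → ℤ) (Y : σ ⊕ σ → ℂ), N.Holo → N.Good F → Diag (N.eu w) →
    (∀ k, ∀ v ∈ F k, N.eu w v ∈ F k) → (∀ s, Y (Sum.inl s) ≠ 0 → w s = 0) →
    (∀ s, Y (Sum.inr s) ≠ 0 → w s = 1) → lat F ≤ N.fibK F Y → kap w Y N ⊥ ⊤ = 0

/-- Clifford multiplication by a normal vector. -/
noncomputable def clm {ν σ : Type} [Fintype ν] [LinearOrder ν] (w : ν → ℤ)
    (v : (ν ⊕ σ) ⊕ ν ⊕ σ → ℂ) : Matrix (Finset ν) (Finset ν) ℂ :=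
  ∑ j, (v (Sum.inr (Sum.inl j)) • eps j + ((w j : ℂ) * v (Sum.inl (Sum.inl j))) • iot j)

/-- The symmetric form on normal vectors. -/
noncomputable def bf {ν σ : Type} [Fintype ν] (w : ν → ℤ) (v v' : (ν ⊕ σ) ⊕ ν ⊕ σ → ℂ) : ℂ :=
  ∑ j, (w j : ℂ) * (v (Sum.inr (Sum.inl j)) * v' (Sum.inl (Sum.inl j)) +
    v (Sum.inl (Sum.inl j)) * v' (Sum.inr (Sum.inl j)))

/-- A frame adapted to the normal part of the tangent space of the orbit. -/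
structure Frame {ν σ : Type} [Fintype ν] [LinearOrder ν] [Fintype σ] [DecidableEq σ]
    (S : Setup ν σ) (ξ : ν → Matrix (ν ⊕ σ) (ν ⊕ σ) ℂ) (θ' : ν → (ν ⊕ σ) ⊕ ν ⊕ σ → ℂ) : Prop where
  mem : ∀ j, ξ j ∈ S.g
  normal : ∀ j v, hv (ξ j) (ext0 ν S.Y) (Sum.map Sum.inr Sum.inr v) = 0
  iso : ∀ i j, bf S.w (hv (ξ i) (ext0 ν S.Y)) (hv (ξ j) (ext0 ν S.Y)) = 0
  iso' : ∀ i j, bf S.w (θ' i) (θ' j) = 0
  dual : ∀ i j, bf S.w (hv (ξ i) (ext0 ν S.Y)) (θ' j) = if i = j then 1 else 0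
  expand : ∀ (v : (ν ⊕ σ) ⊕ ν ⊕ σ → ℂ) (j : ν ⊕ ν), v (Sum.map Sum.inl Sum.inl j) =
    ∑ i, (bf S.w v (θ' i) * hv (ξ i) (ext0 ν S.Y) (Sum.map Sum.inl Sum.inl j) +
      bf S.w v (hv (ξ i) (ext0 ν S.Y)) * θ' i (Sum.map Sum.inl Sum.inl j))
  omb : ∀ j, ∃ c : ℂ, c ≠ 0 ∧ ∀ v, om (hv (ξ j) (ext0 ν S.Y)) v = c * bf S.w (hv (ξ j) (ext0 ν S.Y)) v
  swap : ∀ j, (hv (ξ j) (ext0 ν S.Y) ∘ Sum.map (Sum.map S.bar S.τ) (Sum.map S.bar S.τ)) ∈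
    Submodule.span ℂ (Set.range fun i => hv (ξ i) (ext0 ν S.Y))

-- deps: VF
def S_FRAME : Prop := ∀ (ν σ : Type) [Fintype ν] [LinearOrder ν] [Fintype σ] [DecidableEq σ]
  (S : Setup ν σ), ∃ ξ θ', Frame S ξ θ'

-- deps: CLIF
def S_PURE : Prop := ∀ (ν : Type) [Fintype ν] [LinearOrder ν]
  (c c' : ν → Matrix (Finset ν) (Finset ν) ℂ), (∀ i j, c i * c j + c j * c i = 0) →
    (∀ i j, c i * c' j + c' j * c i = if i = j then 1 else 0) →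
    (∀ j, parM ν * c j = -(c j * parM ν)) →
    ∃ (v₀ : Finset ν → ℂ) (s : ℂ), v₀ ≠ 0 ∧ (s = 1 ∨ s = -1) ∧ (parM ν).mulVec v₀ = s • v₀ ∧
      (∀ j, (c j).mulVec v₀ = 0) ∧
      (∀ v : Finset ν → ℂ, (∀ j, (c j).mulVec v = 0) → ∃ a : ℂ, v = a • v₀) ∧
      (((List.range (Fintype.card ν + 1)).map fun r : ℕ =>
        ∑ j, c' j * c j - (r : ℂ) • (1 : Matrix (Finset ν) (Finset ν) ℂ)).prod = 0) ∧
      ∀ v : Finset ν → ℂ, (∑ j, c' j * c j).mulVec v = 0 → ∀ j, (c j).mulVec v = 0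

-- deps:
def S_CPA : Prop := ∀ (R M : Type) [CommRing R] [Algebra ℂ R] [IsNoetherianRing R] [AddCommGroup M]
  [Module ℂ M] [Module R M] [IsScalarTower ℂ R M] [Module.Finite R M] (m : Ideal R)
  (d P : M →ₗ[R] M) (κ Δ : Module.End ℂ M) (K : Submodule R M) (p : ℕ → Polynomial ℂ),
    (∀ x, d (d x) = 0 ∧ P (P x) = x ∧ P (d x) = -d (P x) ∧ P (κ x) = -κ (P x) ∧
      Δ x = d (κ x) + κ (d x) ∧ d x ∈ m • (⊤ : Submodule R M)) →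
    (∀ x ∈ K, P x = x ∧ Δ x ∈ m • (⊤ : Submodule R M)) → (∀ j, (p j).eval 0 ≠ 0) →
    (∀ j, ∀ x ∈ m ^ j • (⊤ : Submodule R M), Δ x ∈ m ^ j • (⊤ : Submodule R M) ∧
      Polynomial.aeval Δ (p j) x ∈ m ^ j • K ⊔ m ^ (j + 1) • (⊤ : Submodule R M)) →
    LinearMap.ker d ≤ K ⊔ m • (⊤ : Submodule R M) ∧
      LinearMap.ker d ⊓ m • (⊤ : Submodule R M) ≤ LinearMap.range d ⊔ m • LinearMap.ker d

-- deps: CLIF VF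
def S_CPB : Prop := ∀ (ν σ V : Type) [Fintype ν] [LinearOrder ν] [Fintype σ] [DecidableEq σ]
  [AddCommGroup V] [Module ℂ V] [Module (MvPolynomial ((ν ⊕ σ) ⊕ ν ⊕ σ) ℂ) V]
  [IsScalarTower ℂ (MvPolynomial ((ν ⊕ σ) ⊕ ν ⊕ σ) ℂ) V] (S : Setup ν σ)
  (z : (ν ⊕ σ) ⊕ ν ⊕ σ → Module.End ℂ V) (γ : Matrix (ν ⊕ σ) (ν ⊕ σ) ℂ → Module.End ℂ V) (ξ) (θ'),
    (∀ s v, (X s : MvPolynomial ((ν ⊕ σ) ⊕ ν ⊕ σ) ℂ) • v = z s v) → Eqv S.g z γ ⊥ ⊤ →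
    Frame S ξ θ' →
    let m := fun j : ℕ => RingHom.ker (eval (ext0 ν S.Y)) ^ j •
      (⊤ : Submodule (MvPolynomial ((ν ⊕ σ) ⊕ ν ⊕ σ) ℂ) (Finset ν → V))
    let κ : Module.End ℂ (Finset ν → V) := ∑ j, act V (clm S.w (θ' j)) * pw (Finset ν) (γ (ξ j))
    let Δ := dir0 z S.w * κ + κ * dir0 z S.w
    let n := act V (∑ j, clm S.w (θ' j) * clm S.w (hv (ξ j) (ext0 ν S.Y)))
    (∀ v v' : (ν ⊕ σ) ⊕ ν ⊕ σ → ℂ, clm S.w v * clm S.w v' + clm S.w v' * clm S.w v =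
      bf S.w v v' • (1 : Matrix (Finset ν) (Finset ν) ℂ)) ∧
    dir0 z S.w * dir0 z S.w = 0 ∧ ∀ j, (∀ x ∈ m j, Δ x ∈ m j) ∧
      ∃ A : ℕ → Submodule ℂ (Finset ν → V),
        (∀ x ∈ m j, ∃ y ∈ ⨆ i, ⨆ _ : i ≤ j, A i, x - y ∈ m (j + 1)) ∧
        ∀ i ≤ j, ∀ x ∈ A i, x ∈ m j ∧ n x ∈ A i ∧ Δ x - n x - (i : ℂ) • x ∈ m (j + 1)

-- deps: CLIF VF FRAME PURE CPA CPB KFG
def S_CP : Prop := ∀ (ν σ V : Type) [Fintype ν] [LinearOrder ν] [Fintype σ] [DecidableEq σ]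
  [AddCommGroup V] [Module ℂ V] (S : Setup ν σ) (z : (ν ⊕ σ) ⊕ ν ⊕ σ → Module.End ℂ V)
  (γ : Matrix (ν ⊕ σ) (ν ⊕ σ) ℂ → Module.End ℂ V) (U : Module.End ℂ V) (W) (c : ℂ),
    Eqv S.g z γ ⊥ ⊤ → IsSpin S.bar W →
    (∀ v, U * z v = z (Sum.map (Sum.map S.bar S.τ) (Sum.map S.bar S.τ) v) * U) → c ≠ 0 →
    (∀ v, U v - c • v ∈ radz z (ext0 ν S.Y) ⊤) →
    ∃ c' : ℂ, c' ≠ 0 ∧ ∀ u ∈ LinearMap.ker (dir0 z S.w),
      (act V W * pw (Finset ν) U) u - c' • u ∈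
        LinearMap.range (dir0 z S.w) ⊔ radz (zBase z) S.Y (LinearMap.ker (dir0 z S.w))

-- deps: CLIF
def S_KFG : Prop := ∀ (ν σ V : Type) [Fintype ν] [LinearOrder ν] [Fintype σ]
  [AddCommGroup V] [Module ℂ V] (z : (ν ⊕ σ) ⊕ ν ⊕ σ → Module.End ℂ V) (w : ν → ℤ),
    (∀ s t, z s * z t = z t * z s) → (∃ G : Finset V, gen (Set.range z) (G : Set V) = ⊤) →
    (∀ j, w j ≠ 0) →
    (∀ j : ν ⊕ ν, ∀ u ∈ LinearMap.ker (dir0 z w),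
      pw (Finset ν) (z (Sum.map Sum.inl Sum.inl j)) u ∈ LinearMap.range (dir0 z w)) ∧
    ∃ G : Finset (Finset ν → V), (G : Set (Finset ν → V)) ⊆ LinearMap.ker (dir0 z w) ∧
      LinearMap.ker (dir0 z w) ≤ LinearMap.range (dir0 z w) ⊔ gen (Set.range (zBase z)) G

/-- The filtration on forms. -/
def filF {ν V : Type} [AddCommGroup V] [Module ℂ V] (F : ℤ → Submodule ℂ V) (m : ℤ) :
    Submodule ℂ (Finset ν → V) := Submodule.pi Set.univ fun I => F (m + (I.card / 2 : ℕ))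

/-- The graded module of a filtered module `M`, seen from the Rees module of forms: `π` is the
projection from the lattice of forms to the forms with values in the graded module `V`. -/
structure GrD {ν σ : Type} [Fintype ν] [LinearOrder ν] [Fintype σ] [DecidableEq σ]
    (S : Setup ν σ) (M : WM (ν ⊕ σ)) (F : ℤ → Submodule ℂ M.V) (T : Module.End ℂ (Finset ν → M.V))
    (V : Type) [AddCommGroup V] [Module ℂ V] (π : (ℤ →₀ (Finset ν → M.V)) →ₗ[ℂ] (Finset ν → V))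
    (z : (ν ⊕ σ) ⊕ ν ⊕ σ → Module.End ℂ V) (T₀ : Module.End ℂ (Finset ν → V)) : Prop where
  onto : (lat (filF F)).map π = ⊤
  ker : ∀ u ∈ lat (filF (ν := ν) F), π u = 0 ↔ u ∈ (lat (filF F)).map (sh _)
  comm : ∀ s t, z s * z t = z t * z s
  fg : ∃ G : Finset V, gen (Set.range z) (G : Set V) = ⊤
  base : ∀ v, ∀ u ∈ lat (filF (ν := ν) F), π ((forms M).rz v u) = zBase z v (π u)
  par : ∀ p, ∀ u ∈ lat (filF (ν := ν) F), (∀ k, u k ∈ parF ν M.V p) → π u ∈ parF ν V p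
  even : ∀ u ∈ lat (filF (ν := ν) F), (∀ k, u k ∈ parF ν M.V 0) →
    sh _ (rx (dir M S.w) u) ∈ lat (filF (ν := ν) F) ∧ π (sh _ (rx (dir M S.w) u)) = dir0 z S.w (π u)
  odd : ∀ u ∈ lat (filF (ν := ν) F), (∀ k, u k ∈ parF ν M.V 1) →
    rx (dir M S.w) u ∈ lat (filF (ν := ν) F) ∧ π (rx (dir M S.w) u) = dir0 z S.w (π u)
  tw : ∀ u ∈ lat (filF (ν := ν) F), rx T u ∈ lat (filF (ν := ν) F) ∧ π (rx T u) = T₀ (π u)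
  muB : ∀ ξ ξ₀, Matrix.fromBlocks ξ 0 0 ξ₀ ∈ S.g → ∀ v,
    ∑ s, ∑ t, Matrix.fromBlocks ξ 0 0 ξ₀ s t • z (Sum.inl t) (z (Sum.inr s) v) = 0
  scal : ∃ c : ℂ, c ≠ 0 ∧ ∀ u ∈ LinearMap.ker (dir0 z S.w), T₀ u - c • u ∈
    LinearMap.range (dir0 z S.w) ⊔ radz (zBase z) S.Y (LinearMap.ker (dir0 z S.w))

-- deps: REES VF EQV CLIF GRM CP
def S_LIFTA : Prop := ∀ (ν σ : Type) [Fintype ν] [LinearOrder ν] [Fintype σ] [DecidableEq σ]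
  (S : Setup ν σ) (M : WM (ν ⊕ σ)) (F : ℤ → Submodule ℂ M.V) (U : Module.End ℂ M.V) (W) (c : ℂ),
    M.IsW → M.Good F → (∀ ξ ∈ S.g, ∀ k, ∀ v ∈ F k, M.vf ξ v ∈ F k) → IsSpin S.bar W →
    Semi M (Sum.map S.bar S.τ) U → (∀ k, ∀ v ∈ F k, U v ∈ F k) → c ≠ 0 →
    (∀ v ∈ lat F, rx U v - c • v ∈ M.fibK F (ext0 ν S.Y)) →
    ∃ (V : Type) (_ : AddCommGroup V) (_ : Module ℂ V) (π : _) (z : _) (T₀ : _),
      GrD S M F (act M.V W * pw (Finset ν) U) V π z T₀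

-- deps: DIAG REES VF CLIF CART
def S_LBA : Prop := ∀ (ν σ : Type) [Fintype ν] [LinearOrder ν] [Fintype σ] [DecidableEq σ]
  (S : Setup ν σ) (M : WM (ν ⊕ σ)) (F : ℤ → Submodule ℂ M.V) (T : Module.End ℂ (Finset ν → M.V))
  (V : Type) [AddCommGroup V] [Module ℂ V] (π : _) (z : _) (T₀ : _), M.IsW → M.Good F →
    (∀ ξ ∈ S.g, ∀ k, ∀ v ∈ F k, M.vf ξ v ∈ F k) → Diag (M.eu (Sum.elim S.w 0)) →
    GrD S M F T V π z T₀ → ∀ (p : ℕ) (N₂ : Submodule ℂ (Finset ν → M.V)),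
    dirB M S.w p ≤ N₂ → N₂ ≤ dirZ M S.w p → ∀ u ∈ lat fun k => filF F k ⊓ N₂,
      π u ∈ LinearMap.ker (dir0 z S.w) ∧ (π u ∈ LinearMap.range (dir0 z S.w) →
        u ∈ lat (fun k => filF F k ⊓ dirB M S.w p) ⊔ (lat fun k => filF F k ⊓ N₂).map (sh _))

-- deps: DESC REES VF CLIF CART KFG
def S_LBB : Prop := ∀ (ν σ : Type) [Fintype ν] [LinearOrder ν] [Fintype σ] [DecidableEq σ]
  (S : Setup ν σ) (M : WM (ν ⊕ σ)) (F : ℤ → Submodule ℂ M.V) (T : Module.End ℂ (Finset ν → M.V))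
  (V : Type) [AddCommGroup V] [Module ℂ V] (π : _) (z : _) (T₀ : _), M.IsW → M.Good F →
    (∀ ξ ∈ S.g, ∀ k, ∀ v ∈ F k, M.vf ξ v ∈ F k) → GrD S M F T V π z T₀ →
    ∃ γ, Eqv S.g₀ (zBase z) γ (LinearMap.range (dir0 z S.w)) (LinearMap.ker (dir0 z S.w)) ∧
      ∀ (p : ℕ) (N₂ : Submodule ℂ (Finset ν → M.V)), dirB M S.w p ≤ N₂ → N₂ ≤ dirZ M S.w p →
        (forms M).Stable N₂ → ∀ ξ₀ ∈ S.g₀, ∀ u ∈ lat fun k => filF F k ⊓ N₂,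
          γ ξ₀ (π u) ∈ (lat fun k => filF F k ⊓ N₂).map π

-- deps: REES FE LBA LBB
def S_LIFTB : Prop := ∀ (ν σ : Type) [Fintype ν] [LinearOrder ν] [Fintype σ] [DecidableEq σ]
  (S : Setup ν σ) (M : WM (ν ⊕ σ)) (F : ℤ → Submodule ℂ M.V) (T : Module.End ℂ (Finset ν → M.V))
  (V : Type) [AddCommGroup V] [Module ℂ V] (π : _) (z : _) (T₀ : _), M.IsW → M.Good F →
    (∀ ξ ∈ S.g, ∀ k, ∀ v ∈ F k, M.vf ξ v ∈ F k) → Diag (M.eu (Sum.elim S.w 0)) →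
    GrD S M F T V π z T₀ → ∀ (p : ℕ) (N₁ N₂ : Submodule ℂ (Finset ν → M.V)),
    dirB M S.w p ≤ N₁ → N₁ ≤ N₂ → N₂ ≤ dirZ M S.w p → (forms M).Stable N₁ → (forms M).Stable N₂ →
    (∀ v ∈ N₂, T v ∈ N₂) →
    (∃ G : Finset (ℤ →₀ (Finset ν → M.V)),
      (G : Set (ℤ →₀ (Finset ν → M.V))) ⊆ lat (fun k => filF F k ⊓ N₂) ∧
      lat (fun k => filF F k ⊓ N₂) ≤ lat (fun k => filF F k ⊓ N₁) ⊔
        (lat fun k => filF F k ⊓ N₂).map (sh _) ⊔ gen (Set.range (forms M).rz) G) ∧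
    ∃ c : ℂ, c ≠ 0 ∧ ∀ u ∈ lat fun k => filF F k ⊓ N₂, rx T u - c • u ∈
      lat (fun k => filF F k ⊓ N₁) ⊔ (forms M).fibK (fun k => filF F k ⊓ N₂) S.Y

-- deps: DIAG REES VF CART
def S_LIFTC : Prop := ∀ (ν σ : Type) [Fintype ν] [LinearOrder ν] [Fintype σ] [DecidableEq σ]
  (S : Setup ν σ) (M : WM (ν ⊕ σ)) (F : ℤ → Submodule ℂ M.V) (T : Module.End ℂ (Finset ν → M.V))
  (p : ℕ) (N₁ N₂ : Submodule ℂ (Finset ν → M.V)) (U : WM σ) (f : (Finset ν → M.V) →ₗ[ℂ] U.V)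
  (WU : Module.End ℂ U.V) (c : ℂ), M.IsW → M.Good F →
    (∀ ξ ∈ S.g, ∀ k, ∀ v ∈ F k, M.vf ξ v ∈ F k) → Diag (M.eu (Sum.elim S.wν S.w₀)) →
    dirB M S.w p ≤ N₁ → N₂ ≤ dirZ M S.w p → PIsoBy Set.univ (forms M) N₁ N₂ U ⊥ ⊤ f →
    (∀ v ∈ N₂, T v ∈ N₂ ∧ WU (f v) = f (T v)) → (∀ k, ∀ v ∈ filF (ν := ν) F k, T v ∈ filF F k) →
    (∃ G : Finset (ℤ →₀ (Finset ν → M.V)),
      (G : Set (ℤ →₀ (Finset ν → M.V))) ⊆ lat (fun k => filF F k ⊓ N₂) ∧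
      lat (fun k => filF F k ⊓ N₂) ≤ lat (fun k => filF F k ⊓ N₁) ⊔
        (lat fun k => filF F k ⊓ N₂).map (sh _) ⊔ gen (Set.range (forms M).rz) G) →
    (∀ u ∈ lat fun k => filF F k ⊓ N₂, rx T u - c • u ∈
      lat (fun k => filF F k ⊓ N₁) ⊔ (forms M).fibK (fun k => filF F k ⊓ N₂) S.Y) →
    ∃ F', U.Good F' ∧ (∀ ξ ∈ S.g₀, ∀ k, ∀ v ∈ F' k, U.vf ξ v ∈ F' k) ∧
      (∀ k, ∀ v ∈ F' k, WU v ∈ F' k) ∧ (∀ v ∈ lat F', rx WU v - c • v ∈ U.fibK F' S.Y) ∧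
      Diag (U.eu S.w₀) ∧ ∀ k, ∀ v ∈ F' k, U.eu S.w₀ v ∈ F' k

-- deps: PISO HSUB DESC LEN MULT RESM
def S_MINW : Prop := ∀ (σ : Type) [Finite σ] (T : WM σ) (B Z : Submodule ℂ T.V) (τ : σ ≃ σ)
  (W : Module.End ℂ T.V) (e : ℂ) (A : WM σ), Hol Set.univ T B Z → (∀ s, τ (τ s) = s) →
    Semi T τ W → (∀ v ∈ B, W v ∈ B) → (∀ v ∈ Z, W v ∈ Z) → e ≠ 0 → (∀ v ∈ Z, W (W v) = e • v) →
    A.Simple → ¬Iso A (A.res τ) → A.mult T B Z ≠ 0 →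
    ∃ (N₁ N₂ : Submodule ℂ T.V) (U : WM σ) (f : T.V →ₗ[ℂ] U.V) (WU η : Module.End ℂ U.V),
      B ≤ N₁ ∧ N₂ ≤ Z ∧ U.Holo ∧ PIsoBy Set.univ T N₁ N₂ U ⊥ ⊤ f ∧
      (∀ v ∈ N₂, W v ∈ N₂ ∧ WU (f v) = f (W v)) ∧ Semi U τ WU ∧ Semi U id η ∧ η * η = 1 ∧
      η * WU = -(WU * η) ∧ ∀ φ : Fn σ, Additive φ → φ U ⊥ ⊤ = φ A ⊥ ⊤ + φ (A.res τ) ⊥ ⊤

-- deps: MULT EIG VF KAP SPIN CART HOLD LATT WMX FIBW TI KZ LIFTA LIFTB LIFTC MINW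
def S_DIRAC : Prop := ∀ (ν σ : Type) [Fintype ν] [LinearOrder ν] [Fintype σ] [DecidableEq σ]
  (S : Setup ν σ) (M : WM (ν ⊕ σ)) (A : WM σ), M.Simple → M.Holo → LocFin M S.g → A.Simple →
    A.Holo → kap S.w₀ S.Y A ⊥ ⊤ ≠ 0 → ¬Iso A (A.res S.τ) → push Sum.inr A.mult M ⊥ ⊤ = 0

end Pool.Agent.P.MP_52ab5a_al
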