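import Pool.Agent.P.MP_52ab5a_al.K.Iface

/-! Exterior multiplication and contraction as matrices; modules over polynomial rings from
commuting operators. -/

namespace Pool.Agent.P.MP_52ab5a_al

open MvPolynomial

section Clifford

variable {ν : Type}

/-- Exterior multiplication by `dy_j`. -/
noncomputable def eps [LinearOrder ν] (j : ν) : Matrix (Finset ν) (Finset ν) ℂ :=
  Matrix.of fun I J => if j ∈ I ∧ J = I.erase j then (-1) ^ (I.filter (· < j)).card else 0

/-- Contraction with `∂ / ∂ y_j`. -/
noncomputable def iot [LinearOrder ν] (j : ν) : Matrix (Finset ν) (Finset ν) ℂ := (eps j).transpose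

/-- The parity operator. -/
noncomputable def parM (ν : Type) [DecidableEq ν] : Matrix (Finset ν) (Finset ν) ℂ :=
  Matrix.diagonal fun I => (-1) ^ I.card

variable (V : Type) [AddCommGroup V] [Module ℂ V]

/-- A scalar matrix acting on vectors with entries in `V`. -/
noncomputable def act {α : Type} [Fintype α] [DecidableEq α] :
    Matrix α α ℂ →ₐ[ℂ] Module.End ℂ (α → V) :=
  AlgHom.ofLinearMap
    { toFun := fun A => LinearMap.pi fun I => ∑ J, A I J • LinearMap.proj J
      map_add' := fun A B => by
        ext v I; simp [add_smul, Finset.sum_add_distrib]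
      map_smul' := fun c A => by
        ext v I; simp [Finset.smul_sum, mul_smul] }
    (by
      refine LinearMap.ext fun v => funext fun I => ?_
      simp [Matrix.one_apply])
    (fun A B => by
      refine LinearMap.ext fun v => funext fun I => ?_
      simp only [LinearMap.coe_mk, AddHom.coe_mk, LinearMap.pi_apply, LinearMap.sum_apply,
        LinearMap.smul_apply, LinearMap.proj_apply, Module.End.mul_apply, Matrix.mul_apply,
        Finset.sum_smul, Finset.smul_sum, mul_smul]
      exact Finset.sum_comm)

variable {V}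

theorem act_apply {α : Type} [Fintype α] [DecidableEq α] (A : Matrix α α ℂ) (v : α → V) (I : α) :
    act V A v I = ∑ J, A I J • v J := by
  simp [act]

/-- An operator acting on each entry. -/
noncomputable def pw (α : Type) : Module.End ℂ V →ₐ[ℂ] Module.End ℂ (α → V) :=
  AlgHom.ofLinearMap
    { toFun := fun T => T.compLeft α
      map_add' := fun _ _ => rfl
      map_smul' := fun _ _ => rfl } rfl fun _ _ => rfl

theorem pw_apply {α : Type} (T : Module.End ℂ V) (v : α → V) (I : α) : pw α T v I = T (v I) := rfl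

theorem pw_eq {α : Type} (T : Module.End ℂ V) : T.compLeft α = pw α T := rfl

theorem act_mul_pw {α : Type} [Fintype α] [DecidableEq α] (A : Matrix α α ℂ)
    (T : Module.End ℂ V) : act V A * pw α T = pw α T * act V A := by
  refine LinearMap.ext fun v => funext fun I => ?_
  simp [act_apply, pw_apply, map_sum]

end Clifford

section Comm

variable {ι V : Type} [AddCommGroup V] [Module ℂ V]

/-- Evaluation of polynomials at commuting operators. -/
noncomputable def evOp (z : ι → Module.End ℂ V) (h : ∀ s t, z s * z t = z t * z s) :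
    MvPolynomial ι ℂ →ₐ[ℂ] Module.End ℂ V :=
  letI : CommRing (Algebra.adjoin ℂ (Set.range z)) := Algebra.adjoinCommRingOfComm ℂ (by
    rintro _ ⟨s, rfl⟩ _ ⟨t, rfl⟩; exact h s t)
  (Algebra.adjoin ℂ (Set.range z)).val.comp
    (aeval fun s => (⟨z s, Algebra.subset_adjoin ⟨s, rfl⟩⟩ : Algebra.adjoin ℂ (Set.range z)))

theorem evOp_X (z : ι → Module.End ℂ V) (h : ∀ s t, z s * z t = z t * z s) (s : ι) :
    evOp z h (X s) = z s := by
  simp [evOp]

/-- The module over the polynomial ring given by commuting operators. -/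
@[reducible] noncomputable def commModule (z : ι → Module.End ℂ V)
    (h : ∀ s t, z s * z t = z t * z s) : Module (MvPolynomial ι ℂ) V :=
  Module.compHom V (evOp z h).toRingHom

theorem exists_commModule (z : ι → Module.End ℂ V) (h : ∀ s t, z s * z t = z t * z s) :
    ∃ (_ : Module (MvPolynomial ι ℂ) V) (_ : IsScalarTower ℂ (MvPolynomial ι ℂ) V),
      ∀ s v, (X s : MvPolynomial ι ℂ) • v = z s v := by
  letI := commModule z h
  refine ⟨inferInstance, ⟨fun c f v => ?_⟩, fun s v => ?_⟩
  · show evOp z h (c • f) v = c • evOp z h f v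
    rw [map_smul]; rfl
  · show evOp z h (X s) v = _
    rw [evOp_X]

theorem subset_gen (O : Set (Module.End ℂ V)) (G : Set V) : G ⊆ gen O G := fun _ hv =>
  Submodule.mem_sInf.2 fun _ hY => hY.1 hv

theorem gen_stable {O : Set (Module.End ℂ V)} {G : Set V} {T : Module.End ℂ V} (hT : T ∈ O)
    {v : V} (hv : v ∈ gen O G) : T v ∈ gen O G :=
  Submodule.mem_sInf.2 fun Y hY => hY.2 T hT v (Submodule.mem_sInf.1 hv Y hY)

theorem gen_le {O : Set (Module.End ℂ V)} {G : Set V} {Y : Submodule ℂ V} (hG : G ⊆ Y)
    (hO : ∀ T ∈ O, ∀ v ∈ Y, T v ∈ Y) : gen O G ≤ Y := sInf_le ⟨hG, hO⟩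

/-- A subspace stable under the variables is a submodule over the polynomial ring. -/
theorem smul_mem_of_X [Module (MvPolynomial ι ℂ) V] [IsScalarTower ℂ (MvPolynomial ι ℂ) V]
    {Y : Submodule ℂ V} (hY : ∀ s, ∀ v ∈ Y, (X s : MvPolynomial ι ℂ) • v ∈ Y)
    (f : MvPolynomial ι ℂ) : ∀ v ∈ Y, f • v ∈ Y := by
  induction f using MvPolynomial.induction_on with
  | C a => intro v hv; rw [← algebraMap_eq, algebraMap_smul]; exact Y.smul_mem a hv
  | add p q hp hq => intro v hv; rw [add_smul]; exact Y.add_mem (hp v hv) (hq v hv)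
  | mul_X p s hp => intro v hv; rw [mul_smul]; exact hp _ (hY s v hv)

end Comm

end Pool.Agent.P.MP_52ab5a_al
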