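import Pool.Agent.P.MP_52ab5a_al.B.Iface
import Pool.Agent.P.MP_52ab5a_al.K.Iface
import Pool.Agent.P.MP_52ab5a_al.A.Iface

/-! Step BR of the open orbit project. -/

namespace Pool.Agent.P.MP_52ab5a_al

open MvPolynomial WM

theorem p_BR (hKOS : S_KOS) (hREGH : S_REGH) (hDIM : S_DIM) :
    S_BR := by
  intro τ _ _
  have h : ∀ (σ : Type) [Fintype σ] (φ : Fn σ) (S : Set (τ ⊕ σ → ℂ)), Additive φ →
      direct φ S = intg φ S := by
    intro σ _ φ S hφ
    unfold direct intg cls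
    refine Finsupp.sum_congr fun f _ => ?_
    rw [(hKOS τ σ (reg f) (hREGH _ f)).2 φ hφ]
  exact ⟨h, fun S => h Empty WM.dim _ (hDIM Empty).1⟩

end Pool.Agent.P.MP_52ab5a_al
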