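import Pool.Agent.P.MP_52ab5a_al.B.Iface
import Pool.Agent.P.MP_52ab5a_al.A.Iface
import Pool.Agent.P.MP_52ab5a_al.K.Iface

/-! Step DIRAC of the open orbit project. -/

namespace Pool.Agent.P.MP_52ab5a_al

open MvPolynomial WM

theorem p_DIRAC (hMULT : S_MULT) (hEIG : S_EIG) (hVF : S_VF) (hKAP : S_KAP) (hSPIN : S_SPIN) (hCART : S_CART) (hHOLD : S_HOLD) (hLATT : S_LATT) (hWMX : S_WMX) (hFIBW : S_FIBW) (hTI : S_TI) (hKZ : S_KZ) (hLIFTA : S_LIFTA) (hLIFTB : S_LIFTB) (hLIFTC : S_LIFTC) (hMINW : S_MINW) :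
    S_DIRAC := by
  intro ν σ _ _ _ _ S M A hMs hMh hLF hAs hAh hkap hniso
  by_contra hne
  have hMW : M.IsW := hMs.1
  obtain ⟨W₀, hW0, hWf, hWg⟩ := hLF
  obtain ⟨F, hF, hFg'⟩ := hLATT (ν ⊕ σ) M W₀ hMs hW0 hWf
  have hFg : ∀ ξ ∈ S.g, ∀ k, ∀ v ∈ F k, M.vf ξ v ∈ F k := fun ξ hξ => hFg' ξ (hWg ξ hξ)
  have hdiag : ∀ (a : ν → ℤ) (b : σ → ℤ), Matrix.fromBlocks (dg a) 0 0 (dg b) ∈ S.g →
      Diag (M.eu (Sum.elim a b)) := by
    intro a b hab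
    have e1 : Matrix.fromBlocks (dg a) 0 0 (dg b) = dg (Sum.elim a b) := by
      simp only [dg, Matrix.fromBlocks_diagonal]
      congr 1
      funext j
      cases j <;> rfl
    rw [e1] at hab
    have hV := hVF (ν ⊕ σ) M
    rw [← hV.2.1]
    refine (hEIG _ M hMs _ (fun s B hB => ?_) ⟨W₀, hW0, hWf, hWg _ hab⟩).1
    rcases hB with rfl | rfl
    · refine Submodule.mem_iSup_of_mem (Sum.elim a b s) (Module.End.mem_eigenspace_iff.2 ?_)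
      have := (hV.2.2.2.2.1 hMW).1 (dg (Sum.elim a b)) s
      simp only [LinearMap.sub_apply, LinearMap.mulLeft_apply, LinearMap.mulRight_apply, this]
      simp [dg, Matrix.diagonal_apply]
    · refine Submodule.mem_iSup_of_mem (-Sum.elim a b s) (Module.End.mem_eigenspace_iff.2 ?_)
      have := (hV.2.2.2.2.1 hMW).2.1 (dg (Sum.elim a b)) s
      simp only [LinearMap.sub_apply, LinearMap.mulLeft_apply, LinearMap.mulRight_apply, this]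
      simp [dg, Matrix.diagonal_apply]
  have hd1 : Diag (M.eu (Sum.elim S.w 0)) := by
    refine hdiag _ _ ?_
    have e0 : dg (0 : σ → ℤ) = 0 := by simp [dg]
    rw [e0]
    exact S.lam_mem
  have hd2 : Diag (M.eu (Sum.elim S.wν S.w₀)) := hdiag _ _ S.rho_mem
  obtain ⟨hdπ, U, q, hq, hUq, hUU, hsemi, hUY⟩ := hWMX (ν ⊕ σ) M S.pr (Sum.map S.bar S.τ) hMs
    S.pr_cube (by rintro (j | j) <;> simp [S.bar_bar, S.τ_τ]) S.pr_sq
    ⟨W₀, hW0, hWf, hWg _ S.pr_mem⟩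
  have hUF : ∀ k, ∀ v ∈ F k, U v ∈ F k := fun k => hUY (F k) (hFg _ S.pr_mem k)
  obtain ⟨c, hc, hfib⟩ := hFIBW _ M F S.g (ext0 ν S.Y) hMW hF S.lie S.rigid hFg S.pr S.pr_mem
    S.pr_Y hdπ U q hq hUq
  obtain ⟨W, hspin⟩ := hSPIN ν S.bar S.bar_bar
  obtain ⟨hhol, hpush⟩ := hHOLD ν σ M S.w hMh hd1
  obtain ⟨p, hp⟩ : ∃ p, A.mult (forms M) (dirB M S.w p) (dirZ M S.w p) ≠ 0 := by
    by_contra h
    push Not at h
    exact hne (by rw [hpush _ (hMULT σ A hAs).1, h 0, h 1, sub_zero])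
  obtain ⟨hTd, hTs, hTp⟩ := (hCART ν σ M hMW).2.2.2.2.2.2.2.2.2.2.2.2 S.w S.bar S.τ U W S.w_bar
    hspin hsemi
  set T := act M.V W * pw (Finset ν) U with hT
  have hTd' : ∀ v, T (dir M S.w v) = Complex.I • dir M S.w (T v) := fun v =>
    LinearMap.congr_fun hTd v
  have hZ : ∀ v ∈ dirZ M S.w p, T v ∈ dirZ M S.w p := by
    intro v hv
    refine ⟨(hTp p v hv.1).1, ?_⟩
    have h1 := hTd' v
    rw [show dir M S.w v = 0 from hv.2, map_zero] at h1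
    exact (smul_eq_zero.1 h1.symm).resolve_left Complex.I_ne_zero
  have hB : ∀ v ∈ dirB M S.w p, T v ∈ dirB M S.w p := by
    intro v hv
    refine ⟨(hTp p v hv.1).1, ?_⟩
    obtain ⟨u, hu, rfl⟩ := hv.2
    refine ⟨Complex.I • T u, Submodule.smul_mem _ _ ?_, by rw [map_smul, hTd']⟩
    have h1 := hTd' (dir M S.w u)
    rw [show dir M S.w (dir M S.w u) = 0 from hu, map_zero, hTd', map_smul] at h1
    exact (smul_eq_zero.1 ((smul_eq_zero.1 h1.symm).resolve_left Complex.I_ne_zero)).resolve_left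
      Complex.I_ne_zero
  have hTF : ∀ k, ∀ v ∈ filF (ν := ν) F k, T v ∈ filF F k := by
    intro k v hv I _
    rw [hT, Module.End.mul_apply, act_apply]
    refine Submodule.sum_mem _ fun J _ => ?_
    by_cases h : W I J = 0
    · simp [h]
    · beta_reduce
      rw [hspin.deg I J h]
      exact Submodule.smul_mem _ _ (hUF _ _ (hv J trivial))
  obtain ⟨N₁, N₂, U', f, WU, η, h1, h2, hU'h, hiso, hWf', hsW, hsη, hηη, hanti, hφ⟩ :=
    hMINW σ (forms M) (dirB M S.w p) (dirZ M S.w p) S.τ T ((-1) ^ p) A (hhol p) S.τ_τ hTs hB hZ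
      (pow_ne_zero _ (by norm_num)) (fun v hv => (hTp p v hv.1).2 hUU) hAs hniso hp
  obtain ⟨V, _, _, π, z, T₀, hG⟩ := hLIFTA ν σ S M F U W c hMW hF hFg hspin hsemi hUF hc hfib
  obtain ⟨hfg, c', hc', hscal⟩ := hLIFTB ν σ S M F T V π z T₀ hMW hF hFg hd1 hG p N₁ N₂ h1 hiso.le h2
    ((stOn_univ _ _).1 hiso.stB) ((stOn_univ _ _).1 hiso.stZ) (fun v hv => (hWf' v hv).1)
  obtain ⟨F', hF', hg₀, hWF', hfib', hdU, hEF⟩ := hLIFTC ν σ S M F T p N₁ N₂ U' f WU c' hMW hF hFg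
    hd2 h1 h2 hiso hWf' hTF hfg hscal
  have hz := hTI σ U' F' S.g₀ S.Y S.τ WU η c' hU'h.1 hF' S.lie₀ S.rigid₀ hg₀ S.Y_τ hsW hWF' hsη hηη
    hanti hc' hfib'
  have hk := hKZ σ U' F' S.w₀ S.Y hU'h hF' hdU hEF S.supX S.supD hz
  have hk4 := (hKAP σ S.w₀ S.Y).2.2.2.1 σ S.τ A hAh
  rw [S.w₀_τ, S.Y_τ] at hk4
  rw [hφ _ (hKAP σ S.w₀ S.Y).2.2.1, hk4] at hk
  exact hkap (by omega)

end Pool.Agent.P.MP_52ab5a_al
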