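import Pool.Agent.P.MP_52ab5a_al.B.Iface

/-! Step FRAME of the open orbit project. -/

namespace Pool.Agent.P.MP_52ab5a_al

open MvPolynomial WM

namespace FrameAux

/-- A Lagrangian subspace with an involution has a frame of eigenvectors. -/
theorem lag {ν W : Type} [Fintype ν] [DecidableEq ν] [AddCommGroup W] [Module ℂ W]
    [Module.Finite ℂ W] (hW : Module.finrank ℂ W = Fintype.card ν + Fintype.card ν)
    (B : LinearMap.BilinForm ℂ W) (hs : ∀ x y, B x y = B y x) (hn : ∀ x, (∀ y, B x y = 0) → x = 0)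
    (T : Submodule ℂ W) (hT : ∀ y, y ∈ T ↔ ∀ x ∈ T, B x y = 0) (J : W →ₗ[ℂ] W)
    (hJ : ∀ x, J (J x) = x) (hJT : ∀ x ∈ T, J x ∈ T) :
    ∃ θ θ' : ν → W, (∀ j, θ j ∈ T) ∧ (∀ j, J (θ j) = θ j ∨ J (θ j) = -θ j) ∧
      Submodule.span ℂ (Set.range θ) = T ∧ (∀ i j, B (θ' i) (θ' j) = 0) ∧
      (∀ i j, B (θ i) (θ' j) = if i = j then 1 else 0) ∧
      ∀ v, v = ∑ i, (B v (θ' i) • θ i + B v (θ i) • θ' i) := by
  have hr : B.IsRefl := fun x y h => (hs y x).trans h
  have hnd : B.Nondegenerate := ⟨hn, fun y h => hn y fun x => (hs y x).trans (h x)⟩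
  have ho : B.orthogonal T = T := by
    ext y
    rw [hT y, LinearMap.BilinForm.mem_orthogonal_iff]
  have hd : Module.finrank ℂ T = Fintype.card ν := by
    have h1 := LinearMap.BilinForm.finrank_orthogonal hnd T
    have h2 := Submodule.finrank_le T
    rw [ho] at h1
    omega
  obtain ⟨b, hb, hsp, hli⟩ := exists_linearIndependent ℂ {v | v ∈ T ∧ (J v = v ∨ J v = -v)}
  have hsT : Submodule.span ℂ b = T := by
    rw [hsp]
    refine le_antisymm (Submodule.span_le.2 fun v hv => hv.1) fun v hv => ?_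
    have e : v = (1 / 2 : ℂ) • ((v + J v) + (v - J v)) := by module
    rw [e]
    refine Submodule.smul_mem _ _ (add_mem (Submodule.subset_span ⟨add_mem hv (hJT v hv), ?_⟩)
      (Submodule.subset_span ⟨sub_mem hv (hJT v hv), ?_⟩))
    · left; rw [map_add, hJ, add_comm]
    · right; rw [map_sub, hJ, neg_sub]
  have hfin : Finite b := hli.finite
  have := Fintype.ofFinite b
  have hc : Fintype.card ν = Fintype.card b := by
    rw [← hd, ← hsT, ← finrank_span_eq_card hli, Subtype.range_coe]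
  let e := Fintype.equivOfCardEq hc
  have hθ : Submodule.span ℂ (Set.range fun j => (e j : W)) = T := by
    rw [← hsT]
    congr 1
    exact (e.surjective.range_comp Subtype.val).trans Subtype.range_coe
  have hm : ∀ j, (e j : W) ∈ T := fun j => (hb (e j).2).1
  generalize hθd : (fun j => (e j : W)) = θ at hθ
  have hm' : ∀ j, θ j ∈ T := fun j => hθd ▸ hm j
  have he : ∀ j, J (θ j) = θ j ∨ J (θ j) = -θ j := fun j => hθd ▸ (hb (e j).2).2
  have hk : ∀ y, (∀ i, B (θ i) y = 0) → y ∈ T := fun y h => (hT y).2 fun x hx => by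
    rw [← hθ] at hx
    induction hx using Submodule.span_induction with
    | mem x hx => obtain ⟨i, rfl⟩ := hx; exact h i
    | zero => simp
    | add x x' _ _ h1 h2 => rw [map_add, LinearMap.add_apply, h1, h2, add_zero]
    | smul c x _ h1 => rw [map_smul, LinearMap.smul_apply, h1, smul_zero]
  have hiso : ∀ i j, B (θ i) (θ j) = 0 := fun i j => (hT _).1 (hm' j) _ (hm' i)
  let φ : W →ₗ[ℂ] ν → ℂ := LinearMap.pi fun i => B (θ i)
  have hker : LinearMap.ker φ = T := by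
    ext y
    exact ⟨fun h => hk y fun i => congrFun h i, fun h => funext fun i => (hT y).1 h _ (hm' i)⟩
  have hsurj : LinearMap.range φ = ⊤ := by
    apply Submodule.eq_top_of_finrank_eq
    have h1 := φ.finrank_range_add_finrank_ker
    rw [hker, hd, hW] at h1
    rw [Module.finrank_fintype_fun_eq_card]
    omega
  choose η hη using fun j => LinearMap.range_eq_top.1 hsurj (Pi.single j 1)
  have hη' : ∀ i j, B (θ i) (η j) = if i = j then 1 else 0 := fun i j =>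
    (congrFun (hη j) i).trans (Pi.single_apply j 1 i)
  have hη'' : ∀ i j, B (η j) (θ i) = if i = j then 1 else 0 := fun i j => (hs _ _).trans (hη' i j)
  obtain ⟨θ', hθ'⟩ : ∃ θ' : ν → W, ∀ j, θ' j = η j - ∑ i, ((1 / 2 : ℂ) * B (η j) (η i)) • θ i :=
    ⟨_, fun _ => rfl⟩
  have hdual : ∀ i j, B (θ i) (θ' j) = if i = j then 1 else 0 := fun i j => by
    simp [hθ', map_sum, hiso, hη']
  have hiso' : ∀ i j, B (θ' i) (θ' j) = 0 := fun i j => by
    rw [hθ' i]
    simp only [map_sub, map_sum, map_smul, LinearMap.sub_apply, LinearMap.sum_apply,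
      LinearMap.smul_apply, hdual, smul_eq_mul, mul_ite, mul_one, mul_zero, Finset.sum_ite_eq',
      Finset.mem_univ, if_true]
    rw [hθ' j]
    simp only [map_sub, map_sum, map_smul, hη'', smul_eq_mul, mul_ite, mul_one, mul_zero,
      Finset.sum_ite_eq', Finset.mem_univ, if_true]
    rw [hs (η j)]
    ring
  refine ⟨θ, θ', hm', he, hθ, hiso', hdual, fun v => ?_⟩
  have h1 : v - ∑ i, (B v (θ' i) • θ i + B v (θ i) • θ' i) ∈ T := hk _ fun k => by
    simp [map_sum, hiso, hdual, hs (θ k) v]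
  rw [← hθ, Submodule.mem_span_range_iff_exists_fun] at h1
  obtain ⟨c, hc'⟩ := h1
  have h2 : ∀ k, c k = 0 := fun k => by
    have h3 := congrArg (fun x => B x (θ' k)) hc'
    simpa [map_sum, hdual, hiso', Finset.sum_add_distrib] using h3
  rw [← sub_eq_zero, ← hc']
  simp [h2]

variable {ν σ : Type} [Fintype ν] [Fintype σ]

/-- Extension of a normal vector by zero. -/
def ie (σ : Type) : (ν ⊕ ν → ℂ) →ₗ[ℂ] ((ν ⊕ σ) ⊕ ν ⊕ σ → ℂ) where
  toFun x := Sum.elim (Sum.elim (x ∘ Sum.inl) 0) (Sum.elim (x ∘ Sum.inr) 0)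
  map_add' x y := by ext ((j | s) | (j | s)) <;> simp
  map_smul' c x := by ext ((j | s) | (j | s)) <;> simp

/-- The normal coordinates. -/
def re (v : (ν ⊕ σ) ⊕ ν ⊕ σ → ℂ) : ν ⊕ ν → ℂ := v ∘ Sum.map Sum.inl Sum.inl

/-- The involution on normal vectors. -/
def jm (w : ν → ℤ) : (ν ⊕ ν → ℂ) →ₗ[ℂ] (ν ⊕ ν → ℂ) where
  toFun x := Sum.elim (fun j => w j * x (Sum.inl j)) fun j => -(w j * x (Sum.inr j))
  map_add' x y := by ext (j | j) <;> simp <;> ring
  map_smul' c x := by ext (j | j) <;> simp <;> ring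

/-- The symmetric form on normal vectors. -/
noncomputable def bm (w : ν → ℤ) : LinearMap.BilinForm ℂ (ν ⊕ ν → ℂ) :=
  LinearMap.mk₂ ℂ
    (fun x y => ∑ j, (w j : ℂ) * (x (Sum.inr j) * y (Sum.inl j) + x (Sum.inl j) * y (Sum.inr j)))
    (fun x x' y => by
      rw [← Finset.sum_add_distrib]; exact Finset.sum_congr rfl fun j _ => by simp; ring)
    (fun c x y => by
      rw [smul_eq_mul, Finset.mul_sum]; exact Finset.sum_congr rfl fun j _ => by simp; ring)
    (fun x y y' => by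
      rw [← Finset.sum_add_distrib]; exact Finset.sum_congr rfl fun j _ => by simp; ring)
    (fun c x y => by
      rw [smul_eq_mul, Finset.mul_sum]; exact Finset.sum_congr rfl fun j _ => by simp; ring)

theorem bm_apply (w : ν → ℤ) (x y : ν ⊕ ν → ℂ) : bm w x y =
    ∑ j, (w j : ℂ) * (x (Sum.inr j) * y (Sum.inl j) + x (Sum.inl j) * y (Sum.inr j)) := rfl

omit [Fintype σ] in
theorem bf_eq (w : ν → ℤ) (v v' : (ν ⊕ σ) ⊕ ν ⊕ σ → ℂ) : bf w v v' = bm w (re v) (re v') := rfl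

omit [Fintype ν] [Fintype σ] in
theorem re_ie (x : ν ⊕ ν → ℂ) : re (ie σ x) = x := by
  ext (j | j) <;> rfl

theorem hv_lam [DecidableEq ν] (w : ν → ℤ) (v : (ν ⊕ σ) ⊕ ν ⊕ σ → ℂ) :
    hv (Matrix.fromBlocks (dg w) 0 0 0) v = ie σ (jm w (re v)) := by
  ext ((j | s) | (j | s)) <;>
    simp [hv, ie, jm, re, dg, Matrix.fromBlocks_transpose, Matrix.fromBlocks_mulVec,
      Matrix.mulVec_diagonal]

theorem om_ie {w : ν → ℤ} (hw : ∀ j, (w j : ℂ) * w j = 1) (x : ν ⊕ ν → ℂ)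
    (v : (ν ⊕ σ) ⊕ ν ⊕ σ → ℂ) : om (ie σ x) v = bm w (jm w x) (re v) := by
  rw [om, Fintype.sum_sum_type, bm_apply]
  simp only [ie, jm, re, LinearMap.coe_mk, AddHom.coe_mk, Sum.elim_inl, Sum.elim_inr,
    Function.comp_apply, Pi.zero_apply, zero_mul, sub_self, Finset.sum_const_zero, add_zero,
    Sum.map_inl, Sum.map_inr]
  refine Finset.sum_congr rfl fun j _ => ?_
  linear_combination (x (Sum.inr j) * v (Sum.inl (Sum.inl j)) -
    x (Sum.inl j) * v (Sum.inr (Sum.inl j))) * hw j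

theorem ie_om {w : ν → ℤ} (hw : ∀ j, (w j : ℂ) * w j = 1) (y : ν ⊕ ν → ℂ)
    (v : (ν ⊕ σ) ⊕ ν ⊕ σ → ℂ) : om v (ie σ y) = bm w (jm w (re v)) y := by
  rw [om, Fintype.sum_sum_type, bm_apply]
  simp only [ie, jm, re, LinearMap.coe_mk, AddHom.coe_mk, Sum.elim_inl, Sum.elim_inr,
    Function.comp_apply, Pi.zero_apply, mul_zero, sub_self, Finset.sum_const_zero, add_zero,
    Sum.map_inl, Sum.map_inr]
  refine Finset.sum_congr rfl fun j _ => ?_
  linear_combination (v (Sum.inr (Sum.inl j)) * y (Sum.inl j) -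
    v (Sum.inl (Sum.inl j)) * y (Sum.inr j)) * hw j

theorem hv_add (ξ η : Matrix σ σ ℂ) (z : σ ⊕ σ → ℂ) : hv (ξ + η) z = hv ξ z + hv η z := by
  ext (s | s) <;> simp [hv, Matrix.add_mulVec, add_comm]

theorem hv_smul (c : ℂ) (ξ : Matrix σ σ ℂ) (z : σ ⊕ σ → ℂ) : hv (c • ξ) z = c • hv ξ z := by
  ext (s | s) <;> simp [hv, Matrix.smul_mulVec]

theorem hv_zero (ξ : Matrix σ σ ℂ) : hv ξ 0 = 0 := by
  ext (s | s) <;> simp [hv]

theorem hv_sw (e : σ ≃ σ) (ξ : Matrix σ σ ℂ) (z : σ ⊕ σ → ℂ) :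
    hv ξ z ∘ Sum.map e e = hv (ξ.submatrix e e) (z ∘ Sum.map e e) := by
  ext (s | s) <;>
    simp only [hv, Function.comp_apply, Sum.map_inl, Sum.map_inr, Sum.elim_inl, Sum.elim_inr,
      Pi.neg_apply, Matrix.mulVec, dotProduct, Matrix.submatrix_apply, Matrix.transpose_apply,
      neg_inj] <;>
    exact (Equiv.sum_comp e _).symm

end FrameAux

open FrameAux in
theorem p_FRAME (hVF : S_VF) :
    S_FRAME := by
  intro ν σ _ _ _ _ S
  have hw : ∀ j, (S.w j : ℂ) * S.w j = 1 := fun j => by rcases S.w_pm j with h | h <;> simp [h]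
  obtain ⟨-, -, -, -, -, hV⟩ := hVF (ν ⊕ σ) ⟨PUnit, 0, 0⟩
  let T : Submodule ℂ (ν ⊕ ν → ℂ) :=
    { carrier := {x | ∃ ξ ∈ S.g, ie σ x = hv ξ (ext0 ν S.Y)}
      add_mem' := by
        rintro x y ⟨ξ, h1, h2⟩ ⟨η, h3, h4⟩
        exact ⟨ξ + η, add_mem h1 h3, by rw [map_add, hv_add, h2, h4]⟩
      zero_mem' := ⟨(0 : ℂ) • 0, Submodule.smul_mem _ _ (zero_mem _), by
        rw [map_zero, hv_smul, zero_smul]⟩
      smul_mem' := by
        rintro c x ⟨ξ, h1, h2⟩
        exact ⟨c • ξ, Submodule.smul_mem _ _ h1, by rw [map_smul, hv_smul, h2]⟩ }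
  have hY : hv (Matrix.fromBlocks (dg S.w) 0 0 0) (ext0 ν S.Y) = 0 := by
    have e : re (ext0 ν S.Y) = 0 := by ext (j | j) <;> rfl
    rw [hv_lam, e, map_zero, map_zero]
  have hL : ∀ ξ ∈ S.g, jm S.w (re (hv ξ (ext0 ν S.Y))) ∈ T := fun ξ hξ =>
    ⟨_, S.lie _ S.lam_mem _ hξ, by
      rw [← (hV _ ξ).2.2.2.2, hY, hv_zero, sub_zero, hv_lam]⟩
  have hJJ : ∀ x, jm S.w (jm S.w x) = x := fun x => by
    ext (j | j) <;> simp [jm, ← mul_assoc, hw]
  have hJT : ∀ x ∈ T, jm S.w x ∈ T := by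
    rintro x ⟨ξ, h1, h2⟩
    have := hL ξ h1
    rwa [← h2, re_ie] at this
  have hT : ∀ y, y ∈ T ↔ ∀ x ∈ T, bm S.w x y = 0 := fun y => by
    constructor
    · rintro ⟨η, h1, h2⟩ x hx
      obtain ⟨ξ, h3, h4⟩ := hJT x hx
      rw [← hJJ x, ← re_ie (σ := σ) y, ← om_ie hw, h2, h4, (hV ξ η).2.2.1]
      exact S.rigid.1 _ (S.lie _ h3 _ h1)
    · intro h
      exact S.rigid.2 _ fun ξ hξ => by rw [ie_om hw, h _ (hL ξ hξ)]
  obtain ⟨θ, θ', h1, h2, h3, h4, h5, h6⟩ := lag (ν := ν) (by simp) (bm S.w)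
    (fun x y => Finset.sum_congr rfl fun j _ => by ring)
    (fun x h => by
      have hw0 : ∀ j, (S.w j : ℂ) ≠ 0 := fun j => left_ne_zero_of_mul_eq_one (hw j)
      ext (j | j)
      · simpa [bm_apply, Pi.single_apply, hw0] using h (Pi.single (Sum.inr j) 1)
      · simpa [bm_apply, Pi.single_apply, hw0] using h (Pi.single (Sum.inl j) 1))
    T hT (jm S.w) hJJ hJT
  choose ξ hξ hξe using h1
  refine ⟨ξ, fun j => ie σ (θ' j), hξ, fun j v => ?_, fun i j => ?_, fun i j => ?_, fun i j => ?_,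
    fun v j => ?_, fun j => ?_, fun j => ?_⟩
  · rw [← hξe]
    cases v <;> rfl
  · rw [← hξe, ← hξe, bf_eq, re_ie, re_ie]
    exact (hT _).1 ⟨_, hξ j, hξe j⟩ _ ⟨_, hξ i, hξe i⟩
  · rw [bf_eq, re_ie, re_ie, h4]
  · rw [← hξe, bf_eq, re_ie, re_ie, h5]
  · have e : ∀ x, ie σ x (Sum.map Sum.inl Sum.inl j) = x j := fun x => congrFun (re_ie x) j
    simp only [← hξe, bf_eq, re_ie, e]
    simpa [re] using congrFun (h6 (re v)) j
  · rcases h2 j with h | h
    · exact ⟨1, one_ne_zero, fun v => by rw [← hξe, om_ie hw, bf_eq, re_ie, h, one_mul]⟩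
    · exact ⟨-1, neg_ne_zero.2 one_ne_zero, fun v => by
        rw [← hξe, om_ie hw, bf_eq, re_ie, h, map_neg, LinearMap.neg_apply, neg_one_mul]⟩
  · have e1 : ext0 ν S.Y ∘ Sum.map (Sum.map S.bar S.τ) (Sum.map S.bar S.τ) = ext0 ν S.Y := by
      ext ((k | s) | (k | s))
      · rfl
      · exact congrFun S.Y_τ (Sum.inl s)
      · rfl
      · exact congrFun S.Y_τ (Sum.inr s)
    have e2 : hv (ξ j) (ext0 ν S.Y) ∘ Sum.map (Sum.map S.bar S.τ) (Sum.map S.bar S.τ) =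
        hv ((ξ j).submatrix (Sum.map S.bar S.τ) (Sum.map S.bar S.τ)) (ext0 ν S.Y) :=
      (hv_sw (S.bar.sumCongr S.τ) _ _).trans (congrArg _ e1)
    have e3 : hv (ξ j) (ext0 ν S.Y) ∘ Sum.map (Sum.map S.bar S.τ) (Sum.map S.bar S.τ) =
        ie σ (θ j ∘ Sum.map S.bar S.bar) := by
      rw [← hξe]
      ext ((k | s) | (k | s)) <;> rfl
    have e4 : θ j ∘ Sum.map S.bar S.bar ∈ T := ⟨_, S.conj _ (hξ j), e3.symm.trans e2⟩
    rw [← h3] at e4
    have e5 := Submodule.mem_map_of_mem (f := ie σ) e4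
    rw [Submodule.map_span, ← Set.range_comp] at e5
    rw [e3]
    simpa only [Function.comp_def, hξe] using e5

end Pool.Agent.P.MP_52ab5a_al
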