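import Pool.Agent.P.MP_52ab5a_al.B.Iface

/-! Step MUP of the open orbit project. -/

namespace Pool.Agent.P.MP_52ab5a_al

open MvPolynomial WM

namespace MupAux

variable {R : Type} [CommRing R] [Algebra ℂ R] {n : ℕ}

theorem chain (D : Derivation ℂ R R) (t : Fin n → R) (p : MvPolynomial (Fin n) ℂ) :
    D (aeval t p) = ∑ j, aeval t (pderiv j p) * D (t j) := by
  induction p using MvPolynomial.induction_on with
  | C a => simp
  | add p q hp hq => simp [hp, hq, add_mul, Finset.sum_add_distrib]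
  | mul_X p i hp =>
    simp only [map_mul, aeval_X, Derivation.leibniz, hp, smul_eq_mul, map_add, add_mul,
      Finset.sum_add_distrib, pderiv_X, Pi.single_apply, apply_ite (aeval t), map_one, map_zero,
      mul_ite, ite_mul, mul_one, mul_zero, zero_mul, Finset.sum_ite_eq, Finset.mem_univ, if_true,
      Finset.mul_sum, mul_assoc]

theorem der_pow (D : Derivation ℂ R R) (m : Ideal R) (k : ℕ) : ∀ f ∈ m ^ (k + 1), D f ∈ m ^ k := by
  induction k with
  | zero => simp
  | succ k ih =>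
    intro f hf
    rw [pow_succ] at hf
    refine Submodule.mul_induction_on hf (fun a ha b hb => ?_) fun a b ha hb => ?_
    · rw [Derivation.leibniz, smul_eq_mul, smul_eq_mul]
      refine add_mem (Ideal.mul_mem_right _ _ ha) ?_
      rw [pow_succ']
      exact Ideal.mul_mem_mul hb (ih a ha)
    · rw [map_add]
      exact add_mem ha hb

theorem euler {p : MvPolynomial (Fin n) ℂ} {k : ℕ} (hp : p.IsHomogeneous (k + 1)) :
    p = ∑ i, ((k + 1 : ℕ) : ℂ)⁻¹ • (X i * pderiv i p) := by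
  rw [← Finset.smul_sum, hp.sum_X_mul_pderiv, ← Nat.cast_smul_eq_nsmul ℂ,
    inv_smul_smul₀ (Nat.cast_ne_zero.2 k.succ_ne_zero)]

theorem hom_mem {m : Ideal R} {t : Fin n → R} (ht : ∀ j, t j ∈ m) (k : ℕ) :
    ∀ p : MvPolynomial (Fin n) ℂ, p.IsHomogeneous k → aeval t p ∈ m ^ k := by
  induction k with
  | zero => simp
  | succ k ih =>
    intro p hp
    rw [euler hp, map_sum, pow_succ']
    refine sum_mem fun i _ => ?_
    rw [map_smul, map_mul, aeval_X]
    exact Submodule.smul_of_tower_mem _ _ (Ideal.mul_mem_mul (ht i) (ih _ hp.pderiv))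

theorem hom_zero {m I : Ideal R} {t : Fin n → R} (ht : ∀ j, t j ∈ m) (hm : m ≠ ⊤) (hI : I ≤ m)
    (D : Fin n → Derivation ℂ R R) (hD : ∀ i, ∀ f ∈ I, D i f ∈ I)
    (hDt : ∀ i j, D i (t j) - (if i = j then 1 else 0) ∈ m) (k : ℕ) :
    ∀ p : MvPolynomial (Fin n) ℂ, p.IsHomogeneous k → aeval t p ∈ m ^ (k + 1) ⊔ I → p = 0 := by
  induction k with
  | zero =>
    intro p hp h
    rw [zero_add, pow_one, sup_eq_left.2 hI] at h
    rw [← totalDegree_zero_iff_isHomogeneous, totalDegree_eq_zero_iff_eq_C] at hp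
    rw [hp, aeval_C] at h
    by_contra h0
    refine hm (Ideal.eq_top_of_isUnit_mem _ h (IsUnit.map _ (IsUnit.mk0 _ fun h1 => h0 ?_)))
    rw [hp, h1, C_0]
  | succ k ih =>
    intro p hp h
    have key : ∀ i, pderiv i p = 0 := fun i => ih _ hp.pderiv (by
      obtain ⟨a, ha, b, hb, e⟩ := Submodule.mem_sup.1 h
      have h1 : D i (aeval t p) ∈ m ^ (k + 1) ⊔ I := by
        rw [← e, map_add]
        exact Submodule.add_mem_sup (der_pow _ _ _ a ha) (hD i b hb)
      have h2 : D i (aeval t p) - aeval t (pderiv i p) =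
          ∑ j, aeval t (pderiv j p) * (D i (t j) - if i = j then 1 else 0) := by
        simp [chain, mul_sub, Finset.sum_sub_distrib]
      have h3 : D i (aeval t p) - aeval t (pderiv i p) ∈ m ^ (k + 1) := by
        rw [h2, pow_succ]
        exact sum_mem fun j _ => Ideal.mul_mem_mul (hom_mem ht k _ hp.pderiv) (hDt i j)
      simpa using sub_mem h1 (Submodule.mem_sup_left h3))
    rw [euler hp]
    simp [key]

theorem hom_exp {m J : Ideal R} {t : Fin n → R} (ht : ∀ j, t j ∈ m)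
    (h0 : ∀ f, ∃ c : ℂ, f - algebraMap ℂ R c ∈ m)
    (h1 : ∀ f ∈ m, ∃ q : MvPolynomial (Fin n) ℂ, q.IsHomogeneous 1 ∧ f - aeval t q ∈ m ^ 2 ⊔ J)
    (k : ℕ) : ∀ f ∈ m ^ k, ∃ p : MvPolynomial (Fin n) ℂ, p.IsHomogeneous k ∧
      f - aeval t p ∈ m ^ (k + 1) ⊔ J := by
  induction k with
  | zero =>
    intro f _
    obtain ⟨c, hc⟩ := h0 f
    exact ⟨C c, isHomogeneous_C _ c, Submodule.mem_sup_left (by simpa using hc)⟩
  | succ k ih =>
    intro f hf
    rw [pow_succ] at hf
    refine Submodule.mul_induction_on hf (fun a ha b hb => ?_) ?_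
    · obtain ⟨p, hp, e1⟩ := ih a ha
      obtain ⟨q, hq, e2⟩ := h1 b hb
      refine ⟨p * q, hp.mul hq, ?_⟩
      obtain ⟨a1, ha1, a2, ha2, e1⟩ := Submodule.mem_sup.1 e1
      obtain ⟨b1, hb1, b2, hb2, e2⟩ := Submodule.mem_sup.1 e2
      have e : a * b - aeval t (p * q) =
          (a1 * b + aeval t p * b1) + (b * a2 + aeval t p * b2) := by
        rw [map_mul]
        linear_combination -b * e1 - aeval t p * e2
      rw [e]
      refine Submodule.add_mem_sup (add_mem ?_ ?_)
        (add_mem (Ideal.mul_mem_left _ _ ha2) (Ideal.mul_mem_left _ _ hb2))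
      · rw [pow_succ]
        exact Ideal.mul_mem_mul ha1 hb
      · rw [add_assoc, pow_add]
        exact Ideal.mul_mem_mul (hom_mem ht k p hp) hb1
    · rintro a b ⟨p, hp, e1⟩ ⟨q, hq, e2⟩
      exact ⟨p + q, hp.add hq, by rw [map_add, add_sub_add_comm]; exact add_mem e1 e2⟩

theorem lin {ι : Type} (Y : ι → ℂ) {J : Ideal (MvPolynomial ι ℂ)} {t : Fin n → MvPolynomial ι ℂ}
    (c : Fin n → ι → ℂ)
    (h : ∀ v, X v - C (Y v) - ∑ j, c j v • t j ∈ RingHom.ker (eval Y) ^ 2 ⊔ J)
    (f : MvPolynomial ι ℂ) : ∃ q : MvPolynomial (Fin n) ℂ, q.IsHomogeneous 1 ∧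
      f - C (eval Y f) - aeval t q ∈ RingHom.ker (eval Y) ^ 2 ⊔ J := by
  induction f using MvPolynomial.induction_on with
  | C a => exact ⟨0, isHomogeneous_zero _ _ _, by simp⟩
  | add p q hp hq =>
    obtain ⟨a, ha, e1⟩ := hp
    obtain ⟨b, hb, e2⟩ := hq
    refine ⟨a + b, ha.add hb, ?_⟩
    convert add_mem e1 e2 using 1
    simp only [map_add]
    ring
  | mul_X p v hp =>
    obtain ⟨a, ha, e1⟩ := hp
    refine ⟨C (Y v) * a + C (eval Y p) * ∑ j, C (c j v) * X j, (ha.C_mul _).add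
      ((IsHomogeneous.sum _ _ _ fun j _ => (isHomogeneous_X _ j).C_mul _).C_mul _), ?_⟩
    have h1 : (p - C (eval Y p)) * (X v - C (Y v)) ∈ RingHom.ker (eval Y) ^ 2 := by
      rw [pow_two]
      exact Ideal.mul_mem_mul (by simp [RingHom.mem_ker]) (by simp [RingHom.mem_ker])
    convert add_mem (add_mem (Submodule.mem_sup_left h1) (Ideal.mul_mem_left _ (C (Y v)) e1))
      (Ideal.mul_mem_left _ (C (eval Y p)) (h v)) using 1
    simp only [map_add, map_mul, map_sum, aeval_C, aeval_X, eval_X, algebraMap_eq, smul_eq_C_mul]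
    ring

end MupAux

open MupAux in
theorem p_MUP (hVF : S_VF) (hLAG : S_LAG) (hEU : S_EU) :
    S_MUP := by
  classical
  intro σ _ g Y hg hY π hπ hπ0
  obtain ⟨-, -, -, -, -, hV⟩ := hVF σ ⟨PUnit, 0, 0⟩
  obtain ⟨n, ξ, t, hξ, hli, ht, hd, hl⟩ := hLAG σ g Y hg hY
  obtain ⟨hI, -⟩ := hEU σ g Y hg hY
  set m := RingHom.ker (eval Y) with hm
  set J := Ideal.span (Set.range fun j => mu (ξ j)) with hJ
  set I := Ideal.span (mu '' (g : Set (Matrix σ σ ℂ))) with hId
  have hJI : J ≤ I := Ideal.span_mono (by rintro _ ⟨j, rfl⟩; exact ⟨_, hξ j, rfl⟩)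
  have hIm : I ≤ m := Ideal.span_le.2 (by rintro _ ⟨η, h, rfl⟩; exact hY.1 η h)
  have hA := hom_exp (m := m) (J := J) (t := t) ht
    (fun f => ⟨eval Y f, by simp [hm, RingHom.mem_ker]⟩) fun f hf => by
      have := lin Y (fun j => hv (ξ j) Y) hl f
      rwa [RingHom.mem_ker.1 hf, C_0, sub_zero] at this
  have hB := hom_zero (m := m) (I := I) (t := t) ht (RingHom.ker_ne_top _) hIm (fun i => der (ξ i))
    (fun i => hI _ (hξ i)) fun i j => by
      rw [hm, RingHom.mem_ker, map_sub, hd]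
      split_ifs <;> simp
  have hC : ∀ k, I ≤ m ^ k ⊔ J := by
    intro k
    induction k with
    | zero => simp
    | succ k ih =>
      intro f hf
      obtain ⟨a, ha, b, hb, rfl⟩ := Submodule.mem_sup.1 (ih hf)
      obtain ⟨p, hp, e⟩ := hA k a ha
      have h1 : a ∈ I := by simpa using sub_mem hf (hJI hb)
      have h2 : p = 0 := hB k p hp (by
        simpa using sub_mem (Submodule.mem_sup_right h1) (sup_le_sup_left hJI _ e))
      rw [h2, map_zero, sub_zero] at e
      exact add_mem e (Submodule.mem_sup_right hb)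
  obtain ⟨r, hr⟩ := (Ideal.mem_iInf_smul_pow_eq_bot_iff m (J.mkQ (mu π))).1
    (Submodule.mem_iInf _ |>.2 fun k => by
      obtain ⟨a, ha, b, hb, e⟩ := Submodule.mem_sup.1 (hC k (Ideal.subset_span ⟨π, hπ, rfl⟩))
      have e1 : J.mkQ (mu π) = a • J.mkQ 1 := by
        rw [← e, map_add, ← map_smul, smul_eq_mul, mul_one,
          show J.mkQ b = 0 from (Submodule.Quotient.mk_eq_zero _).2 hb, add_zero]
      rw [e1]
      exact Submodule.smul_mem_smul ha trivial)
  have h1 : (1 - r) * mu π ∈ J := by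
    rw [← map_smul] at hr
    rw [sub_mul, one_mul]
    exact (Submodule.Quotient.eq _).1 hr.symm
  obtain ⟨a, ha⟩ := Ideal.mem_span_range_iff_exists_fun.1 h1
  refine ⟨n, ξ, 1 - r, a, hξ, by rw [map_sub, map_one, RingHom.mem_ker.1 r.2, sub_zero], ?_, ha.symm⟩
  have h2 : ∀ v, ∑ j, eval Y (a j) * om (hv (ξ j) Y) v = 0 := fun v => by
    have e1 : ∀ f, ∀ η ∈ g, ∑ u, v u * eval Y (pderiv u (f * mu η)) = eval Y f * om (hv η Y) v :=
      fun f η hη => by
        rw [← (hV η η).2.2.2.1, Finset.mul_sum]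
        refine Finset.sum_congr rfl fun u _ => ?_
        simp only [Derivation.leibniz, smul_eq_mul, map_add, map_mul, hY.1 η hη]
        ring
    have e2 := e1 (1 - r) π hπ
    rw [← ha, hπ0] at e2
    simp only [map_sum, Finset.mul_sum] at e2
    rw [Finset.sum_comm] at e2
    simp only [fun j => e1 (a j) _ (hξ j)] at e2
    rw [e2]
    simp [om]
  refine Fintype.linearIndependent_iff.1 hli (fun j => eval Y (a j)) (funext fun u => ?_)
  rcases u with s | s
  · simpa [om, Pi.single_apply] using h2 (Pi.single (Sum.inr s) 1)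
  · simpa [om, Pi.single_apply] using h2 (Pi.single (Sum.inl s) 1)

end Pool.Agent.P.MP_52ab5a_al
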